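import Pool.Agent.helper261_navas.EvDef

set_option autoImplicit false

namespace Pool.Agent.helper261_navas

open Classical

noncomputable section

/-! # Aux1: powers of the explicit letters, the zone shift (proved) -/

theorem caut_zpow_apply (f : CAut) (F : ℤ → M → M) (h1 : ∀ a, f.1 a = F 1 a) (h2 : ∀ a, (f⁻¹).1 a = F (-1) a)
    (h0 : ∀ a, F 0 a = a) (hadd : ∀ j k a, F (j + k) a = F j (F k a)) (k : ℤ) : ∀ a, (f ^ k).1 a = F k a := by
  induction k using Int.induction_on with
  | zero => intro a; rw [zpow_zero, h0]; rfl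
  | succ i ih =>
    intro a
    rw [zpow_add_one, hadd]
    change (f ^ (i : ℤ)).1 (f.1 a) = _
    rw [ih, h1]
  | pred i ih =>
    intro a
    rw [zpow_sub_one, sub_eq_add_neg, hadd]
    change (f ^ (-(i : ℤ))).1 ((f⁻¹).1 a) = _
    rw [ih, h2]

theorem sgM_zpow (k : ℤ) (a : M) : (sgM ^ k).1 a = sgFun k a := by
  refine caut_zpow_apply sgM sgFun (fun a => rfl) (fun a => rfl) ?_ ?_ k a
  · intro a; simp [sgFun]
  · intro j k a; simp only [sgFun]; ext <;> simp; ring

theorem btM_zpow (k : ℤ) (a : M) : (btM ^ k).1 a = btFun k a := by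
  refine caut_zpow_apply btM btFun (fun a => rfl) (fun a => rfl) ?_ ?_ k a
  · intro a; simp [btFun]
  · intro j k a; simp only [btFun]; ext <;> simp
    split_ifs
    · ring
    · rfl

theorem Zsh_apply (m' l' : ℤ) (a : M) : (Zsh m' l').1 a = sgFun m' (btFun l' a) := by
  unfold Zsh
  change (sgM ^ m').1 ((btM ^ l').1 a) = _
  rw [btM_zpow, sgM_zpow]

theorem Zsh_inv_apply (m' l' : ℤ) (a : M) : ((Zsh m' l')⁻¹).1 a = btFun (-l') (sgFun (-m') a) := by
  unfold Zsh
  rw [mul_inv_rev, ← zpow_neg, ← zpow_neg]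
  change (btM ^ (-l')).1 ((sgM ^ (-m')).1 a) = _
  rw [btM_zpow, sgM_zpow]

theorem sgn_mul_self (e : ℤ) : ((sgn e : ℤˣ) : ℤ) * (sgn e : ℤ) = 1 := by
  rcases Int.units_eq_one_or (sgn e) with h | h <;> rw [h] <;> simp

/-- coordinates of the top after shifting back to the central zone -/
theorem top_Zsh_inv (x : X) : top (lift (Zsh (stdm x) (stdl x))⁻¹ x) = ⟨(top x).e, 0, 0, (top x).i, (top x).q⟩ := by
  rw [top_lift, Zsh_inv_apply]
  have h := sgn_mul_self (top x).e
  have hm : (top x).m + -stdm x * sgn (top x).e = 0 := by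
    unfold stdm site; linear_combination (-(top x).m) * h
  have hl : (top x).l + -stdl x * sgn (top x).e = 0 := by
    unfold stdl site; linear_combination (-(top x).l) * h
  simp only [sgFun, btFun, hm, hl, if_true]

/-- shifting a central stack to the zone `(m', l')` -/
theorem top_Zsh (m' l' : ℤ) (x : X) (h : InU x) :
    top (lift (Zsh m' l') x) = ⟨(top x).e, m' * sgn (site x), l' * sgn (site x), (top x).i, (top x).q⟩ := by
  rw [top_lift, Zsh_apply]
  obtain ⟨hm, hl⟩ := h
  simp only [sgFun, btFun, hm, hl, if_true, zero_add, site]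

theorem InU_Zsh_inv (x : X) : InU (lift (Zsh (stdm x) (stdl x))⁻¹ x) := by
  unfold InU; rw [top_Zsh_inv]; exact ⟨rfl, rfl⟩

theorem site_Zsh_inv (x : X) : site (lift (Zsh (stdm x) (stdl x))⁻¹ x) = site x := by
  unfold site; rw [top_Zsh_inv]

theorem site_Zsh (m' l' : ℤ) (x : X) (h : InU x) : site (lift (Zsh m' l') x) = site x := by
  have := top_Zsh m' l' x h
  unfold site; rw [this]

theorem stdm_Zsh (m' l' : ℤ) (x : X) (h : InU x) : stdm (lift (Zsh m' l') x) = m' := by
  have h1 := sgn_mul_self (site x)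
  unfold stdm; rw [site_Zsh m' l' x h, top_Zsh m' l' x h]
  simp only
  linear_combination m' * h1

theorem stdl_Zsh (m' l' : ℤ) (x : X) (h : InU x) : stdl (lift (Zsh m' l') x) = l' := by
  have h1 := sgn_mul_self (site x)
  unfold stdl; rw [site_Zsh m' l' x h, top_Zsh m' l' x h]
  simp only
  linear_combination l' * h1

theorem lift_inv_apply_lift (f : CAut) (x : X) : lift f⁻¹ (lift f x) = x := by
  rw [map_inv]; exact (lift f).symm_apply_apply x

theorem lift_apply_lift_inv (f : CAut) (x : X) : lift f (lift f⁻¹ x) = x := by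
  rw [map_inv]; exact (lift f).apply_symm_apply x

end

end Pool.Agent.helper261_navas
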