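import Pool.Agent.helper261_navas.Defs2

set_option autoImplicit false

namespace Pool.Agent.helper261_navas

open Classical

noncomputable section

/-! # C: coloured Cantor theorem -/

namespace C



section

variable {A B : Type} [LinearOrder A] [LinearOrder B]

/-- between two finite sets there is a point of a given colour -/
theorem between {c : A → Color} (h : CD A c) (γ : Color) (lo hi : Finset A)
    (hlt : ∀ x ∈ lo, ∀ y ∈ hi, x < y) : ∃ m, c m = γ ∧ (∀ x ∈ lo, x < m) ∧ ∀ y ∈ hi, m < y := by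
  by_cases nlo : lo.Nonempty
  · by_cases nhi : hi.Nonempty
    · obtain ⟨m, h1, h2, h3⟩ := h.dense _ _ (hlt _ (Finset.max'_mem _ nlo) _ (Finset.min'_mem _ nhi)) γ
      exact ⟨m, h3, fun x hx => lt_of_le_of_lt (Finset.le_max' lo x hx) h1,
        fun y hy => lt_of_lt_of_le h2 (Finset.min'_le hi y hy)⟩
    · obtain ⟨m, h1, h3⟩ := h.right (Finset.max' lo nlo) γ
      exact ⟨m, h3, fun x hx => lt_of_le_of_lt (Finset.le_max' lo x hx) h1, fun y hy => (nhi ⟨y, hy⟩).elim⟩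
  · by_cases nhi : hi.Nonempty
    · obtain ⟨m, h1, h3⟩ := h.left (Finset.min' hi nhi) γ
      exact ⟨m, h3, fun x hx => (nlo ⟨x, hx⟩).elim, fun y hy => lt_of_lt_of_le h1 (Finset.min'_le hi y hy)⟩
    · obtain ⟨a⟩ := h.nonempty
      obtain ⟨m, _, h3⟩ := h.right a γ
      exact ⟨m, h3, fun x hx => (nlo ⟨x, hx⟩).elim, fun y hy => (nhi ⟨y, hy⟩).elim⟩

/-- finite isomorphisms preserving colours -/
def PI (cA : A → Color) (cB : B → Color) : Type :=
  { f : Finset (A × B) // (∀ p ∈ f, ∀ q ∈ f, cmp p.1 q.1 = cmp p.2 q.2) ∧ ∀ p ∈ f, cB p.2 = cA p.1 }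

instance (cA : A → Color) (cB : B → Color) : Preorder (PI cA cB) :=
  inferInstanceAs (Preorder { f : Finset (A × B) // (∀ p ∈ f, ∀ q ∈ f, cmp p.1 q.1 = cmp p.2 q.2) ∧
    ∀ p ∈ f, cB p.2 = cA p.1 })

theorem PI.le_iff {cA : A → Color} {cB : B → Color} (f g : PI cA cB) : f ≤ g ↔ f.1 ⊆ g.1 := Iff.rfl

/-- the empty isomorphism -/
def PI.nil (cA : A → Color) (cB : B → Color) : PI cA cB :=
  ⟨∅, fun _ h => (Finset.notMem_empty _ h).elim, fun _ h => (Finset.notMem_empty _ h).elim⟩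

theorem across {cA : A → Color} {cB : B → Color} (hB : CD B cB) (f : PI cA cB) (a : A) :
    ∃ b : B, cB b = cA a ∧ ∀ p ∈ f.val, cmp (Prod.fst p) a = cmp (Prod.snd p) b := by
  by_cases h : ∃ b, (a, b) ∈ f.val
  · obtain ⟨b, hb⟩ := h
    exact ⟨b, f.prop.2 _ hb, fun p hp => f.prop.1 _ hp _ hb⟩
  have key :
    ∀ x ∈ {p ∈ f.val | p.fst < a}.image Prod.snd,
      ∀ y ∈ {p ∈ f.val | a < p.fst}.image Prod.snd, x < y := by
    intro x hx y hy
    rw [Finset.mem_image] at hx hy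
    rcases hx with ⟨p, hp1, rfl⟩
    rcases hy with ⟨q, hq1, rfl⟩
    rw [Finset.mem_filter] at hp1 hq1
    rw [← lt_iff_lt_of_cmp_eq_cmp (f.prop.1 _ hp1.1 _ hq1.1)]
    exact lt_trans hp1.right hq1.right
  obtain ⟨b, hc, hb⟩ := between hB (cA a) _ _ key
  refine ⟨b, hc, ?_⟩
  rintro ⟨p1, p2⟩ hp
  have hne : p1 ≠ a := fun he => h ⟨p2, he ▸ hp⟩
  rcases lt_or_gt_of_ne hne with hl | hr
  · have h2 : p1 < a ∧ p2 < b :=
      ⟨hl, hb.1 _ (Finset.mem_image.mpr ⟨(p1, p2), Finset.mem_filter.mpr ⟨hp, hl⟩, rfl⟩)⟩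
    rw [← cmp_eq_lt_iff, ← cmp_eq_lt_iff] at h2
    exact h2.1.trans h2.2.symm
  · have h2 : a < p1 ∧ b < p2 :=
      ⟨hr, hb.2 _ (Finset.mem_image.mpr ⟨(p1, p2), Finset.mem_filter.mpr ⟨hp, hr⟩, rfl⟩)⟩
    rw [← cmp_eq_gt_iff, ← cmp_eq_gt_iff] at h2
    exact h2.1.trans h2.2.symm

/-- extend a finite isomorphism to the left -/
theorem extL {cA : A → Color} {cB : B → Color} (hB : CD B cB) (f : PI cA cB) (a : A) :
    ∃ g : PI cA cB, f ≤ g ∧ ∃ b, (a, b) ∈ g.1 := by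
  obtain ⟨b, hc, a_b⟩ := across hB f a
  refine ⟨⟨insert (a, b) f.val, fun p hp q hq => ?_, fun p hp => ?_⟩, Finset.subset_insert _ _, b,
    Finset.mem_insert_self _ _⟩
  · rw [Finset.mem_insert] at hp hq
    rcases hp with (rfl | pf) <;> rcases hq with (rfl | qf)
    · simp only [cmp_self_eq_eq]
    · rw [cmp_eq_cmp_symm]
      exact a_b _ qf
    · exact a_b _ pf
    · exact f.prop.1 _ pf _ qf
  · rw [Finset.mem_insert] at hp
    rcases hp with (rfl | pf)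
    · exact hc
    · exact f.prop.2 _ pf

/-- swap -/
def sw {cA : A → Color} {cB : B → Color} (f : PI cA cB) : PI cB cA :=
  ⟨f.1.image Prod.swap, by
    intro p hp q hq
    rw [Finset.mem_image] at hp hq
    obtain ⟨p', hp', rfl⟩ := hp
    obtain ⟨q', hq', rfl⟩ := hq
    exact (f.prop.1 _ hp' _ hq').symm, by
    intro p hp
    rw [Finset.mem_image] at hp
    obtain ⟨p', hp', rfl⟩ := hp
    exact (f.prop.2 _ hp').symm⟩

theorem mem_sw {cA : A → Color} {cB : B → Color} (f : PI cA cB) (a : A) (b : B) :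
    (b, a) ∈ (sw f).1 ↔ (a, b) ∈ f.1 := by
  unfold sw
  simp only [Finset.mem_image, Prod.exists, Prod.swap_prod_mk, Prod.mk.injEq]
  constructor
  · rintro ⟨x, y, h, rfl, rfl⟩; exact h
  · intro h; exact ⟨a, b, h, rfl, rfl⟩

theorem extR {cA : A → Color} {cB : B → Color} (hA : CD A cA) (f : PI cA cB) (b : B) :
    ∃ g : PI cA cB, f ≤ g ∧ ∃ a, (a, b) ∈ g.1 := by
  obtain ⟨g, hg, a, ha⟩ := extL hA (sw f) b
  refine ⟨sw g, ?_, a, (mem_sw g _ _).2 ha⟩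
  rintro ⟨x, y⟩ hxy
  rw [mem_sw]
  exact hg ((mem_sw f _ _).2 hxy)

/-- the cofinal families -/
def coL {cA : A → Color} {cB : B → Color} (hB : CD B cB) (a : A) : Order.Cofinal (PI cA cB) where
  carrier := {f | ∃ b : B, (a, b) ∈ f.val}
  isCofinal f := by
    obtain ⟨g, h1, h2⟩ := extL hB f a
    exact ⟨g, h2, h1⟩

def coR {cA : A → Color} {cB : B → Color} (hA : CD A cA) (b : B) : Order.Cofinal (PI cA cB) where
  carrier := {f | ∃ a : A, (a, b) ∈ f.val}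
  isCofinal f := by
    obtain ⟨g, h1, h2⟩ := extR hA f b
    exact ⟨g, h2, h1⟩

theorem cantor' (cA : A → Color) (cB : B → Color)
    (hA : CD A cA) (hB : CD B cB) : ∃ f : A ≃o B, ∀ a, cB (f a) = cA a := by
  have := hA.countable
  have := hB.countable
  cases nonempty_encodable A
  cases nonempty_encodable B
  let to_cofinal : A ⊕ B → Order.Cofinal (PI cA cB) := fun p => Sum.recOn p (coL hB) (coR hA)
  let I : Order.Ideal (PI cA cB) := Order.idealOfCofinals (PI.nil cA cB) to_cofinal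
  have hF : ∀ a : A, ∃ b : B, ∃ f ∈ I, (a, b) ∈ f.1 := by
    intro a
    obtain ⟨f, ⟨b, hb⟩, hf⟩ := Order.cofinal_meets_idealOfCofinals (PI.nil cA cB) to_cofinal (Sum.inl a)
    exact ⟨b, f, hf, hb⟩
  have hG : ∀ b : B, ∃ a : A, ∃ f ∈ I, (a, b) ∈ f.1 := by
    intro b
    obtain ⟨f, ⟨a, ha⟩, hf⟩ := Order.cofinal_meets_idealOfCofinals (PI.nil cA cB) to_cofinal (Sum.inr b)
    exact ⟨a, f, hf, ha⟩
  choose F hF using hF
  choose G hG using hG
  refine ⟨OrderIso.ofCmpEqCmp F G fun a b => ?_, fun a => ?_⟩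
  · obtain ⟨f, hf, ha⟩ := hF a
    obtain ⟨g, hg, hb⟩ := hG b
    obtain ⟨m, _, fm, gm⟩ := I.directed _ hf _ hg
    exact m.prop.1 (a, _) (fm ha) (_, b) (gm hb)
  · obtain ⟨f, hf, ha⟩ := hF a
    exact f.prop.2 _ ha

end

theorem colN_surj (γ : Color) : ∃ n, colN n = γ := by
  rcases γ with _ | ⟨k, b⟩
  · exact ⟨0, rfl⟩
  · cases b
    · refine ⟨2 * k + 1, ?_⟩
      simp only [colN, Option.some.injEq, Prod.mk.injEq, decide_eq_false_iff_not]
      omega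
    · refine ⟨2 * k + 1 + 1, ?_⟩
      simp only [colN, Option.some.injEq, Prod.mk.injEq, decide_eq_true_eq]
      omega

theorem val_dense (a b : ℚ) (h : a < b) (n : ℕ) : ∃ q, a < q ∧ q < b ∧ padicValRat 2 q = -(n : ℤ) := by
  have hd : 0 < b - a := sub_pos.2 h
  obtain ⟨K, hK⟩ := pow_unbounded_of_one_lt (2 / (b - a)) (by norm_num : (1 : ℚ) < 3)
  have hK2 : 2 < (b - a) * 3 ^ K := by
    rw [div_lt_iff₀ hd] at hK
    linarith [mul_comm (b - a) ((3 : ℚ) ^ K)]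
  set D : ℚ := 2 ^ n * 3 ^ K with hD
  have h2n : (1 : ℚ) ≤ 2 ^ n := one_le_pow₀ (by norm_num)
  have hDpos : 0 < D := by positivity
  have hDb : 2 < (b - a) * D := by
    have : (b - a) * 3 ^ K ≤ (b - a) * D := by
      rw [hD]
      have h3 : (0 : ℚ) < (b - a) * 3 ^ K := by positivity
      nlinarith
    linarith
  obtain ⟨p, hp1, hp2, hp3⟩ : ∃ p : ℤ, a * D < p ∧ (p : ℚ) < b * D ∧ p % 2 = 1 := by
    have f1 := Int.lt_floor_add_one (a * D)
    have f2 := Int.floor_le (a * D)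
    rcases Int.emod_two_eq_zero_or_one ⌊a * D⌋ with h0 | h1
    · refine ⟨⌊a * D⌋ + 1, ?_, ?_, by omega⟩
      · push_cast; exact f1
      · push_cast; nlinarith
    · refine ⟨⌊a * D⌋ + 2, ?_, ?_, by omega⟩
      · push_cast; linarith
      · push_cast; nlinarith
  refine ⟨p / D, ?_, ?_, ?_⟩
  · rw [lt_div_iff₀ hDpos]; exact hp1
  · rw [div_lt_iff₀ hDpos]; exact hp2
  · have hp0 : (p : ℚ) ≠ 0 := by
      intro h0
      have : p = 0 := by exact_mod_cast h0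
      omega
    have : Fact (Nat.Prime 2) := ⟨Nat.prime_two⟩
    rw [padicValRat.div hp0 hDpos.ne', hD, padicValRat.mul (by positivity) (by positivity),
      padicValRat.pow (2 : ℚ), padicValRat.pow (3 : ℚ)]
    have e1 : padicValRat 2 (p : ℚ) = 0 := by
      rw [padicValRat.of_int]
      have : padicValInt 2 p = 0 := by
        apply padicValInt.eq_zero_of_not_dvd
        intro hdvd
        have : (2 : ℤ) ∣ p := hdvd
        omega
      rw [this]; rfl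
    have e2 : padicValRat 2 (2 : ℚ) = 1 := by
      have := padicValRat.self (p := 2) (by norm_num)
      exact_mod_cast this
    have e3 : padicValRat 2 (3 : ℚ) = 0 := by
      have h3 : ((3 : ℤ) : ℚ) = 3 := by norm_num
      rw [← h3, padicValRat.of_int]
      have : padicValInt 2 3 = 0 := by
        apply padicValInt.eq_zero_of_not_dvd
        decide
      rw [this]; rfl
    rw [e1, e2, e3]; ring

theorem M_dense (a b : M) (h : a < b) (γ : Color) : ∃ x : M, a < x ∧ x < b ∧ col x = γ := by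
  obtain ⟨n, hn⟩ := colN_surj γ
  have hq : ∀ s t : ℚ, s < t → ∃ q, s < q ∧ q < t ∧ colQ q = γ := by
    intro s t hst
    obtain ⟨q, h1, h2, h3⟩ := val_dense s t hst n
    refine ⟨q, h1, h2, ?_⟩
    unfold colQ
    rw [h3, neg_neg, Int.toNat_natCast, hn]
  by_cases hb : a.e = b.e ∧ a.m = b.m ∧ a.l = b.l ∧ a.i = b.i
  · obtain ⟨h1, h2, h3, h4⟩ := hb
    rw [M.lt_iff] at h
    have h5 : a.q < b.q := by
      rcases h with h | ⟨_, h | ⟨_, h | ⟨_, h | ⟨_, h⟩⟩⟩⟩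
      · exact absurd h1 h.ne
      · exact absurd h2 h.ne
      · exact absurd h3 h.ne
      · exact absurd h4 h.ne
      · exact h
    obtain ⟨q, q1, q2, q3⟩ := hq _ _ h5
    refine ⟨⟨a.e, a.m, a.l, a.i, q⟩, ?_, ?_, q3⟩
    · rw [M.lt_iff]
      exact Or.inr ⟨rfl, Or.inr ⟨rfl, Or.inr ⟨rfl, Or.inr ⟨rfl, q1⟩⟩⟩⟩
    · rw [M.lt_iff]
      exact Or.inr ⟨h1, Or.inr ⟨h2, Or.inr ⟨h3, Or.inr ⟨h4, q2⟩⟩⟩⟩
  · obtain ⟨q, q1, _, q3⟩ := hq a.q (a.q + 1) (by linarith)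
    refine ⟨⟨a.e, a.m, a.l, a.i, q⟩, ?_, ?_, q3⟩
    · rw [M.lt_iff]
      exact Or.inr ⟨rfl, Or.inr ⟨rfl, Or.inr ⟨rfl, Or.inr ⟨rfl, q1⟩⟩⟩⟩
    · rw [M.lt_iff] at h ⊢
      rcases h with h | ⟨h1, h | ⟨h2, h | ⟨h3, h | ⟨h4, h⟩⟩⟩⟩
      · exact Or.inl h
      · exact Or.inr ⟨h1, Or.inl h⟩
      · exact Or.inr ⟨h1, Or.inr ⟨h2, Or.inl h⟩⟩
      · exact Or.inr ⟨h1, Or.inr ⟨h2, Or.inr ⟨h3, Or.inl h⟩⟩⟩
      · exact absurd ⟨h1, h2, h3, h4⟩ hb

theorem M_countable : Countable M := by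
  have hinj : Function.Injective (fun a : M => (a.e, a.m, a.l, a.i, a.q)) := by
    intro a b h
    simp only [Prod.mk.injEq] at h
    obtain ⟨h1, h2, h3, h4, h5⟩ := h
    exact M.ext h1 h2 h3 h4 h5
  exact hinj.countable

end C

theorem cantor (A B : Type) [LinearOrder A] [LinearOrder B] (cA : A → Color) (cB : B → Color)
    (hA : CD A cA) (hB : CD B cB) : ∃ f : A ≃o B, ∀ a, cB (f a) = cA a :=
  C.cantor' cA cB hA hB

theorem colQ_dense (a b : ℚ) (h : a < b) (γ : Color) : ∃ q, a < q ∧ q < b ∧ colQ q = γ := by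
  obtain ⟨n, hn⟩ := C.colN_surj γ
  obtain ⟨q, h1, h2, h3⟩ := C.val_dense a b h n
  refine ⟨q, h1, h2, ?_⟩
  unfold colQ
  rw [h3, neg_neg, Int.toNat_natCast, hn]

/-- convex subsets of `M` without endpoints -/
theorem CD_of_convex (S : Set M) (hne : S.Nonempty) (hc : S.OrdConnected)
    (hmin : ∀ a ∈ S, ∃ b ∈ S, b < a) (hmax : ∀ a ∈ S, ∃ b ∈ S, a < b) : CD S (fun a => col a.1) := by
  have hd : ∀ a b : S, a < b → ∀ γ, ∃ x : S, a < x ∧ x < b ∧ col x.1 = γ := by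
    intro a b hab γ
    obtain ⟨x, h1, h2, h3⟩ := C.M_dense a.1 b.1 hab γ
    exact ⟨⟨x, hc.out a.2 b.2 ⟨h1.le, h2.le⟩⟩, h1, h2, h3⟩
  have := C.M_countable
  refine ⟨inferInstance, hne.to_subtype, hd, ?_, ?_⟩
  · intro b γ
    obtain ⟨a, ha, hab⟩ := hmin b.1 b.2
    obtain ⟨x, _, h2, h3⟩ := hd ⟨a, ha⟩ b hab γ
    exact ⟨x, h2, h3⟩
  · intro a γ
    obtain ⟨b, hb, hab⟩ := hmax a.1 a.2
    obtain ⟨x, h1, _, h3⟩ := hd a ⟨b, hb⟩ hab γ
    exact ⟨x, h1, h3⟩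

end

end Pool.Agent.helper261_navas
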