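import Pool.Agent.helper261_navas.Defs2
import Pool.Agent.helper261_navas.PrC

set_option autoImplicit false

namespace Pool.Agent.helper261_navas

open Classical

noncomputable section

namespace O

/-! # O: the letter om -/

theorem neg_one_ne_one : ((-1 : ℤˣ) = 1) = False := by
  simp only [eq_iff_iff, iff_false]; decide

theorem eps_cases (g : Iso2) : g.ε = 1 ∨ g.ε = -1 := Int.units_eq_one_or g.ε

theorem rightHalf_smul_neg (g : Iso2) (hg : g.ε = -1) (a : M) :
    RightHalf (g • a) ↔ ¬ RightHalf a := by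
  unfold RightHalf
  rw [smul_m, smul_l, smul_i, hg]
  simp only [neg_one_ne_one, if_false, Units.val_neg, Units.val_one]
  omega

theorem rightHalf_smul_pos (g : Iso2) (hg : g.ε = 1) (a : M) :
    RightHalf (g • a) ↔ RightHalf a := by
  unfold RightHalf
  rw [smul_m, smul_l, smul_i, hg]
  simp

theorem otile_smul_pos (g : Iso2) (hg : g.ε = 1) (a : M) : otile (g • a) = otile a + g.t := by
  unfold otile
  have h := rightHalf_smul_pos g hg a
  by_cases h1 : RightHalf a
  · rw [if_pos h1, if_pos (h.2 h1), smul_e, hg]; simp; ring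
  · rw [if_neg h1, if_neg (fun h2 => h1 (h.1 h2)), smul_e, hg]; simp

theorem otile_smul_neg (g : Iso2) (hg : g.ε = -1) (a : M) :
    otile (g • a) = g.t + 1 - otile a := by
  unfold otile
  have h := rightHalf_smul_neg g hg a
  by_cases h1 : RightHalf a
  · rw [if_pos h1, if_neg (fun h2 => (h.1 h2) h1), smul_e, hg]; simp; ring
  · rw [if_neg h1, if_pos (h.2 h1), smul_e, hg]; simp; ring

theorem otile_mono {a b : M} (h : a < b) : otile a ≤ otile b := by
  rw [M.lt_iff] at h
  unfold otile RightHalf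
  split_ifs <;> omega

theorem lt_of_otile {a b : M} (h : otile a < otile b) : a < b := by
  rcases lt_trichotomy a b with h1 | h1 | h1
  · exact h1
  · subst h1; exact absurd h (lt_irrefl _)
  · exact absurd (otile_mono h1) (not_le.2 h)

theorem otile_e (a : M) : otile a = a.e ∨ otile a = a.e + 1 := by
  unfold otile
  split_ifs
  · exact Or.inr rfl
  · exact Or.inl rfl

/-- the standard isometry onto the O-tile `o` -/
def gt (o : ℤ) : Iso2 := if Even o then ⟨1, o⟩ else ⟨-1, o - 1⟩

theorem gt_even {o : ℤ} (h : Even o) : gt o = ⟨1, o⟩ := if_pos h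
theorem gt_odd {o : ℤ} (h : ¬ Even o) : gt o = ⟨-1, o - 1⟩ := if_neg h

theorem gt_t_even (o : ℤ) : Even (gt o).t := by
  by_cases h : Even o
  · rw [gt_even h]; exact h
  · rw [gt_odd h]
    rw [Int.not_even_iff_odd] at h
    exact h.sub_odd odd_one

theorem otile_gt (o : ℤ) (a : M) (h : otile a = 0) : otile (gt o • a) = o := by
  by_cases ho : Even o
  · rw [gt_even ho, otile_smul_pos _ rfl, h]; simp
  · rw [gt_odd ho, otile_smul_neg _ rfl, h]; simp

theorem otile_gt_inv (a : M) : otile ((gt (otile a))⁻¹ • a) = 0 := by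
  by_cases ho : Even (otile a)
  · rw [otile_smul_pos _ (by rw [Iso2.inv_ε, gt_even ho]), Iso2.inv_t, gt_even ho]; simp
  · rw [otile_smul_neg _ (by rw [Iso2.inv_ε, gt_odd ho]), Iso2.inv_t, gt_odd ho]; simp

theorem smul_lt_pos' (g : Iso2) (hg : g.ε = 1) {x y : M} (h : x < y) : g • x < g • y := by
  rw [M.lt_iff] at h ⊢
  rw [smul_e, smul_e, smul_m, smul_m, smul_l, smul_l, smul_i, smul_i, smul_q, smul_q, hg]
  simp only [if_true, Units.val_one, one_mul, add_lt_add_iff_right, add_left_inj]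
  exact h

theorem smul_lt_neg' (g : Iso2) (hg : g.ε = -1) {x y : M} (h : x < y) : g • y < g • x := by
  rw [M.lt_iff] at h ⊢
  rw [smul_e, smul_e, smul_m, smul_m, smul_l, smul_l, smul_i, smul_i, smul_q, smul_q, hg]
  simp only [neg_one_ne_one, if_false, Units.val_neg, Units.val_one, neg_mul, one_mul, neg_lt_neg_iff]
  rcases h with h | ⟨h, h2⟩
  · left; omega
  · right
    refine ⟨by omega, ?_⟩
    rcases h2 with h2 | ⟨h2, h3⟩
    · left; omega
    · right
      refine ⟨by omega, ?_⟩
      rcases h3 with h3 | ⟨h3, h4⟩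
      · left; omega
      · right
        refine ⟨by omega, ?_⟩
        rcases h4 with h4 | ⟨h4, h5⟩
        · left; omega
        · right
          exact ⟨by omega, h5⟩

/-- the O-tile 0 -/
def T0 : Set M := {a | otile a = 0}

theorem smul_one_lt (N N' : ℤ) (x : M) : (⟨1, N⟩ : Iso2) • ((⟨1, N'⟩ : Iso2) • x) = (⟨1, N + N'⟩ : Iso2) • x := by
  rw [← mul_smul]
  congr 1
  refine Iso2.ext ?_ ?_
  · rw [Iso2.mul_ε]; rfl
  · rw [Iso2.mul_t]; simp

theorem CD_T0 : CD T0 (fun a => col a.1) := by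
  apply CD_of_convex
  · exact ⟨⟨0, 0, 0, -1, 0⟩, by
      show otile _ = 0
      unfold otile RightHalf
      simp⟩
  · refine ⟨fun a ha b hb c hc => ?_⟩
    have h1 : otile a ≤ otile c := by
      rcases hc.1.lt_or_eq with h | h
      · exact otile_mono h
      · rw [h]
    have h2 : otile c ≤ otile b := by
      rcases hc.2.lt_or_eq with h | h
      · exact otile_mono h
      · rw [h]
    have h3 : otile a = 0 := ha
    have h4 : otile b = 0 := hb
    show otile c = 0
    omega
  · intro a ha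
    refine ⟨⟨a.e, a.m, a.l, a.i, a.q - 1⟩, ?_, ?_⟩
    · exact ha
    · rw [M.lt_iff]; simp
  · intro a ha
    refine ⟨⟨a.e, a.m, a.l, a.i, a.q + 1⟩, ?_, ?_⟩
    · exact ha
    · rw [M.lt_iff]; simp

theorem CD_univ : CD (Set.univ : Set M) (fun a => col a.1) := by
  apply CD_of_convex
  · exact ⟨⟨0, 0, 0, -1, 0⟩, trivial⟩
  · exact Set.ordConnected_univ
  · intro a _
    refine ⟨⟨a.e, a.m, a.l, a.i, a.q - 1⟩, trivial, ?_⟩
    rw [M.lt_iff]; simp
  · intro a _
    refine ⟨⟨a.e, a.m, a.l, a.i, a.q + 1⟩, trivial, ?_⟩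
    rw [M.lt_iff]; simp

theorem exists_theta : ∃ f : T0 ≃o M, ∀ a, col (f a) = col a.1 := by
  obtain ⟨f, hf⟩ := cantor T0 (Set.univ : Set M) _ _ CD_T0 CD_univ
  exact ⟨f.trans OrderIso.Set.univ, fun a => hf a⟩

def theta : T0 ≃o M := exists_theta.choose
theorem theta_col (a : T0) : col (theta a) = col a.1 := exists_theta.choose_spec a

theorem theta_symm_col (a : M) : col (theta.symm a).1 = col a := by
  have h := theta_col (theta.symm a)
  rw [OrderIso.apply_symm_apply] at h
  exact h.symm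

/-- the shift by `N` on the O-tile 0 -/
def s0 (N : ℤ) (a : M) : M := if h : otile a = 0 then (theta.symm ((⟨1, N⟩ : Iso2) • theta ⟨a, h⟩)).1 else a

theorem s0_pos (N : ℤ) (a : M) (h : otile a = 0) :
    s0 N a = (theta.symm ((⟨1, N⟩ : Iso2) • theta ⟨a, h⟩)).1 := dif_pos h

theorem otile_s0 (N : ℤ) (a : M) (h : otile a = 0) : otile (s0 N a) = 0 := by
  rw [s0_pos N a h]
  exact (theta.symm ((⟨1, N⟩ : Iso2) • theta ⟨a, h⟩)).2

theorem s0_add (N N' : ℤ) (a : M) (h : otile a = 0) : s0 N (s0 N' a) = s0 (N + N') a := by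
  rw [s0_pos N _ (otile_s0 N' a h), s0_pos (N + N') a h]
  have e : (⟨s0 N' a, otile_s0 N' a h⟩ : T0) = theta.symm ((⟨1, N'⟩ : Iso2) • theta ⟨a, h⟩) :=
    Subtype.ext (s0_pos N' a h)
  rw [e, OrderIso.apply_symm_apply, smul_one_lt]

theorem s0_zero (a : M) (h : otile a = 0) : s0 0 a = a := by
  rw [s0_pos 0 a h]
  have e : (⟨1, 0⟩ : Iso2) = 1 := rfl
  rw [e, one_smul, OrderIso.symm_apply_apply]

theorem s0_lt (N : ℤ) {a b : M} (ha : otile a = 0) (hb : otile b = 0) (h : a < b) : s0 N a < s0 N b := by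
  rw [s0_pos N a ha, s0_pos N b hb]
  have h1 : (⟨a, ha⟩ : T0) < ⟨b, hb⟩ := h
  have h2 : theta ⟨a, ha⟩ < theta ⟨b, hb⟩ := theta.strictMono h1
  exact theta.symm.strictMono (smul_lt_pos' _ rfl h2)

theorem s0_col (N : ℤ) (a : M) (ha : otile a = 0) : col (s0 N a) = col a := by
  rw [s0_pos N a ha, theta_symm_col, col_smul, theta_col]

theorem s0_arch (a b : M) (ha : otile a = 0) (hb : otile b = 0) :
    (∃ N, b < s0 N a) ∧ (∃ N, s0 N a < b) := by
  constructor
  · refine ⟨(theta ⟨b, hb⟩).e - (theta ⟨a, ha⟩).e + 1, ?_⟩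
    rw [s0_pos _ a ha]
    have h : theta ⟨b, hb⟩ < (⟨1, (theta ⟨b, hb⟩).e - (theta ⟨a, ha⟩).e + 1⟩ : Iso2) • theta ⟨a, ha⟩ := by
      rw [M.lt_iff, smul_e]
      left
      simp only [Units.val_one, one_mul]
      omega
    have h2 := theta.symm.strictMono h
    rw [OrderIso.symm_apply_apply] at h2
    exact h2
  · refine ⟨(theta ⟨b, hb⟩).e - (theta ⟨a, ha⟩).e - 1, ?_⟩
    rw [s0_pos _ a ha]
    have h : (⟨1, (theta ⟨b, hb⟩).e - (theta ⟨a, ha⟩).e - 1⟩ : Iso2) • theta ⟨a, ha⟩ < theta ⟨b, hb⟩ := by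
      rw [M.lt_iff, smul_e]
      left
      simp only [Units.val_one, one_mul]
      omega
    have h2 := theta.symm.strictMono h
    rw [OrderIso.symm_apply_apply] at h2
    exact h2

/-- the shift by `N` on all O-tiles -/
def FF (N : ℤ) (a : M) : M := gt (otile a) • s0 N ((gt (otile a))⁻¹ • a)

theorem otile_FF (N : ℤ) (a : M) : otile (FF N a) = otile a :=
  otile_gt _ _ (otile_s0 N _ (otile_gt_inv a))

theorem FF_add (N N' : ℤ) (a : M) : FF N (FF N' a) = FF (N + N') a := by
  have h : FF N (FF N' a) = gt (otile a) • s0 N ((gt (otile a))⁻¹ • (FF N' a)) := by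
    conv_lhs => unfold FF
    rw [show otile (gt (otile a) • s0 N' ((gt (otile a))⁻¹ • a)) = otile a from otile_FF N' a]
    rfl
  rw [h]
  unfold FF
  rw [inv_smul_smul, s0_add _ _ _ (otile_gt_inv a)]

theorem FF_zero (a : M) : FF 0 a = a := by
  unfold FF
  rw [s0_zero _ (otile_gt_inv a), smul_inv_smul]

theorem FF_col (N : ℤ) (a : M) : col (FF N a) = col a := by
  unfold FF
  rw [col_smul, s0_col _ _ (otile_gt_inv a), col_smul]

theorem FF_lt (N : ℤ) (a b : M) (h : a < b) : FF N a < FF N b := by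
  rcases (otile_mono h).lt_or_eq with h1 | h1
  · apply lt_of_otile
    rw [otile_FF, otile_FF]
    exact h1
  · unfold FF
    have ha := otile_gt_inv a
    have hb := otile_gt_inv b
    rw [← h1] at hb ⊢
    rcases eps_cases (gt (otile a)) with hg | hg
    · exact smul_lt_pos' _ hg (s0_lt N ha hb (smul_lt_pos' _ (by rw [Iso2.inv_ε]; exact hg) h))
    · exact smul_lt_neg' _ hg (s0_lt N hb ha (smul_lt_neg' _ (by rw [Iso2.inv_ε]; exact hg) h))

theorem FF_arch (a b : M) (h : otile a = otile b) : (∃ N, b < FF N a) ∧ (∃ N, FF N a < b) := by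
  have ha := otile_gt_inv a
  have hb := otile_gt_inv b
  rw [← h] at hb
  obtain ⟨⟨N1, h1⟩, N2, h2⟩ := s0_arch _ _ ha hb
  have e : b = gt (otile a) • ((gt (otile a))⁻¹ • b) := (smul_inv_smul _ _).symm
  rcases eps_cases (gt (otile a)) with hg | hg
  · refine ⟨⟨N1, ?_⟩, N2, ?_⟩
    · rw [e]; exact smul_lt_pos' _ hg h1
    · rw [e]; exact smul_lt_pos' _ hg h2
  · refine ⟨⟨N2, ?_⟩, N1, ?_⟩
    · rw [e]; exact smul_lt_neg' _ hg h2
    · rw [e]; exact smul_lt_neg' _ hg h1

/-- an isometry with even `t` is compatible with the standard isometries -/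
theorem gt_comp (g : Iso2) (hg : Even g.t) (a : M) : gt (otile (g • a)) = g * gt (otile a) := by
  rcases eps_cases g with h | h
  · rw [otile_smul_pos g h]
    by_cases ho : Even (otile a)
    · rw [gt_even (ho.add hg), gt_even ho]
      refine Iso2.ext ?_ ?_
      · rw [Iso2.mul_ε, h]; rfl
      · rw [Iso2.mul_t, h]
        simp only [Units.val_one, one_mul]
        ring
    · rw [gt_odd (fun h2 => ho (by have := h2.sub hg; simpa using this)), gt_odd ho]
      refine Iso2.ext ?_ ?_
      · rw [Iso2.mul_ε, h]; rfl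
      · rw [Iso2.mul_t, h]
        simp only [Units.val_one, one_mul]
        ring
  · rw [otile_smul_neg g h]
    by_cases ho : Even (otile a)
    · have h3 : ¬ Even (g.t + 1 - otile a) := by
        rw [Int.not_even_iff_odd]
        exact (hg.add_one).sub_even ho
      rw [gt_odd h3, gt_even ho]
      refine Iso2.ext ?_ ?_
      · rw [Iso2.mul_ε, h]; rfl
      · rw [Iso2.mul_t, h]
        simp only [Units.val_neg, Units.val_one, neg_mul, one_mul]
        ring
    · have h3 : Even (g.t + 1 - otile a) := by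
        rw [Int.not_even_iff_odd] at ho
        exact (hg.add_one).sub_odd ho
      rw [gt_even h3, gt_odd ho]
      refine Iso2.ext ?_ ?_
      · rw [Iso2.mul_ε, h]; rfl
      · rw [Iso2.mul_t, h]
        simp only [Units.val_neg, Units.val_one, neg_mul, one_mul]
        ring

theorem FF_equi (N : ℤ) (g : Iso2) (hg : Even g.t) (a : M) : g • FF N a = FF N (g • a) := by
  unfold FF
  rw [gt_comp g hg, mul_inv_rev, mul_smul, mul_smul, inv_smul_smul]

/-- the letter -/
def om0 : CAut := mkCAut (FF 1) (FF (-1))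
  (fun a => by rw [FF_add]; exact FF_zero a)
  (fun a => by rw [FF_add]; exact FF_zero a)
  (fun a b h => FF_lt 1 a b h)
  (fun a => FF_col 1 a)

theorem om0_apply (a : M) : om0.1 a = FF 1 a := rfl
theorem om0_symm_apply (a : M) : om0.1.symm a = FF (-1) a := rfl

theorem om0_pow (N : ℤ) (a : M) : (om0 ^ N).1 a = FF N a := by
  induction N using Int.induction_on generalizing a with
  | zero =>
    rw [zpow_zero, FF_zero]; rfl
  | succ i ih =>
    rw [zpow_add_one]
    show (om0 ^ (i : ℤ)).1 (om0.1 a) = _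
    rw [ih, om0_apply, FF_add]
  | pred i ih =>
    rw [zpow_sub_one]
    show (om0 ^ (-(i : ℤ))).1 (om0.1.symm a) = _
    rw [ih, om0_symm_apply, FF_add]
    rfl

end O

theorem exists_om : ∃ f, OmSpec f := by
  refine ⟨O.om0, ?_⟩
  have hnear : ∀ N a, |(O.FF N a).e - a.e| ≤ 1 := by
    intro N a
    have h := O.otile_FF N a
    rw [abs_le]
    rcases O.otile_e (O.FF N a) with h1 | h1 <;> rcases O.otile_e a with h2 | h2 <;>
      constructor <;> omega
  refine ⟨fun a => O.otile_FF 1 a, fun a => hnear 1 a, fun a => hnear (-1) a,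
    fun g hg a => O.FF_equi 1 g hg a, fun a ha => ?_, fun a ha => ?_⟩
  · have hQ : otile (⟨a.e + 1, 0, 0, -1, 0⟩ : M) = a.e + 1 := by
      unfold otile RightHalf
      simp
    have ha' : otile a = a.e + 1 := by unfold otile; rw [if_pos ha]
    obtain ⟨⟨N, hN⟩, -⟩ := O.FF_arch a ⟨a.e + 1, 0, 0, -1, 0⟩ (by rw [hQ, ha'])
    refine ⟨N, ?_⟩
    rw [O.om0_pow]
    have h := O.otile_FF N a
    rw [ha'] at h
    generalize O.FF N a = b at hN h
    rw [M.lt_iff] at hN
    simp only at hN
    unfold otile RightHalf at h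
    split_ifs at h <;> omega
  · have hQ : otile (⟨a.e - 1, 0, 0, 0, 0⟩ : M) = a.e := by
      unfold otile RightHalf
      simp
    have ha' : otile a = a.e := by unfold otile; rw [if_neg ha]
    obtain ⟨-, N, hN⟩ := O.FF_arch a ⟨a.e - 1, 0, 0, 0, 0⟩ (by rw [hQ, ha'])
    refine ⟨N, ?_⟩
    rw [O.om0_pow]
    have h := O.otile_FF N a
    rw [ha'] at h
    generalize O.FF N a = b at hN h
    rw [M.lt_iff] at hN
    simp only at hN
    unfold otile RightHalf at h
    split_ifs at h <;> omega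

theorem omM_spec : OmSpec omM := by
  unfold omM
  rw [dif_pos exists_om]
  exact exists_om.choose_spec

end

end Pool.Agent.helper261_navas
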