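import Pool.Agent.helper261_navas.EvDef

set_option autoImplicit false

namespace Pool.Agent.helper261_navas

open Classical

noncomputable section

/-! # X: order facts about X -/

namespace XX

theorem ne_one : ((-1 : ℤˣ) = 1) = False := by
  simp only [eq_iff_iff, iff_false]; decide

theorem M_pos (g : Iso2) (hg : g.ε = 1) (x y : M) (h : x < y) : g • x < g • y := by
  rw [M.lt_iff] at h ⊢
  simp only [smul_e, smul_m, smul_l, smul_i, smul_q, hg, Units.val_one, if_true]
  rcases h with h | ⟨h1, h | ⟨h2, h | ⟨h3, h | ⟨h4, h5⟩⟩⟩⟩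
  · exact Or.inl (by omega)
  · exact Or.inr ⟨by omega, Or.inl (by omega)⟩
  · exact Or.inr ⟨by omega, Or.inr ⟨by omega, Or.inl (by omega)⟩⟩
  · exact Or.inr ⟨by omega, Or.inr ⟨by omega, Or.inr ⟨by omega, Or.inl (by omega)⟩⟩⟩
  · exact Or.inr ⟨by omega, Or.inr ⟨by omega, Or.inr ⟨by omega, Or.inr ⟨by omega, h5⟩⟩⟩⟩

theorem M_neg (g : Iso2) (hg : g.ε = -1) (x y : M) (h : x < y) : g • y < g • x := by
  rw [M.lt_iff] at h ⊢
  simp only [smul_e, smul_m, smul_l, smul_i, smul_q, hg, Units.val_neg, Units.val_one, ne_one, if_false]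
  rcases h with h | ⟨h1, h | ⟨h2, h | ⟨h3, h | ⟨h4, h5⟩⟩⟩⟩
  · exact Or.inl (by omega)
  · exact Or.inr ⟨by omega, Or.inl (by omega)⟩
  · exact Or.inr ⟨by omega, Or.inr ⟨by omega, Or.inl (by omega)⟩⟩
  · exact Or.inr ⟨by omega, Or.inr ⟨by omega, Or.inr ⟨by omega, Or.inl (by omega)⟩⟩⟩
  · exact Or.inr ⟨by omega, Or.inr ⟨by omega, Or.inr ⟨by omega, Or.inr ⟨by omega, by linarith⟩⟩⟩⟩

theorem good_cons_pos {a : M} {r : List M} (h : Good (a :: r)) (hc : col a = none) : r = [] := by
  unfold Good at h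
  rwa [if_pos hc] at h

theorem good_cons_neg {a : M} {r : List M} (h : Good (a :: r)) (hc : col a ≠ none) : Good r := by
  unfold Good at h
  rwa [if_neg hc] at h

theorem list_pos (g : Iso2) (hg : g.ε = 1) : ∀ x y : List M, Good x → Good y → x < y →
    x.map (g • ·) < y.map (g • ·)
  | [], _, hx, _, _ => absurd hx (by unfold Good; exact id)
  | a :: r, [], _, hy, _ => absurd hy (by unfold Good; exact id)
  | a :: r, b :: s, hx, hy, h => by
    rw [List.cons_lt_cons_iff] at h
    rw [List.map_cons, List.map_cons, List.cons_lt_cons_iff]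
    rcases h with h | ⟨rfl, h⟩
    · exact Or.inl (M_pos g hg a b h)
    · by_cases hc : col a = none
      · rw [good_cons_pos hx hc, good_cons_pos hy hc] at h
        exact absurd h (lt_irrefl _)
      · exact Or.inr ⟨rfl, list_pos g hg r s (good_cons_neg hx hc) (good_cons_neg hy hc) h⟩

theorem list_neg (g : Iso2) (hg : g.ε = -1) : ∀ x y : List M, Good x → Good y → x < y →
    y.map (g • ·) < x.map (g • ·)
  | [], _, hx, _, _ => absurd hx (by unfold Good; exact id)
  | a :: r, [], _, hy, _ => absurd hy (by unfold Good; exact id)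
  | a :: r, b :: s, hx, hy, h => by
    rw [List.cons_lt_cons_iff] at h
    rw [List.map_cons, List.map_cons, List.cons_lt_cons_iff]
    rcases h with h | ⟨rfl, h⟩
    · exact Or.inl (M_neg g hg a b h)
    · by_cases hc : col a = none
      · rw [good_cons_pos hx hc, good_cons_pos hy hc] at h
        exact absurd h (lt_irrefl _)
      · exact Or.inr ⟨rfl, list_neg g hg r s (good_cons_neg hx hc) (good_cons_neg hy hc) h⟩

theorem X_pos (g : Iso2) (hg : g.ε = 1) (x y : X) (h : x < y) : g • x < g • y :=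
  list_pos g hg x.1 y.1 x.2 y.2 h

theorem X_neg (g : Iso2) (hg : g.ε = -1) (x y : X) (h : x < y) : g • y < g • x :=
  list_neg g hg x.1 y.1 x.2 y.2 h

end XX

theorem smul_lt_pos (g : Iso2) (hg : g.ε = 1) (x y : X) : g • x < g • y ↔ x < y := by
  constructor
  · intro h
    rcases lt_trichotomy x y with h1 | h1 | h1
    · exact h1
    · rw [h1] at h; exact absurd h (lt_irrefl _)
    · exact absurd h (lt_asymm (XX.X_pos g hg y x h1))
  · exact XX.X_pos g hg x y

theorem smul_lt_neg (g : Iso2) (hg : g.ε = -1) (x y : X) : g • x < g • y ↔ y < x := by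
  constructor
  · intro h
    rcases lt_trichotomy x y with h1 | h1 | h1
    · exact absurd h (lt_asymm (XX.X_neg g hg x y h1))
    · rw [h1] at h; exact absurd h (lt_irrefl _)
    · exact h1
  · exact XX.X_neg g hg y x

theorem smul_lt_M_pos (g : Iso2) (hg : g.ε = 1) (x y : M) : g • x < g • y ↔ x < y := by
  constructor
  · intro h
    rcases lt_trichotomy x y with h1 | h1 | h1
    · exact h1
    · rw [h1] at h; exact absurd h (lt_irrefl _)
    · exact absurd h (lt_asymm (XX.M_pos g hg y x h1))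
  · exact XX.M_pos g hg x y

theorem smul_lt_M_neg (g : Iso2) (hg : g.ε = -1) (x y : M) : g • x < g • y ↔ y < x := by
  constructor
  · intro h
    rcases lt_trichotomy x y with h1 | h1 | h1
    · exact absurd h (lt_asymm (XX.M_neg g hg x y h1))
    · rw [h1] at h; exact absurd h (lt_irrefl _)
    · exact h1
  · exact XX.M_neg g hg y x

theorem site_smul (g : Iso2) (x : X) : site (g • x) = g.site (site x) := by
  unfold site
  rw [top_smul, smul_e]
  rfl

theorem InU_smul (g : Iso2) (x : X) : InU (g • x) ↔ InU x := by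
  unfold InU
  rw [top_smul, smul_m, smul_l]
  simp

/-- an automorphism supported in the zone preserves the zone -/
theorem SuppU_maps (φ : X ≃o X) (h : SuppU φ) (x : X) (hx : InU x ∧ site x = 0) : InU (φ x) ∧ site (φ x) = 0 := by
  by_contra hc
  have h1 := h (φ x) hc
  have h2 : φ x = x := φ.injective h1
  rw [h2] at hc
  exact hc hx

theorem SuppU_inv (φ : X ≃o X) (h : SuppU φ) : SuppU φ⁻¹ := by
  intro x hx
  have h1 := h x hx
  have h2 : φ.symm (φ x) = φ.symm x := by rw [h1]
  rw [φ.symm_apply_apply] at h2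
  exact h2.symm

theorem at_maps (φ : X ≃o X) (h : SuppU φ) (x : X) (hx : InU x) :
    InU (at_ φ (site x) x) ∧ site (at_ φ (site x) x) = site x := by
  unfold at_
  have h1 : InU ((R (site x))⁻¹ • x) ∧ site ((R (site x))⁻¹ • x) = 0 := by
    refine ⟨(InU_smul _ _).2 hx, ?_⟩
    rw [site_smul]
    change ((R (site x))⁻¹.ε : ℤ) * site x + (R (site x))⁻¹.t = 0
    rw [Iso2.inv_ε, Iso2.inv_t]
    unfold R
    ring
  have h2 := SuppU_maps φ h _ h1
  refine ⟨(InU_smul _ _).2 h2.1, ?_⟩
  rw [site_smul, h2.2]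
  unfold Iso2.site R
  ring

theorem at_inv (φ : X ≃o X) (e : ℤ) (x : X) : at_ φ⁻¹ e (at_ φ e x) = x := by
  unfold at_
  rw [inv_smul_smul]
  have h : φ⁻¹ (φ ((R e)⁻¹ • x)) = (R e)⁻¹ • x := φ.symm_apply_apply _
  rw [h, smul_inv_smul]

theorem at_lt (φ : X ≃o X) (e : ℤ) (x y : X) : at_ φ e x < at_ φ e y ↔ x < y := by
  unfold at_
  rcases Int.units_eq_one_or (R e).ε with h | h
  · rw [smul_lt_pos _ h, φ.lt_iff_lt, smul_lt_pos _ (by rw [Iso2.inv_ε]; exact h)]
  · rw [smul_lt_neg _ h, φ.lt_iff_lt, smul_lt_neg _ (by rw [Iso2.inv_ε]; exact h)]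

/-- equivariance of the local copies -/
theorem at_smul (φ : X ≃o X) (g : Iso2) (e : ℤ) (hs : sgn (g.site e) = g.ε * sgn e) (x : X) :
    at_ φ (g.site e) (g • x) = g • at_ φ e x := by
  have h : R (g.site e) = g * R e := by
    unfold R
    refine Iso2.ext ?_ ?_
    · exact hs
    · rw [Iso2.mul_t]
      unfold Iso2.site
      ring
  unfold at_
  rw [h, mul_inv_rev, mul_smul, mul_smul, inv_smul_smul]

end

end Pool.Agent.helper261_navas
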