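import Pool.Agent.helper261_navas.EvDef
import Pool.Agent.helper261_navas.PrO
import Pool.Agent.helper261_navas.PrX
import Pool.Agent.helper261_navas.Aux1

set_option autoImplicit false

namespace Pool.Agent.helper261_navas

open Classical

noncomputable section

/-! # E1: basic facts on evaluation -/

theorem Ev.append {P : ℤ → Content} {N : ℕ} {l l' : List Atom} {x y z : X} (h : Ev P N l x y) (h' : Ev P N l' y z) :
    Ev P N (l ++ l') x z := by
  induction h with
  | nil x => exact h'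
  | sg d l x y hb _ ih => exact Ev.sg d _ _ _ hb (ih h')
  | bt d l x y hb _ ih => exact Ev.bt d _ _ _ hb (ih h')
  | om d l x y _ ih => exact Ev.om d _ _ _ (ih h')
  | pi_off d l x y hb hz _ ih => exact Ev.pi_off d _ _ _ hb hz (ih h')
  | pi_on d l x y y' hb hz h1 _ _ ih2 => exact Ev.pi_on d _ _ _ y' hb hz h1 (ih2 h')
  | cont_out j d l x y hU _ ih => exact Ev.cont_out j d _ _ _ hU (ih h')
  | cont_off j d l x y hU hb hj hi _ ih => exact Ev.cont_off j d _ _ _ hU hb hj hi (ih h')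
  | cont_fix j d l x y γ lev φ hU hb hj hP hl _ ih => exact Ev.cont_fix j d _ _ _ γ lev φ hU hb hj hP hl (ih h')
  | cont_miss j d l x y k b n z w r ell hU hb hj hP hc ht _ ih =>
    exact Ev.cont_miss j d _ _ _ k b n z w r ell hU hb hj hP hc ht (ih h')
  | cont_exec j d l x y k b n z w r ell h ξ η hU hb hj hP hc ht hx h1 _ _ ih2 =>
    exact Ev.cont_exec j d _ _ _ k b n z w r ell h ξ η hU hb hj hP hc ht hx h1 (ih2 h')
  | step_out w n ell c d l x y h1 h2 _ ih => exact Ev.step_out w n ell c d _ _ _ h1 h2 (ih h')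
  | step_up w n ell c d l x x' y h1 h2 h3 h4 _ _ ih2 => exact Ev.step_up w n ell c d _ _ x' _ h1 h2 h3 h4 (ih2 h')
  | step_dn w n ell c d l x x' y h1 h2 h3 h4 _ _ ih2 => exact Ev.step_dn w n ell c d _ _ x' _ h1 h2 h3 h4 (ih2 h')
  | step_not w n ell c d l x x' x'' y h1 h2 h3 h4 h5 h6 _ _ _ ih3 =>
    exact Ev.step_not w n ell c d _ _ x' x'' _ h1 h2 h3 h4 h5 h6 (ih3 h')

namespace E1

theorem split1 {P : ℤ → Content} {N : ℕ} {l0 : List Atom} {x z : X} (h : Ev P N l0 x z) :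
    ∀ (a : Atom) (l : List Atom), l0 = a :: l → ∃ y, Ev P N [a] x y ∧ Ev P N l y z := by
  induction h with
  | nil x => intro a l h; cases h
  | sg d l x y hb h1 ih =>
    intro a l' he; cases he
    exact ⟨_, Ev.sg d _ _ _ hb (Ev.nil _), h1⟩
  | bt d l x y hb h1 ih =>
    intro a l' he; cases he
    exact ⟨_, Ev.bt d _ _ _ hb (Ev.nil _), h1⟩
  | om d l x y h1 ih =>
    intro a l' he; cases he
    exact ⟨_, Ev.om d _ _ _ (Ev.nil _), h1⟩
  | pi_off d l x y hb hz h1 ih =>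
    intro a l' he; cases he
    exact ⟨_, Ev.pi_off d _ _ _ hb hz (Ev.nil _), h1⟩
  | pi_on d l x y y' hb hz h1 h2 _ _ =>
    intro a l' he; cases he
    exact ⟨_, Ev.pi_on d _ _ _ y' hb hz h1 (Ev.nil _), h2⟩
  | cont_out j d l x y hU h1 ih =>
    intro a l' he; cases he
    exact ⟨_, Ev.cont_out j d _ _ _ hU (Ev.nil _), h1⟩
  | cont_off j d l x y hU hb hj hi h1 ih =>
    intro a l' he; cases he
    exact ⟨_, Ev.cont_off j d _ _ _ hU hb hj hi (Ev.nil _), h1⟩
  | cont_fix j d l x y γ lev φ hU hb hj hP hl h1 ih =>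
    intro a l' he; cases he
    exact ⟨_, Ev.cont_fix j d _ _ _ γ lev φ hU hb hj hP hl (Ev.nil _), h1⟩
  | cont_miss j d l x y k b n z w r ell hU hb hj hP hc ht h1 ih =>
    intro a l' he; cases he
    exact ⟨_, Ev.cont_miss j d _ _ _ k b n z w r ell hU hb hj hP hc ht (Ev.nil _), h1⟩
  | cont_exec j d l x y k b n z w r ell h ξ η hU hb hj hP hc ht hx h1 h2 _ _ =>
    intro a l' he; cases he
    exact ⟨_, Ev.cont_exec j d _ _ _ k b n z w r ell h ξ η hU hb hj hP hc ht hx h1 (Ev.nil _), h2⟩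
  | step_out w n ell c d l x y h1 h2 h3 ih =>
    intro a l' he; cases he
    exact ⟨_, Ev.step_out w n ell c d _ _ _ h1 h2 (Ev.nil _), h3⟩
  | step_up w n ell c d l x x' y h1 h2 h3 h4 h5 _ _ =>
    intro a l' he; cases he
    exact ⟨_, Ev.step_up w n ell c d _ _ x' _ h1 h2 h3 h4 (Ev.nil _), h5⟩
  | step_dn w n ell c d l x x' y h1 h2 h3 h4 h5 _ _ =>
    intro a l' he; cases he
    exact ⟨_, Ev.step_dn w n ell c d _ _ x' _ h1 h2 h3 h4 (Ev.nil _), h5⟩
  | step_not w n ell c d l x x' x'' y h1 h2 h3 h4 h5 h6 h7 _ _ _ =>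
    intro a l' he; cases he
    exact ⟨_, Ev.step_not w n ell c d _ _ x' x'' _ h1 h2 h3 h4 h5 h6 (Ev.nil _), h7⟩

end E1

theorem Ev.split {P : ℤ → Content} {N : ℕ} {l l' : List Atom} {x z : X} (h : Ev P N (l ++ l') x z) :
    ∃ y, Ev P N l x y ∧ Ev P N l' y z := by
  induction l generalizing x with
  | nil => exact ⟨x, Ev.nil x, h⟩
  | cons a l ih =>
    obtain ⟨u, hu1, hu2⟩ := E1.split1 h a (l ++ l') rfl
    obtain ⟨v, hv1, hv2⟩ := ih hu2
    exact ⟨v, Ev.append hu1 hv1, hv2⟩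

theorem Ev.bound {P : ℤ → Content} {N N' : ℕ} (hN : N ≤ N') {l : List Atom} {x y : X} (h : Ev P N l x y) :
    Ev P N' l x y := by
  have hN2 : (N : ℤ) ≤ N' := by exact_mod_cast hN
  induction h with
  | nil x => exact Ev.nil x
  | sg d l x y hb _ ih => exact Ev.sg d _ _ _ (lt_of_lt_of_le hb hN) ih
  | bt d l x y hb _ ih => exact Ev.bt d _ _ _ (lt_of_lt_of_le hb hN) ih
  | om d l x y _ ih => exact Ev.om d _ _ _ ih
  | pi_off d l x y hb hz _ ih => exact Ev.pi_off d _ _ _ (lt_of_lt_of_le hb hN) hz ih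
  | pi_on d l x y y' hb hz _ _ ih1 ih2 => exact Ev.pi_on d _ _ _ y' (lt_of_lt_of_le hb hN) hz ih1 ih2
  | cont_out j d l x y hU _ ih => exact Ev.cont_out j d _ _ _ hU ih
  | cont_off j d l x y hU hb hj hi _ ih =>
    exact Ev.cont_off j d _ _ _ hU (lt_of_lt_of_le hb hN) (lt_of_lt_of_le hj hN2) hi ih
  | cont_fix j d l x y γ lev φ hU hb hj hP hl _ ih =>
    exact Ev.cont_fix j d _ _ _ γ lev φ hU (lt_of_lt_of_le hb hN) (lt_of_lt_of_le hj hN2) hP hl ih
  | cont_miss j d l x y k b n z w r ell hU hb hj hP hc ht _ ih =>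
    exact Ev.cont_miss j d _ _ _ k b n z w r ell hU (lt_of_lt_of_le hb hN) (lt_of_lt_of_le hj hN2) hP hc ht ih
  | cont_exec j d l x y k b n z w r ell h ξ η hU hb hj hP hc ht hx _ _ ih1 ih2 =>
    exact Ev.cont_exec j d _ _ _ k b n z w r ell h ξ η hU (lt_of_lt_of_le hb hN) (lt_of_lt_of_le hj hN2) hP hc ht
      hx ih1 ih2
  | step_out w n ell c d l x y h1 h2 _ ih => exact Ev.step_out w n ell c d _ _ _ h1 h2 ih
  | step_up w n ell c d l x x' y h1 h2 h3 h4 _ ih1 ih2 => exact Ev.step_up w n ell c d _ _ x' _ ih1 h2 h3 h4 ih2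
  | step_dn w n ell c d l x x' y h1 h2 h3 h4 _ ih1 ih2 => exact Ev.step_dn w n ell c d _ _ x' _ ih1 h2 h3 h4 ih2
  | step_not w n ell c d l x x' x'' y h1 h2 h3 h4 h5 h6 _ ih1 ih2 ih3 =>
    exact Ev.step_not w n ell c d _ _ x' x'' _ ih1 ih2 h3 h4 h5 h6 ih3

theorem Ev.persist {P P' : ℤ → Content} {N : ℕ} (hP : ∀ j : ℤ, j < N → P j = P' j) {l : List Atom} {x y : X}
    (h : Ev P N l x y) : Ev P' N l x y := by
  induction h with
  | nil x => exact Ev.nil x
  | sg d l x y hb _ ih => exact Ev.sg d _ _ _ hb ih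
  | bt d l x y hb _ ih => exact Ev.bt d _ _ _ hb ih
  | om d l x y _ ih => exact Ev.om d _ _ _ ih
  | pi_off d l x y hb hz _ ih => exact Ev.pi_off d _ _ _ hb hz ih
  | pi_on d l x y y' hb hz _ _ ih1 ih2 => exact Ev.pi_on d _ _ _ y' hb hz ih1 ih2
  | cont_out j d l x y hU _ ih => exact Ev.cont_out j d _ _ _ hU ih
  | cont_off j d l x y hU hb hj hi _ ih =>
    exact Ev.cont_off j d _ _ _ hU hb hj (by rw [← hP j hj]; exact hi) ih
  | cont_fix j d l x y γ lev φ hU hb hj hPj hl _ ih =>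
    exact Ev.cont_fix j d _ _ _ γ lev φ hU hb hj (by rw [← hP j hj]; exact hPj) hl ih
  | cont_miss j d l x y k b n z w r ell hU hb hj hPj hc ht _ ih =>
    exact Ev.cont_miss j d _ _ _ k b n z w r ell hU hb hj (by rw [← hP j hj]; exact hPj) hc ht ih
  | cont_exec j d l x y k b n z w r ell h ξ η hU hb hj hPj hc ht hx _ _ ih1 ih2 =>
    exact Ev.cont_exec j d _ _ _ k b n z w r ell h ξ η hU hb hj (by rw [← hP j hj]; exact hPj) hc ht
      hx ih1 ih2
  | step_out w n ell c d l x y h1 h2 _ ih => exact Ev.step_out w n ell c d _ _ _ h1 h2 ih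
  | step_up w n ell c d l x x' y h1 h2 h3 h4 _ ih1 ih2 => exact Ev.step_up w n ell c d _ _ x' _ ih1 h2 h3 h4 ih2
  | step_dn w n ell c d l x x' y h1 h2 h3 h4 _ ih1 ih2 => exact Ev.step_dn w n ell c d _ _ x' _ ih1 h2 h3 h4 ih2
  | step_not w n ell c d l x x' x'' y h1 h2 h3 h4 h5 h6 _ ih1 ih2 ih3 =>
    exact Ev.step_not w n ell c d _ _ x' x'' _ ih1 ih2 h3 h4 h5 h6 ih3

namespace E1

theorem SuppU_pw {φ : X ≃o X} (h : SuppU φ) (d : Bool) : SuppU (pw φ d) := by
  unfold pw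
  cases d
  · exact SuppU_inv φ h
  · exact h

theorem at_zone {φ : X ≃o X} (h : SuppU φ) (d : Bool) (x : X) (hx : InU x) :
    (top (at_ (pw φ d) (site x) x)).e = (top x).e ∧ (top (at_ (pw φ d) (site x) x)).m = (top x).m ∧
      (top (at_ (pw φ d) (site x) x)).l = (top x).l := by
  have h1 := at_maps (pw φ d) (SuppU_pw h d) x hx
  obtain ⟨⟨h2, h3⟩, h4⟩ := h1
  refine ⟨h4, ?_, ?_⟩
  · rw [h2, hx.1]
  · rw [h3, hx.2]

end E1

/-- evaluation of a content stays in the zone -/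
theorem Ev.cont_zone {P : ℤ → Content} {N : ℕ} (hP : WellP P) {j : ℤ} {d : Bool} {x y : X}
    (h : Ev P N [.cont j d] x y) : (top y).e = (top x).e ∧ (top y).m = (top x).m ∧ (top y).l = (top x).l := by
  cases h with
  | cont_out _ _ _ _ _ hU h1 => cases h1; exact ⟨rfl, rfl, rfl⟩
  | cont_off _ _ _ _ _ hU hb hj hi h1 => cases h1; exact ⟨rfl, rfl, rfl⟩
  | cont_fix _ _ _ _ _ γ lev φ hU hb hj hPj hl h1 =>
    cases h1
    exact E1.at_zone (hP _ _ _ _ hPj) d x hU
  | cont_miss _ _ _ _ _ k b n z w r ell hU hb hj hPj hc ht h1 => cases h1; exact ⟨rfl, rfl, rfl⟩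
  | cont_exec _ _ _ _ _ k b n z w r ell hh ξ η hU hb hj hPj hc ht hx h1 h2 =>
    cases h2
    rw [top_cons]
    exact ⟨rfl, rfl, rfl⟩

namespace E1

theorem invl_cons (a : Atom) (l : List Atom) : invl (a :: l) = invl l ++ [a.inv] := by
  simp [invl]

theorem invl_append (l l' : List Atom) : invl (l ++ l') = invl l' ++ invl l := by
  simp [invl]

theorem invl_replicate (r : ℕ) (a : Atom) : invl (List.replicate r a) = List.replicate r a.inv := by
  simp [invl]

theorem invl_atoms (w : Word) : invl w.atoms = w.inv.atoms := by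
  simp only [invl, Word.atoms, Word.inv, List.map_reverse, List.map_map]
  rfl

theorem inv_inv (w : Word) : w.inv.inv = w := by
  simp [Word.inv, Function.comp_def]

theorem invl_dir (w : Word) (d : Bool) : invl (w.dir d).atoms = (w.dir (!d)).atoms := by
  rw [invl_atoms]
  cases d
  · simp [Word.dir, inv_inv]
  · simp [Word.dir]

theorem Vup_not (d : Bool) (n : ℕ) (ell : X) (c : ℤ) (x : X) : Vup (!d) n ell c x ↔ Vdn d n ell c x := by
  cases d <;> simp [Vup, Vdn]

theorem Vdn_not (d : Bool) (n : ℕ) (ell : X) (c : ℤ) (x : X) : Vdn (!d) n ell c x ↔ Vup d n ell c x := by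
  cases d <;> simp [Vup, Vdn]

theorem pw_not_apply (f : CAut) (d : Bool) (x : X) : lift (pw f (!d)) (lift (pw f d) x) = x := by
  cases d
  · exact lift_apply_lift_inv f x
  · exact lift_inv_apply_lift f x

theorem site_pw_sg (d : Bool) (x : X) : site (lift (pw sgM d) x) = site x := by
  cases d <;> rfl

theorem site_pw_bt (d : Bool) (x : X) : site (lift (pw btM d) x) = site x := by
  cases d <;> rfl

theorem at_pw_not (φ : X ≃o X) (d : Bool) (e : ℤ) (x : X) : at_ (pw φ (!d)) e (at_ (pw φ d) e x) = x := by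
  cases d
  · have := at_inv φ⁻¹ e x
    rwa [_root_.inv_inv] at this
  · exact at_inv φ e x

end E1

theorem Ev.inv {P : ℤ → Content} {N : ℕ} (hP : WellP P) {l : List Atom} {x y : X} (h : Ev P N l x y) :
    Ev P N (invl l) y x := by
  induction h with
  | nil x => exact Ev.nil x
  | sg d l x y hb _ ih =>
    rw [E1.invl_cons]
    refine Ev.append ih (Ev.sg (!d) _ _ _ (by rw [E1.site_pw_sg]; exact hb) ?_)
    rw [E1.pw_not_apply]
    exact Ev.nil _
  | bt d l x y hb _ ih =>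
    rw [E1.invl_cons]
    refine Ev.append ih (Ev.bt (!d) _ _ _ (by rw [E1.site_pw_bt]; exact hb) ?_)
    rw [E1.pw_not_apply]
    exact Ev.nil _
  | om d l x y _ ih =>
    rw [E1.invl_cons]
    refine Ev.append ih (Ev.om (!d) _ _ _ ?_)
    rw [E1.pw_not_apply]
    exact Ev.nil _
  | pi_off d l x y hb hz _ ih =>
    rw [E1.invl_cons]
    exact Ev.append ih (Ev.pi_off (!d) _ _ _ hb hz (Ev.nil _))
  | pi_on d l x y y' hb hz h1 h2 ih1 ih2 =>
    rw [E1.invl_cons]
    have hz1 := Ev.cont_zone hP h1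
    have hU : InU y' := by
      have := InU_Zsh_inv x
      unfold InU at this ⊢
      rw [hz1.2.1, hz1.2.2]; exact this
    have hs : site y' = site x := by
      have := site_Zsh_inv x
      unfold site at this ⊢
      rw [hz1.1, this]
    refine Ev.append ih2 (Ev.pi_on (!d) _ _ _ (lift (Zsh (stdm x) (stdl x))⁻¹ x) ?_ ?_ ?_ ?_)
    · rw [site_Zsh _ _ _ hU, hs]; exact hb
    · rw [stdl_Zsh _ _ _ hU]; exact hz
    · rw [stdm_Zsh _ _ _ hU, stdl_Zsh _ _ _ hU, lift_inv_apply_lift]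
      exact ih1
    · rw [stdm_Zsh _ _ _ hU, stdl_Zsh _ _ _ hU, lift_apply_lift_inv]
      exact Ev.nil _
  | cont_out j d l x y hU _ ih =>
    rw [E1.invl_cons]
    exact Ev.append ih (Ev.cont_out j (!d) _ _ _ hU (Ev.nil _))
  | cont_off j d l x y hU hb hj hi _ ih =>
    rw [E1.invl_cons]
    exact Ev.append ih (Ev.cont_off j (!d) _ _ _ hU hb hj hi (Ev.nil _))
  | cont_fix j d l x y γ lev φ hU hb hj hPj hl _ ih =>
    rw [E1.invl_cons]
    have h1 := at_maps (pw φ d) (E1.SuppU_pw (hP _ _ _ _ hPj) d) x hU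
    refine Ev.append ih (Ev.cont_fix j (!d) _ _ _ γ lev φ h1.1 (by rw [h1.2]; exact hb) hj hPj
      (by rw [h1.2]; exact hl) ?_)
    rw [h1.2, E1.at_pw_not]
    exact Ev.nil _
  | cont_miss j d l x y k b n z w r ell hU hb hj hPj hc ht _ ih =>
    rw [E1.invl_cons]
    exact Ev.append ih (Ev.cont_miss j (!d) _ _ _ k b n z w r ell hU hb hj hPj hc ht (Ev.nil _))
  | cont_exec j d l x y k b n z w r ell h ξ η hU hb hj hPj hc ht hx _ _ ih1 ih2 =>
    rw [E1.invl_cons]
    rw [E1.invl_replicate] at ih1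
    refine Ev.append ih2 (Ev.cont_exec j (!d) _ _ _ k b n z w r ell h η ξ hU hb hj hPj hc ht rfl ih1 ?_)
    change Ev P N [] (cons (top x) h ξ) x
    rw [← hx]
    exact Ev.nil _
  | step_out w n ell c d l x y h1 h2 _ ih =>
    rw [E1.invl_cons]
    exact Ev.append ih (Ev.step_out w n ell c (!d) _ _ _ h1 h2 (Ev.nil _))
  | step_up w n ell c d l x x' y h1 h2 h3 h4 _ ih1 ih2 =>
    rw [E1.invl_cons]
    rw [E1.invl_dir] at ih1
    exact Ev.append ih2 (Ev.step_dn w n ell c (!d) _ _ x _ ih1 h2 ((E1.Vdn_not _ _ _ _ _).2 h4)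
      ((E1.Vdn_not _ _ _ _ _).2 h3) (Ev.nil _))
  | step_dn w n ell c d l x x' y h1 h2 h3 h4 _ ih1 ih2 =>
    rw [E1.invl_cons]
    rw [E1.invl_dir] at ih1
    exact Ev.append ih2 (Ev.step_up w n ell c (!d) _ _ x _ ih1 h2 ((E1.Vup_not _ _ _ _ _).2 h4)
      ((E1.Vup_not _ _ _ _ _).2 h3) (Ev.nil _))
  | step_not w n ell c d l x x' x'' y h1 h2 h3 h4 h5 h6 _ _ _ ih3 =>
    rw [E1.invl_cons]
    refine Ev.append ih3 (Ev.step_not w n ell c (!d) _ _ x'' x' _ h2 (by rw [Bool.not_not]; exact h1) ?_ ?_ ?_ ?_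
      (Ev.nil _))
    · rw [E1.Vup_not]; exact h6
    · rw [E1.Vdn_not]; exact h5
    · rw [E1.Vup_not]; exact h4
    · rw [E1.Vdn_not]; exact h3

namespace E1

theorem site_letter {P : ℤ → Content} {N : ℕ} (hP : WellP P) {a : Letter} {d : Bool} {x y : X}
    (h : Ev P N [.lt a d] x y) : |site y - site x| ≤ 1 := by
  cases h with
  | sg _ _ _ _ hb h1 => cases h1; rw [site_pw_sg]; simp
  | bt _ _ _ _ hb h1 => cases h1; rw [site_pw_bt]; simp
  | om _ _ _ _ h1 =>
    cases h1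
    cases d
    · exact omM_spec.near' (top x)
    · exact omM_spec.near (top x)
  | pi_off _ _ _ _ hb hz h1 => cases h1; simp
  | pi_on _ _ _ _ y' hb hz h1 h2 =>
    cases h2
    have hz1 := Ev.cont_zone hP h1
    have hU : InU y' := by
      have := InU_Zsh_inv x
      unfold InU at this ⊢
      rw [hz1.2.1, hz1.2.2]; exact this
    have hs : site y' = site x := by
      have := site_Zsh_inv x
      unfold site at this ⊢
      rw [hz1.1, this]
    rw [site_Zsh _ _ _ hU, hs]; simp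

end E1

/-- a word moves the site by at most its length -/
theorem Ev.site_word {P : ℤ → Content} {N : ℕ} (hP : WellP P) {w : Word} {x y : X} (h : Ev P N w.atoms x y) :
    |site y - site x| ≤ w.length := by
  induction w generalizing x with
  | nil => cases h; simp
  | cons p w ih =>
    obtain ⟨u, h1, h2⟩ := Ev.split (l := [Atom.lt p.1 p.2]) (l' := Word.atoms w) h
    have h3 := ih h2
    have h4 := E1.site_letter hP h1
    have h5 : |site y - site x| ≤ |site y - site u| + |site u - site x| := abs_sub_le _ _ _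
    rw [List.length_cons]
    push_cast
    linarith

end

end Pool.Agent.helper261_navas
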