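import Pool.Agent.helper261_navas.EvDef
import Pool.Agent.helper261_navas.PrX
import Pool.Agent.helper261_navas.PrE1
import Pool.Agent.helper261_navas.Aux1

set_option autoImplicit false

namespace Pool.Agent.helper261_navas

open Classical

noncomputable section

/-! # E2: comparison -/

namespace E2

/-- the class of a stack: site and zone of its top -/
def cl (x : X) : ℤ × ℤ × ℤ := ((top x).e, (top x).m, (top x).l)

theorem cl_lt {u v u' v' : X} (hu : cl u = cl u') (hv : cl v = cl v') (huv : u < v) (hne : cl u ≠ cl v) :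
    u' < v' := by
  simp only [cl, Prod.mk.injEq] at hu hv
  obtain ⟨hu1, hu2, hu3⟩ := hu
  obtain ⟨hv1, hv2, hv3⟩ := hv
  rw [X.lt_iff] at huv ⊢
  left
  rcases huv with h | ⟨h, _⟩
  · rw [M.lt_iff] at h ⊢
    rw [← hu1, ← hu2, ← hu3, ← hv1, ← hv2, ← hv3]
    rcases h with h | ⟨h1, h | ⟨h2, h | ⟨h3, _⟩⟩⟩
    · exact Or.inl h
    · exact Or.inr ⟨h1, Or.inl h⟩
    · exact Or.inr ⟨h1, Or.inr ⟨h2, Or.inl h⟩⟩
    · exact absurd (by simp only [cl]; rw [h1, h2, h3]) hne
  · exact absurd (by simp only [cl]; rw [h]) hne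

theorem lift_lt (f : CAut) (x y : X) : lift f x < lift f y ↔ x < y := liftFun_lt f x y

theorem cl_InU {x y : X} (h : cl x = cl y) (hx : InU x) : InU y := by
  simp only [cl, Prod.mk.injEq] at h
  unfold InU at hx ⊢
  rw [← h.2.1, ← h.2.2]; exact hx

theorem cl_site {x y : X} (h : cl x = cl y) : site x = site y := by
  simp only [cl, Prod.mk.injEq] at h
  exact h.1

theorem cl_std {x y : X} (h : cl x = cl y) : stdm x = stdm y ∧ stdl x = stdl y := by
  simp only [cl, Prod.mk.injEq] at h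
  unfold stdm stdl site
  rw [h.1, h.2.1, h.2.2]
  exact ⟨rfl, rfl⟩

theorem cl_cont {P : ℤ → Content} {N : ℕ} (hP : WellP P) {j : ℤ} {d : Bool} {x y : X}
    (h : Ev P N [.cont j d] x y) : cl y = cl x := by
  have := Ev.cont_zone hP h
  simp only [cl]
  rw [this.1, this.2.1, this.2.2]

/-- the class after a zone round trip -/
theorem cl_pi {P : ℤ → Content} {N : ℕ} (hP : WellP P) {d : Bool} {x y' : X}
    (h1 : Ev P N [.cont (stdm x) d] (lift (Zsh (stdm x) (stdl x))⁻¹ x) y') :
    cl (lift (Zsh (stdm x) (stdl x)) y') = cl x := by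
  have hz1 := Ev.cont_zone hP h1
  have hU : InU y' := by
    have := InU_Zsh_inv x
    unfold InU at this ⊢
    rw [hz1.2.1, hz1.2.2]; exact this
  have hs : site y' = site x := by
    have := site_Zsh_inv x
    unfold site at this ⊢
    rw [hz1.1, this]
  have h := sgn_mul_self (site x)
  simp only [cl]
  rw [top_Zsh _ _ _ hU, hs]
  simp only [Prod.mk.injEq]
  refine ⟨hs, ?_, ?_⟩
  · unfold stdm; linear_combination ((top x).m) * h
  · unfold stdl; linear_combination ((top x).l) * h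

/-- the statement to be proved by induction -/
def Cmp (x x' y y' : X) : Prop := (x < x' → y < y') ∧ (x = x' → y = y')

theorem Cmp.trans {x x' y y' z z' : X} (h1 : Cmp x x' y y') (h2 : Cmp y y' z z') : Cmp x x' z z' :=
  ⟨fun h => h2.1 (h1.1 h), fun h => h2.2 (h1.2 h)⟩

/-- comparison of class preserving maps: it suffices to treat equal classes -/
theorem Cmp.of_cl {x x' y y' : X} (hx : cl y = cl x) (hx' : cl y' = cl x') (h : cl x = cl x' → Cmp x x' y y') :
    Cmp x x' y y' := by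
  by_cases hc : cl x = cl x'
  · exact h hc
  · refine ⟨fun hlt => cl_lt hx.symm hx'.symm hlt hc, fun he => ?_⟩
    exact absurd (by rw [he]) hc

theorem Cmp.refl (x x' : X) : Cmp x x' x x' := ⟨id, id⟩

theorem Cmp.lift (f : CAut) (x x' : X) : Cmp x x' (lift f x) (lift f x') :=
  ⟨fun h => (lift_lt f x x').2 h, fun h => by rw [h]⟩

theorem Cmp.at_ (φ : X ≃o X) (e : ℤ) (x x' : X) : Cmp x x' (at_ φ e x) (at_ φ e x') :=
  ⟨fun h => (at_lt φ e x x').2 h, fun h => by rw [h]⟩

/-- comparison of two clamp steps -/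
theorem Vup_conv {d : Bool} {n : ℕ} {ell : X} {c : ℤ} {x y z : X} (hx : Vup d n ell c x) (hz : Vup d n ell c z)
    (h1 : x < y) (h2 : y ≤ z) : Vup d n ell c y := by
  unfold Vup Vp Vm at *
  cases d
  · exact ⟨lt_trans hx.1 h1, lt_of_le_of_lt h2 hz.2⟩
  · exact ⟨lt_trans hx.1 h1, lt_of_le_of_lt h2 hz.2⟩

theorem Vdn_conv {d : Bool} {n : ℕ} {ell : X} {c : ℤ} {x y z : X} (hx : Vdn d n ell c x) (hz : Vdn d n ell c z)
    (h1 : x ≤ y) (h2 : y < z) : Vdn d n ell c y := by
  unfold Vdn Vp Vm at *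
  cases d
  · exact ⟨lt_of_lt_of_le hx.1 h1, lt_trans h2 hz.2⟩
  · exact ⟨lt_of_lt_of_le hx.1 h1, lt_trans h2 hz.2⟩

end E2

theorem Ev.cmp_aux {P : ℤ → Content} {N : ℕ} (hP : WellP P) {l : List Atom} {x y : X} (h : Ev P N l x y) :
    ∀ x' y', Ev P N l x' y' → E2.Cmp x x' y y' := by
  induction h with
  | nil x => intro x' y' h'; cases h'; exact E2.Cmp.refl _ _
  | sg d l x y hb _ ih =>
    intro x' y' h'
    cases h' with
    | sg _ _ _ _ hb' h1' => exact (E2.Cmp.lift _ _ _).trans (ih _ _ h1')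
  | bt d l x y hb _ ih =>
    intro x' y' h'
    cases h' with
    | bt _ _ _ _ hb' h1' => exact (E2.Cmp.lift _ _ _).trans (ih _ _ h1')
  | om d l x y _ ih =>
    intro x' y' h'
    cases h' with
    | om _ _ _ _ h1' => exact (E2.Cmp.lift _ _ _).trans (ih _ _ h1')
  | pi_off d l x y hb hz _ ih =>
    intro x' y' h'
    cases h' with
    | pi_off _ _ _ _ hb' hz' h1' => exact ih _ _ h1'
    | pi_on _ _ _ _ u' hb' hz' h1' h2' =>
      refine E2.Cmp.trans (E2.Cmp.of_cl rfl (E2.cl_pi hP h1') ?_) (ih _ _ h2')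
      intro hc
      have := (E2.cl_std hc).2
      omega
  | pi_on d l x y u hb hz h1 h2 ih1 ih2 =>
    intro x' y' h'
    cases h' with
    | pi_off _ _ _ _ hb' hz' h1' =>
      refine E2.Cmp.trans (E2.Cmp.of_cl (E2.cl_pi hP h1) rfl ?_) (ih2 _ _ h1')
      intro hc
      have := (E2.cl_std hc).2
      omega
    | pi_on _ _ _ _ u' hb' hz' h1' h2' =>
      refine E2.Cmp.trans (E2.Cmp.of_cl (E2.cl_pi hP h1) (E2.cl_pi hP h1') ?_) (ih2 _ _ h2')
      intro hc
      obtain ⟨hm, hl⟩ := E2.cl_std hc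
      rw [← hm, ← hl] at h1'
      rw [← hm, ← hl]
      exact (E2.Cmp.lift _ _ _).trans ((ih1 _ _ h1').trans (E2.Cmp.lift _ _ _))
  | cont_out j d l x y hU _ ih =>
    intro x' y' h'
    obtain ⟨u', h1', h2'⟩ := Ev.split (l := [Atom.cont j d]) h'
    refine E2.Cmp.trans (E2.Cmp.of_cl rfl (E2.cl_cont hP h1') ?_) (ih _ _ h2')
    intro hc
    have hU' : ¬ InU x' := fun h => hU (E2.cl_InU hc.symm h)
    cases h1' with
    | cont_out _ _ _ _ _ _ h3 => cases h3; exact E2.Cmp.refl _ _
    | cont_off _ _ _ _ _ hU2 _ _ _ _ => exact absurd hU2 hU'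
    | cont_fix _ _ _ _ _ _ _ _ hU2 _ _ _ _ _ => exact absurd hU2 hU'
    | cont_miss _ _ _ _ _ _ _ _ _ _ _ _ hU2 _ _ _ _ _ _ => exact absurd hU2 hU'
    | cont_exec _ _ _ _ _ _ _ _ _ _ _ _ _ _ _ hU2 _ _ _ _ _ _ _ _ => exact absurd hU2 hU'
  | cont_off j d l x y hU hb hj hi _ ih =>
    intro x' y' h'
    obtain ⟨u', h1', h2'⟩ := Ev.split (l := [Atom.cont j d]) h'
    refine E2.Cmp.trans (E2.Cmp.of_cl rfl (E2.cl_cont hP h1') ?_) (ih _ _ h2')
    intro hc
    have hU' : InU x' := E2.cl_InU hc hU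
    have hs := E2.cl_site hc
    rw [hs] at hi
    cases h1' with
    | cont_out _ _ _ _ _ h3 _ => exact absurd hU' h3
    | cont_off _ _ _ _ _ _ _ _ _ h3 => cases h3; exact E2.Cmp.refl _ _
    | cont_fix _ _ _ _ _ _ _ _ _ _ _ hPj hl _ => rw [hPj] at hi; exact absurd hl hi
    | cont_miss _ _ _ _ _ _ _ _ _ _ _ _ _ _ _ hPj hl _ _ => rw [hPj] at hi; exact absurd hl hi
    | cont_exec _ _ _ _ _ _ _ _ _ _ _ _ _ _ _ _ _ _ hPj hl _ _ _ _ => rw [hPj] at hi; exact absurd hl hi
  | cont_fix j d l x y γ lev φ hU hb hj hPj hl _ ih =>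
    intro x' y' h'
    obtain ⟨u', h1', h2'⟩ := Ev.split (l := [Atom.cont j d]) h'
    have h1 : Ev P N [Atom.cont j d] x (at_ (pw φ d) (site x) x) :=
      Ev.cont_fix j d _ _ _ γ lev φ hU hb hj hPj hl (Ev.nil _)
    refine E2.Cmp.trans (E2.Cmp.of_cl (E2.cl_cont hP h1) (E2.cl_cont hP h1') ?_) (ih _ _ h2')
    intro hc
    have hU' : InU x' := E2.cl_InU hc hU
    have hs := E2.cl_site hc
    rw [hs] at hl
    cases h1' with
    | cont_out _ _ _ _ _ h3 _ => exact absurd hU' h3
    | cont_off _ _ _ _ _ _ _ _ hi h3 => rw [hPj] at hi; exact absurd hl hi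
    | cont_fix _ _ _ _ _ _ _ _ _ _ _ hPj' hl' h3 =>
      rw [hPj] at hPj'; cases hPj'; cases h3
      rw [hs]
      exact E2.Cmp.at_ _ _ _ _
    | cont_miss _ _ _ _ _ _ _ _ _ _ _ _ _ _ _ hPj' hl _ _ => rw [hPj] at hPj'; cases hPj'
    | cont_exec _ _ _ _ _ _ _ _ _ _ _ _ _ _ _ _ _ _ hPj' hl _ _ _ _ => rw [hPj] at hPj'; cases hPj'
  | cont_miss j d l x y k b n z w r ell hU hb hj hPj hcl ht _ ih =>
    intro x' y' h'
    obtain ⟨u', h1', h2'⟩ := Ev.split (l := [Atom.cont j d]) h'
    refine E2.Cmp.trans (E2.Cmp.of_cl rfl (E2.cl_cont hP h1') ?_) (ih _ _ h2')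
    intro hc
    have hU' : InU x' := E2.cl_InU hc hU
    have hs := E2.cl_site hc
    rw [hs] at hcl ht
    cases h1' with
    | cont_out _ _ _ _ _ h3 _ => exact absurd hU' h3
    | cont_off _ _ _ _ _ _ _ _ hi h3 => rw [hPj] at hi; exact absurd hcl hi
    | cont_fix _ _ _ _ _ _ _ _ _ _ _ hPj' hl' h3 => rw [hPj] at hPj'; cases hPj'
    | cont_miss _ _ _ _ _ _ _ _ _ _ _ _ _ _ _ _ _ _ h3 => cases h3; exact E2.Cmp.refl _ _
    | cont_exec _ _ _ _ _ _ _ _ _ _ _ _ hh ξ' η' _ _ _ hPj' hl' ht' hx' _ h3 =>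
      rw [hPj] at hPj'; cases hPj'; cases h3
      refine ⟨fun hlt => ?_, fun he => ?_⟩
      · rw [X.lt_iff] at hlt ⊢
        rcases hlt with hlt | ⟨hlt, _⟩
        · exact Or.inl hlt
        · exact absurd (hlt.trans ht') ht
      · exact absurd ((congrArg top he).trans ht') ht
  | cont_exec j d l x y k b n z w r ell h ξ η hU hb hj hPj hcl ht hx hev hl1 ih1 ih2 =>
    intro x' y' h'
    obtain ⟨u', h1', h2'⟩ := Ev.split (l := [Atom.cont j d]) h'
    refine E2.Cmp.trans (E2.Cmp.of_cl (y := cons (top x) h η) (show E2.cl (cons (top x) h η) = E2.cl x from rfl)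
      (E2.cl_cont hP h1') ?_) (ih2 _ _ h2')
    intro hc
    have hU' : InU x' := E2.cl_InU hc hU
    have hs := E2.cl_site hc
    have hcl2 := hcl
    have ht2 := ht
    rw [hs] at hcl2 ht2
    cases h1' with
    | cont_out _ _ _ _ _ h3 _ => exact absurd hU' h3
    | cont_off _ _ _ _ _ _ _ _ hi h3 => rw [hPj] at hi; exact absurd hcl2 hi
    | cont_fix _ _ _ _ _ _ _ _ _ _ _ hPj' hl' h3 => rw [hPj] at hPj'; cases hPj'
    | cont_miss _ _ _ _ _ _ _ _ _ _ _ _ _ _ _ hPj' _ ht' h3 =>
      rw [hPj] at hPj'; cases hPj'; cases h3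
      refine ⟨fun hlt => ?_, fun he => ?_⟩
      · rw [X.lt_iff] at hlt ⊢
        rcases hlt with hlt | ⟨hlt, _⟩
        · exact Or.inl hlt
        · exact absurd (hlt.symm.trans ht2) ht'
      · exact absurd ((congrArg top he).symm.trans ht2) ht'
    | cont_exec _ _ _ _ _ _ _ _ _ _ _ _ hh ξ' η' _ _ _ hPj' hl' ht' hx' hev' h3 =>
      rw [hPj] at hPj'; cases hPj'; cases h3
      have htt : top x = top x' := ht2.trans ht'.symm
      rw [← hs] at hev'
      have hcmp := ih1 _ _ hev'
      refine ⟨fun hlt => ?_, fun he => ?_⟩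
      · rw [X.lt_iff] at hlt ⊢
        rcases hlt with hlt | ⟨_, hlt⟩
        · exact absurd htt (ne_of_lt hlt)
        · right
          refine ⟨htt, ?_⟩
          rw [hx, hx'] at hlt
          exact hcmp.1 hlt
      · rw [X.ext_iff']
        refine ⟨htt, ?_⟩
        have h5 : ξ = ξ' := by
          have h7 : x.1.tail = x'.1.tail := by rw [he]
          rw [hx, hx', tail_cons, tail_cons] at h7
          exact Subtype.ext h7
        have h6 := hcmp.2 h5
        rw [tail_cons, tail_cons, h6]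
  | step_out w n ell c d l x y hp hm _ ih =>
    intro x' y' h'
    have key : ∀ u', Ev P N [Atom.step w n ell c d] x' u' → E2.Cmp x x' x u' := by
      intro u' h1'
      cases h1' with
      | step_out _ _ _ _ _ _ _ _ _ _ h3 => cases h3; exact E2.Cmp.refl _ _
      | step_up _ _ _ _ _ _ _ v' _ hev' hlt' hv1 hv2 h3 =>
        cases h3
        refine ⟨fun h => lt_trans h hlt', fun he => ?_⟩
        subst he
        cases d
        · exact absurd hv1 hm
        · exact absurd hv1 hp
      | step_dn _ _ _ _ _ _ _ v' _ hev' hlt' hv1 hv2 h3 =>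
        cases h3
        refine ⟨fun h => ?_, fun he => ?_⟩
        · by_contra hcon
          rw [not_lt] at hcon
          have := E2.Vdn_conv hv2 hv1 hcon h
          cases d
          · exact hp this
          · exact hm this
        · subst he
          cases d
          · exact absurd hv1 hp
          · exact absurd hv1 hm
      | step_not _ _ _ _ _ _ _ v' v'' _ hev' hev'' _ _ _ _ h3 => cases h3; exact E2.Cmp.refl _ _
    obtain ⟨u', h1', h2'⟩ := Ev.split (l := [Atom.step w n ell c d]) h'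
    exact (key u' h1').trans (ih _ _ h2')
  | step_up w n ell c d l x v y hev hlt hv1 hv2 _ ih1 ih2 =>
    intro x' y' h'
    have key : ∀ u', Ev P N [Atom.step w n ell c d] x' u' → E2.Cmp x x' v u' := by
      intro u' h1'
      cases h1' with
      | step_out _ _ _ _ _ _ _ _ hp hm h3 =>
        cases h3
        refine ⟨fun h => ?_, fun he => ?_⟩
        · by_contra hcon
          rw [not_lt] at hcon
          have := E2.Vup_conv hv1 hv2 h hcon
          cases d
          · exact hm this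
          · exact hp this
        · subst he
          cases d
          · exact absurd hv1 hm
          · exact absurd hv1 hp
      | step_up _ _ _ _ _ _ _ v' _ hev' hlt' hv1' hv2' h3 =>
        cases h3
        exact ih1 _ _ hev'
      | step_dn _ _ _ _ _ _ _ v' _ hev' hlt' hv1' hv2' h3 =>
        cases h3
        exact ih1 _ _ hev'
      | step_not _ _ _ _ _ _ _ v' v'' _ hev' hev'' hn1 hn2 _ _ h3 =>
        cases h3
        have hcmp := ih1 _ _ hev'
        refine ⟨fun h => ?_, fun he => ?_⟩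
        · by_contra hcon
          rw [not_lt] at hcon
          have h5 := E2.Vup_conv hv1 hv2 h hcon
          have h6 : ¬ x' < v' := fun h7 => hn1 ⟨h7, h5⟩
          rw [not_lt] at h6
          exact absurd (lt_of_lt_of_le (hcmp.1 h) (le_trans h6 hcon)) (lt_irrefl _)
        · subst he
          have h5 := hcmp.2 rfl
          rw [← h5] at hn1
          exact absurd ⟨hlt, hv1⟩ hn1
    obtain ⟨u', h1', h2'⟩ := Ev.split (l := [Atom.step w n ell c d]) h'
    exact (key u' h1').trans (ih2 _ _ h2')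
  | step_dn w n ell c d l x v y hev hlt hv1 hv2 _ ih1 ih2 =>
    intro x' y' h'
    have key : ∀ u', Ev P N [Atom.step w n ell c d] x' u' → E2.Cmp x x' v u' := by
      intro u' h1'
      cases h1' with
      | step_out _ _ _ _ _ _ _ _ hp hm h3 =>
        cases h3
        refine ⟨fun h => lt_trans hlt h, fun he => ?_⟩
        subst he
        cases d
        · exact absurd hv1 hp
        · exact absurd hv1 hm
      | step_up _ _ _ _ _ _ _ v' _ hev' hlt' hv1' hv2' h3 =>
        cases h3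
        exact ih1 _ _ hev'
      | step_dn _ _ _ _ _ _ _ v' _ hev' hlt' hv1' hv2' h3 =>
        cases h3
        exact ih1 _ _ hev'
      | step_not _ _ _ _ _ _ _ v' v'' _ hev' hev'' hn1 hn2 _ _ h3 =>
        cases h3
        refine ⟨fun h => lt_trans hlt h, fun he => ?_⟩
        subst he
        have h5 := (ih1 _ _ hev').2 rfl
        rw [← h5] at hn2
        exact absurd ⟨hlt, hv1⟩ hn2
    obtain ⟨u', h1', h2'⟩ := Ev.split (l := [Atom.step w n ell c d]) h'
    exact (key u' h1').trans (ih2 _ _ h2')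
  | step_not w n ell c d l x v v2 y hev hev2 hn1 hn2 hn3 hn4 _ ih1 _ ih3 =>
    intro x' y' h'
    have key : ∀ u', Ev P N [Atom.step w n ell c d] x' u' → E2.Cmp x x' x u' := by
      intro u' h1'
      cases h1' with
      | step_out _ _ _ _ _ _ _ _ hp hm h3 => cases h3; exact E2.Cmp.refl _ _
      | step_up _ _ _ _ _ _ _ v' _ hev' hlt' hv1' hv2' h3 =>
        cases h3
        refine ⟨fun h => lt_trans h hlt', fun he => ?_⟩
        subst he
        have h5 := (ih1 _ _ hev').2 rfl
        rw [h5] at hn1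
        exact absurd ⟨hlt', hv1'⟩ hn1
      | step_dn _ _ _ _ _ _ _ v' _ hev' hlt' hv1' hv2' h3 =>
        cases h3
        have hcmp := ih1 _ _ hev'
        refine ⟨fun h => ?_, fun he => ?_⟩
        · by_contra hcon
          rw [not_lt] at hcon
          have h5 := E2.Vdn_conv hv2' hv1' hcon h
          have h6 : ¬ v < x := fun h7 => hn2 ⟨h7, h5⟩
          rw [not_lt] at h6
          exact absurd (lt_of_le_of_lt h6 (lt_of_lt_of_le (hcmp.1 h) hcon)) (lt_irrefl _)
        · subst he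
          have h5 := hcmp.2 rfl
          rw [h5] at hn2
          exact absurd ⟨hlt', hv1'⟩ hn2
      | step_not _ _ _ _ _ _ _ v' v'' _ hev' hev'' _ _ _ _ h3 => cases h3; exact E2.Cmp.refl _ _
    obtain ⟨u', h1', h2'⟩ := Ev.split (l := [Atom.step w n ell c d]) h'
    exact (key u' h1').trans (ih3 _ _ h2')

theorem Ev.cmp {P : ℤ → Content} {N N' : ℕ} (hP : WellP P) {l : List Atom} {x y x' y' : X} (h : Ev P N l x y)
    (h' : Ev P N' l x' y') : (x < x' → y < y') ∧ (x = x' → y = y') :=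
  Ev.cmp_aux hP (Ev.bound (le_max_left N N') h) x' y' (Ev.bound (le_max_right N N') h')

end

end Pool.Agent.helper261_navas
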