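import Pool.Agent.helper261_navas.Defs2

set_option autoImplicit false

namespace Pool.Agent.helper261_navas

open Classical

noncomputable section

/-! # L: landscape arithmetic -/

namespace L

theorem NN_ne (e : ℤ) : NN e ≠ 0 := by
  unfold NN; omega

theorem NN_add (e t : ℤ) : NN (e + t) = NN e + 3 * t := by
  unfold NN; ring

theorem le_lam_iff' (n : ℕ) (e : ℤ) : n ≤ lam e ↔ (2 : ℤ) ^ n ∣ NN e := by
  have h := padicValInt_dvd_iff (p := 2) n (NN e)
  unfold lam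
  have h2 : ((2 : ℕ) : ℤ) = 2 := rfl
  rw [h2] at h
  rw [h]
  constructor
  · intro h1; exact Or.inr h1
  · rintro (h1 | h1)
    · exact absurd h1 (NN_ne e)
    · exact h1

theorem spec (e : ℤ) : ∃ o : ℤ, NN e = 2 ^ lam e * o ∧ o % 2 = 1 := by
  obtain ⟨o, ho⟩ := (le_lam_iff' (lam e) e).1 le_rfl
  refine ⟨o, ho, ?_⟩
  by_contra hodd
  have h0 : o % 2 = 0 := by omega
  obtain ⟨s, hs⟩ : ∃ s, o = 2 * s := ⟨o / 2, by omega⟩
  have : lam e + 1 ≤ lam e := by
    rw [le_lam_iff', ho, hs, pow_succ]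
    exact ⟨s, by ring⟩
  omega

theorem mk_lam (e : ℤ) (v : ℕ) (o : ℤ) (h : NN e = 2 ^ v * o) (ho : o % 2 = 1) : lam e = v ∧ oddPart e = o := by
  have h1 : v ≤ lam e := by
    rw [le_lam_iff', h]
    exact Dvd.intro _ rfl
  have h2 : ¬ v + 1 ≤ lam e := by
    rw [le_lam_iff', h, pow_succ]
    rintro ⟨s, hs⟩
    have h3 : o = 2 * s := by
      have : (2 : ℤ) ^ v * o = 2 ^ v * (2 * s) := by rw [hs]; ring
      exact mul_left_cancel₀ (by positivity) this
    omega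
  have h3 : lam e = v := by omega
  refine ⟨h3, ?_⟩
  unfold oddPart
  rw [h3, h]
  exact Int.mul_ediv_cancel_left _ (by positivity)

theorem sgn_of (e : ℤ) (v : ℕ) (o : ℤ) (h : NN e = 2 ^ v * o) (ho : o % 2 = 1) :
    sgn e = if o % 4 = 1 then 1 else -1 := by
  unfold sgn
  rw [(mk_lam e v o h ho).2]

theorem dvd_of_three (n : ℕ) (x : ℤ) (h : (2 : ℤ) ^ n ∣ 3 * x) : (2 : ℤ) ^ n ∣ x := by
  have hc : IsCoprime ((2 : ℤ) ^ n) 3 := by
    apply IsCoprime.pow_left
    exact ⟨-1, 1, by norm_num⟩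
  exact hc.dvd_of_dvd_mul_left h

/-- signs of odd parts -/
theorem sgn_mul (e e' : ℤ) (v v' : ℕ) (o o' : ℤ) (h : NN e = 2 ^ v * o) (ho : o % 2 = 1)
    (h' : NN e' = 2 ^ v' * o') (ho' : o' % 2 = 1) (ε : ℤˣ) (hε : (4 : ℤ) ∣ o' - ε * o) :
    sgn e' = ε * sgn e := by
  rw [sgn_of e v o h ho, sgn_of e' v' o' h' ho']
  rcases Int.units_eq_one_or ε with h1 | h1
  · subst h1
    simp only [Units.val_one, one_mul] at hε ⊢
    have : o' % 4 = o % 4 := by omega
    rw [this]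
  · subst h1
    simp only [Units.val_neg, Units.val_one, neg_mul, one_mul, sub_neg_eq_add] at hε ⊢
    by_cases h2 : o % 4 = 1
    · have : ¬ o' % 4 = 1 := by omega
      rw [if_pos h2, if_neg this]
    · have : o' % 4 = 1 := by omega
      rw [if_neg h2, if_pos this, neg_neg]

theorem pow_mod3 (n : ℕ) : (2 : ℤ) ^ n % 3 = 1 ∨ (2 : ℤ) ^ n % 3 = 2 := by
  induction n with
  | zero => left; norm_num
  | succ k ih =>
    rw [pow_succ]
    rcases ih with h | h
    · right; omega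
    · left; omega

theorem exists_large (n : ℕ) (B : ℤ) : ∃ p, B < p ∧ lam p = n ∧ sgn p = 1 := by
  have hp : (1 : ℤ) ≤ 2 ^ n := one_le_pow₀ (by norm_num)
  rcases pow_mod3 n with h | h
  · -- o = 12 t + 5
    set t : ℤ := |B| + 1 with ht
    have hB : B ≤ |B| := le_abs_self B
    have hB0 : 0 ≤ |B| := abs_nonneg B
    obtain ⟨p, hp2⟩ : ∃ p : ℤ, 3 * p + 2 = 2 ^ n * (12 * t + 5) := by
      refine ⟨(2 ^ n * (12 * t + 5) - 2) / 3, ?_⟩
      have : (2 ^ n * (12 * t + 5) - 2) % 3 = 0 := by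
        rw [Int.sub_emod, Int.mul_emod, h]
        omega
      omega
    refine ⟨p, ?_, (mk_lam p n (12 * t + 5) hp2 (by omega)).1, ?_⟩
    · nlinarith
    · rw [sgn_of p n (12 * t + 5) hp2 (by omega), if_pos (by omega)]
  · set t : ℤ := |B| + 1 with ht
    have hB : B ≤ |B| := le_abs_self B
    have hB0 : 0 ≤ |B| := abs_nonneg B
    obtain ⟨p, hp2⟩ : ∃ p : ℤ, 3 * p + 2 = 2 ^ n * (12 * t + 1) := by
      refine ⟨(2 ^ n * (12 * t + 1) - 2) / 3, ?_⟩
      have : (2 ^ n * (12 * t + 1) - 2) % 3 = 0 := by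
        rw [Int.sub_emod, Int.mul_emod, h]
        omega
      omega
    refine ⟨p, ?_, (mk_lam p n (12 * t + 1) hp2 (by omega)).1, ?_⟩
    · nlinarith
    · rw [sgn_of p n (12 * t + 1) hp2 (by omega), if_pos (by omega)]

/-- nonzero integers below `2 ^ (n + 1)` -/
theorem small (n : ℕ) (d : ℤ) (h0 : d ≠ 0) (h1 : |d| < 2 ^ (n + 1)) :
    ∃ (v : ℕ) (o : ℤ), v ≤ n ∧ d = 2 ^ v * o ∧ o % 2 = 1 := by
  induction n generalizing d with
  | zero =>
    refine ⟨0, d, le_rfl, by ring, ?_⟩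
    rw [abs_lt] at h1
    norm_num at h1
    omega
  | succ k ih =>
    by_cases hd : d % 2 = 1
    · exact ⟨0, d, Nat.zero_le _, by ring, hd⟩
    · obtain ⟨s, hs⟩ : ∃ s, d = 2 * s := ⟨d / 2, by omega⟩
      have hs0 : s ≠ 0 := by rintro rfl; simp at hs; exact h0 hs
      have hs1 : |s| < 2 ^ (k + 1) := by
        rw [hs, abs_mul, pow_succ] at h1
        simp only [Nat.abs_ofNat] at h1
        linarith
      obtain ⟨v, o, h2, h3, h4⟩ := ih s hs0 hs1
      refine ⟨v + 1, o, by omega, ?_, h4⟩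
      rw [hs, h3, pow_succ]; ring

end L

theorem le_lam_iff (n : ℕ) (e : ℤ) : n ≤ lam e ↔ (2 : ℤ) ^ n ∣ NN e := L.le_lam_iff' n e

theorem exists_lam_eq (n : ℕ) (B : ℤ) : ∃ p, B < p ∧ lam p = n := by
  obtain ⟨p, h1, h2, _⟩ := L.exists_large n B
  exact ⟨p, h1, h2⟩

theorem le_lam_add_iff (n : ℕ) (e t : ℤ) (h : (2 : ℤ) ^ n ∣ t) : n ≤ lam (e + t) ↔ n ≤ lam e := by
  rw [le_lam_iff, le_lam_iff, L.NN_add]
  exact (dvd_add_left (Dvd.dvd.mul_left h 3))

/-- sites of level at least `n` are a residue class -/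
theorem dvd_sub_of_le_lam (n : ℕ) (e e' : ℤ) (h : n ≤ lam e) (h' : n ≤ lam e') : (2 : ℤ) ^ n ∣ e' - e := by
  rw [le_lam_iff] at h h'
  apply L.dvd_of_three
  have : 3 * (e' - e) = NN e' - NN e := by unfold NN; ring
  rw [this]
  exact dvd_sub h' h

theorem dvd_sub_of_lam_eq (n : ℕ) (e e' : ℤ) (h : lam e = n) (h' : lam e' = n) : (2 : ℤ) ^ (n + 1) ∣ e' - e := by
  obtain ⟨o, ho, ho2⟩ := L.spec e
  obtain ⟨o', ho', ho2'⟩ := L.spec e'
  rw [h] at ho
  rw [h'] at ho'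
  apply L.dvd_of_three
  obtain ⟨s, hs⟩ : ∃ s, o' - o = 2 * s := ⟨(o' - o) / 2, by omega⟩
  have : 3 * (e' - e) = NN e' - NN e := by unfold NN; ring
  rw [this, ho, ho', ← mul_sub, hs, pow_succ]
  exact ⟨s, by ring⟩

theorem lam_reflect (p e : ℤ) (h : lam e < lam p) : lam (2 * p - e) = lam e := by
  obtain ⟨o, ho, ho2⟩ := L.spec e
  obtain ⟨s, hs⟩ := (le_lam_iff (lam e + 1) p).1 h
  have h1 : NN (2 * p - e) = 2 ^ lam e * (4 * s - o) := by
    have : NN (2 * p - e) = 2 * NN p - NN e := by unfold NN; ring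
    rw [this, hs, ho, pow_succ]; ring
  exact (L.mk_lam _ _ _ h1 (by omega)).1

theorem sgn_reflect (p e : ℤ) (h : lam e < lam p) : sgn (2 * p - e) = - sgn e := by
  obtain ⟨o, ho, ho2⟩ := L.spec e
  obtain ⟨s, hs⟩ := (le_lam_iff (lam e + 1) p).1 h
  have h1 : NN (2 * p - e) = 2 ^ lam e * (4 * s - o) := by
    have : NN (2 * p - e) = 2 * NN p - NN e := by unfold NN; ring
    rw [this, hs, ho, pow_succ]; ring
  have := L.sgn_mul e (2 * p - e) (lam e) (lam e) o (4 * s - o) ho ho2 h1 (by omega) (-1) (by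
    simp only [Units.val_neg, Units.val_one]
    omega)
  rw [this]
  simp

theorem lam_translate (e t : ℤ) (h : (2 : ℤ) ^ (lam e + 1) ∣ t) : lam (e + t) = lam e := by
  obtain ⟨o, ho, ho2⟩ := L.spec e
  obtain ⟨s, hs⟩ := h
  have h1 : NN (e + t) = 2 ^ lam e * (o + 6 * s) := by
    rw [L.NN_add, ho, hs, pow_succ]; ring
  exact (L.mk_lam _ _ _ h1 (by omega)).1

theorem sgn_translate (e t : ℤ) (h : (2 : ℤ) ^ (lam e + 2) ∣ t) : sgn (e + t) = sgn e := by
  obtain ⟨o, ho, ho2⟩ := L.spec e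
  obtain ⟨s, hs⟩ := h
  have h1 : NN (e + t) = 2 ^ lam e * (o + 12 * s) := by
    rw [L.NN_add, ho, hs, pow_succ, pow_succ]; ring
  have := L.sgn_mul e (e + t) (lam e) (lam e) o (o + 12 * s) ho ho2 h1 (by omega) 1 (by
    simp only [Units.val_one]
    omega)
  rw [this, one_mul]

theorem lam_near (n : ℕ) (c e : ℤ) (h : n + 1 ≤ lam c) (h0 : e ≠ c) (h1 : |e - c| < 2 ^ (n + 1)) : lam e ≤ n := by
  by_contra hlt
  have h2 := dvd_sub_of_le_lam (n + 1) c e h (by omega)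
  have h3 : e - c = 0 := Int.eq_zero_of_abs_lt_dvd h2 h1
  exact h0 (by omega)

theorem lam_pow (n : ℕ) (c : ℤ) (h : n + 1 ≤ lam c) : lam (c + 2 ^ n) = n ∧ lam (c - 2 ^ n) = n := by
  obtain ⟨s, hs⟩ := (le_lam_iff (n + 1) c).1 h
  constructor
  · have h1 : NN (c + 2 ^ n) = 2 ^ n * (2 * s + 3) := by
      rw [L.NN_add, hs, pow_succ]; ring
    exact (L.mk_lam _ _ _ h1 (by omega)).1
  · have h1 : NN (c - 2 ^ n) = 2 ^ n * (2 * s - 3) := by
      rw [sub_eq_add_neg, L.NN_add, hs, pow_succ]; ring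
    exact (L.mk_lam _ _ _ h1 (by omega)).1

theorem lam_pow' (n : ℕ) (q : ℤ) (h : lam q = n) : n + 1 ≤ lam (q + 2 ^ n) ∧ n + 1 ≤ lam (q - 2 ^ n) := by
  obtain ⟨o, ho, ho2⟩ := L.spec q
  rw [h] at ho
  obtain ⟨s, hs⟩ : ∃ s, o = 2 * s + 1 := ⟨o / 2, by omega⟩
  constructor
  · rw [le_lam_iff, L.NN_add, ho, hs, pow_succ]
    exact ⟨s + 2, by ring⟩
  · rw [le_lam_iff, sub_eq_add_neg, L.NN_add, ho, hs, pow_succ]
    exact ⟨s - 1, by ring⟩

theorem even_of_lam_pos (c : ℤ) (h : 0 < lam c) : Even c := by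
  have h1 : 1 ≤ lam c := h
  rw [le_lam_iff] at h1
  unfold NN at h1
  rw [Int.even_iff]
  norm_num at h1
  omega

namespace L

theorem pos_of_cls (b : Bool) (n v : ℕ) (h : cls b n v) : n + 1 ≤ v := by
  unfold cls at h
  cases b
  · simp at h; omega
  · simp at h; omega

/-- the odd part near a centre -/
theorem near_center (b : Bool) (n : ℕ) (c : ℤ) (h : cls b n (lam c)) (v : ℕ) (o : ℤ) (hv : v ≤ n) (ho : o % 2 = 1) :
    ∃ s : ℤ, NN (c + 2 ^ v * o) = 2 ^ v * (3 * o + s) ∧ s % 4 = (if v = n ∧ b = false then 2 else 0) := by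
  obtain ⟨k, rfl⟩ := Nat.exists_eq_add_of_le hv
  cases b
  · unfold cls at h
    simp only [Bool.false_eq_true, if_false] at h
    obtain ⟨p, hp, hp2⟩ := spec c
    rw [h] at hp
    refine ⟨2 ^ (k + 1) * p, ?_, ?_⟩
    · rw [NN_add, hp]
      ring
    · by_cases hk : k = 0
      · subst hk
        simp only [and_true, if_true, zero_add, pow_one]
        simp
        omega
      · obtain ⟨j, rfl⟩ := Nat.exists_eq_succ_of_ne_zero hk
        rw [if_neg (by omega)]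
        have : (2 : ℤ) ^ (j.succ + 1) * p = 4 * (2 ^ j * p) := by
          rw [Nat.succ_eq_add_one]; ring
        rw [this]; omega
  · unfold cls at h
    simp only [if_true] at h
    obtain ⟨p, hp⟩ := (le_lam_iff' (v + k + 2) c).1 h
    refine ⟨2 ^ (k + 2) * p, ?_, ?_⟩
    · rw [NN_add, hp]
      ring
    · rw [if_neg (by simp)]
      have : (2 : ℤ) ^ (k + 2) * p = 4 * (2 ^ k * p) := by ring
      rw [this]; omega

end L

/-- two centres of the same class look the same, up to an isometry -/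
theorem class_iso (b : Bool) (n : ℕ) (c c' : ℤ) (h : cls b n (lam c)) (h' : cls b n (lam c')) :
    Even ((R c' * (R c)⁻¹).t) ∧ ∀ e, |e - c| < 2 ^ (n + 1) → (e ≠ c → lam ((R c' * (R c)⁻¹).site e) = lam e) ∧
      sgn ((R c' * (R c)⁻¹).site e) = (R c' * (R c)⁻¹).ε * sgn e := by
  have hc := even_of_lam_pos c (by have := L.pos_of_cls b n _ h; omega)
  have hc' := even_of_lam_pos c' (by have := L.pos_of_cls b n _ h'; omega)
  have hε : (R c' * (R c)⁻¹).ε = sgn c' * sgn c := rfl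
  have ht : (R c' * (R c)⁻¹).t = c' - ((sgn c' * sgn c : ℤˣ) : ℤ) * c := by
    rw [Iso2.mul_t, Iso2.inv_t]
    change c' + (sgn c' : ℤ) * (-((sgn c : ℤ) * c)) = _
    push_cast; ring
  refine ⟨?_, ?_⟩
  · rw [ht]
    exact hc'.sub (hc.mul_left _)
  · intro e he
    set ε : ℤˣ := sgn c' * sgn c with hεd
    have hs : (R c' * (R c)⁻¹).site e = c' + ε * (e - c) := by
      unfold Iso2.site
      rw [ht, hε]; ring
    rw [hs, hε]
    by_cases hec : e = c
    · subst hec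
      refine ⟨fun h0 => absurd rfl h0, ?_⟩
      rw [sub_self, mul_zero, add_zero, hεd, mul_assoc, Int.units_mul_self, mul_one]
    · obtain ⟨v, o, hv, hd, ho⟩ := L.small n (e - c) (sub_ne_zero.2 hec) he
      have he2 : e = c + 2 ^ v * o := by rw [← hd]; ring
      have hεo : ((ε : ℤ) * o) % 2 = 1 := by
        rcases Int.units_eq_one_or ε with h1 | h1 <;> rw [h1] <;> simp <;> omega
      obtain ⟨s, hs1, hs2⟩ := L.near_center b n c h v o hv ho
      obtain ⟨s', hs1', hs2'⟩ := L.near_center b n c' h' v (ε * o) hv hεo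
      have he3 : c' + (ε : ℤ) * (e - c) = c' + 2 ^ v * (ε * o) := by rw [hd]; ring
      rw [he3]
      have hso : (3 * o + s) % 2 = 1 := by
        split_ifs at hs2 <;> omega
      have hso' : (3 * ((ε : ℤ) * o) + s') % 2 = 1 := by
        split_ifs at hs2' <;> omega
      have h1 := L.mk_lam _ _ _ hs1 hso
      have h2 := L.mk_lam _ _ _ hs1' hso'
      refine ⟨fun _ => ?_, ?_⟩
      · rw [h2.1, he2, h1.1]
      · rw [he2]
        refine L.sgn_mul _ _ _ _ _ _ hs1 hso hs1' hso' ε ?_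
        rcases Int.units_eq_one_or ε with h3 | h3 <;> rw [h3] <;> simp only [Units.val_neg, Units.val_one] <;>
          split_ifs at hs2 hs2' <;> omega

theorem host_class (b : Bool) (n : ℕ) (c : ℤ) (h : cls b n (lam c)) :
    cls (!b) n (lam (c + 2 ^ (n + 1))) ∧ cls (!b) n (lam (c - 2 ^ (n + 1))) := by
  cases b
  · unfold cls at h ⊢
    simp only [Bool.false_eq_true, if_false, Bool.not_false, if_true] at h ⊢
    have := lam_pow' (n + 1) c h
    omega
  · unfold cls at h ⊢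
    simp only [Bool.not_true, Bool.false_eq_true, if_false, if_true] at h ⊢
    exact lam_pow (n + 1) c (by omega)

theorem exists_center_pos (b : Bool) (n : ℕ) : ∃ c, cls b n (lam c) ∧ sgn c = 1 := by
  cases b
  · obtain ⟨c, _, h1, h2⟩ := L.exists_large (n + 1) 0
    refine ⟨c, ?_, h2⟩
    unfold cls
    simp [h1]
  · obtain ⟨c, _, h1, h2⟩ := L.exists_large (n + 2) 0
    refine ⟨c, ?_, h2⟩
    unfold cls
    simp [h1]

theorem sgn_zero : sgn 0 = 1 := by
  rw [L.sgn_of 0 1 1 (by unfold NN; norm_num) (by norm_num)]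
  simp

end

end Pool.Agent.helper261_navas
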