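import Pool.Agent.helper261_navas.EvDef
import Pool.Agent.helper261_navas.PrL
import Pool.Agent.helper261_navas.PrO
import Pool.Agent.helper261_navas.PrX
import Pool.Agent.helper261_navas.PrE1
import Pool.Agent.helper261_navas.PrE2

set_option autoImplicit false

namespace Pool.Agent.helper261_navas

open Classical

noncomputable section

/-! # A: automorphisms -/

namespace A

theorem inv_inv (a : Atom) : a.inv.inv = a := by
  cases a <;> simp [Atom.inv]

theorem invl_single (a : Atom) : invl [a] = [a.inv] := rfl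

theorem unique {P : ℤ → Content} (hP : WellP P) {N N' : ℕ} {l : List Atom} {x y y' : X} (h : Ev P N l x y)
    (h' : Ev P N' l x y') : y = y' := (Ev.cmp hP h h').2 rfl

/-- a total atom with total inverse acts as an automorphism -/
theorem exists_aut {P : ℤ → Content} (hP : WellP P) (at' : Atom) (ht : ∀ x, ∃ N y, Ev P N [at'] x y)
    (ht' : ∀ x, ∃ N y, Ev P N [at'.inv] x y) : ∃ g : X ≃o X, (∀ x y, (∃ N, Ev P N [at'] x y) ↔ g x = y) ∧
      (∀ x y, (∃ N, Ev P N [at'.inv] x y) ↔ g⁻¹ x = y) := by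
  choose N1 f1 h1 using ht
  choose N2 f2 h2 using ht'
  have e1 : ∀ x y, (∃ N, Ev P N [at'] x y) ↔ f1 x = y := by
    intro x y
    constructor
    · rintro ⟨N, h⟩
      exact unique hP (h1 x) h
    · rintro rfl
      exact ⟨_, h1 x⟩
  have e2 : ∀ x y, (∃ N, Ev P N [at'.inv] x y) ↔ f2 x = y := by
    intro x y
    constructor
    · rintro ⟨N, h⟩
      exact unique hP (h2 x) h
    · rintro rfl
      exact ⟨_, h2 x⟩
  have hl : ∀ x, f2 (f1 x) = x := by
    intro x
    rw [← e2]
    exact ⟨_, Ev.inv hP (h1 x)⟩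
  have hr : ∀ x, f1 (f2 x) = x := by
    intro x
    rw [← e1]
    have := Ev.inv hP (h2 x)
    rw [invl_single, inv_inv] at this
    exact ⟨_, this⟩
  have hm : StrictMono f1 := fun x y hxy => (Ev.cmp hP (h1 x) (h1 y)).1 hxy
  refine ⟨{ toFun := f1, invFun := f2, left_inv := hl, right_inv := hr, map_rel_iff' := ?_ }, ?_, ?_⟩
  · intro a b
    exact hm.le_iff_le
  · intro x y
    exact e1 x y
  · intro x y
    exact e2 x y

theorem split_cons {P : ℤ → Content} {N : ℕ} {a : Atom} {l : List Atom} {x z : X} (h : Ev P N (a :: l) x z) :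
    ∃ y, Ev P N [a] x y ∧ Ev P N l y z := Ev.split (l := [a]) (l' := l) h

theorem append_cons {P : ℤ → Content} {N N' : ℕ} {a : Atom} {l : List Atom} {x y z : X} (h : Ev P N [a] x y)
    (h' : Ev P N' l y z) : Ev P (max N N') (a :: l) x z :=
  Ev.append (l := [a]) (l' := l) (Ev.bound (le_max_left _ _) h) (Ev.bound (le_max_right _ _) h')

theorem val_append (L : Letter → (X ≃o X)) (w w' : Word) : val L (w ++ w') = val L w' * val L w := by
  induction w with
  | nil => simp [val]
  | cons p w ih =>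
    simp only [List.cons_append, val]
    rw [ih, mul_assoc]

theorem val_single (L : Letter → (X ≃o X)) (a : Letter) (d : Bool) : val L [(a, d)] = pw (L a) d := by
  simp [val]

theorem val_replicate (L : Letter → (X ≃o X)) (a : Letter) (d : Bool) (k : ℕ) :
    val L (List.replicate k (a, d)) = (pw (L a) d) ^ k := by
  induction k with
  | zero => simp [val]
  | succ k ih =>
    simp only [List.replicate_succ, val]
    rw [ih, pow_succ]

theorem val_zpw (L : Letter → (X ≃o X)) (a : Letter) (j : ℤ) : val L (zpw a j) = (L a) ^ j := by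
  unfold zpw
  rw [val_replicate]
  by_cases h : 0 ≤ j
  · obtain ⟨n, rfl⟩ := Int.eq_ofNat_of_zero_le h
    simp [pw]
  · obtain ⟨n, hn⟩ : ∃ n : ℕ, j = -(n : ℤ) := ⟨j.natAbs, by omega⟩
    subst hn
    have h0 : ¬ (0 : ℤ) ≤ -(n : ℤ) := h
    rw [decide_eq_false h0]
    simp [pw]

theorem pw_true {G : Type} [Group G] (g : G) : pw g true = g := by simp [pw]

theorem pw_false {G : Type} [Group G] (g : G) : pw g false = g⁻¹ := by simp [pw]

theorem pw_not {G : Type} [Group G] (g : G) (d : Bool) : pw g (!d) = (pw g d)⁻¹ := by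
  cases d <;> simp [pw]

theorem val_inv (L : Letter → (X ≃o X)) (w : Word) : val L w.inv = (val L w)⁻¹ := by
  induction w with
  | nil => simp [val, Word.inv]
  | cons p w ih =>
    have h : Word.inv (p :: w) = Word.inv w ++ [(p.1, !p.2)] := by
      simp [Word.inv]
    rw [h, val_append, ih, val_single, pw_not]
    simp only [val]
    rw [mul_inv_rev]

theorem mul_app (f g : X ≃o X) (x : X) : (f * g) x = f (g x) := rfl

theorem inv_app (f : X ≃o X) (x : X) : f (f⁻¹ x) = x := f.apply_symm_apply x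

theorem app_inv (f : X ≃o X) (x : X) : f⁻¹ (f x) = x := f.symm_apply_apply x

theorem cmul_apply (f g : CAut) (a : M) : (f * g).1 a = f.1 (g.1 a) := rfl

theorem cinv_apply_apply (f : CAut) (a : M) : f.1 ((f⁻¹).1 a) = a := f.1.apply_symm_apply a

theorem zpow_formula (f : CAut) (F : ℤ → M → M) (h0 : ∀ a, F 0 a = a) (h1 : ∀ k a, F (k + 1) a = F k (f.1 a))
    (k : ℤ) : ∀ a, (f ^ k).1 a = F k a := by
  induction k using Int.induction_on with
  | zero => intro a; rw [h0, zpow_zero]; rfl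
  | succ k ih =>
    intro a
    rw [zpow_add_one, cmul_apply, ih, h1]
  | pred k ih =>
    intro a
    rw [zpow_sub_one, cmul_apply, ih]
    have := h1 (-(k : ℤ) - 1) ((f⁻¹).1 a)
    rw [sub_add_cancel, cinv_apply_apply] at this
    exact this

theorem sgM_zpow (k : ℤ) (a : M) : (sgM ^ k).1 a = sgFun k a := by
  refine zpow_formula sgM sgFun ?_ ?_ k a
  · intro a
    simp [sgFun]
  · intro k a
    change sgFun (k + 1) a = sgFun k (sgFun 1 a)
    simp only [sgFun]
    ext <;> simp
    ring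

theorem btM_zpow (k : ℤ) (a : M) : (btM ^ k).1 a = btFun k a := by
  refine zpow_formula btM btFun ?_ ?_ k a
  · intro a
    simp [btFun]
  · intro k a
    change btFun (k + 1) a = btFun k (btFun 1 a)
    simp only [btFun]
    ext <;> simp
    split_ifs
    · ring
    · rfl

theorem lift_Zsh (μ ν : ℤ) : lift (Zsh μ ν) = (lift sgM) ^ μ * (lift btM) ^ ν := by
  unfold Zsh
  rw [map_mul, map_zpow, map_zpow]

theorem units_sq (s : ℤˣ) : (s : ℤ) * s = 1 := by
  rcases Int.units_eq_one_or s with h | h <;> rw [h] <;> rfl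

theorem top_Z (u : X) (hu : InU u) (μ ν : ℤ) : top (lift (Zsh μ ν) u) =
    ⟨(top u).e, μ * sgn (top u).e, ν * sgn (top u).e, (top u).i, (top u).q⟩ := by
  rw [top_lift]
  unfold Zsh
  rw [cmul_apply, sgM_zpow, btM_zpow]
  simp only [sgFun, btFun]
  rw [if_pos hu.1, hu.1, hu.2]
  ext <;> simp

theorem site_Z (u : X) (hu : InU u) (μ ν : ℤ) : site (lift (Zsh μ ν) u) = site u := by
  unfold site
  rw [top_Z u hu]

theorem stdm_Z (u : X) (hu : InU u) (μ ν : ℤ) : stdm (lift (Zsh μ ν) u) = μ := by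
  unfold stdm
  rw [site_Z u hu, top_Z u hu]
  simp only [site]
  have := units_sq (sgn (top u).e)
  linear_combination μ * this

theorem stdl_Z (u : X) (hu : InU u) (μ ν : ℤ) : stdl (lift (Zsh μ ν) u) = ν := by
  unfold stdl
  rw [site_Z u hu, top_Z u hu]
  simp only [site]
  have := units_sq (sgn (top u).e)
  linear_combination ν * this

theorem lift_inv_lift (f : CAut) (x : X) : lift f⁻¹ (lift f x) = x := by
  rw [map_inv]
  exact app_inv _ _

theorem lift_lift_inv (f : CAut) (x : X) : lift f (lift f⁻¹ x) = x := by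
  rw [map_inv]
  exact inv_app _ _

theorem btFun_of_zero (d : ℤ) (a : M) (h : a.m = 0) : btFun d a = ⟨a.e, a.m, a.l + d * sgn a.e, a.i, a.q⟩ := by
  simp only [btFun]
  rw [if_pos h]

/-- every stack is a translate of a stack in the central zone -/
theorem exists_Z (x : X) : ∃ u : X, InU u ∧ x = lift (Zsh (stdm x) (stdl x)) u := by
  refine ⟨lift (Zsh (stdm x) (stdl x))⁻¹ x, ?_, (lift_lift_inv _ _).symm⟩
  unfold InU
  rw [top_lift]
  unfold Zsh
  rw [mul_inv_rev, ← zpow_neg, ← zpow_neg, cmul_apply, sgM_zpow, btM_zpow]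
  have := units_sq (sgn (top x).e)
  have h1 : (sgFun (-stdm x) (top x)).m = 0 := by
    simp only [sgFun, stdm, site]
    linear_combination (- (top x).m) * this
  rw [btFun_of_zero _ _ h1]
  refine ⟨h1, ?_⟩
  simp only [sgFun, stdl, site]
  linear_combination (- (top x).l) * this

end A

theorem exists_isAct {P : ℤ → Content} (hP : WellP P) (ht : ∀ a d x, ∃ N y, Ev P N [.lt a d] x y) :
    ∃ L, IsAct P L := by
  have h := fun a => A.exists_aut hP (.lt a true) (ht a true) (ht a false)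
  choose L hL using h
  refine ⟨L, ?_⟩
  intro a d x y
  cases d with
  | true => rw [A.pw_true]; exact (hL a).1 x y
  | false => rw [A.pw_false]; exact (hL a).2 x y

theorem IsAct.val {P : ℤ → Content} {L : Letter → (X ≃o X)} (hP : WellP P) (hL : IsAct P L) (w : Word) (x y : X) :
    (∃ N, Ev P N w.atoms x y) ↔ val L w x = y := by
  induction w generalizing x with
  | nil =>
    simp only [Word.atoms, List.map_nil, Pool.Agent.helper261_navas.val]
    constructor
    · rintro ⟨N, h⟩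
      cases h
      rfl
    · intro h
      have h : x = y := h
      subst h
      exact ⟨0, Ev.nil x⟩
  | cons p w ih =>
    have h1 : Word.atoms (p :: w) = Atom.lt p.1 p.2 :: Word.atoms w := rfl
    rw [h1]
    simp only [Pool.Agent.helper261_navas.val]
    rw [A.mul_app, ← ih]
    constructor
    · rintro ⟨N, h⟩
      obtain ⟨z, hz1, hz2⟩ := A.split_cons h
      have h3 := (hL p.1 p.2 x z).1 ⟨N, hz1⟩
      rw [h3]
      exact ⟨N, hz2⟩
    · rintro ⟨N, h⟩
      obtain ⟨N', h'⟩ := (hL p.1 p.2 x _).2 rfl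
      exact ⟨_, A.append_cons h' h⟩

theorem IsAct.letters {P : ℤ → Content} {L : Letter → (X ≃o X)} (hP : WellP P) (hL : IsAct P L) :
    L .sg = lift sgM ∧ L .bt = lift btM ∧ L .om = lift omM := by
  refine ⟨?_, ?_, ?_⟩ <;> apply RelIso.ext <;> intro x
  · have h : Ev P (lam (site x) + 1) [.lt .sg true] x (lift sgM x) := by
      apply Ev.sg true [] x _ (Nat.lt_succ_self _)
      rw [A.pw_true]
      exact Ev.nil _
    have h2 := (hL .sg true x _).1 ⟨_, h⟩
    rw [A.pw_true] at h2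
    exact h2
  · have h : Ev P (lam (site x) + 1) [.lt .bt true] x (lift btM x) := by
      apply Ev.bt true [] x _ (Nat.lt_succ_self _)
      rw [A.pw_true]
      exact Ev.nil _
    have h2 := (hL .bt true x _).1 ⟨_, h⟩
    rw [A.pw_true] at h2
    exact h2
  · have h : Ev P 0 [.lt .om true] x (lift omM x) := by
      apply Ev.om true [] x _
      rw [A.pw_true]
      exact Ev.nil _
    have h2 := (hL .om true x _).1 ⟨_, h⟩
    rw [A.pw_true] at h2
    exact h2

namespace A

theorem nil_eq {P : ℤ → Content} {N : ℕ} {x y : X} (h : Ev P N [] x y) : x = y := by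
  cases h
  rfl

theorem pi_inv {P : ℤ → Content} {N : ℕ} {d : Bool} {x y : X} (h : Ev P N [.lt .pi d] x y) :
    (stdl x < 0 ∧ x = y) ∨ (0 ≤ stdl x ∧ ∃ y', Ev P N [.cont (stdm x) d] (lift (Zsh (stdm x) (stdl x))⁻¹ x) y' ∧
      lift (Zsh (stdm x) (stdl x)) y' = y) := by
  cases h with
  | pi_off _ _ _ _ h1 h2 h3 => exact Or.inl ⟨h2, nil_eq h3⟩
  | pi_on _ _ _ _ y' h1 h2 h3 h4 => exact Or.inr ⟨h2, y', h3, nil_eq h4⟩

theorem cont_total {P : ℤ → Content} {L : Letter → (X ≃o X)} (hL : IsAct P L) (j : ℤ) (d : Bool) (x : X) :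
    ∃ N y, Ev P N [.cont j d] x y := by
  by_cases hx : InU x
  · obtain ⟨N, h⟩ := (hL .pi d (lift (Zsh j 0) x) _).2 rfl
    rcases pi_inv h with ⟨h1, h2⟩ | ⟨h1, y', h2, h3⟩
    · rw [stdl_Z x hx] at h1
      exact absurd h1 (lt_irrefl _)
    · rw [stdm_Z x hx, stdl_Z x hx, lift_inv_lift] at h2
      exact ⟨N, y', h2⟩
  · exact ⟨0, x, Ev.cont_out j d [] x x hx (Ev.nil x)⟩

/-- the automorphisms of the contents -/
theorem exists_C {P : ℤ → Content} {L : Letter → (X ≃o X)} (hP : WellP P) (hL : IsAct P L) :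
    ∃ C : ℤ → (X ≃o X), ∀ j, (∀ x y, (∃ N, Ev P N [.cont j true] x y) ↔ C j x = y) ∧
      (∀ x y, (∃ N, Ev P N [.cont j false] x y) ↔ (C j)⁻¹ x = y) := by
  have h := fun j => exists_aut hP (.cont j true) (cont_total hL j true) (cont_total hL j false)
  choose C hC using h
  exact ⟨C, hC⟩

section
variable {P : ℤ → Content} {L : Letter → (X ≃o X)} (hP : WellP P) (hL : IsAct P L) (C : ℤ → (X ≃o X))
  (hC : ∀ j, (∀ x y, (∃ N, Ev P N [.cont j true] x y) ↔ C j x = y) ∧
      (∀ x y, (∃ N, Ev P N [.cont j false] x y) ↔ (C j)⁻¹ x = y))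
include hP hC

theorem C_out (j : ℤ) (x : X) (hx : ¬ InU x) : C j x = x :=
  ((hC j).1 x x).1 ⟨0, Ev.cont_out j true [] x x hx (Ev.nil x)⟩

theorem C_in (j : ℤ) (x : X) (hx : InU x) : InU (C j x) := by
  obtain ⟨N, h⟩ := ((hC j).1 x _).2 rfl
  have h2 := Ev.cont_zone hP h
  unfold InU at hx ⊢
  rw [h2.2.1, h2.2.2]
  exact hx

theorem C_inv_in (j : ℤ) (x : X) (hx : InU x) : InU ((C j)⁻¹ x) := by
  obtain ⟨N, h⟩ := ((hC j).2 x _).2 rfl
  have h2 := Ev.cont_zone hP h
  unfold InU at hx ⊢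
  rw [h2.2.1, h2.2.2]
  exact hx

include hL

theorem Pi_on (u : X) (hu : InU u) (μ ν : ℤ) (hν : 0 ≤ ν) :
    L .pi (lift (Zsh μ ν) u) = lift (Zsh μ ν) (C μ u) := by
  obtain ⟨N, h⟩ := (hL .pi true (lift (Zsh μ ν) u) _).2 rfl
  rw [pw_true] at h
  rcases pi_inv h with ⟨h1, h2⟩ | ⟨h1, y', h2, h3⟩
  · rw [stdl_Z u hu] at h1
    omega
  · rw [stdm_Z u hu, stdl_Z u hu, lift_inv_lift] at h2
    rw [stdm_Z u hu, stdl_Z u hu] at h3
    rw [← h3, ((hC μ).1 u y').1 ⟨N, h2⟩]

theorem Pi_off (u : X) (hu : InU u) (μ ν : ℤ) (hν : ν < 0) :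
    L .pi (lift (Zsh μ ν) u) = lift (Zsh μ ν) u := by
  obtain ⟨N, h⟩ := (hL .pi true (lift (Zsh μ ν) u) _).2 rfl
  rw [pw_true] at h
  rcases pi_inv h with ⟨h1, h2⟩ | ⟨h1, y', h2, h3⟩
  · exact h2.symm
  · rw [stdl_Z u hu] at h1
    omega

omit hP hL hC

theorem S_zpow_Z (μ ν j : ℤ) (u : X) : ((lift sgM) ^ j) (lift (Zsh μ ν) u) = lift (Zsh (j + μ) ν) u := by
  rw [lift_Zsh, lift_Zsh, zpow_add, ← mul_app, mul_assoc]

include hP hL hC

theorem a_on (j : ℤ) (u : X) (hu : InU u) (μ ν : ℤ) (hν : 0 ≤ ν) :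
    ((lift sgM) ^ (-j) * L .pi * (lift sgM) ^ j) (lift (Zsh μ ν) u) = lift (Zsh μ ν) (C (j + μ) u) := by
  rw [mul_app, mul_app, S_zpow_Z, Pi_on hP hL C hC u hu _ _ hν, S_zpow_Z, neg_add_cancel_left]

theorem a_off (j : ℤ) (u : X) (hu : InU u) (μ ν : ℤ) (hν : ν < 0) :
    ((lift sgM) ^ (-j) * L .pi * (lift sgM) ^ j) (lift (Zsh μ ν) u) = lift (Zsh μ ν) u := by
  rw [mul_app, mul_app, S_zpow_Z, Pi_off hP hL C hC u hu _ _ hν, S_zpow_Z, neg_add_cancel_left]

theorem ainv_on (j : ℤ) (u : X) (hu : InU u) (μ ν : ℤ) (hν : 0 ≤ ν) :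
    ((lift sgM) ^ (-j) * L .pi * (lift sgM) ^ j)⁻¹ (lift (Zsh μ ν) u) = lift (Zsh μ ν) ((C (j + μ))⁻¹ u) := by
  have h := a_on hP hL C hC j ((C (j + μ))⁻¹ u) (C_inv_in hP C hC _ u hu) μ ν hν
  rw [inv_app] at h
  rw [← h, app_inv]

theorem ainv_off (j : ℤ) (u : X) (hu : InU u) (μ ν : ℤ) (hν : ν < 0) :
    ((lift sgM) ^ (-j) * L .pi * (lift sgM) ^ j)⁻¹ (lift (Zsh μ ν) u) = lift (Zsh μ ν) u := by
  have h := a_off hP hL C hC j u hu μ ν hν
  have h2 := congrArg (fun z => ((lift sgM) ^ (-j) * L .pi * (lift sgM) ^ j)⁻¹ z) h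
  simp only [app_inv] at h2
  exact h2.symm

omit hP hL hC

theorem B_zero (u : X) (ν k : ℤ) : ((lift btM) ^ k) (lift (Zsh 0 ν) u) = lift (Zsh 0 (k + ν)) u := by
  rw [lift_Zsh, lift_Zsh, zpow_zero, one_mul, one_mul, zpow_add, ← mul_app]

theorem B_ne (u : X) (hu : InU u) (μ ν k : ℤ) (hμ : μ ≠ 0) :
    ((lift btM) ^ k) (lift (Zsh μ ν) u) = lift (Zsh μ ν) u := by
  rw [← map_zpow, X.ext_iff']
  refine ⟨?_, rfl⟩
  rw [top_lift, btM_zpow, top_Z u hu]
  simp only [btFun]
  have h : μ * (sgn (top u).e : ℤ) ≠ 0 := by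
    rcases Int.units_eq_one_or (sgn (top u).e) with h | h <;> rw [h] <;> push_cast <;> omega
  rw [if_neg h]

theorem InU_Z (u : X) (hu : InU u) (μ ν : ℤ) : InU (lift (Zsh μ ν) u) ↔ μ = 0 ∧ ν = 0 := by
  unfold InU
  rw [top_Z u hu]
  simp only
  rcases Int.units_eq_one_or (sgn (top u).e) with h | h <;> rw [h] <;> push_cast <;> omega

include hP hL hC

theorem enc_aux (j : ℤ) (x : X) :
    (((lift sgM) ^ (-j) * L .pi * (lift sgM) ^ j) * (lift btM) ^ (1 : ℤ) *
      ((lift sgM) ^ (-j) * L .pi * (lift sgM) ^ j)⁻¹ * (lift btM) ^ (-1 : ℤ)) x = C j x := by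
  obtain ⟨u, hu, hx⟩ := exists_Z x
  generalize stdm x = μ at hx
  generalize stdl x = ν at hx
  subst hx
  rw [mul_app, mul_app, mul_app]
  by_cases hμ : μ = 0
  · subst hμ
    rw [B_zero]
    by_cases hν : 0 ≤ -1 + ν
    · rw [ainv_on hP hL C hC j u hu _ _ hν, B_zero, a_on hP hL C hC j _ (C_inv_in hP C hC _ u hu) _ _ (by omega),
        inv_app, C_out hP C hC j]
      · rw [show (1 : ℤ) + (-1 + ν) = ν by ring]
      · rw [InU_Z u hu]; omega
    · rw [ainv_off hP hL C hC j u hu _ _ (by omega), B_zero]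
      by_cases hν' : ν = 0
      · subst hν'
        rw [show (1 : ℤ) + (-1 + 0) = 0 by ring, a_on hP hL C hC j u hu _ _ le_rfl]
        rw [add_zero]
        have h0 : ∀ v, lift (Zsh 0 0) v = v := by
          intro v
          rw [lift_Zsh]
          simp
        rw [h0, h0]
      · rw [a_off hP hL C hC j u hu _ _ (by omega), C_out hP C hC j]
        · rw [show (1 : ℤ) + (-1 + ν) = ν by ring]
        · rw [InU_Z u hu]; omega
  · rw [B_ne u hu _ _ _ hμ]
    rw [C_out hP C hC j _ (by rw [InU_Z u hu]; omega)]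
    by_cases hν : 0 ≤ ν
    · rw [ainv_on hP hL C hC j u hu _ _ hν, B_ne _ (C_inv_in hP C hC _ u hu) _ _ _ hμ,
        a_on hP hL C hC j _ (C_inv_in hP C hC _ u hu) _ _ hν, inv_app]
    · rw [ainv_off hP hL C hC j u hu _ _ (by omega), B_ne u hu _ _ _ hμ, a_off hP hL C hC j u hu _ _ (by omega)]

end

end A

/-- the word encoding the content `j` -/
theorem IsAct.enc {P : ℤ → Content} {L : Letter → (X ≃o X)} (hP : WellP P) (hL : IsAct P L) (j : ℤ) (x y : X) :
    (∃ N, Ev P N [.cont j true] x y) ↔ Pool.Agent.helper261_navas.val L (encW j) x = y := by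
  obtain ⟨C, hC⟩ := A.exists_C hP hL
  rw [(hC j).1, ← A.enc_aux hP hL C hC j x]
  have hl := IsAct.letters hP hL
  have h : Pool.Agent.helper261_navas.val L (encW j) =
      (((lift sgM) ^ (-j) * L .pi * (lift sgM) ^ j) * (lift btM) ^ (1 : ℤ) *
      ((lift sgM) ^ (-j) * L .pi * (lift sgM) ^ j)⁻¹ * (lift btM) ^ (-1 : ℤ)) := by
    unfold encW
    simp only [A.val_append, A.val_single, A.val_zpw, A.pw_true, A.pw_false, hl.1, hl.2.1]
    group
  rw [h]

theorem A.at_cZero (v : ℕ) (x : X) (hx : InU x) (hv : v ≤ lam (site x)) :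
    at_ cZero (site x) x = lift (CM v) x := by
  rw [X.ext_iff']
  constructor
  · unfold at_
    rw [top_smul]
    unfold cZero
    rw [top_lift, top_smul, top_lift]
    change R (site x) • cFun (fun e => e = 0) 1 ((R (site x))⁻¹ • top x) = cFun (fun e => v ≤ lam e) 1 (top x)
    have h1 : ((R (site x))⁻¹ • top x).e = 0 := by
      rw [smul_e]
      simp only [Iso2.inv_ε, Iso2.inv_t, R, site]
      ring
    have h2 : ((R (site x))⁻¹ • top x).m = 0 := by
      rw [smul_m, hx.1]; ring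
    have h3 : ((R (site x))⁻¹ • top x).l = 0 := by
      rw [smul_l, hx.2]; ring
    have h4 : cFun (fun e => e = 0) 1 ((R (site x))⁻¹ • top x) =
        ⟨0, 0, 0, ((R (site x))⁻¹ • top x).i + 1, ((R (site x))⁻¹ • top x).q⟩ := by
      simp only [cFun]
      rw [if_pos ⟨h2, h3, h1⟩, h1, h2, h3, sgn_zero]
      simp
    have h5 : cFun (fun e => v ≤ lam e) 1 (top x) =
        ⟨(top x).e, 0, 0, (top x).i + sgn (top x).e, (top x).q⟩ := by
      simp only [cFun]
      rw [if_pos ⟨hx.1, hx.2, hv⟩, hx.1, hx.2, one_mul]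
    rw [h4, h5]
    have hne : ((-1 : ℤˣ) = 1) = False := by
      simp only [eq_iff_iff, iff_false]; decide
    rw [M.ext_iff]
    simp only [smul_e, smul_m, smul_l, smul_i, smul_q, Iso2.inv_ε, R, site]
    rcases Int.units_eq_one_or (sgn (top x).e) with h | h
    · simp [h]
    · simp only [h, hne, if_false]
      refine ⟨?_, ?_, ?_, ?_, ?_⟩
      · ring
      · ring
      · ring
      · push_cast; ring
      · ring
  · unfold at_
    rw [tail_smul]
    unfold cZero
    rw [tail_lift, tail_smul, tail_lift, List.map_map]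
    conv_rhs => rw [← List.map_id x.1.tail]
    congr 1
    funext a
    simp

/-- words for the transport group -/
theorem exists_TG_word (F : CAut) (hF : F ∈ TG) : ∃ u : Word, ∀ (P : ℤ → Content) (sc rho : ℕ → ℕ)
    (L : Letter → (X ≃o X)), ValidP P sc rho → IsAct P L → val L u = lift F := by
  unfold TG at hF
  induction hF using Subgroup.closure_induction with
  | mem F hF =>
    rcases hF with hF | ⟨v, rfl⟩
    · rw [Set.mem_singleton_iff] at hF
      subst hF
      refine ⟨[(.om, true)], ?_⟩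
      intro P sc rho L hV hL
      rw [A.val_single, A.pw_true]
      exact (IsAct.letters hV.wellP hL).2.2
    · refine ⟨encW (-1 - (v : ℤ)), ?_⟩
      intro P sc rho L hV hL
      apply RelIso.ext
      intro x
      rw [← IsAct.enc hV.wellP hL]
      by_cases hx : InU x
      · by_cases hv : v ≤ lam (site x)
        · refine ⟨lam (site x) + 1, ?_⟩
          refine Ev.cont_fix _ true [] x _ none (fun u => v ≤ u) cZero hx (Nat.lt_succ_self _) (by push_cast; omega)
            (hV.base v) hv ?_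
          rw [A.pw_true]
          have h := A.at_cZero v x hx hv
          rw [h]
          exact Ev.nil _
        · refine ⟨lam (site x) + 1, ?_⟩
          refine Ev.cont_off _ true [] x _ hx (Nat.lt_succ_self _) (by push_cast; omega) ?_ ?_
          · rw [hV.base v]
            exact hv
          · have h : lift (CM v) x = x := by
              rw [X.ext_iff']
              refine ⟨?_, rfl⟩
              rw [top_lift]
              change cFun (fun e => v ≤ lam e) 1 (top x) = top x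
              simp only [cFun]
              rw [if_neg (fun h => hv h.2.2)]
            rw [h]
            exact Ev.nil _
      · refine ⟨0, Ev.cont_out _ true [] x _ hx ?_⟩
        have h : lift (CM v) x = x := by
          rw [X.ext_iff']
          refine ⟨?_, rfl⟩
          rw [top_lift]
          change cFun (fun e => v ≤ lam e) 1 (top x) = top x
          simp only [cFun]
          rw [if_neg (fun h => hx ⟨h.1, h.2.1⟩)]
        rw [h]
        exact Ev.nil _
  | one =>
    refine ⟨[], ?_⟩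
    intro P sc rho L hV hL
    simp [val]
  | mul F G hF hG ihF ihG =>
    obtain ⟨uF, hF'⟩ := ihF
    obtain ⟨uG, hG'⟩ := ihG
    refine ⟨uG ++ uF, ?_⟩
    intro P sc rho L hV hL
    rw [A.val_append, hF' P sc rho L hV hL, hG' P sc rho L hV hL, map_mul]
  | inv F hF ihF =>
    obtain ⟨uF, hF'⟩ := ihF
    refine ⟨Word.inv uF, ?_⟩
    intro P sc rho L hV hL
    rw [A.val_inv, hF' P sc rho L hV hL, map_inv]

end

end Pool.Agent.helper261_navas
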