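import Pool.Agent.helper261_navas.EvDef
import Pool.Agent.helper261_navas.PrL
import Pool.Agent.helper261_navas.PrO
import Pool.Agent.helper261_navas.PrX
import Pool.Agent.helper261_navas.PrE1

set_option autoImplicit false

namespace Pool.Agent.helper261_navas

open Classical

noncomputable section

namespace E4

theorem recs_mem {d : ℕ → Bool} : ∀ (cs : List Color) (th : ℕ), ∀ j ∈ recs d th cs, th ≤ j
  | [], th, j, hj => by simp [recs] at hj
  | none :: r, th, j, hj => by
    rw [recs] at hj
    exact recs_mem r th j hj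
  | some (i, b) :: r, th, j, hj => by
    rw [recs] at hj
    split_ifs at hj with h
    · rcases List.mem_cons.mp hj with rfl | hj
      · exact h.1
      · exact h.1.trans (recs_mem r i j hj)
    · exact recs_mem r th j hj

theorem recs_congr {d d' : ℕ → Bool} : ∀ (cs : List Color) (th : ℕ), (∀ i, th ≤ i → d' i = d i) →
    recs d' th cs = recs d th cs
  | [], th, _ => by simp [recs]
  | none :: r, th, h => by
    rw [recs, recs]
    exact recs_congr r th h
  | some (i, b) :: r, th, h => by
    rw [recs, recs]
    by_cases hi : th ≤ i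
    · rw [h i hi]
      by_cases hb : b = d i
      · rw [if_pos ⟨hi, hb⟩, if_pos ⟨hi, hb⟩, recs_congr r i (fun j hj => h j (hi.trans hj))]
      · rw [if_neg (fun h => hb h.2), if_neg (fun h => hb h.2), recs_congr r th h]
    · rw [if_neg (fun h => hi h.1), if_neg (fun h => hi h.1), recs_congr r th h]

theorem recs_filter {d d' : ℕ → Bool} {k : ℕ} (hd : ∀ i, k ≤ i → d' i = d i) : ∀ (cs : List Color) (i : ℕ), i ≤ k →
    recs d k cs = (recs d' i cs).filter (fun j => decide (k ≤ j))
  | [], i, _ => by simp [recs]
  | none :: r, i, h => by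
    rw [recs, recs]
    exact recs_filter hd r i h
  | some (j, b) :: r, i, h => by
    rw [recs, recs]
    by_cases h1 : i ≤ j ∧ b = d' j
    · rw [if_pos h1]
      by_cases h2 : k ≤ j
      · rw [if_pos ⟨h2, by rw [h1.2, hd j h2]⟩, List.filter_cons_of_pos (by simpa using h2),
          List.filter_eq_self.mpr, recs_congr r j (fun i hi => hd i (h2.trans hi))]
        intro a ha
        have := recs_mem r j a ha
        simpa using h2.trans this
      · rw [if_neg (fun h => h2 h.1), List.filter_cons_of_neg (by simpa using h2)]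
        exact recs_filter hd r j (by omega)
    · rw [if_neg h1, if_neg]
      · exact recs_filter hd r i h
      · rintro ⟨h2, h3⟩
        exact h1 ⟨h.trans h2, by rw [hd j h2]; exact h3⟩

theorem recs_ignore {d : ℕ → Bool} {i : ℕ} {b : Bool} : ∀ (cs : List Color) (th : ℕ), (th ≤ i → b ≠ d i) →
    recs d th cs = recs d th (cs.filter (fun γ => decide (γ ≠ some (i, b))))
  | [], th, _ => by simp [recs]
  | none :: r, th, h => by
    rw [List.filter_cons_of_pos (by simp), recs, recs]
    exact recs_ignore r th h
  | some (j, b') :: r, th, h => by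
    by_cases he : (j, b') = (i, b)
    · obtain ⟨rfl, rfl⟩ := Prod.mk.inj he
      rw [List.filter_cons_of_neg (by simp), recs, if_neg (fun h2 => h h2.1 h2.2)]
      exact recs_ignore r th h
    · have he2 : (some (j, b') : Color) ≠ some (i, b) := fun h3 => he (Option.some.inj h3)
      have he3 : List.filter (fun γ : Color => decide (γ ≠ some (i, b))) (some (j, b') :: r) =
          some (j, b') :: List.filter (fun γ : Color => decide (γ ≠ some (i, b))) r := by
        rw [List.filter_cons, if_pos (decide_eq_true he2)]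
      rw [he3, recs, recs]
      by_cases h2 : th ≤ j ∧ b' = d j
      · rw [if_pos h2, if_pos h2, ← recs_ignore r j (fun h3 => h (h2.1.trans h3))]
      · rw [if_neg h2, if_neg h2]
        exact recs_ignore r th h

theorem colors_cons (a : M) (h : col a ≠ none) (ξ : X) : colors (cons a h ξ) = col a :: colors ξ := rfl

theorem colors_at (φ : X ≃o X) (e : ℤ) (x : X) : colors (at_ φ e x) = colors (φ ((R e)⁻¹ • x)) := by
  unfold at_
  rw [colors_smul]

/-- atoms that are letters or contents -/
def LC : Atom → Prop
  | .lt _ _ => True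
  | .cont _ _ => True
  | .step _ _ _ _ _ => False

theorem pw_supp (φ : X ≃o X) (h : SuppU φ) (d : Bool) : SuppU (pw φ d) := by
  unfold pw
  split_ifs
  · exact h
  · exact SuppU_inv φ h

theorem pw_colors_none (φ : X ≃o X) (h : ∀ x, colors (φ x) = colors x) (d : Bool) (x : X) :
    colors (pw φ d x) = colors x := by
  unfold pw
  split_ifs
  · exact h x
  · have := h (φ⁻¹ x)
    rw [show φ (φ⁻¹ x) = x from φ.apply_symm_apply x] at this
    exact this.symm

theorem pw_colFilt (γ : Color) (φ : X ≃o X) (h : ColFilt γ φ) (d : Bool) : ColFilt γ (pw φ d) := by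
  unfold pw
  split_ifs
  · exact h
  · intro x
    have := h (φ⁻¹ x)
    rw [show φ (φ⁻¹ x) = x from φ.apply_symm_apply x] at this
    exact this.symm

theorem cls_le {b : Bool} {n v : ℕ} (h : cls b n v) : n + 1 ≤ v := by
  unfold cls at h
  split_ifs at h <;> omega

theorem cls_dec {b : Bool} {n v : ℕ} (h : cls b n v) : decide (n + 2 ≤ v) = b := by
  unfold cls at h
  cases b
  · simp at h ⊢; omega
  · simpa using h

/-- in the range of a context only the centre has high level -/
theorem eq_center {sc : ℕ → ℕ} (hm : Monotone sc) {k : ℕ} {c e : ℤ} {d : ℕ → Bool} (hs : Safe sc k c d)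
    (hr : |e - c| < 2 ^ (sc k + 1)) {i : ℕ} (hi : k ≤ i) (he : sc i + 1 ≤ lam e) : e = c := by
  by_contra hne
  have h1 := lam_near (sc k) c e hs.1 hne hr
  have h2 := hm hi
  omega

theorem recs_fix {P : ℤ → Content} {sc rho : ℕ → ℕ} (hP : ValidP P sc rho) {j : ℤ} {γ : Color} {lev : ℕ → Prop}
    {φ : X ≃o X} (hj : P j = .fix γ lev φ) (dd : Bool) (x : X) (hl : lev (lam (site x))) (k : ℕ) (c : ℤ)
    (d : ℕ → Bool) (hs : Safe sc k c d) (hr : |site x - c| < 2 ^ (sc k + 1)) :
    recs d k (colors (at_ (pw φ dd) (site x) x)) = recs d k (colors x) := by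
  obtain ⟨_, h2, h3⟩ := hP.fix j γ lev φ hj
  rw [colors_at]
  rcases γ with _ | ⟨i, b⟩
  · rw [pw_colors_none φ (h2 rfl), colors_smul]
  · obtain ⟨h4, h5⟩ := h3 i b rfl
    have h6 : k ≤ i → b ≠ d i := by
      intro hki
      have h7 := h4 _ hl
      have h8 := eq_center hP.mono hs hr hki (cls_le h7)
      rw [h8] at h7
      have h9 := hs.2 i hki (cls_le h7)
      rw [cls_dec h7] at h9
      rw [h9]
      cases b <;> simp
    rw [recs_ignore _ k h6]
    have h10 := pw_colFilt _ φ h5 dd ((R (site x))⁻¹ • x)
    rw [colors_smul] at h10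
    rw [recs_ignore (colors x) k h6]
    exact congrArg _ h10

/-- distance of a point of a window to the centre -/
theorem site_win {n : ℕ} {ell x : X} {c : ℤ} (h : Vp n ell c x ∨ Vm n ell c x) :
    |site x - c| ≤ 2 ^ n + |site ell| := by
  have hsite : ∀ u v : X, u < v → site u ≤ site v := by
    intro u v huv
    rw [X.lt_iff, M.lt_iff] at huv
    unfold site
    rcases huv with (h | h) | h
    · exact h.le
    · exact h.1.le
    · rw [h.1]
  have e1 : ∀ q, site (BL ell q) = site ell + q := by
    intro q
    unfold BL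
    rw [site_smul]
    simp [Iso2.site]
  have e2 : ∀ q, site (BR ell q) = -site ell + q := by
    intro q
    unfold BR
    rw [site_smul, site_smul]
    simp [Iso2.site]
  rw [abs_le]
  have h0 := neg_abs_le (site ell)
  have h00 := le_abs_self (site ell)
  rcases h with h | h
  · have h1 := hsite _ _ h.1
    have h2 := hsite _ _ h.2
    rw [e1] at h1 h2
    constructor <;> linarith
  · have h1 := hsite _ _ h.1
    have h2 := hsite _ _ h.2
    rw [e2] at h1 h2
    constructor <;> linarith

theorem site_lift_sg (d : Bool) (x : X) : site (lift (pw sgM d) x) = site x := by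
  unfold site
  rw [top_lift]
  unfold pw
  split_ifs <;> rfl

theorem site_lift_bt (d : Bool) (x : X) : site (lift (pw btM d) x) = site x := by
  unfold site
  rw [top_lift]
  unfold pw
  split_ifs <;> rfl

theorem site_lift_om (d : Bool) (x : X) : |site (lift (pw omM d) x) - site x| ≤ 1 := by
  unfold site
  rw [top_lift]
  unfold pw
  split_ifs
  · exact omM_spec.near _
  · exact omM_spec.near' _

theorem site_pow (f : CAut) (hf : ∀ a, (f.1 a).e = a.e) (hf' : ∀ a, ((f⁻¹).1 a).e = a.e) (m : ℤ) (a : M) :
    ((f ^ m).1 a).e = a.e := by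
  induction m using Int.induction_on generalizing a with
  | zero => simp
  | succ n ih =>
    rw [zpow_add_one]
    change ((f ^ (n : ℤ)).1 (f.1 a)).e = a.e
    rw [ih, hf]
  | pred n ih =>
    rw [zpow_sub_one]
    change ((f ^ (-(n : ℤ))).1 ((f⁻¹).1 a)).e = a.e
    rw [ih, hf']

theorem site_Zsh (m' l' : ℤ) (a : M) : ((Zsh m' l').1 a).e = a.e := by
  unfold Zsh
  change ((sgM ^ m').1 ((btM ^ l').1 a)).e = a.e
  rw [site_pow sgM (fun _ => rfl) (fun _ => rfl), site_pow btM (fun _ => rfl) (fun _ => rfl)]

theorem site_Zsh_inv (m' l' : ℤ) (a : M) : (((Zsh m' l')⁻¹).1 a).e = a.e := by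
  have h := site_Zsh m' l' (((Zsh m' l')⁻¹).1 a)
  rw [show (Zsh m' l').1 (((Zsh m' l')⁻¹).1 a) = a from (Zsh m' l').1.apply_symm_apply a] at h
  exact h.symm

theorem length_dir (w : Word) (d : Bool) : ((w.dir d).atoms).length = w.length := by
  unfold Word.dir Word.atoms Word.inv
  split_ifs <;> simp

theorem dir_LC (w : Word) (d : Bool) : ∀ a ∈ (w.dir d).atoms, LC a := by
  intro a ha
  unfold Word.atoms at ha
  obtain ⟨p, _, rfl⟩ := List.mem_map.mp ha
  trivial

/-- the invariance statement -/
theorem main_inv {P : ℤ → Content} {sc rho : ℕ → ℕ} (hP : ValidP P sc rho) {N : ℕ} {l : List Atom} {x y : X}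
    (h : Ev P N l x y) :
    (∀ k c d, Safe sc k c d → (∀ a ∈ l, LC a) → |site x - c| + l.length ≤ 2 ^ (sc k + 1) →
      recs d k (colors y) = recs d k (colors x)) ∧
    (∀ i c d w n ell, (∃ j b z r, P j = .exec i b n z w r ell) → Safe sc i c d →
      (∀ a ∈ l, ∃ dd, a = .step w n ell c dd) → recs d i (colors y) = recs d i (colors x)) := by
  have hlc : ∀ {a : Atom} {l : List Atom}, (∀ a' ∈ a :: l, LC a') → ∀ a' ∈ l, LC a' :=
    fun h a' ha => h a' (List.mem_cons_of_mem _ ha)
  have hW := hP.wellP
  induction h with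
  | nil x => exact ⟨fun _ _ _ _ _ _ => rfl, fun _ _ _ _ _ _ _ _ _ => rfl⟩
  | sg dd l x y h0 h1 ih =>
    refine ⟨fun k c d hs ha hr => ?_, fun i c d w n ell _ _ ha => ?_⟩
    · have := ih.1 k c d hs (hlc ha) (by
        rw [site_lift_sg]; simp only [List.length_cons] at hr; push_cast at hr; omega)
      rw [this, colors_lift]
    · obtain ⟨_, h⟩ := ha _ List.mem_cons_self
      cases h
  | bt dd l x y h0 h1 ih =>
    refine ⟨fun k c d hs ha hr => ?_, fun i c d w n ell _ _ ha => ?_⟩
    · have := ih.1 k c d hs (hlc ha) (by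
        rw [site_lift_bt]; simp only [List.length_cons] at hr; push_cast at hr; omega)
      rw [this, colors_lift]
    · obtain ⟨_, h⟩ := ha _ List.mem_cons_self
      cases h
  | om dd l x y h1 ih =>
    refine ⟨fun k c d hs ha hr => ?_, fun i c d w n ell _ _ ha => ?_⟩
    · have h3 := site_lift_om dd x
      have := ih.1 k c d hs (hlc ha) (by
        simp only [List.length_cons] at hr; push_cast at hr
        have h4 : |site (lift (pw omM dd) x) - c| ≤ |site (lift (pw omM dd) x) - site x| + |site x - c| :=
          abs_sub_le _ _ _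
        omega)
      rw [this, colors_lift]
    · obtain ⟨_, h⟩ := ha _ List.mem_cons_self
      cases h
  | pi_off dd l x y h0 h1 h2 ih =>
    refine ⟨fun k c d hs ha hr => ?_, fun i c d w n ell _ _ ha => ?_⟩
    · exact ih.1 k c d hs (hlc ha) (by simp only [List.length_cons] at hr; push_cast at hr; omega)
    · obtain ⟨_, h⟩ := ha _ List.mem_cons_self
      cases h
  | pi_on dd l x y y' h0 h1 h2 h3 ih2 ih3 =>
    refine ⟨fun k c d hs ha hr => ?_, fun i c d w n ell _ _ ha => ?_⟩
    · simp only [List.length_cons] at hr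
      push_cast at hr
      have e1 : site (lift (Zsh (stdm x) (stdl x))⁻¹ x) = site x := by
        unfold site; rw [top_lift]; exact site_Zsh_inv _ _ _
      have e2 : site y' = site x := by
        have := (Ev.cont_zone hW h2).1
        rw [← e1]; exact this
      have e3 : site (lift (Zsh (stdm x) (stdl x)) y') = site x := by
        rw [← e2]; unfold site; rw [top_lift]; exact site_Zsh _ _ _
      have r1 := ih2.1 k c d hs (by intro a ha; rw [List.mem_singleton] at ha; subst ha; trivial)
        (by rw [e1]; simp only [List.length_singleton]; push_cast; omega)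
      have r2 := ih3.1 k c d hs (hlc ha) (by rw [e3]; omega)
      rw [r2, colors_lift, r1, colors_lift]
    · obtain ⟨_, h⟩ := ha _ List.mem_cons_self
      cases h
  | cont_out j dd l x y h0 h1 ih =>
    refine ⟨fun k c d hs ha hr => ?_, fun i c d w n ell _ _ ha => ?_⟩
    · exact ih.1 k c d hs (hlc ha) (by simp only [List.length_cons] at hr; push_cast at hr; omega)
    · obtain ⟨_, h⟩ := ha _ List.mem_cons_self
      cases h
  | cont_off j dd l x y h0 h1 h2 h3 h4 ih =>
    refine ⟨fun k c d hs ha hr => ?_, fun i c d w n ell _ _ ha => ?_⟩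
    · exact ih.1 k c d hs (hlc ha) (by simp only [List.length_cons] at hr; push_cast at hr; omega)
    · obtain ⟨_, h⟩ := ha _ List.mem_cons_self
      cases h
  | cont_fix j dd l x y γ lev φ h0 h1 h2 h3 h4 h5 ih =>
    refine ⟨fun k c d hs ha hr => ?_, fun i c d w n ell _ _ ha => ?_⟩
    · simp only [List.length_cons] at hr
      push_cast at hr
      have hS := (hP.fix j γ lev φ h3).1
      have e1 := (at_maps (pw φ dd) (pw_supp φ hS dd) x h0).2
      have r1 := ih.1 k c d hs (hlc ha) (by rw [e1]; omega)
      rw [r1]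
      exact recs_fix hP h3 dd x h4 k c d hs (by omega)
    · obtain ⟨_, h⟩ := ha _ List.mem_cons_self
      cases h
  | cont_miss j dd l x y k' b n z w r ell h0 h1 h2 h3 h4 h5 h6 ih =>
    refine ⟨fun k c d hs ha hr => ?_, fun i c d w n ell _ _ ha => ?_⟩
    · exact ih.1 k c d hs (hlc ha) (by simp only [List.length_cons] at hr; push_cast at hr; omega)
    · obtain ⟨_, h⟩ := ha _ List.mem_cons_self
      cases h
  | cont_exec j dd l x y k' b n z w r ell h ξ η h0 h1 h2 h3 h4 h5 h6 h7 h8 ih7 ih8 =>
    refine ⟨fun k c d hs ha hr => ?_, fun i c d w n ell _ _ ha => ?_⟩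
    · simp only [List.length_cons] at hr
      push_cast at hr
      obtain ⟨hn, hcz, _⟩ := hP.exec _ _ _ _ _ _ _ _ h3
      subst hn
      have e1 : site (cons (top x) h η) = site x := rfl
      have r1 := ih8.1 k c d hs (hlc ha) (by rw [e1]; omega)
      rw [r1]
      conv_rhs => rw [h6]
      rw [colors_cons, colors_cons]
      have hct : col (top x) = some (k', b) := by rw [h5, col_smul, hcz]
      rw [hct]
      have hr' : |site x - c| < 2 ^ (sc k + 1) := by omega
      -- the child context
      let d' : ℕ → Bool := fun i' => if k ≤ i' then d i' else decide (sc i' + 2 ≤ lam (site x))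
      have hd' : ∀ i', k ≤ i' → d' i' = d i' := fun i' hi' => if_pos hi'
      have hs' : Safe sc k' (site x) d' := by
        refine ⟨cls_le h4, fun i' hi' hl => ?_⟩
        by_cases hk : k ≤ i'
        · rw [hd' i' hk]
          have he := eq_center hP.mono hs hr' hk hl
          rw [he] at hl ⊢
          exact hs.2 i' hk hl
        · exact if_neg hk
      have r2 := ih7.2 k' (site x) d' w (sc k') ell ⟨j, b, z, r, h3⟩ hs' (by
        intro a ha
        exact ⟨dd, (List.mem_replicate.mp ha).2⟩)
      rw [recs, recs]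
      by_cases hk : k ≤ k'
      · have he := eq_center hP.mono hs hr' hk (cls_le h4)
        have hb : b = d k' := by
          rw [he] at h4
          rw [hs.2 k' hk (cls_le h4), cls_dec h4]
        rw [if_pos ⟨hk, hb⟩, if_pos ⟨hk, hb⟩]
        rw [recs_congr _ k' (fun i' hi' => hd' i' (hk.trans hi')),
          recs_congr _ k' (fun i' hi' => hd' i' (hk.trans hi'))] at r2
        rw [r2]
      · rw [if_neg (fun h => hk h.1), if_neg (fun h => hk h.1)]
        rw [recs_filter hd' (colors η) k' (by omega), recs_filter hd' (colors ξ) k' (by omega), r2]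
    · obtain ⟨_, h⟩ := ha _ List.mem_cons_self
      cases h
  | step_out w n ell c dd l x y h0 h1 h2 ih =>
    refine ⟨fun k c d hs ha hr => ?_, fun i c d w' n' ell' hj hs ha => ?_⟩
    · exact absurd (ha _ List.mem_cons_self) (by intro h; exact h)
    · exact ih.2 i c d w' n' ell' hj hs (fun a ha' => ha a (List.mem_cons_of_mem _ ha'))
  | step_up w n ell c dd l x x' y h0 h1 h2 h3 h4 ih0 ih4 =>
    refine ⟨fun k c d hs ha hr => ?_, fun i c' d w' n' ell' hj hs ha => ?_⟩
    · exact absurd (ha _ List.mem_cons_self) (by intro h; exact h)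
    · have r1 := ih4.2 i c' d w' n' ell' hj hs (fun a ha' => ha a (List.mem_cons_of_mem _ ha'))
      obtain ⟨dd', he⟩ := ha _ List.mem_cons_self
      injection he with hw hn hl hc hd
      subst hw hn hl hc hd
      obtain ⟨j, b, z, r, hj⟩ := hj
      obtain ⟨hn, _, h5, h6, _⟩ := hP.exec _ _ _ _ _ _ _ _ hj
      have hwin : |site x - c| ≤ 2 ^ n + |site ell| := by
        apply site_win
        unfold Vup at h2
        split_ifs at h2
        · exact Or.inl h2
        · exact Or.inr h2
      have r2 := ih0.1 i c d hs (dir_LC _ _) (by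
        rw [length_dir, ← hn]
        have : (rho i : ℤ) < 2 ^ (n + 1) := by exact_mod_cast h6
        linarith)
      rw [r1, r2]
  | step_dn w n ell c dd l x x' y h0 h1 h2 h3 h4 ih0 ih4 =>
    refine ⟨fun k c d hs ha hr => ?_, fun i c' d w' n' ell' hj hs ha => ?_⟩
    · exact absurd (ha _ List.mem_cons_self) (by intro h; exact h)
    · have r1 := ih4.2 i c' d w' n' ell' hj hs (fun a ha' => ha a (List.mem_cons_of_mem _ ha'))
      obtain ⟨dd', he⟩ := ha _ List.mem_cons_self
      injection he with hw hn hl hc hd
      subst hw hn hl hc hd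
      obtain ⟨j, b, z, r, hj⟩ := hj
      obtain ⟨hn, _, h5, h6, _⟩ := hP.exec _ _ _ _ _ _ _ _ hj
      have hwin : |site x - c| ≤ 2 ^ n + |site ell| := by
        apply site_win
        unfold Vdn at h2
        split_ifs at h2
        · exact Or.inr h2
        · exact Or.inl h2
      have r2 := ih0.1 i c d hs (dir_LC _ _) (by
        rw [length_dir, ← hn]
        have : (rho i : ℤ) < 2 ^ (n + 1) := by exact_mod_cast h6
        linarith)
      rw [r1, r2]
  | step_not w n ell c dd l x x' x'' y h0 h1 h2 h3 h4 h5 h6 ih0 ih1 ih6 =>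
    refine ⟨fun k c d hs ha hr => ?_, fun i c d w' n' ell' hj hs ha => ?_⟩
    · exact absurd (ha _ List.mem_cons_self) (by intro h; exact h)
    · exact ih6.2 i c d w' n' ell' hj hs (fun a ha' => ha a (List.mem_cons_of_mem _ ha'))

end E4

/-! # E4: invariance of records -/

/-- invariance of the records, for letters and contents -/
theorem Ev.recs_letter {P : ℤ → Content} {sc rho : ℕ → ℕ} (hP : ValidP P sc rho) {N : ℕ} {a : Letter} {dd : Bool}
    {x y : X} (h : Ev P N [.lt a dd] x y) (k : ℕ) (c : ℤ) (d : ℕ → Bool) (hs : Safe sc k c d)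
    (hr : |site x - c| < 2 ^ (sc k + 1)) : recs d k (colors y) = recs d k (colors x) := by
  refine (E4.main_inv hP h).1 k c d hs ?_ ?_
  · intro a ha
    rw [List.mem_singleton] at ha
    subst ha
    trivial
  · simp only [List.length_singleton]
    push_cast
    omega

end

end Pool.Agent.helper261_navas
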