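import Pool.Agent.helper261_navas.EvDef
import Pool.Agent.helper261_navas.PrL
import Pool.Agent.helper261_navas.PrX
import Pool.Agent.helper261_navas.PrE1
import Pool.Agent.helper261_navas.PrE2
import Pool.Agent.helper261_navas.PrE4

set_option autoImplicit false

namespace Pool.Agent.helper261_navas

open Classical

noncomputable section

/-! # E5: totality -/

namespace E5

/-! ## records -/

theorem recs_congr (d d' : ℕ → Bool) : ∀ (cs : List Color) (th : ℕ), (∀ i, th ≤ i → d i = d' i) →
    recs d th cs = recs d' th cs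
  | [], _, _ => rfl
  | none :: r, th, h => by
    unfold recs
    exact recs_congr d d' r th h
  | some (i, b) :: r, th, h => by
    unfold recs
    by_cases h1 : th ≤ i
    · rw [h i h1]
      by_cases h2 : b = d' i
      · rw [if_pos ⟨h1, h2⟩, if_pos ⟨h1, h2⟩, recs_congr d d' r i (fun i' hi' => h i' (h1.trans hi'))]
      · rw [if_neg (fun hh => h2 hh.2), if_neg (fun hh => h2 hh.2), recs_congr d d' r th h]
    · rw [if_neg (fun hh => h1 hh.1), if_neg (fun hh => h1 hh.1), recs_congr d d' r th h]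

/-- lowering the threshold prepends records below the old threshold -/
theorem recs_lower (d d' : ℕ → Bool) (k : ℕ) (hd : ∀ i, k ≤ i → d i = d' i) :
    ∀ (cs : List Color) (th : ℕ), th ≤ k →
      ∃ L : List ℕ, (∀ i ∈ L, i < k) ∧ recs d' th cs = L ++ recs d k cs
  | [], _, _ => ⟨[], by simp, rfl⟩
  | none :: r, th, h => by
    unfold recs
    exact recs_lower d d' k hd r th h
  | some (i, b) :: r, th, h => by
    unfold recs
    by_cases hik : k ≤ i
    · have h1 : th ≤ i := h.trans hik
      rw [← hd i hik]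
      by_cases h2 : b = d i
      · rw [if_pos ⟨h1, h2⟩, if_pos ⟨hik, h2⟩]
        refine ⟨[], by simp, ?_⟩
        rw [List.nil_append, recs_congr d d' r i (fun i' hi' => hd i' (hik.trans hi'))]
      · rw [if_neg (fun hh => h2 hh.2), if_neg (fun hh => h2 hh.2)]
        exact recs_lower d d' k hd r th h
    · rw [if_neg (c := k ≤ i ∧ b = d i) (fun hh => hik hh.1)]
      by_cases h2 : th ≤ i ∧ b = d' i
      · rw [if_pos h2]
        obtain ⟨L, hL, hL2⟩ := recs_lower d d' k hd r i (by omega)
        refine ⟨i :: L, ?_, by rw [hL2]; rfl⟩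
        intro a ha
        rcases List.mem_cons.mp ha with rfl | ha
        · omega
        · exact hL a ha
      · rw [if_neg h2]
        exact recs_lower d d' k hd r th h

/-! ## the measure -/

/-- the measure of a context with threshold `k` and records `L` -/
def mu (k : ℕ) (L : List ℕ) : Multiset ℕ := (L.map (fun i => 2 * i + 1) : List ℕ) + {2 * k}

theorem mu_lt (k i : ℕ) (b : Bool) (d d' : ℕ → Bool) (cs : List Color) (hd : ∀ i', k ≤ i' → d i' = d' i')
    (hb : k ≤ i → b = d i) :
    Multiset.IsDershowitzMannaLT (mu i (recs d' i cs)) (mu k (recs d k (some (i, b) :: cs))) := by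
  by_cases hik : k ≤ i
  · have h1 : recs d k (some (i, b) :: cs) = i :: recs d i cs := by
      rw [recs, if_pos ⟨hik, hb hik⟩]
    rw [h1, recs_congr d d' cs i (fun i' hi' => hd i' (hik.trans hi'))]
    refine ⟨((recs d' i cs).map (fun i => 2 * i + 1) : List ℕ), {2 * i}, {2 * i + 1} + {2 * k}, ?_, rfl, ?_, ?_⟩
    · intro h
      have := congrArg Multiset.card h
      simp at this
    · unfold mu
      rw [List.map_cons, ← Multiset.cons_coe]
      simp only [Multiset.singleton_add, Multiset.cons_add, Multiset.add_cons]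
    · intro y hy
      refine ⟨2 * i + 1, by simp, ?_⟩
      rw [Multiset.mem_singleton] at hy
      omega
  · have h1 : recs d k (some (i, b) :: cs) = recs d k cs := by
      rw [recs, if_neg (fun hh => hik hh.1)]
    obtain ⟨L, hL, hL2⟩ := recs_lower d d' k hd cs i (by omega)
    rw [h1, hL2]
    refine ⟨((recs d k cs).map (fun i => 2 * i + 1) : List ℕ), (L.map (fun i => 2 * i + 1) : List ℕ) + {2 * i},
      {2 * k}, ?_, ?_, rfl, ?_⟩
    · intro h
      have := congrArg Multiset.card h
      simp at this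
    · unfold mu
      rw [List.map_append, ← Multiset.coe_add, ← add_assoc]
      congr 1
      rw [add_comm]
    · intro y hy
      refine ⟨2 * k, by simp, ?_⟩
      rw [Multiset.mem_add] at hy
      rcases hy with hy | hy
      · rw [Multiset.mem_coe, List.mem_map] at hy
        obtain ⟨a, ha, rfl⟩ := hy
        have := hL a ha
        omega
      · rw [Multiset.mem_singleton] at hy
        omega

/-! ## words -/

/-- all letters can be evaluated at all stacks with records `L` in the context `(k, c, d)` -/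
def LetTot (P : ℤ → Content) (sc : ℕ → ℕ) (k : ℕ) (c : ℤ) (d : ℕ → Bool) (L : List ℕ) : Prop :=
  ∀ x : X, |site x - c| < 2 ^ (sc k + 1) → recs d k (colors x) = L → ∀ (a : Letter) (dd : Bool),
    ∃ N y, Ev P N [.lt a dd] x y

theorem word_tot {P : ℤ → Content} {sc rho : ℕ → ℕ} (hP : ValidP P sc rho) {k : ℕ} {c : ℤ} {d : ℕ → Bool}
    {L : List ℕ} (hs : Safe sc k c d) (hT : LetTot P sc k c d L) :
    ∀ (w : Word) (x : X), |site x - c| + w.length < 2 ^ (sc k + 1) → recs d k (colors x) = L →
      ∃ N y, Ev P N w.atoms x y ∧ recs d k (colors y) = L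
  | [], x, _, hx => ⟨0, x, Ev.nil x, hx⟩
  | p :: w, x, hlen, hx => by
    have hlen' : |site x - c| + ((w.length : ℤ) + 1) < 2 ^ (sc k + 1) := by
      simpa using hlen
    have hw0 : (0 : ℤ) ≤ w.length := Int.natCast_nonneg _
    have h1 : |site x - c| < 2 ^ (sc k + 1) := by linarith
    obtain ⟨N, y, hy⟩ := hT x h1 hx p.1 p.2
    have hy2 : recs d k (colors y) = L := by
      rw [hy.recs_letter hP k c d hs h1, hx]
    have hy3 : |site y - site x| ≤ 1 := by
      have := Ev.site_word (w := [p]) hP.wellP hy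
      simpa using this
    have h2 : |site y - c| + w.length < 2 ^ (sc k + 1) := by
      have : |site y - c| ≤ |site y - site x| + |site x - c| := abs_sub_le _ _ _
      linarith
    obtain ⟨N', z, hz, hz2⟩ := word_tot hP hs hT w y h2 hy2
    refine ⟨max N N', z, ?_, hz2⟩
    have h3 : Ev P (max N N') ([Atom.lt p.1 p.2] ++ Word.atoms w) x z :=
      Ev.append (hy.bound (le_max_left _ _)) (hz.bound (le_max_right _ _))
    exact h3

theorem length_inv (w : Word) : w.inv.length = w.length := by
  simp [Word.inv]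

theorem length_dir (w : Word) (d : Bool) : (w.dir d).length = w.length := by
  cases d <;> simp [Word.dir, length_inv]

theorem invl_atoms (w : Word) : invl w.atoms = w.inv.atoms := by
  simp [invl, Word.atoms, Word.inv, Atom.inv, Function.comp_def]

theorem inv_inv (w : Word) : w.inv.inv = w := by
  simp [Word.inv, Function.comp_def]

theorem invl_dir (w : Word) (d : Bool) : invl (w.dir d).atoms = (w.dir (!d)).atoms := by
  cases d
  · simp [Word.dir, invl_atoms, inv_inv]
  · simp [Word.dir, invl_atoms]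

/-! ## windows -/

theorem site_BL (ell : X) (q : ℤ) : site (BL ell q) = q + site ell := by
  unfold BL
  rw [site_smul]
  simp [Iso2.site]; ring

theorem site_BR (ell : X) (q : ℤ) : site (BR ell q) = q - site ell := by
  unfold BR
  rw [site_smul, site_smul]
  simp [Iso2.site]; ring

theorem site_le_of_lt {x y : X} (h : x < y) : site x ≤ site y := by
  rw [X.lt_iff] at h
  unfold site
  rcases h with h | h
  · rw [M.lt_iff] at h
    rcases h with h | h
    · exact h.le
    · exact h.1.le
  · rw [h.1]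

theorem site_Vp {n : ℕ} {ell : X} {c : ℤ} {x : X} (h : Vp n ell c x) :
    |site x - c| ≤ 2 ^ n + |site ell| := by
  have h1 := site_le_of_lt h.1
  have h2 := site_le_of_lt h.2
  rw [site_BL] at h1 h2
  have h3 := le_abs_self (site ell)
  have h4 := neg_abs_le (site ell)
  rw [abs_le]
  constructor <;> linarith

theorem site_Vm {n : ℕ} {ell : X} {c : ℤ} {x : X} (h : Vm n ell c x) :
    |site x - c| ≤ 2 ^ n + |site ell| := by
  have h1 := site_le_of_lt h.1
  have h2 := site_le_of_lt h.2
  rw [site_BR] at h1 h2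
  have h3 := le_abs_self (site ell)
  have h4 := neg_abs_le (site ell)
  rw [abs_le]
  constructor <;> linarith

theorem up_stay {P : ℤ → Content} {N N' n : ℕ} {w : Word} {ell : X} (hP : WellP P) (hW : Wit P N w n ell) {c : ℤ}
    (hc : n + 1 ≤ lam c) {dd : Bool} {x x' : X} (h : Ev P N' (w.dir dd).atoms x x') (hlt : x < x')
    (hu : Vup dd n ell c x) : Vup dd n ell c x' := by
  have hl := lam_pow n c hc
  cases dd
  · -- Vm
    simp only [Vup, Bool.false_eq_true, if_false] at hu ⊢
    refine ⟨hu.1.trans hlt, ?_⟩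
    obtain ⟨y, hy, hy2⟩ := (hW _ hl.1).2.2.2
    exact ((h.cmp hP hy).1 hu.2).trans hy2
  · simp only [Vup, if_true] at hu ⊢
    refine ⟨hu.1.trans hlt, ?_⟩
    obtain ⟨y, hy, hy2⟩ := (hW _ hl.1).1
    exact ((h.cmp hP hy).1 hu.2).trans hy2

theorem dn_stay {P : ℤ → Content} {N N' n : ℕ} {w : Word} {ell : X} (hP : WellP P) (hW : Wit P N w n ell) {c : ℤ}
    (hc : n + 1 ≤ lam c) {dd : Bool} {x x' : X} (h : Ev P N' (w.dir dd).atoms x x') (hlt : x' < x)
    (hu : Vdn dd n ell c x) : Vdn dd n ell c x' := by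
  have hl := lam_pow n c hc
  cases dd
  · -- Vp
    simp only [Vdn, Bool.false_eq_true, if_false] at hu ⊢
    refine ⟨?_, hlt.trans hu.2⟩
    obtain ⟨y, hy, hy2⟩ := (hW _ hl.2).2.1
    exact hy2.trans ((hy.cmp hP h).1 hu.1)
  · simp only [Vdn, if_true] at hu ⊢
    refine ⟨?_, hlt.trans hu.2⟩
    obtain ⟨y, hy, hy2⟩ := (hW _ hl.2).2.2.1
    exact hy2.trans ((hy.cmp hP h).1 hu.1)

/-! ## clamp steps -/

theorem step_tot {P : ℤ → Content} {sc rho : ℕ → ℕ} (hP : ValidP P sc rho) {k : ℕ} {c : ℤ} {d : ℕ → Bool}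
    {L : List ℕ} (hs : Safe sc k c d) (hT : LetTot P sc k c d L) {j : ℤ} {b : Bool} {n : ℕ} {z : M} {w : Word}
    {r : ℕ} {ell : X} (hj : P j = .exec k b n z w r ell) (dd : Bool) (x : X) (hx : recs d k (colors x) = L) :
    ∃ N y, Ev P N [.step w n ell c dd] x y ∧ recs d k (colors y) = L := by
  obtain ⟨hn, -, hrho, hrho2, N0, hW⟩ := hP.exec j k b n z w r ell hj
  by_cases hV : Vp n ell c x ∨ Vm n ell c x
  · have hsite : |site x - c| ≤ 2 ^ n + |site ell| := by
      rcases hV with h | h
      · exact site_Vp h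
      · exact site_Vm h
    have hlt : |site x - c| + w.length < 2 ^ (sc k + 1) := by
      rw [← hn]
      have h2 : (rho k : ℤ) < 2 ^ (n + 1) := by exact_mod_cast hrho2
      linarith
    have hc : n + 1 ≤ lam c := by rw [hn]; exact hs.1
    obtain ⟨N1, x1, h1, hr1⟩ := word_tot hP hs hT (w.dir dd) x (by rw [length_dir]; exact hlt) hx
    obtain ⟨N2, x2, h2, -⟩ := word_tot hP hs hT (w.dir (!dd)) x (by rw [length_dir]; exact hlt) hx
    have h1' : Ev P (max N1 N2) (w.dir dd).atoms x x1 := h1.bound (le_max_left _ _)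
    have h2' : Ev P (max N1 N2) (w.dir (!dd)).atoms x x2 := h2.bound (le_max_right _ _)
    by_cases hup : x < x1 ∧ Vup dd n ell c x
    · refine ⟨max N1 N2, x1, ?_, hr1⟩
      exact Ev.step_up w n ell c dd [] x x1 x1 h1' hup.1 hup.2 (up_stay hP.wellP hW hc h1' hup.1 hup.2) (Ev.nil x1)
    by_cases hdn : x1 < x ∧ Vdn dd n ell c x
    · refine ⟨max N1 N2, x1, ?_, hr1⟩
      exact Ev.step_dn w n ell c dd [] x x1 x1 h1' hdn.1 hdn.2 (dn_stay hP.wellP hW hc h1' hdn.1 hdn.2) (Ev.nil x1)
    have h3 : Ev P (max N1 N2) (w.dir dd).atoms x2 x := by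
      have := h2'.inv hP.wellP
      rw [invl_dir, Bool.not_not] at this
      exact this
    refine ⟨max N1 N2, x, ?_, hx⟩
    refine Ev.step_not w n ell c dd [] x x1 x2 x h1' h2' hup hdn ?_ ?_ (Ev.nil x)
    · rintro ⟨h4, h5⟩
      exact hup ⟨(h3.cmp hP.wellP h1').1 h4, h5⟩
    · rintro ⟨h4, h5⟩
      exact hdn ⟨(h1'.cmp hP.wellP h3).1 h4, h5⟩
  · push Not at hV
    exact ⟨0, x, Ev.step_out w n ell c dd [] x x hV.1 hV.2 (Ev.nil x), hx⟩

theorem steps_tot {P : ℤ → Content} {sc rho : ℕ → ℕ} (hP : ValidP P sc rho) {k : ℕ} {c : ℤ} {d : ℕ → Bool}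
    {L : List ℕ} (hs : Safe sc k c d) (hT : LetTot P sc k c d L) {j : ℤ} {b : Bool} {n : ℕ} {z : M} {w : Word}
    {r : ℕ} {ell : X} (hj : P j = .exec k b n z w r ell) (dd : Bool) :
    ∀ (r' : ℕ) (x : X), recs d k (colors x) = L →
      ∃ N y, Ev P N (List.replicate r' (.step w n ell c dd)) x y
  | 0, x, _ => ⟨0, x, Ev.nil x⟩
  | r' + 1, x, hx => by
    obtain ⟨N, y, hy, hy2⟩ := step_tot hP hs hT hj dd x hx
    obtain ⟨N', z', hz⟩ := steps_tot hP hs hT hj dd r' y hy2
    refine ⟨max N N', z', ?_⟩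
    rw [List.replicate_succ]
    have h3 : Ev P (max N N') ([Atom.step w n ell c dd] ++ List.replicate r' (.step w n ell c dd)) x z' :=
      Ev.append (hy.bound (le_max_left _ _)) (hz.bound (le_max_right _ _))
    exact h3

/-! ## contents and letters -/

theorem cont_tot {P : ℤ → Content} {sc rho : ℕ → ℕ} (hP : ValidP P sc rho) (x : X)
    (H : ∀ (i : ℕ) (b : Bool) (h : col (top x) ≠ none) (ξ : X), col (top x) = some (i, b) →
      cls b (sc i) (lam (site x)) → x = cons (top x) h ξ →
      ∃ d', Safe sc i (site x) d' ∧ LetTot P sc i (site x) d' (recs d' i (colors ξ))) (j : ℤ) (dd : Bool) :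
    ∃ N y, Ev P N [.cont j dd] x y := by
  by_cases hU : InU x
  · set N0 : ℕ := max (lam (site x) + 1) (j.toNat + 1) with hN0
    have hlam : lam (site x) < N0 := by
      have := le_max_left (lam (site x) + 1) (j.toNat + 1)
      omega
    have hjN : j < N0 := by
      have h1 := le_max_right (lam (site x) + 1) (j.toNat + 1)
      have h2 := Int.self_le_toNat j
      have h3 : ((j.toNat + 1 : ℕ) : ℤ) ≤ (N0 : ℤ) := by exact_mod_cast h1
      push_cast at h3
      linarith
    by_cases hI : (P j).Inactive (lam (site x))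
    · exact ⟨N0, x, Ev.cont_off j dd [] x x hU hlam hjN hI (Ev.nil x)⟩
    · rcases hPj : P j with _ | ⟨γ, lev, φ⟩ | ⟨k, b, n, z, w, r, ell⟩
      · rw [hPj] at hI
        exact absurd trivial hI
      · rw [hPj] at hI
        simp only [Content.Inactive, not_not] at hI
        exact ⟨N0, _, Ev.cont_fix j dd [] x _ γ lev φ hU hlam hjN hPj hI (Ev.nil _)⟩
      · rw [hPj] at hI
        simp only [Content.Inactive, not_not] at hI
        by_cases hz : top x = R (site x) • z
        · obtain ⟨hn, hcz, -, -, -⟩ := hP.exec j k b n z w r ell hPj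
          have hct : col (top x) = some (k, b) := by rw [hz, col_smul, hcz]
          have h : col (top x) ≠ none := by rw [hct]; simp
          obtain ⟨ξ, hξ⟩ := exists_cons x h
          obtain ⟨d', hs, hT⟩ := H k b h ξ hct (by rw [← hn]; exact hI) hξ
          obtain ⟨N', η, hη⟩ := steps_tot hP hs hT hPj dd r ξ rfl
          refine ⟨max N0 N', cons (top x) h η, ?_⟩
          have hm := le_max_left N0 N'
          refine Ev.cont_exec j dd [] x _ k b n z w r ell h ξ η hU (by omega) ?_ hPj hI hz hξ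
            (hη.bound (le_max_right _ _)) (Ev.nil _)
          have h3 : (N0 : ℤ) ≤ ((max N0 N' : ℕ) : ℤ) := by exact_mod_cast hm
          linarith
        · exact ⟨N0, x, Ev.cont_miss j dd [] x x k b n z w r ell hU hlam hjN hPj hI hz (Ev.nil x)⟩
  · exact ⟨0, x, Ev.cont_out j dd [] x x hU (Ev.nil x)⟩

theorem sgM_pow_e (m : ℤ) (a : M) : ((sgM ^ m).1 a).e = a.e := by
  induction m using Int.induction_on generalizing a with
  | zero => rfl
  | succ m ih =>
    rw [zpow_add_one]
    change ((sgM ^ (m : ℤ)).1 (sgM.1 a)).e = a.e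
    rw [ih]; rfl
  | pred m ih =>
    rw [zpow_sub_one]
    change ((sgM ^ (-(m : ℤ))).1 ((sgM⁻¹).1 a)).e = a.e
    rw [ih]; rfl

theorem btM_pow_e (m : ℤ) (a : M) : ((btM ^ m).1 a).e = a.e := by
  induction m using Int.induction_on generalizing a with
  | zero => rfl
  | succ m ih =>
    rw [zpow_add_one]
    change ((btM ^ (m : ℤ)).1 (btM.1 a)).e = a.e
    rw [ih]; rfl
  | pred m ih =>
    rw [zpow_sub_one]
    change ((btM ^ (-(m : ℤ))).1 ((btM⁻¹).1 a)).e = a.e
    rw [ih]; rfl

theorem Zsh_inv_e (m l : ℤ) (a : M) : (((Zsh m l)⁻¹).1 a).e = a.e := by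
  unfold Zsh
  rw [mul_inv_rev, ← zpow_neg, ← zpow_neg]
  change ((btM ^ (-l)).1 ((sgM ^ (-m)).1 a)).e = a.e
  rw [btM_pow_e, sgM_pow_e]

theorem letter_tot {P : ℤ → Content} {sc rho : ℕ → ℕ} (hP : ValidP P sc rho) (x : X)
    (H : ∀ (x' : X), site x' = site x → colors x' = colors x →
      ∀ (i : ℕ) (b : Bool) (h : col (top x') ≠ none) (ξ : X), col (top x') = some (i, b) →
      cls b (sc i) (lam (site x')) → x' = cons (top x') h ξ →
      ∃ d', Safe sc i (site x') d' ∧ LetTot P sc i (site x') d' (recs d' i (colors ξ))) (a : Letter) (dd : Bool) :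
    ∃ N y, Ev P N [.lt a dd] x y := by
  cases a
  · exact ⟨lam (site x) + 1, _, Ev.sg dd [] x _ (Nat.lt_succ_self _) (Ev.nil _)⟩
  · exact ⟨lam (site x) + 1, _, Ev.bt dd [] x _ (Nat.lt_succ_self _) (Ev.nil _)⟩
  · exact ⟨0, _, Ev.om dd [] x _ (Ev.nil _)⟩
  · by_cases hl : stdl x < 0
    · exact ⟨lam (site x) + 1, _, Ev.pi_off dd [] x _ (Nat.lt_succ_self _) hl (Ev.nil _)⟩
    · have hl' : 0 ≤ stdl x := not_lt.mp hl
      obtain ⟨N, y, hy⟩ := cont_tot hP (lift (Zsh (stdm x) (stdl x))⁻¹ x)
        (H _ (by unfold site; rw [top_lift]; exact Zsh_inv_e _ _ _) (colors_lift _ _)) (stdm x) dd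
      refine ⟨max N (lam (site x) + 1), _, Ev.pi_on dd [] x _ y ?_ hl' (hy.bound (le_max_left _ _)) (Ev.nil _)⟩
      have := le_max_right N (lam (site x) + 1)
      omega

/-! ## the induction -/

theorem colors_cons (a : M) (h : col a ≠ none) (ξ : X) : colors (cons a h ξ) = col a :: colors ξ := rfl

theorem cls_pos {b : Bool} {n v : ℕ} (h : cls b n v) : n + 1 ≤ v := by
  cases b
  · simp only [cls, Bool.false_eq_true, if_false] at h; omega
  · simp only [cls, if_true] at h; omega

theorem cls_eq {b : Bool} {n v : ℕ} (h : cls b n v) : b = decide (n + 2 ≤ v) := by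
  cases b
  · simp only [cls, Bool.false_eq_true, if_false] at h
    have : ¬ (n + 2 ≤ v) := by omega
    simp [this]
  · simp only [cls, if_true] at h
    simp [h]

theorem eq_center {sc : ℕ → ℕ} (hm : Monotone sc) {k i : ℕ} {c e : ℤ} (hc : sc k + 1 ≤ lam c)
    (he : |e - c| < 2 ^ (sc k + 1)) (hki : k ≤ i) (h : sc i + 1 ≤ lam e) : e = c := by
  by_contra hne
  have h1 := lam_near (sc k) c e hc hne he
  have h2 := hm hki
  omega

theorem main_ind {P : ℤ → Content} {sc rho : ℕ → ℕ} (hP : ValidP P sc rho) (μ : Multiset ℕ) :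
    ∀ (k : ℕ) (c : ℤ) (d : ℕ → Bool) (L : List ℕ), mu k L = μ → Safe sc k c d → LetTot P sc k c d L := by
  refine Multiset.wellFounded_isDershowitzMannaLT.induction (C := fun μ => ∀ (k : ℕ) (c : ℤ) (d : ℕ → Bool)
    (L : List ℕ), mu k L = μ → Safe sc k c d → LetTot P sc k c d L) μ ?_
  intro μ ih k c d L hμ hs x hx hL a dd
  refine letter_tot hP x ?_ a dd
  intro x' hsite hcol i b h ξ hct hcl hξ
  have hpos := cls_pos hcl
  have hx' : |site x' - c| < 2 ^ (sc k + 1) := by rw [hsite]; exact hx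
  have hsafe : Safe sc i (site x') (fun i' => if k ≤ i' then d i' else decide (sc i' + 2 ≤ lam (site x'))) := by
    refine ⟨hpos, ?_⟩
    intro i' hi' hl
    by_cases hk : k ≤ i'
    · have he : site x' = c := eq_center hP.mono hs.1 hx' hk hl
      simp only [hk, if_true]
      rw [he] at hl ⊢
      exact hs.2 i' hk hl
    · simp only [hk, if_false]
  refine ⟨fun i' => if k ≤ i' then d i' else decide (sc i' + 2 ≤ lam (site x')), hsafe, ?_⟩
  refine ih _ ?_ i (site x') _ _ rfl hsafe
  have hrec : recs d k (some (i, b) :: colors ξ) = L := by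
    rw [← hL, ← hcol, hξ, colors_cons, hct]
  rw [← hμ, ← hrec]
  refine mu_lt k i b d _ (colors ξ) ?_ ?_
  · intro i' hi'
    simp only [hi', if_true]
  · intro hki
    have he : site x' = c := eq_center hP.mono hs.1 hx' hki hpos
    rw [hs.2 i hki (by rw [← he]; exact hpos), ← he]
    exact cls_eq hcl

end E5

/-- totality -/
theorem Ev.total {P : ℤ → Content} {sc rho : ℕ → ℕ} (hP : ValidP P sc rho) (a : Letter) (d : Bool) (x : X) :
    ∃ N y, Ev P N [.lt a d] x y := by
  refine E5.letter_tot hP x ?_ a d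
  intro x' hsite hcol i b h ξ hct hcl hξ
  have hsafe : Safe sc i (site x') (fun i' => decide (sc i' + 2 ≤ lam (site x'))) :=
    ⟨E5.cls_pos hcl, fun i' _ _ => rfl⟩
  exact ⟨_, hsafe, E5.main_ind hP _ i (site x') _ _ rfl hsafe⟩

end

end Pool.Agent.helper261_navas
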