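import Pool.Agent.helper261_navas.EvDef
import Pool.Agent.helper261_navas.PrC
import Pool.Agent.helper261_navas.PrX

set_option autoImplicit false

namespace Pool.Agent.helper261_navas

open Classical

noncomputable section

/-! # K: the push automorphism -/

namespace K

theorem exists_glue {A B ι : Type} [LinearOrder A] [LinearOrder B] [LinearOrder ι] (S : Set A)
    (T : Set B) (tA : A → ι) (tB : B → ι) (hA : Monotone tA) (hB : Monotone tB) (Q : A → B → Prop)
    (h : ∀ i, ∃ f : {a | a ∈ S ∧ tA a = i} ≃o {b | b ∈ T ∧ tB b = i}, ∀ a, Q a.1 (f a).1) :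
    ∃ F : S ≃o T, ∀ a : S, Q a.1 (F a).1 := by
  choose f hf using h
  let F : S → T := fun a => ⟨(f (tA a.1) ⟨a.1, a.2, rfl⟩).1, (f (tA a.1) ⟨a.1, a.2, rfl⟩).2.1⟩
  have hFt : ∀ a : S, tB (F a).1 = tA a.1 := fun a => (f (tA a.1) ⟨a.1, a.2, rfl⟩).2.2
  have hFi : ∀ (i : ι) (a : S) (h : tA a.1 = i), (F a).1 = (f i ⟨a.1, a.2, h⟩).1 := by
    intro i a h
    subst h
    rfl
  have hmono : StrictMono F := by
    intro a a' haa
    have haa' : a.1 < a'.1 := haa
    show (F a).1 < (F a').1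
    rcases (hA haa'.le).lt_or_eq with h1 | h1
    · by_contra hcon
      have := hB (not_lt.1 hcon)
      rw [hFt, hFt] at this
      exact absurd h1 (not_lt.2 this)
    · rw [hFi (tA a'.1) a h1, hFi (tA a'.1) a' rfl]
      exact (f (tA a'.1)).lt_iff_lt.2 haa'
  have hsurj : Function.Surjective F := by
    intro b
    obtain ⟨a, ha⟩ := (f (tB b.1)).surjective ⟨b.1, b.2, rfl⟩
    refine ⟨⟨a.1, a.2.1⟩, ?_⟩
    apply Subtype.ext
    rw [hFi (tB b.1) ⟨a.1, a.2.1⟩ a.2.2]
    have : (⟨a.1, a.2.1, a.2.2⟩ : {a | a ∈ S ∧ tA a = tB b.1}) = a := rfl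
    rw [this, ha]
  refine ⟨StrictMono.orderIsoOfSurjective F hmono hsurj, ?_⟩
  intro a
  exact hf (tA a.1) ⟨a.1, a.2, rfl⟩

/-- gluing for whole types -/
theorem exists_glue' {A B ι : Type} [LinearOrder A] [LinearOrder B] [LinearOrder ι]
    (tA : A → ι) (tB : B → ι) (hA : Monotone tA) (hB : Monotone tB) (Q : A → B → Prop)
    (h : ∀ i, ∃ f : {a | tA a = i} ≃o {b | tB b = i}, ∀ a, Q a.1 (f a).1) :
    ∃ F : A ≃o B, ∀ a, Q a (F a) := by
  obtain ⟨F, hF⟩ := exists_glue (Set.univ : Set A) (Set.univ : Set B) tA tB hA hB Q (by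
    intro i
    obtain ⟨f, hf⟩ := h i
    have e1 : {a | a ∈ (Set.univ : Set A) ∧ tA a = i} = {a | tA a = i} := by
      ext a; simp
    have e2 : {b | b ∈ (Set.univ : Set B) ∧ tB b = i} = {b | tB b = i} := by
      ext a; simp
    rw [e1, e2]
    exact ⟨f, hf⟩)
  refine ⟨(OrderIso.Set.univ.symm.trans F).trans OrderIso.Set.univ, ?_⟩
  intro a
  exact hF ⟨a, Set.mem_univ a⟩

/-- lift of a colour preserving isomorphism between sets of points -/
theorem lift_piece (S T : Set M) (ψ : S ≃o T) (hψ : ∀ a, col (ψ a).1 = col a.1) (S' T' : Set X)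
    (hS : ∀ x, x ∈ S' ↔ top x ∈ S) (hT : ∀ x, x ∈ T' ↔ top x ∈ T) :
    ∃ f : S' ≃o T', ∀ (x : S') (hx : top x.1 ∈ S), (f x).1 = retop x.1 (ψ ⟨top x.1, hx⟩).1 (hψ _) := by
  let F : S' → T' := fun x => ⟨retop x.1 (ψ ⟨top x.1, (hS _).1 x.2⟩).1 (hψ _), by
    rw [hT, top_retop]
    exact (ψ _).2⟩
  have hmono : StrictMono F := by
    intro x x' h
    have h' : x.1 < x'.1 := h
    show (F x).1 < (F x').1
    rw [X.lt_iff] at h' ⊢
    simp only [F, top_retop, tail_retop]
    rcases h' with h' | ⟨h', h''⟩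
    · left
      exact ψ.lt_iff_lt.2 h'
    · right
      refine ⟨?_, h''⟩
      congr 2
      exact Subtype.ext h'
  have hsurj : Function.Surjective F := by
    intro y
    have hy : top y.1 ∈ T := (hT _).1 y.2
    have hc : col (ψ.symm ⟨top y.1, hy⟩).1 = col (top y.1) := by
      have := hψ (ψ.symm ⟨top y.1, hy⟩)
      rw [ψ.apply_symm_apply] at this
      exact this.symm
    refine ⟨⟨retop y.1 (ψ.symm ⟨top y.1, hy⟩).1 hc, ?_⟩, ?_⟩
    · rw [hS, top_retop]
      exact (ψ.symm _).2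
    · apply Subtype.ext
      rw [X.ext_iff']
      refine ⟨?_, rfl⟩
      show (ψ ⟨(ψ.symm ⟨top y.1, hy⟩).1, _⟩).1 = top y.1
      have : (⟨(ψ.symm ⟨top y.1, hy⟩).1, (ψ.symm ⟨top y.1, hy⟩).2⟩ : S) = ψ.symm ⟨top y.1, hy⟩ := rfl
      rw [this, ψ.apply_symm_apply]
  refine ⟨StrictMono.orderIsoOfSurjective F hmono hsurj, ?_⟩
  intro x hx
  rfl

/-- the special piece: insert a marker -/
theorem mark_piece (S : Set M) (Lam : S ≃o (Set.univ : Set M)) (hL : ∀ a, col (Lam a).1 = col a.1)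
    (y : M) (hy : col y ≠ none) (S' T' : Set X)
    (hS : ∀ x, x ∈ S' ↔ top x ∈ S) (hT : ∀ x, x ∈ T' ↔ top x = y) :
    ∃ f : S' ≃o T', ∀ (x : S') (hx : top x.1 ∈ S),
      (f x).1 = cons y hy (retop x.1 (Lam ⟨top x.1, hx⟩).1 (hL _)) := by
  let F : S' → T' := fun x => ⟨cons y hy (retop x.1 (Lam ⟨top x.1, (hS _).1 x.2⟩).1 (hL _)), by
    rw [hT, top_cons]⟩
  have hmono : StrictMono F := by
    intro x x' h
    have h' : x.1 < x'.1 := h
    show (F x).1 < (F x').1
    simp only [F]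
    rw [cons_lt_cons]
    rw [X.lt_iff] at h' ⊢
    simp only [top_retop, tail_retop]
    rcases h' with h' | ⟨h', h''⟩
    · left
      exact Lam.lt_iff_lt.2 h'
    · right
      refine ⟨?_, h''⟩
      congr 2
      exact Subtype.ext h'
  have hsurj : Function.Surjective F := by
    intro z
    have hz : top z.1 = y := (hT _).1 z.2
    obtain ⟨ξ, hξ⟩ := exists_cons z.1 (by rw [hz]; exact hy)
    have hc : col (Lam.symm ⟨top ξ, Set.mem_univ _⟩).1 = col (top ξ) := by
      have := hL (Lam.symm ⟨top ξ, Set.mem_univ _⟩)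
      rw [Lam.apply_symm_apply] at this
      exact this.symm
    refine ⟨⟨retop ξ (Lam.symm ⟨top ξ, Set.mem_univ _⟩).1 hc, ?_⟩, ?_⟩
    · rw [hS, top_retop]
      exact (Lam.symm _).2
    · apply Subtype.ext
      show cons y hy _ = z.1
      have hz1 : z.1 = cons y hy ξ := by
        rw [hξ]
        apply Subtype.ext
        show top z.1 :: ξ.1 = y :: ξ.1
        rw [hz]
      rw [hz1, cons_inj, X.ext_iff']
      refine ⟨?_, rfl⟩
      show (Lam ⟨(Lam.symm ⟨top ξ, Set.mem_univ _⟩).1, _⟩).1 = top ξ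
      have : (⟨(Lam.symm ⟨top ξ, Set.mem_univ _⟩).1, (Lam.symm ⟨top ξ, Set.mem_univ _⟩).2⟩ : S) =
        Lam.symm ⟨top ξ, Set.mem_univ _⟩ := rfl
      rw [this, Lam.apply_symm_apply]
  refine ⟨StrictMono.orderIsoOfSurjective F hmono hsurj, ?_⟩
  intro x hx
  rfl

/-! ### order facts in `M` -/

/-- below the zone `U_0` -/
def bUL (a : M) : Prop := a.e < 0 ∨ (a.e = 0 ∧ (a.m < 0 ∨ (a.m = 0 ∧ a.l < 0)))
/-- in the left half of the zone `U_0` -/
def iUL (a : M) : Prop := a.e = 0 ∧ a.m = 0 ∧ a.l = 0 ∧ a.i < 0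

theorem bUL_of_lt {a b : M} (h : b < a) (ha : bUL a) : bUL b := by
  rw [M.lt_iff] at h
  unfold bUL at *
  omega

theorem iUL_of_lt {a b : M} (h : b < a) (ha : iUL a) :
    bUL b ∨ (iUL b ∧ (b.i < a.i ∨ (b.i = a.i ∧ b.q < a.q))) := by
  rw [M.lt_iff] at h
  unfold iUL at ha
  obtain ⟨h1, h2, h3, h4⟩ := ha
  unfold bUL iUL
  rcases h with h | ⟨h, h | ⟨h', h | ⟨h'', h | ⟨h''', h''''⟩⟩⟩⟩
  · left; omega
  · left; omega
  · left; omega
  · right; omega
  · right
    refine ⟨by omega, Or.inr ⟨h''', h''''⟩⟩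

theorem not_bUL_iUL {a : M} (h : iUL a) : ¬ bUL a := by
  unfold bUL iUL at *
  omega

/-- same block, other last coordinate -/
def sh (a : M) (q : ℚ) : M := ⟨a.e, a.m, a.l, a.i, q⟩

theorem lt_sh {a : M} {q : ℚ} (h : a.q < q) : a < sh a q := by
  rw [M.lt_iff]; simp only [sh]; tauto

theorem sh_lt {a : M} {q : ℚ} (h : q < a.q) : sh a q < a := by
  rw [M.lt_iff]; simp only [sh]; tauto

/-- a point between, in the block of the left point -/
theorem between_left {a b : M} (h : a < b) : ∃ q, a < sh a q ∧ sh a q < b := by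
  rw [M.lt_iff] at h
  by_cases hb : a.e = b.e ∧ a.m = b.m ∧ a.l = b.l ∧ a.i = b.i
  · obtain ⟨h1, h2, h3, h4⟩ := hb
    have hq : a.q < b.q := by
      rcases h with h | ⟨_, h | ⟨_, h | ⟨_, h | ⟨_, h⟩⟩⟩⟩
      · omega
      · omega
      · omega
      · omega
      · exact h
    refine ⟨(a.q + b.q) / 2, lt_sh (by linarith), ?_⟩
    rw [M.lt_iff]
    simp only [sh]
    exact Or.inr ⟨h1, Or.inr ⟨h2, Or.inr ⟨h3, Or.inr ⟨h4, by linarith⟩⟩⟩⟩
  · refine ⟨a.q + 1, lt_sh (by linarith), ?_⟩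
    rw [M.lt_iff]
    simp only [sh]
    rcases h with h | ⟨h1, h | ⟨h2, h | ⟨h3, h | ⟨h4, h⟩⟩⟩⟩
    · omega
    · omega
    · omega
    · omega
    · exact absurd ⟨h1, h2, h3, h4⟩ hb

/-- a point between, in the block of the right point -/
theorem between_right {a b : M} (h : a < b) : ∃ q, a < sh b q ∧ sh b q < b := by
  rw [M.lt_iff] at h
  by_cases hb : a.e = b.e ∧ a.m = b.m ∧ a.l = b.l ∧ a.i = b.i
  · obtain ⟨h1, h2, h3, h4⟩ := hb
    have hq : a.q < b.q := by
      rcases h with h | ⟨_, h | ⟨_, h | ⟨_, h | ⟨_, h⟩⟩⟩⟩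
      · omega
      · omega
      · omega
      · omega
      · exact h
    refine ⟨(a.q + b.q) / 2, ?_, sh_lt (by linarith)⟩
    rw [M.lt_iff]
    simp only [sh]
    exact Or.inr ⟨h1, Or.inr ⟨h2, Or.inr ⟨h3, Or.inr ⟨h4, by linarith⟩⟩⟩⟩
  · refine ⟨b.q - 1, ?_, sh_lt (by linarith)⟩
    rw [M.lt_iff]
    simp only [sh]
    rcases h with h | ⟨h1, h | ⟨h2, h | ⟨h3, h | ⟨h4, h⟩⟩⟩⟩
    · omega
    · omega
    · omega
    · omega
    · exact absurd ⟨h1, h2, h3, h4⟩ hb

/-! ### tags -/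

def ind (L : Set M) (a : M) : ℕ := if a ∈ L then 0 else 1

theorem ind_mono {L : Set M} (h : IsLowerSet L) : Monotone (ind L) := by
  intro a b hab
  unfold ind
  by_cases hb : b ∈ L
  · rw [if_pos hb, if_pos (h hab hb)]
  · rw [if_neg hb]
    split_ifs <;> omega

def tg (L1 L2 L3 L4 : Set M) (a : M) : ℕ := ind L1 a + ind L2 a + ind L3 a + ind L4 a

theorem tg_mono {L1 L2 L3 L4 : Set M} (h1 : IsLowerSet L1) (h2 : IsLowerSet L2)
    (h3 : IsLowerSet L3) (h4 : IsLowerSet L4) : Monotone (tg L1 L2 L3 L4) := by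
  intro a b hab
  unfold tg
  have := ind_mono h1 hab
  have := ind_mono h2 hab
  have := ind_mono h3 hab
  have := ind_mono h4 hab
  omega

theorem tg_vals {L1 L2 L3 L4 : Set M} (h12 : L1 ⊆ L2) (h23 : L2 ⊆ L3) (h34 : L3 ⊆ L4) (a : M) :
    (tg L1 L2 L3 L4 a = 0 ↔ a ∈ L1) ∧ (tg L1 L2 L3 L4 a = 1 ↔ a ∉ L1 ∧ a ∈ L2) ∧
    (tg L1 L2 L3 L4 a = 2 ↔ a ∉ L2 ∧ a ∈ L3) ∧ (tg L1 L2 L3 L4 a = 3 ↔ a ∉ L3 ∧ a ∈ L4) ∧
    (tg L1 L2 L3 L4 a = 4 ↔ a ∉ L4) ∧ tg L1 L2 L3 L4 a ≤ 4 := by
  have e1 : a ∈ L1 → a ∈ L2 := fun h => h12 h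
  have e2 : a ∈ L2 → a ∈ L3 := fun h => h23 h
  have e3 : a ∈ L3 → a ∈ L4 := fun h => h34 h
  unfold tg ind
  by_cases c1 : a ∈ L1
  · have c2 := e1 c1
    have c3 := e2 c2
    have c4 := e3 c3
    simp [c1, c2, c3, c4]
  · by_cases c2 : a ∈ L2
    · have c3 := e2 c2
      have c4 := e3 c3
      simp [c1, c2, c3, c4]
    · by_cases c3 : a ∈ L3
      · have c4 := e3 c3
        simp [c1, c2, c3, c4]
      · by_cases c4 : a ∈ L4
        · simp [c1, c2, c3, c4]
        · simp [c1, c2, c3, c4]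

theorem top_mono : Monotone top := by
  intro x y h
  rcases h.lt_or_eq with h | h
  · rw [X.lt_iff] at h
    rcases h with h | h
    · exact h.le
    · exact h.1.le
  · rw [h]

/-- the tag for the three pieces in the construction of `Lam` -/
def t3 (H W : ℤ) (a : M) : ℕ := if a.e + H < -W then 0 else if a.e + H ≤ W then 1 else 2

theorem e_mono {a b : M} (h : a ≤ b) : a.e ≤ b.e := by
  rcases h.lt_or_eq with h | h
  · rw [M.lt_iff] at h
    omega
  · rw [h]

theorem t3_mono (H W : ℤ) : Monotone (t3 H W) := by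
  intro a b hab
  have := e_mono hab
  unfold t3
  split_ifs <;> omega

/-- the block of `y` of index `-1` up to the gap `β` -/
def A2 (β : ℝ) : Set M := {a | a.e = 0 ∧ a.m = 0 ∧ a.l = 0 ∧ a.i = -1 ∧ (a.q : ℝ) < β}

theorem A2_conv (β : ℝ) {a b c : M} (ha : a ∈ A2 β) (hc : c ∈ A2 β) (h1 : a ≤ b) (h2 : b ≤ c) :
    b ∈ A2 β := by
  rcases h1.lt_or_eq with h1 | h1
  · rcases h2.lt_or_eq with h2 | h2
    · obtain ⟨a1, a2, a3, a4, a5⟩ := ha
      obtain ⟨c1, c2, c3, c4, c5⟩ := hc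
      rw [M.lt_iff] at h1 h2
      have e1 : b.e = 0 := by omega
      have e2 : b.m = 0 := by omega
      have e3 : b.l = 0 := by omega
      have e4 : b.i = -1 := by omega
      refine ⟨e1, e2, e3, e4, ?_⟩
      have : b.q < c.q := by
        rcases h2 with h | ⟨_, h | ⟨_, h | ⟨_, h | ⟨_, h⟩⟩⟩⟩
        · omega
        · omega
        · omega
        · omega
        · exact h
      have h' : (b.q : ℝ) < c.q := by exact_mod_cast this
      linarith
    · rw [h2]; exact hc
  · rw [← h1]; exact ha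

theorem sh_mem_A2 {β : ℝ} {a : M} (ha : a ∈ A2 β) {q : ℚ} (hq : (q : ℝ) < β) : sh a q ∈ A2 β := by
  obtain ⟨a1, a2, a3, a4, a5⟩ := ha
  exact ⟨a1, a2, a3, a4, hq⟩

theorem exists_Lam (H W : ℤ) (hW : 0 ≤ W) (G : CAut) (p p' : ℚ)
    (hG : ∀ a : M, |a.e + H| ≤ W → (⟨0, 0, 0, -1, p⟩ : M) < G.1 a ∧ G.1 a < (⟨0, 0, 0, -1, p'⟩ : M))
    (β : ℝ) (hβ : (p' : ℝ) < β) :
    ∃ Lam : A2 β ≃o (Set.univ : Set M), (∀ a, col (Lam a).1 = col a.1) ∧
      ∀ a : M, |a.e + H| ≤ W → ∃ h : G.1 a ∈ A2 β, (Lam ⟨G.1 a, h⟩).1 = a := by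
  set P' : M := ⟨0, 0, 0, -1, p'⟩ with hP'
  set P : M := ⟨0, 0, 0, -1, p⟩ with hP
  set o : M := ⟨-H, 0, 0, 0, 0⟩ with ho
  have hoo : |o.e + H| ≤ W := by simp [ho, hW]
  have hPP' : P < P' := (hG o hoo).1.trans (hG o hoo).2
  have hpp' : p < p' := by
    rw [M.lt_iff] at hPP'
    simp only [hP, hP', lt_self_iff_false, true_and, false_or] at hPP'
    exact hPP'
  have hP'A : P' ∈ A2 β := ⟨rfl, rfl, rfl, rfl, hβ⟩
  have hPA : P ∈ A2 β := ⟨rfl, rfl, rfl, rfl, by
    have : (p : ℝ) < p' := by exact_mod_cast hpp'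
    show (p : ℝ) < β
    linarith⟩
  have hGA : ∀ a : M, |a.e + H| ≤ W → G.1 a ∈ A2 β := fun a ha =>
    A2_conv β hPA hP'A (hG a ha).1.le (hG a ha).2.le
  have hGs : ∀ a, G.1.symm (G.1 a) = a := fun a => G.1.symm_apply_apply a
  have hGs' : ∀ a, G.1 (G.1.symm a) = a := fun a => G.1.apply_symm_apply a
  have hcol' : ∀ a, col (G.1.symm a) = col a := by
    intro a
    have := G.2 (G.1.symm a)
    rw [hGs'] at this
    exact this.symm
  have key := exists_glue (A2 β) (Set.univ : Set M) (fun x => t3 H W (G.1.symm x)) (t3 H W)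
    (fun a b hab => t3_mono H W (G.1.symm.monotone hab)) (t3_mono H W)
    (fun x a => col a = col x ∧ (t3 H W a = 1 → G.1 a = x)) (by
    intro i
    by_cases h1 : i = 1
    · subst h1
      -- the middle piece
      have hmem : ∀ x : {a | a ∈ A2 β ∧ t3 H W (G.1.symm a) = 1},
          G.1.symm x.1 ∈ {b | b ∈ (Set.univ : Set M) ∧ t3 H W b = 1} := fun x => ⟨Set.mem_univ _, x.2.2⟩
      let F : {a | a ∈ A2 β ∧ t3 H W (G.1.symm a) = 1} →
          {b | b ∈ (Set.univ : Set M) ∧ t3 H W b = 1} := fun x => ⟨G.1.symm x.1, hmem x⟩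
      have hm : StrictMono F := by
        intro a b hab
        exact G.1.symm.lt_iff_lt.2 (show a.1 < b.1 from hab)
      have hs : Function.Surjective F := by
        intro b
        have hb : |b.1.e + H| ≤ W := by
          have h2 := b.2.2
          unfold t3 at h2
          rw [abs_le]
          split_ifs at h2 with c1 c2 <;> omega
        refine ⟨⟨G.1 b.1, hGA _ hb, ?_⟩, ?_⟩
        · rw [hGs]; exact b.2.2
        · apply Subtype.ext
          exact hGs b.1
      refine ⟨StrictMono.orderIsoOfSurjective F hm hs, ?_⟩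
      intro a
      refine ⟨hcol' a.1, fun _ => hGs' a.1⟩
    · by_cases h02 : i = 0 ∨ i = 2
      · -- the outer pieces, by the theorem of Cantor
        have hCA : CD {a | a ∈ A2 β ∧ t3 H W (G.1.symm a) = i} (fun a => col a.1) := by
          apply CD_of_convex
          · rcases h02 with rfl | rfl
            · refine ⟨P, hPA, ?_⟩
              by_contra hcon
              have hlt : P < G.1 o := (hG o hoo).1
              have h2 : G.1.symm P < o := by
                have := G.1.symm.lt_iff_lt.2 hlt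
                rwa [hGs] at this
              have h3 := e_mono h2.le
              have h4 : |(G.1.symm P).e + H| ≤ W := by
                unfold t3 at hcon
                split_ifs at hcon with c1 c2
                · simp at hcon
                · rw [abs_le]; omega
                · simp only [ho] at h3; omega
              have h5 := (hG _ h4).1
              rw [hGs'] at h5
              exact lt_irrefl _ h5
            · refine ⟨P', hP'A, ?_⟩
              by_contra hcon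
              have hlt : G.1 o < P' := (hG o hoo).2
              have h2 : o < G.1.symm P' := by
                have := G.1.symm.lt_iff_lt.2 hlt
                rwa [hGs] at this
              have h3 := e_mono h2.le
              have h4 : |(G.1.symm P').e + H| ≤ W := by
                unfold t3 at hcon
                split_ifs at hcon with c1 c2
                · simp only [ho] at h3; omega
                · rw [abs_le]; omega
                · simp at hcon
              have h5 := (hG _ h4).2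
              rw [hGs'] at h5
              exact lt_irrefl _ h5
          · constructor
            intro a ha b hb c hc
            refine ⟨A2_conv β ha.1 hb.1 hc.1 hc.2, ?_⟩
            have m1 := t3_mono H W (G.1.symm.monotone hc.1)
            have m2 := t3_mono H W (G.1.symm.monotone hc.2)
            have m3 := ha.2
            have m4 := hb.2
            omega
          · intro a ha
            rcases h02 with rfl | rfl
            · refine ⟨sh a (a.q - 1), ⟨sh_mem_A2 ha.1 ?_, ?_⟩, sh_lt (by linarith)⟩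
              · have := ha.1.2.2.2.2
                push_cast
                linarith
              · have hlt : sh a (a.q - 1) < a := sh_lt (by linarith)
                have m1 := t3_mono H W (G.1.symm.monotone hlt.le)
                have m2 := ha.2
                omega
            · -- move down inside the block of the preimage
              set c : M := G.1.symm a with hc
              have hcs : sh c (c.q - 1) < c := sh_lt (by linarith)
              have hlt : G.1 (sh c (c.q - 1)) < a := by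
                have := G.1.lt_iff_lt.2 hcs
                rwa [hc, hGs'] at this
              have htc : t3 H W (sh c (c.q - 1)) = 2 := ha.2
              have hco : o < sh c (c.q - 1) := by
                by_contra hcon
                have := e_mono (not_lt.1 hcon)
                unfold t3 at htc
                simp only [ho] at this
                split_ifs at htc with c1 c2 <;> omega
              refine ⟨G.1 (sh c (c.q - 1)), ⟨A2_conv β (hGA o hoo) ha.1 ?_ hlt.le, ?_⟩, hlt⟩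
              · exact (G.1.lt_iff_lt.2 hco).le
              · rw [hGs]; exact htc
          · intro a ha
            rcases h02 with rfl | rfl
            · set c : M := G.1.symm a with hc
              have hcs : c < sh c (c.q + 1) := lt_sh (by linarith)
              have hlt : a < G.1 (sh c (c.q + 1)) := by
                have := G.1.lt_iff_lt.2 hcs
                rwa [hc, hGs'] at this
              have htc : t3 H W (sh c (c.q + 1)) = 0 := ha.2
              have hco : sh c (c.q + 1) < o := by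
                by_contra hcon
                have := e_mono (not_lt.1 hcon)
                unfold t3 at htc
                simp only [ho] at this
                split_ifs at htc with c1 <;> omega
              refine ⟨G.1 (sh c (c.q + 1)), ⟨A2_conv β ha.1 (hGA o hoo) hlt.le ?_, ?_⟩, hlt⟩
              · exact (G.1.lt_iff_lt.2 hco).le
              · rw [hGs]; exact htc
            · obtain ⟨q, hq1, hq2⟩ := exists_rat_btwn ha.1.2.2.2.2
              have hq1' : a.q < q := by exact_mod_cast hq1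
              refine ⟨sh a q, ⟨sh_mem_A2 ha.1 hq2, ?_⟩, lt_sh hq1'⟩
              have m1 := t3_mono H W (G.1.symm.monotone (lt_sh hq1').le)
              have m2 := ha.2
              have m3 : t3 H W (G.1.symm (sh a q)) ≤ 2 := by
                unfold t3; split_ifs <;> omega
              omega
        have hCB : CD {b | b ∈ (Set.univ : Set M) ∧ t3 H W b = i} (fun a => col a.1) := by
          apply CD_of_convex
          · rcases h02 with rfl | rfl
            · refine ⟨⟨-H - W - 1, 0, 0, 0, 0⟩, Set.mem_univ _, ?_⟩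
              unfold t3
              rw [if_pos (by show -H - W - 1 + H < -W; omega)]
            · refine ⟨⟨-H + W + 1, 0, 0, 0, 0⟩, Set.mem_univ _, ?_⟩
              unfold t3
              rw [if_neg (by show ¬ (-H + W + 1 + H < -W); omega),
                if_neg (by show ¬ (-H + W + 1 + H ≤ W); omega)]
          · constructor
            intro a ha b hb c hc
            refine ⟨Set.mem_univ _, ?_⟩
            have m1 := t3_mono H W hc.1
            have m2 := t3_mono H W hc.2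
            have m3 := ha.2
            have m4 := hb.2
            omega
          · intro a ha
            exact ⟨sh a (a.q - 1), ⟨Set.mem_univ _, ha.2⟩, sh_lt (by linarith)⟩
          · intro a ha
            exact ⟨sh a (a.q + 1), ⟨Set.mem_univ _, ha.2⟩, lt_sh (by linarith)⟩
        obtain ⟨f, hf⟩ := cantor _ _ _ _ hCA hCB
        refine ⟨f, fun a => ⟨hf a, fun h => ?_⟩⟩
        exfalso
        have := (f a).2.2
        omega
      · -- empty pieces
        have hE : ∀ a, t3 H W a ≠ i := by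
          intro a
          unfold t3
          split_ifs <;> omega
        have : IsEmpty {a | a ∈ A2 β ∧ t3 H W (G.1.symm a) = i} := ⟨fun a => hE _ a.2.2⟩
        have : IsEmpty {b | b ∈ (Set.univ : Set M) ∧ t3 H W b = i} := ⟨fun a => hE _ a.2.2⟩
        refine ⟨⟨Equiv.equivOfIsEmpty _ _, ?_⟩, fun a => ?_⟩
        · intro a; exact isEmptyElim a
        · exact isEmptyElim a)
  obtain ⟨Lam, hLam⟩ := key
  refine ⟨Lam, fun a => (hLam a).1, ?_⟩
  intro a ha
  refine ⟨hGA a ha, ?_⟩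
  -- find the preimage
  obtain ⟨x, hx⟩ := Lam.surjective ⟨a, Set.mem_univ a⟩
  have h2 := (hLam x).2
  rw [hx] at h2
  have h3 : t3 H W a = 1 := by
    rw [abs_le] at ha
    unfold t3
    rw [if_neg (by omega), if_pos (by omega)]
  have h4 : G.1 a = x.1 := h2 h3
  have h5 : (⟨G.1 a, hGA a ha⟩ : A2 β) = x := Subtype.ext h4
  rw [h5, hx]

/-! ### the lower sets -/

def La : Set M := {a | bUL a}
def Lb : Set M := {a | bUL a ∨ (iUL a ∧ a.i < -1)}
def Lc (β : ℝ) : Set M := {a | bUL a ∨ (iUL a ∧ (a.i < -1 ∨ (a.q : ℝ) < β))}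
def Ld : Set M := {a | bUL a ∨ iUL a}
def Lb' (y : M) : Set M := {a | bUL a ∨ (iUL a ∧ a < y)}
def Lc' (y : M) : Set M := {a | bUL a ∨ (iUL a ∧ a ≤ y)}

theorem La_low : IsLowerSet La := by
  intro a b hab ha
  rcases hab.lt_or_eq with h | h
  · exact bUL_of_lt h ha
  · rw [h]; exact ha

theorem Lb_low : IsLowerSet Lb := by
  intro a b hab ha
  rcases hab.lt_or_eq with h | h
  · rcases ha with ha | ⟨ha, ha2⟩
    · exact Or.inl (bUL_of_lt h ha)
    · rcases iUL_of_lt h ha with h1 | ⟨h1, h2⟩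
      · exact Or.inl h1
      · refine Or.inr ⟨h1, ?_⟩
        rcases h2 with h2 | ⟨h2, _⟩ <;> omega
  · rw [h]; exact ha

theorem Lc_low (β : ℝ) : IsLowerSet (Lc β) := by
  intro a b hab ha
  rcases hab.lt_or_eq with h | h
  · rcases ha with ha | ⟨ha, ha2⟩
    · exact Or.inl (bUL_of_lt h ha)
    · rcases iUL_of_lt h ha with h1 | ⟨h1, h2⟩
      · exact Or.inl h1
      · refine Or.inr ⟨h1, ?_⟩
        have hai : a.i < 0 := ha.2.2.2
        rcases h2 with h2 | ⟨h2, h3⟩
        · left; omega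
        · rcases ha2 with ha2 | ha2
          · left; omega
          · right
            have : (b.q : ℝ) < a.q := by exact_mod_cast h3
            linarith
  · rw [h]; exact ha

theorem Ld_low : IsLowerSet Ld := by
  intro a b hab ha
  rcases hab.lt_or_eq with h | h
  · rcases ha with ha | ha
    · exact Or.inl (bUL_of_lt h ha)
    · rcases iUL_of_lt h ha with h1 | ⟨h1, h2⟩
      · exact Or.inl h1
      · exact Or.inr h1
  · rw [h]; exact ha

theorem Lb'_low (y : M) : IsLowerSet (Lb' y) := by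
  intro a b hab ha
  rcases hab.lt_or_eq with h | h
  · rcases ha with ha | ⟨ha, ha2⟩
    · exact Or.inl (bUL_of_lt h ha)
    · rcases iUL_of_lt h ha with h1 | ⟨h1, h2⟩
      · exact Or.inl h1
      · exact Or.inr ⟨h1, h.trans ha2⟩
  · rw [h]; exact ha

theorem Lc'_low (y : M) : IsLowerSet (Lc' y) := by
  intro a b hab ha
  rcases hab.lt_or_eq with h | h
  · rcases ha with ha | ⟨ha, ha2⟩
    · exact Or.inl (bUL_of_lt h ha)
    · rcases iUL_of_lt h ha with h1 | ⟨h1, h2⟩
      · exact Or.inl h1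
      · exact Or.inr ⟨h1, h.le.trans ha2⟩
  · rw [h]; exact ha

/-- domain tag -/
def tD (β : ℝ) : M → ℕ := tg La Lb (Lc β) Ld
/-- codomain tag -/
def tC (y : M) : M → ℕ := tg La (Lb' y) (Lc' y) Ld

theorem tD_mono (β : ℝ) : Monotone (tD β) := tg_mono La_low Lb_low (Lc_low β) Ld_low
theorem tC_mono (y : M) : Monotone (tC y) := tg_mono La_low (Lb'_low y) (Lc'_low y) Ld_low

theorem tD_vals (β : ℝ) (a : M) :
    (tD β a = 0 ↔ bUL a) ∧ (tD β a = 1 ↔ iUL a ∧ a.i < -1) ∧
    (tD β a = 2 ↔ a ∈ A2 β) ∧ (tD β a = 3 ↔ iUL a ∧ a.i = -1 ∧ ¬ ((a.q : ℝ) < β)) ∧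
    (tD β a = 4 ↔ ¬ bUL a ∧ ¬ iUL a) ∧ tD β a ≤ 4 := by
  obtain ⟨h0, h1, h2, h3, h4, h5⟩ := tg_vals (L1 := La) (L2 := Lb) (L3 := Lc β) (L4 := Ld)
    (fun a h => Or.inl h)
    (fun a h => by
      rcases h with h | ⟨h, h'⟩
      · exact Or.inl h
      · exact Or.inr ⟨h, Or.inl h'⟩)
    (fun a h => by
      rcases h with h | ⟨h, _⟩
      · exact Or.inl h
      · exact Or.inr h) a
  have hx : iUL a → ¬ bUL a := not_bUL_iUL
  refine ⟨h0, h1.trans ?_, h2.trans ?_, h3.trans ?_, h4.trans ?_, h5⟩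
  · show ¬ bUL a ∧ (bUL a ∨ (iUL a ∧ a.i < -1)) ↔ _
    tauto
  · show ¬ (bUL a ∨ (iUL a ∧ a.i < -1)) ∧ (bUL a ∨ (iUL a ∧ (a.i < -1 ∨ (a.q : ℝ) < β))) ↔ _
    constructor
    · rintro ⟨c1, c2 | ⟨c2, c3 | c3⟩⟩
      · exact absurd (Or.inl c2) c1
      · exact absurd (Or.inr ⟨c2, c3⟩) c1
      · obtain ⟨u1, u2, u3, u4⟩ := c2
        have : ¬ a.i < -1 := fun h => c1 (Or.inr ⟨⟨u1, u2, u3, u4⟩, h⟩)
        exact ⟨u1, u2, u3, by omega, c3⟩
    · rintro ⟨u1, u2, u3, u4, u5⟩
      have hi : iUL a := ⟨u1, u2, u3, by omega⟩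
      refine ⟨?_, Or.inr ⟨hi, Or.inr u5⟩⟩
      rintro (c | ⟨_, c⟩)
      · exact hx hi c
      · omega
  · show ¬ (bUL a ∨ (iUL a ∧ (a.i < -1 ∨ (a.q : ℝ) < β))) ∧ (bUL a ∨ iUL a) ↔ _
    constructor
    · rintro ⟨c1, c2 | c2⟩
      · exact absurd (Or.inl c2) c1
      · have d1 : ¬ a.i < -1 := fun h => c1 (Or.inr ⟨c2, Or.inl h⟩)
        have d2 : ¬ ((a.q : ℝ) < β) := fun h => c1 (Or.inr ⟨c2, Or.inr h⟩)
        have := c2.2.2.2
        exact ⟨c2, by omega, d2⟩
    · rintro ⟨c1, c2, c3⟩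
      refine ⟨?_, Or.inr c1⟩
      rintro (c | ⟨_, c | c⟩)
      · exact hx c1 c
      · omega
      · exact c3 c
  · show ¬ (bUL a ∨ iUL a) ↔ _
    tauto

theorem tC_vals (y : M) (hy : iUL y) (a : M) :
    (tC y a = 0 ↔ bUL a) ∧ (tC y a = 1 ↔ iUL a ∧ a < y) ∧
    (tC y a = 2 ↔ a = y) ∧ (tC y a = 3 ↔ iUL a ∧ y < a) ∧
    (tC y a = 4 ↔ ¬ bUL a ∧ ¬ iUL a) ∧ tC y a ≤ 4 := by
  obtain ⟨h0, h1, h2, h3, h4, h5⟩ := tg_vals (L1 := La) (L2 := Lb' y) (L3 := Lc' y) (L4 := Ld)
    (fun a h => Or.inl h)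
    (fun a h => by
      rcases h with h | ⟨h, h'⟩
      · exact Or.inl h
      · exact Or.inr ⟨h, h'.le⟩)
    (fun a h => by
      rcases h with h | ⟨h, _⟩
      · exact Or.inl h
      · exact Or.inr h) a
  have hx : iUL a → ¬ bUL a := not_bUL_iUL
  refine ⟨h0, h1.trans ?_, h2.trans ?_, h3.trans ?_, h4.trans ?_, h5⟩
  · show ¬ bUL a ∧ (bUL a ∨ (iUL a ∧ a < y)) ↔ _
    tauto
  · show ¬ (bUL a ∨ (iUL a ∧ a < y)) ∧ (bUL a ∨ (iUL a ∧ a ≤ y)) ↔ _
    constructor
    · rintro ⟨c1, c2 | ⟨c2, c3⟩⟩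
      · exact absurd (Or.inl c2) c1
      · rcases c3.lt_or_eq with h | h
        · exact absurd (Or.inr ⟨c2, h⟩) c1
        · exact h
    · rintro rfl
      refine ⟨?_, Or.inr ⟨hy, le_rfl⟩⟩
      rintro (c | ⟨_, c⟩)
      · exact hx hy c
      · exact lt_irrefl _ c
  · show ¬ (bUL a ∨ (iUL a ∧ a ≤ y)) ∧ (bUL a ∨ iUL a) ↔ _
    constructor
    · rintro ⟨c1, c2 | c2⟩
      · exact absurd (Or.inl c2) c1
      · refine ⟨c2, ?_⟩
        by_contra hcon
        exact c1 (Or.inr ⟨c2, not_lt.1 hcon⟩)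
    · rintro ⟨c1, c2⟩
      refine ⟨?_, Or.inr c1⟩
      rintro (c | ⟨_, c⟩)
      · exact hx c1 c
      · exact absurd c2 (not_lt.2 c)
  · show ¬ (bUL a ∨ iUL a) ↔ _
    tauto

theorem sh_iUL {a : M} (h : iUL a) (q : ℚ) : iUL (sh a q) := h

/-- the M-level pieces -/
theorem exists_psi (β : ℝ) (hβ : Irrational β) (y : M) (hy : iUL y) (i : ℕ) (hi : i ≠ 2) :
    ∃ ψ : {a | tD β a = i} ≃o {a | tC y a = i}, (∀ a, col (ψ a).1 = col a.1) ∧
      ∀ a, ¬ iUL a.1 → (ψ a).1 = a.1 := by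
  by_cases h13 : i = 1 ∨ i = 3
  · have hA : CD {a | tD β a = i} (fun a => col a.1) := by
      apply CD_of_convex
      · rcases h13 with rfl | rfl
        · refine ⟨⟨0, 0, 0, -2, 0⟩, (tD_vals β _).2.1.2 ⟨⟨rfl, rfl, rfl, by norm_num⟩, by norm_num⟩⟩
        · obtain ⟨q, hq⟩ := exists_rat_gt β
          refine ⟨⟨0, 0, 0, -1, q⟩, (tD_vals β _).2.2.2.1.2 ⟨⟨rfl, rfl, rfl, by norm_num⟩, rfl, ?_⟩⟩
          simpa using hq.le
      · constructor
        intro a ha b hb c hc
        have m1 := tD_mono β hc.1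
        have m2 := tD_mono β hc.2
        have m3 : tD β a = i := ha
        have m4 : tD β b = i := hb
        show tD β c = i
        omega
      · intro a ha
        rcases h13 with rfl | rfl
        · obtain ⟨h1, h2⟩ := (tD_vals β _).2.1.1 ha
          exact ⟨sh a (a.q - 1), (tD_vals β _).2.1.2 ⟨h1, h2⟩, sh_lt (by linarith)⟩
        · obtain ⟨h1, h2, h3⟩ := (tD_vals β _).2.2.2.1.1 ha
          have h4 : β < a.q := lt_of_le_of_ne (not_lt.1 h3) (hβ.ne_rat a.q)
          obtain ⟨q, hq1, hq2⟩ := exists_rat_btwn h4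
          refine ⟨sh a q, (tD_vals β _).2.2.2.1.2 ⟨h1, h2, ?_⟩, sh_lt (by exact_mod_cast hq2)⟩
          exact not_lt.2 hq1.le
      · intro a ha
        rcases h13 with rfl | rfl
        · obtain ⟨h1, h2⟩ := (tD_vals β _).2.1.1 ha
          exact ⟨sh a (a.q + 1), (tD_vals β _).2.1.2 ⟨h1, h2⟩, lt_sh (by linarith)⟩
        · obtain ⟨h1, h2, h3⟩ := (tD_vals β _).2.2.2.1.1 ha
          refine ⟨sh a (a.q + 1), (tD_vals β _).2.2.2.1.2 ⟨h1, h2, ?_⟩, lt_sh (by linarith)⟩
          have h4 := not_lt.1 h3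
          show ¬ (((a.q + 1 : ℚ) : ℝ) < β)
          push_cast
          linarith
    have hB : CD {a | tC y a = i} (fun a => col a.1) := by
      apply CD_of_convex
      · rcases h13 with rfl | rfl
        · exact ⟨sh y (y.q - 1), (tC_vals y hy _).2.1.2 ⟨hy, sh_lt (by linarith)⟩⟩
        · exact ⟨sh y (y.q + 1), (tC_vals y hy _).2.2.2.1.2 ⟨hy, lt_sh (by linarith)⟩⟩
      · constructor
        intro a ha b hb c hc
        have m1 := tC_mono y hc.1
        have m2 := tC_mono y hc.2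
        have m3 : tC y a = i := ha
        have m4 : tC y b = i := hb
        show tC y c = i
        omega
      · intro a ha
        rcases h13 with rfl | rfl
        · obtain ⟨h1, h2⟩ := (tC_vals y hy _).2.1.1 ha
          have h3 : sh a (a.q - 1) < a := sh_lt (by linarith)
          exact ⟨sh a (a.q - 1), (tC_vals y hy _).2.1.2 ⟨h1, h3.trans h2⟩, h3⟩
        · obtain ⟨h1, h2⟩ := (tC_vals y hy _).2.2.2.1.1 ha
          obtain ⟨q, hq1, hq2⟩ := between_right h2
          exact ⟨sh a q, (tC_vals y hy _).2.2.2.1.2 ⟨h1, hq1⟩, hq2⟩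
      · intro a ha
        rcases h13 with rfl | rfl
        · obtain ⟨h1, h2⟩ := (tC_vals y hy _).2.1.1 ha
          obtain ⟨q, hq1, hq2⟩ := between_left h2
          exact ⟨sh a q, (tC_vals y hy _).2.1.2 ⟨h1, hq2⟩, hq1⟩
        · obtain ⟨h1, h2⟩ := (tC_vals y hy _).2.2.2.1.1 ha
          have h3 : a < sh a (a.q + 1) := lt_sh (by linarith)
          exact ⟨sh a (a.q + 1), (tC_vals y hy _).2.2.2.1.2 ⟨h1, h2.trans h3⟩, h3⟩
    obtain ⟨f, hf⟩ := cantor _ _ _ _ hA hB
    refine ⟨f, hf, ?_⟩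
    intro a ha
    exfalso
    apply ha
    have h1 : tD β a.1 = i := a.2
    rcases h13 with rfl | rfl
    · exact ((tD_vals β _).2.1.1 h1).1
    · exact ((tD_vals β _).2.2.2.1.1 h1).1
  · have hE : {a | tD β a = i} = {a | tC y a = i} := by
      ext a
      simp only [Set.mem_ofPred_eq]
      obtain ⟨d0, d1, d2, d3, d4, d5⟩ := tD_vals β a
      obtain ⟨c0, c1, c2, c3, c4, c5⟩ := tC_vals y hy a
      by_cases h0 : bUL a
      · rw [d0.2 h0, c0.2 h0]
      · by_cases h1 : iUL a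
        · have e1 : tD β a ≠ 0 := fun h => h0 (d0.1 h)
          have e2 : tC y a ≠ 0 := fun h => h0 (c0.1 h)
          have e3 : tD β a ≠ 4 := fun h => (d4.1 h).2 h1
          have e4 : tC y a ≠ 4 := fun h => (c4.1 h).2 h1
          omega
        · rw [d4.2 ⟨h0, h1⟩, c4.2 ⟨h0, h1⟩]
    refine ⟨OrderIso.setCongr _ _ hE, ?_, ?_⟩
    · intro a; rfl
    · intro a _; rfl

theorem colors_cons (a : M) (h : col a ≠ none) (ξ : X) : colors (cons a h ξ) = col a :: colors ξ := rfl

theorem colors_retop (x : X) (b : M) (h : col b = col (top x)) : colors (retop x b h) = colors x := by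
  unfold colors
  rw [eq_top_cons x]
  show col b :: x.1.tail.map col = col (top x) :: x.1.tail.map col
  rw [h]

/-- the one-sided push -/
theorem exists_kap (H W : ℤ) (hW : 0 ≤ W) (G : CAut) (p p' : ℚ)
    (hG : ∀ a : M, |a.e + H| ≤ W → (⟨0, 0, 0, -1, p⟩ : M) < G.1 a ∧ G.1 a < (⟨0, 0, 0, -1, p'⟩ : M))
    (k : ℕ) (b : Bool) :
    ∃ (κ : X ≃o X) (y : M) (h : col y ≠ none), (∀ x, ¬ iUL (top x) → κ x = x) ∧
      ColFilt (some (k, b)) κ ∧ col y = some (k, b) ∧ iUL y ∧
      ∀ x : X, |site x + H| ≤ W → iUL (G.1 (top x)) ∧ κ (lift G x) = cons y h x := by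
  obtain ⟨qy, -, -, hqy⟩ := colQ_dense 0 1 (by norm_num) (some (k, b))
  set y : M := ⟨0, 0, 0, -1, qy⟩ with hy
  have hyc : col y = some (k, b) := hqy
  have hyn : col y ≠ none := by rw [hyc]; simp
  have hyi : iUL y := ⟨rfl, rfl, rfl, by norm_num [hy]⟩
  set β : ℝ := (p' : ℝ) + Real.sqrt 2 with hβ
  have hβi : Irrational β := by
    rw [hβ]
    exact irrational_sqrt_two.ratCast_add p'
  have hβp : (p' : ℝ) < β := by
    have : 0 < Real.sqrt 2 := by positivity
    linarith
  obtain ⟨Lam, hLc, hLv⟩ := exists_Lam H W hW G p p' hG β hβp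
  -- glue on the stacks
  have key := exists_glue' (A := X) (B := X) (fun x => tD β (top x)) (fun x => tC y (top x))
    (fun a b hab => tD_mono β (top_mono hab)) (fun a b hab => tC_mono y (top_mono hab))
    (fun x x' => (¬ iUL (top x) → x' = x) ∧
      ((colors x').filter (· ≠ some (k, b)) = (colors x).filter (· ≠ some (k, b))) ∧
      ∀ x0 : X, |site x0 + H| ≤ W → x = lift G x0 → x' = cons y hyn x0) (by
    intro i
    by_cases hi : i = 2
    · subst hi
      have hS : ∀ x : X, x ∈ {x : X | tD β (top x) = 2} ↔ top x ∈ A2 β := fun x =>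
        (tD_vals β (top x)).2.2.1
      have hT : ∀ x : X, x ∈ {x : X | tC y (top x) = 2} ↔ top x = y := fun x =>
        (tC_vals y hyi (top x)).2.2.1
      obtain ⟨f, hf⟩ := mark_piece (A2 β) Lam hLc y hyn _ _ hS hT
      refine ⟨f, ?_⟩
      intro x
      have hx : top x.1 ∈ A2 β := (hS x.1).1 x.2
      have hfx := hf x hx
      refine ⟨?_, ?_, ?_⟩
      · intro hn
        exfalso
        apply hn
        obtain ⟨u1, u2, u3, u4, u5⟩ := hx
        exact ⟨u1, u2, u3, by omega⟩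
      · rw [hfx, colors_cons, colors_retop, hyc]
        simp
      · intro x0 hx0 hxx
        rw [hfx, cons_inj, X.ext_iff']
        constructor
        · rw [top_retop]
          obtain ⟨h1, h2⟩ := hLv (top x0) hx0
          have : (⟨top x.1, hx⟩ : A2 β) = ⟨G.1 (top x0), h1⟩ := by
            apply Subtype.ext
            show top x.1 = G.1 (top x0)
            rw [hxx, top_lift]
          rw [this, h2]
        · rw [tail_retop, hxx, tail_lift]
    · obtain ⟨ψ, hψc, hψi⟩ := exists_psi β hβi y hyi i hi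
      obtain ⟨f, hf⟩ := lift_piece {a | tD β a = i} {a | tC y a = i} ψ hψc
        {x : X | tD β (top x) = i} {x : X | tC y (top x) = i} (fun x => Iff.rfl) (fun x => Iff.rfl)
      refine ⟨f, ?_⟩
      intro x
      have hfx := hf x x.2
      refine ⟨?_, ?_, ?_⟩
      · intro hn
        rw [hfx, X.ext_iff']
        exact ⟨hψi _ hn, rfl⟩
      · rw [hfx, colors_retop]
      · intro x0 hx0 hxx
        exfalso
        obtain ⟨h1, _⟩ := hLv (top x0) hx0
        have h2 : tD β (top x.1) = 2 := by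
          rw [hxx, top_lift]
          exact (tD_vals β _).2.2.1.2 h1
        have h3 : tD β (top x.1) = i := x.2
        omega)
  obtain ⟨κ, hκ⟩ := key
  refine ⟨κ, y, hyn, fun x hx => (hκ x).1 hx, fun x => (hκ x).2.1, hyc, hyi, ?_⟩
  intro x hx
  obtain ⟨h1, _⟩ := hLv (top x) hx
  obtain ⟨u1, u2, u3, u4, u5⟩ := h1
  exact ⟨⟨u1, u2, u3, by omega⟩, (hκ (lift G x)).2.2 x hx rfl⟩

/-! ### the mirror image -/

def rho : Iso2 := ⟨-1, 0⟩

theorem rho_rho (x : X) : rho • rho • x = x := by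
  rw [smul_smul]
  have : rho * rho = 1 := by
    apply Iso2.ext
    · rw [Iso2.mul_ε, Iso2.one_ε]
      simp [rho]
    · rw [Iso2.mul_t, Iso2.one_t]
      simp [rho]
  rw [this, one_smul]

def mir (κ : X ≃o X) : X ≃o X where
  toFun x := rho • κ (rho • x)
  invFun x := rho • κ.symm (rho • x)
  left_inv x := by
    show rho • κ.symm (rho • rho • κ (rho • x)) = x
    rw [rho_rho, κ.symm_apply_apply, rho_rho]
  right_inv x := by
    show rho • κ (rho • rho • κ.symm (rho • x)) = x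
    rw [rho_rho, κ.apply_symm_apply, rho_rho]
  map_rel_iff' := by
    intro a b
    show rho • κ (rho • a) ≤ rho • κ (rho • b) ↔ a ≤ b
    rw [← not_lt, ← not_lt, smul_lt_neg rho rfl, κ.lt_iff_lt, smul_lt_neg rho rfl]

theorem mir_apply (κ : X ≃o X) (x : X) : mir κ x = rho • κ (rho • x) := rfl

/-- in the right half of the zone `U_0` -/
def iUR (a : M) : Prop := a.e = 0 ∧ a.m = 0 ∧ a.l = 0 ∧ 0 ≤ a.i

theorem iUL_rho (a : M) : iUL (rho • a) ↔ iUR a := by
  unfold iUL iUR
  rw [smul_e, smul_m, smul_l, smul_i]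
  have h1 : ((rho.ε : ℤˣ) : ℤ) = -1 := rfl
  have h2 : rho.t = 0 := rfl
  have h3 : ¬ (rho.ε = 1) := by
    show ¬ ((-1 : ℤˣ) = 1)
    decide
  rw [if_neg h3, h1, h2]
  omega

theorem fix_maps {κ : X ≃o X} (hκ : ∀ x, ¬ iUL (top x) → κ x = x) {x : X} (hx : iUL (top x)) :
    iUL (top (κ x)) := by
  by_contra hcon
  have h1 := hκ _ hcon
  have h2 := κ.injective h1
  rw [h2] at hcon
  exact hcon hx

theorem not_iUR_of_iUL {a : M} (h : iUL a) : ¬ iUR a := by
  unfold iUL iUR at *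
  omega

theorem mir_fix {κ : X ≃o X} (hκ : ∀ x, ¬ iUL (top x) → κ x = x) {x : X} (hx : ¬ iUR (top x)) :
    mir κ x = x := by
  rw [mir_apply]
  have : ¬ iUL (top (rho • x)) := by
    rw [top_smul, iUL_rho]; exact hx
  rw [hκ _ this, rho_rho]

theorem mir_comm {κ : X ≃o X} (hκ : ∀ x, ¬ iUL (top x) → κ x = x) (x : X) :
    κ (mir κ x) = mir κ (κ x) := by
  by_cases h1 : iUL (top x)
  · rw [mir_fix hκ (not_iUR_of_iUL h1), mir_fix hκ (not_iUR_of_iUL (fix_maps hκ h1))]
  · rw [hκ x h1]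
    by_cases h2 : iUR (top x)
    · apply hκ
      -- the mirror stays in the right half
      rw [mir_apply, top_smul, iUL_rho]
      intro hcon
      have h3 : iUL (top (rho • x)) := by rw [top_smul, iUL_rho]; exact h2
      exact not_iUR_of_iUL (fix_maps hκ h3) hcon
    · rw [mir_fix hκ h2, hκ x h1]

end K

theorem exists_kappa (H W : ℤ) (hW : 0 ≤ W) (G : CAut) (p p' : ℚ)
    (hG : ∀ a : M, |a.e + H| ≤ W → (⟨0, 0, 0, -1, p⟩ : M) < G.1 a ∧ G.1 a < (⟨0, 0, 0, -1, p'⟩ : M)) (k : ℕ)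
    (b : Bool) :
    ∃ (φ : X ≃o X) (y : M) (h : col y ≠ none), SuppU φ ∧ (∀ x, φ ((⟨-1, 0⟩ : Iso2) • x) = (⟨-1, 0⟩ : Iso2) • φ x) ∧
      ColFilt (some (k, b)) φ ∧ col y = some (k, b) ∧ y.e = 0 ∧ y.m = 0 ∧ y.l = 0 ∧ y.i < 0 ∧
      ∀ x : X, |site x + H| ≤ W → φ (lift G x) = cons y h x := by
  obtain ⟨κ, y, h, hκ, hcf, hyc, hyi, hv⟩ := K.exists_kap H W hW G p p' hG k b
  refine ⟨(K.mir κ).trans κ, y, h, ?_, ?_, ?_, hyc, hyi.1, hyi.2.1, hyi.2.2.1, hyi.2.2.2, ?_⟩
  · intro x hx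
    show κ (K.mir κ x) = x
    have h1 : ¬ K.iUR (top x) := by
      intro hcon
      apply hx
      exact ⟨⟨hcon.2.1, hcon.2.2.1⟩, hcon.1⟩
    have h2 : ¬ K.iUL (top x) := by
      intro hcon
      apply hx
      exact ⟨⟨hcon.2.1, hcon.2.2.1⟩, hcon.1⟩
    rw [K.mir_fix hκ h1, hκ x h2]
  · intro x
    show κ (K.mir κ (K.rho • x)) = K.rho • κ (K.mir κ x)
    rw [K.mir_comm hκ x, K.mir_apply, K.rho_rho, K.mir_apply, K.rho_rho]
  · intro x
    show (colors (κ (K.mir κ x))).filter _ = _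
    rw [hcf (K.mir κ x), K.mir_apply, colors_smul, hcf (K.rho • x), colors_smul]
  · intro x hx
    obtain ⟨h1, h2⟩ := hv x hx
    show κ (K.mir κ (lift G x)) = cons y h x
    rw [K.mir_fix hκ (by rw [top_lift]; exact K.not_iUR_of_iUL h1)]
    exact h2

end

end Pool.Agent.helper261_navas
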