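import Pool.Agent.helper261_navas.EvDef
import Pool.Agent.helper261_navas.PrL
import Pool.Agent.helper261_navas.PrO
import Pool.Agent.helper261_navas.PrX

set_option autoImplicit false

namespace Pool.Agent.helper261_navas

open Classical

noncomputable section

/-! # T: transport -/

namespace T

theorem cM_apply (S : ℤ → Prop) (a : M) : (cM S).1 a = cFun S 1 a := rfl

theorem cM_inv_apply (S : ℤ → Prop) (a : M) : ((cM S)⁻¹).1 a = cFun S (-1) a := rfl

theorem CAut_ext (f g : CAut) (h : ∀ a, f.1 a = g.1 a) : f = g :=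
  Subtype.ext (RelIso.ext h)

theorem mul_apply (f g : CAut) (a : M) : (f * g).1 a = f.1 (g.1 a) := rfl

theorem inv_apply_apply (f : CAut) (a : M) : f.1 ((f⁻¹).1 a) = a := f.1.apply_symm_apply a

theorem apply_inv_apply (f : CAut) (a : M) : (f⁻¹).1 (f.1 a) = a := f.1.symm_apply_apply a

theorem D_mem (v : ℕ) : cM (fun e => lam e = v) ∈ TG := by
  have h : cM (fun e => lam e = v) = CM v * (CM (v + 1))⁻¹ := by
    apply CAut_ext
    intro a
    rw [mul_apply]
    unfold CM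
    rw [cM_apply, cM_inv_apply, cM_apply]
    simp only [cFun]
    ext <;> simp
    split_ifs <;> omega
  rw [h]
  exact TG.mul_mem (Subgroup.subset_closure (Or.inr ⟨v, rfl⟩))
    (TG.inv_mem (Subgroup.subset_closure (Or.inr ⟨v + 1, rfl⟩)))

theorem C_mem (b : Bool) (n : ℕ) : cM (fun e => cls b n (lam e)) ∈ TG := by
  cases b with
  | false =>
    have h : (fun e => cls false n (lam e)) = (fun e => lam e = n + 1) := by
      funext e; simp [cls]
    rw [h]
    exact D_mem (n + 1)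
  | true =>
    have h : cM (fun e => cls true n (lam e)) = CM (n + 2) := by
      unfold CM
      congr 1
    rw [h]
    exact Subgroup.subset_closure (Or.inr ⟨n + 2, rfl⟩)

/-- the region of a centre, in terms of O-tiles -/
def Reg (c H : ℤ) (a : M) : Prop := c - H < otile a ∧ otile a ≤ c + H

theorem otile_cases (a : M) : otile a = a.e ∨ otile a = a.e + 1 := by
  unfold otile
  split_ifs
  · exact Or.inr rfl
  · exact Or.inl rfl

/-- the isometry between centres -/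
def gg (c0 c : ℤ) : Iso2 := R c * (R c0)⁻¹

theorem gg_ε (c0 c : ℤ) (hs : sgn c0 = 1) : (gg c0 c).ε = sgn c := by
  unfold gg
  rw [Iso2.mul_ε, Iso2.inv_ε]
  simp [R, hs]

theorem gg_t (c0 c : ℤ) (hs : sgn c0 = 1) : (gg c0 c).t = c - sgn c * c0 := by
  unfold gg
  rw [Iso2.mul_t, Iso2.inv_t]
  simp [R, hs]
  ring

theorem gg_site (c0 c : ℤ) (hs : sgn c0 = 1) (e : ℤ) : (gg c0 c).site e = c + sgn c * (e - c0) := by
  unfold Iso2.site
  rw [gg_ε c0 c hs, gg_t c0 c hs]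
  ring

theorem smul_site (g : Iso2) (a : M) : (g • a).e = g.site a.e := rfl

/-- the group of nice transport elements -/
def NG (b : Bool) (n : ℕ) (c0 : ℤ) : Subgroup CAut where
  carrier := {f | f ∈ TG ∧ (∀ a, Reg c0 (2 ^ (n + 1)) (f.1 a) ↔ Reg c0 (2 ^ (n + 1)) a) ∧
    ∀ a, Reg c0 (2 ^ (n + 1)) a → ∀ c, cls b n (lam c) → f.1 (gg c0 c • a) = gg c0 c • f.1 a}
  mul_mem' := by
    rintro f g ⟨hf1, hf2, hf3⟩ ⟨hg1, hg2, hg3⟩
    refine ⟨TG.mul_mem hf1 hg1, ?_, ?_⟩
    · intro a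
      rw [mul_apply, hf2, hg2]
    · intro a ha c hc
      rw [mul_apply, mul_apply, hg3 a ha c hc, hf3 _ ((hg2 a).2 ha) c hc]
  one_mem' := ⟨TG.one_mem, fun a => Iff.rfl, fun a _ c _ => rfl⟩
  inv_mem' := by
    rintro f ⟨hf1, hf2, hf3⟩
    have h2 : ∀ a, Reg c0 (2 ^ (n + 1)) ((f⁻¹).1 a) ↔ Reg c0 (2 ^ (n + 1)) a := by
      intro a
      rw [← hf2, inv_apply_apply]
    refine ⟨TG.inv_mem hf1, h2, ?_⟩
    intro a ha c hc
    have h3 := hf3 _ ((h2 a).2 ha) c hc
    rw [inv_apply_apply] at h3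
    rw [← h3, apply_inv_apply]

theorem om_mem (b : Bool) (n : ℕ) (c0 : ℤ) (hc : cls b n (lam c0)) : omM ∈ NG b n c0 := by
  refine ⟨Subgroup.subset_closure (Or.inl rfl), ?_, ?_⟩
  · intro a
    unfold Reg
    rw [omM_spec.tile]
  · intro a ha c hc'
    exact (omM_spec.equi _ (class_iso b n c0 c hc hc').1 a).symm

/-- level-shifts at a set of levels -/
theorem shift_mem (b : Bool) (n : ℕ) (c0 : ℤ) (hc : cls b n (lam c0)) (hs : sgn c0 = 1) (S : ℕ → Prop)
    (hT : cM (fun e => S (lam e)) ∈ TG) (hS : ∀ v, cls (!b) n v → ¬ S v)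
    (hS2 : ∀ u v, cls b n u → cls b n v → (S u ↔ S v)) : cM (fun e => S (lam e)) ∈ NG b n c0 := by
  have hpos : (0 : ℤ) < 2 ^ (n + 1) := by positivity
  refine ⟨hT, ?_, ?_⟩
  · intro a
    rw [cM_apply]
    by_cases h : a.m = 0 ∧ a.l = 0 ∧ S (lam a.e)
    · have h1 : a.e ≠ c0 + 2 ^ (n + 1) := by
        intro h'
        rw [h'] at h
        exact hS _ (host_class b n c0 hc).1 h.2.2
      have h2 : a.e ≠ c0 - 2 ^ (n + 1) := by
        intro h'
        rw [h'] at h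
        exact hS _ (host_class b n c0 hc).2 h.2.2
      have h3 := otile_cases a
      have h4 := otile_cases (cFun (fun e => S (lam e)) 1 a)
      have h5 : (cFun (fun e => S (lam e)) 1 a).e = a.e := rfl
      unfold Reg
      rw [h5] at h4
      omega
    · have h1 : cFun (fun e => S (lam e)) 1 a = a := by
        simp only [cFun]
        rw [if_neg h]
      rw [h1]
  · intro a ha c hc'
    rw [cM_apply, cM_apply]
    have hsite := gg_site c0 c hs a.e
    have hcl := (class_iso b n c0 c hc hc').2 a.e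
    change |a.e - c0| < 2 ^ (n + 1) → (a.e ≠ c0 → lam ((gg c0 c).site a.e) = lam a.e) ∧
      sgn ((gg c0 c).site a.e) = (gg c0 c).ε * sgn a.e at hcl
    have hsc := Int.units_eq_one_or (sgn c)
    by_cases hin : |a.e - c0| < 2 ^ (n + 1)
    · have h1 := hcl hin
      have h2 : S (lam ((gg c0 c).site a.e)) ↔ S (lam a.e) := by
        by_cases he : a.e = c0
        · have : (gg c0 c).site a.e = c := by rw [hsite, he]; ring
          rw [this, he]
          exact hS2 _ _ hc' hc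
        · rw [h1.1 he]
      simp only [cFun, smul_site, smul_m, smul_l, smul_i, smul_q, h1.2]
      rw [M.ext_iff]
      simp only [smul_site, smul_m, smul_l, smul_i, smul_q, h2]
      refine ⟨trivial, trivial, trivial, ?_, trivial⟩
      have hm : ((gg c0 c).ε : ℤ) * a.m = 0 ↔ a.m = 0 := by
        rcases Int.units_eq_one_or (gg c0 c).ε with h | h <;> simp [h]
      have hl : ((gg c0 c).ε : ℤ) * a.l = 0 ↔ a.l = 0 := by
        rcases Int.units_eq_one_or (gg c0 c).ε with h | h <;> simp [h]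
      simp only [hm, hl]
      have hne : ((-1 : ℤˣ) = 1) = False := by
        simp only [eq_iff_iff, iff_false]; decide
      rcases Int.units_eq_one_or (gg c0 c).ε with h | h
      · simp [h]
      · simp only [h, hne, if_false]
        split_ifs
        · push_cast; ring
        · ring
    · -- at the hosts
      have h3 := otile_cases a
      unfold Reg at ha
      have h4 : a.e = c0 + 2 ^ (n + 1) ∨ a.e = c0 - 2 ^ (n + 1) := by
        rw [abs_lt, not_and_or, not_lt, not_lt] at hin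
        omega
      have h5 : ¬ S (lam a.e) := by
        rcases h4 with h4 | h4
        · rw [h4]; exact hS _ (host_class b n c0 hc).1
        · rw [h4]; exact hS _ (host_class b n c0 hc).2
      have h6 : ¬ S (lam ((gg c0 c).site a.e)) := by
        have hcc : (gg c0 c).site a.e = c + 2 ^ (n + 1) ∨ (gg c0 c).site a.e = c - 2 ^ (n + 1) := by
          rw [hsite]
          rcases h4 with h4 | h4 <;> rcases hsc with h | h <;> rw [h4, h] <;> push_cast
          · left; ring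
          · right; ring
          · right; ring
          · left; ring
        rcases hcc with h | h
        · rw [h]; exact hS _ (host_class b n c hc').1
        · rw [h]; exact hS _ (host_class b n c hc').2
      have h7 : cFun (fun e => S (lam e)) 1 a = a := by
        simp only [cFun]
        rw [if_neg (fun h => h5 h.2.2)]
      have h8 : cFun (fun e => S (lam e)) 1 (gg c0 c • a) = gg c0 c • a := by
        simp only [cFun]
        rw [if_neg (fun h => h6 h.2.2)]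
      rw [h7, h8]

/-- at every inner site there is a nice shift -/
theorem exists_shift (b : Bool) (n : ℕ) (c0 : ℤ) (hc : cls b n (lam c0)) (hs : sgn c0 = 1) (e : ℤ)
    (he : |e - c0| < 2 ^ (n + 1)) (d : ℤ) (hd : d = 1 ∨ d = -1) :
    ∃ f ∈ NG b n c0, ∀ a : M, a.e = e → a.m = 0 → a.l = 0 → f.1 a = ⟨a.e, a.m, a.l, a.i + d, a.q⟩ := by
  have hpos : n + 1 ≤ lam c0 := by
    unfold cls at hc
    split_ifs at hc <;> omega
  -- a set of levels
  obtain ⟨S, hT, hSb, hS2, hSe⟩ : ∃ S : ℕ → Prop, cM (fun e => S (lam e)) ∈ TG ∧ (∀ v, cls (!b) n v → ¬ S v) ∧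
      (∀ u v, cls b n u → cls b n v → (S u ↔ S v)) ∧ S (lam e) := by
    by_cases h : e = c0
    · refine ⟨cls b n, C_mem b n, ?_, ?_, ?_⟩
      · intro v hv hv'
        cases b <;> simp [cls] at hv hv' <;> omega
      · intro u v hu hv
        exact ⟨fun _ => hv, fun _ => hu⟩
      · rw [h]; exact hc
    · have h1 := lam_near n c0 e hpos h he
      refine ⟨fun v => v = lam e, D_mem _, ?_, ?_, rfl⟩
      · intro v hv hv'
        cases b <;> simp [cls] at hv <;> omega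
      · intro u v hu hv
        cases b <;> simp [cls] at hu hv <;> omega
  have hmem := shift_mem b n c0 hc hs S hT hSb hS2
  have key : ∀ a : M, a.e = e → a.m = 0 → a.l = 0 → ∀ dd : ℤ,
      cFun (fun e => S (lam e)) dd a = ⟨a.e, a.m, a.l, a.i + dd * sgn e, a.q⟩ := by
    intro a h1 h2 h3 dd
    simp only [cFun]
    rw [if_pos ⟨h2, h3, by rw [h1]; exact hSe⟩, h1]
  rcases Int.units_eq_one_or (sgn e) with h | h <;> rcases hd with hd | hd
  · refine ⟨_, hmem, ?_⟩
    intro a h1 h2 h3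
    rw [cM_apply, key a h1 h2 h3, h, hd]; simp
  · refine ⟨_, (NG b n c0).inv_mem hmem, ?_⟩
    intro a h1 h2 h3
    rw [cM_inv_apply, key a h1 h2 h3, h, hd]; simp
  · refine ⟨_, (NG b n c0).inv_mem hmem, ?_⟩
    intro a h1 h2 h3
    rw [cM_inv_apply, key a h1 h2 h3, h, hd]; simp
  · refine ⟨_, hmem, ?_⟩
    intro a h1 h2 h3
    rw [cM_apply, key a h1 h2 h3, h, hd]; simp

theorem reach_right (b : Bool) (n : ℕ) (c0 : ℤ) (hc : cls b n (lam c0)) (hs : sgn c0 = 1) (k : ℕ) :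
    ∀ a : M, RightHalf a → a.e + 1 + k = c0 + 2 ^ (n + 1) → c0 - 2 ^ (n + 1) < a.e + 1 →
      ∃ f ∈ NG b n c0, (f.1 a).e = c0 + 2 ^ (n + 1) ∧ (f.1 a).m = 0 ∧ (f.1 a).l = 0 ∧ (f.1 a).i = -1 := by
  induction k with
  | zero =>
    intro a ha h1 h2
    obtain ⟨N, h3, h4, h5, h6⟩ := omM_spec.cross_right a ha
    refine ⟨omM ^ N, (NG b n c0).zpow_mem (om_mem b n c0 hc) N, ?_, h4, h5, h6⟩
    rw [h3]; push_cast at h1; omega
  | succ k ih =>
    intro a ha h1 h2
    push_cast at h1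
    obtain ⟨N, h3, h4, h5, h6⟩ := omM_spec.cross_right a ha
    obtain ⟨f, hf, hf2⟩ := exists_shift b n c0 hc hs (a.e + 1) (by rw [abs_lt]; omega) 1 (Or.inl rfl)
    have h7 := hf2 _ h3 h4 h5
    obtain ⟨f', hf', hf3⟩ := ih (f.1 ((omM ^ N).1 a)) (by
      rw [h7]
      right
      simp only
      rw [h4, h5, h6]
      omega) (by rw [h7]; simp only; omega) (by rw [h7]; simp only; omega)
    refine ⟨f' * (f * omM ^ N), (NG b n c0).mul_mem hf' ((NG b n c0).mul_mem hf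
      ((NG b n c0).zpow_mem (om_mem b n c0 hc) N)), ?_⟩
    exact hf3

theorem reach_left (b : Bool) (n : ℕ) (c0 : ℤ) (hc : cls b n (lam c0)) (hs : sgn c0 = 1) (k : ℕ) :
    ∀ a : M, ¬ RightHalf a → a.e - 1 - k = c0 → a.e ≤ c0 + 2 ^ (n + 1) →
      ∃ f ∈ NG b n c0, (f.1 a).e = c0 ∧ (f.1 a).m = 0 ∧ (f.1 a).l = 0 ∧ (f.1 a).i = 0 := by
  induction k with
  | zero =>
    intro a ha h1 h2
    obtain ⟨N, h3, h4, h5, h6⟩ := omM_spec.cross_left a ha
    refine ⟨omM ^ N, (NG b n c0).zpow_mem (om_mem b n c0 hc) N, ?_, h4, h5, h6⟩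
    rw [h3]; push_cast at h1; omega
  | succ k ih =>
    intro a ha h1 h2
    push_cast at h1
    obtain ⟨N, h3, h4, h5, h6⟩ := omM_spec.cross_left a ha
    obtain ⟨f, hf, hf2⟩ := exists_shift b n c0 hc hs (a.e - 1) (by rw [abs_lt]; omega) (-1) (Or.inr rfl)
    have h7 := hf2 _ h3 h4 h5
    obtain ⟨f', hf', hf3⟩ := ih (f.1 ((omM ^ N).1 a)) (by
      rw [h7]
      unfold RightHalf
      simp only
      rw [h4, h5, h6]
      omega) (by rw [h7]; simp only; omega) (by rw [h7]; simp only; omega)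
    refine ⟨f' * (f * omM ^ N), (NG b n c0).mul_mem hf' ((NG b n c0).mul_mem hf
      ((NG b n c0).zpow_mem (om_mem b n c0 hc) N)), ?_⟩
    exact hf3

end T

/-- compression towards the host -/
theorem exists_compress (b : Bool) (n : ℕ) (W : ℤ) (hW : W + 1 < 2 ^ (n + 1)) (hW0 : 0 ≤ W) (c0 : ℤ)
    (hc : cls b n (lam c0)) (hs : sgn c0 = 1) :
    ∃ F ∈ TG, (∃ p p' : ℚ, ∀ a : M, |a.e - c0| ≤ W →
        (⟨c0 + 2 ^ (n + 1), 0, 0, -1, p⟩ : M) < F.1 a ∧ F.1 a < (⟨c0 + 2 ^ (n + 1), 0, 0, -1, p'⟩ : M)) ∧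
      ∀ c, cls b n (lam c) → ∀ a : M, |a.e - c0| ≤ W → F.1 ((R c * (R c0)⁻¹) • a) = (R c * (R c0)⁻¹) • F.1 a := by
  obtain ⟨k, hk⟩ : ∃ k : ℕ, (k : ℤ) = W + 2 ^ (n + 1) :=
    ⟨(W + 2 ^ (n + 1)).toNat, Int.toNat_of_nonneg (by omega)⟩
  obtain ⟨F, hF, h1, h2, h3, h4⟩ := T.reach_right b n c0 hc hs k ⟨c0 - W - 1, 0, 0, 0, 0⟩
    (by unfold RightHalf; simp) (by simp only; omega) (by simp only; omega)
  obtain ⟨hF1, hF2, hF3⟩ := hF
  refine ⟨F, hF1, ?_, ?_⟩
  · have hr : T.Reg c0 (2 ^ (n + 1)) (F.1 ⟨c0 + W + 1, 0, 0, -1, 0⟩) := by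
      rw [hF2]
      unfold T.Reg otile
      rw [if_neg (by unfold RightHalf; simp)]
      simp only
      omega
    have hlt : F.1 ⟨c0 - W - 1, 0, 0, 0, 0⟩ < F.1 ⟨c0 + W + 1, 0, 0, -1, 0⟩ := by
      rw [F.1.lt_iff_lt, M.lt_iff]
      left
      simp only
      omega
    obtain ⟨e1, m1, l1, i1, q1, hP⟩ : ∃ e m l i q, F.1 ⟨c0 - W - 1, 0, 0, 0, 0⟩ = ⟨e, m, l, i, q⟩ :=
      ⟨_, _, _, _, _, rfl⟩
    obtain ⟨e2, m2, l2, i2, q2, hP'⟩ : ∃ e m l i q, F.1 ⟨c0 + W + 1, 0, 0, -1, 0⟩ = ⟨e, m, l, i, q⟩ :=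
      ⟨_, _, _, _, _, rfl⟩
    rw [hP] at h1 h2 h3 h4 hlt
    rw [hP'] at hr hlt
    simp only at h1 h2 h3 h4
    subst h1 h2 h3 h4
    rw [M.lt_iff] at hlt
    simp only at hlt
    have h5 : e2 = c0 + 2 ^ (n + 1) ∧ m2 = 0 ∧ l2 = 0 ∧ i2 = -1 := by
      unfold T.Reg otile RightHalf at hr
      simp only at hr
      split_ifs at hr with h <;> omega
    obtain ⟨h6, h7, h8, h9⟩ := h5
    subst h6 h7 h8 h9
    refine ⟨q1, q2, ?_⟩
    intro a ha
    rw [abs_le] at ha
    rw [← hP, ← hP', F.1.lt_iff_lt, F.1.lt_iff_lt, M.lt_iff, M.lt_iff]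
    simp only
    omega
  · intro c hc' a ha
    apply hF3 a _ c hc'
    have := T.otile_cases a
    unfold T.Reg
    rw [abs_le] at ha
    omega

/-- moving a marker back from the host -/
theorem exists_move (b : Bool) (n : ℕ) (c0 : ℤ) (hc : cls b n (lam c0)) (hs : sgn c0 = 1) (y : M)
    (hy : y.e = c0 + 2 ^ (n + 1)) (hm : y.m = 0) (hl : y.l = 0) (hi : y.i < 0) :
    ∃ Mv ∈ TG, ((Mv.1 y).e = c0 ∧ (Mv.1 y).m = 0 ∧ (Mv.1 y).l = 0) ∧
      ∀ c, cls b n (lam c) → Mv.1 ((R c * (R c0)⁻¹) • y) = (R c * (R c0)⁻¹) • Mv.1 y := by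
  have hpos : (0 : ℤ) < 2 ^ (n + 1) := by positivity
  have hnr : ¬ RightHalf y := by
    unfold RightHalf
    omega
  obtain ⟨k, hk⟩ : ∃ k : ℕ, (k : ℤ) = 2 ^ (n + 1) - 1 :=
    ⟨(2 ^ (n + 1) - 1 : ℤ).toNat, Int.toNat_of_nonneg (by omega)⟩
  obtain ⟨F, ⟨hF1, hF2, hF3⟩, h1, h2, h3, h4⟩ := T.reach_left b n c0 hc hs k y hnr (by omega) (by omega)
  refine ⟨F, hF1, ⟨h1, h2, h3⟩, ?_⟩
  intro c hc'
  apply hF3 y _ c hc'
  unfold T.Reg otile
  rw [if_neg hnr]
  omega

end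

end Pool.Agent.helper261_navas
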