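import Pool.Agent.helper261_navas.EvDef
import Pool.Agent.helper261_navas.PrL
import Pool.Agent.helper261_navas.PrX
import Pool.Agent.helper261_navas.PrT
import Pool.Agent.helper261_navas.PrK

set_option autoImplicit false

namespace Pool.Agent.helper261_navas

open Classical

noncomputable section

/-! # D: task data -/

namespace D

/-- translations as colour preserving automorphisms -/
def trans (t : ℤ) : CAut := mkCAut (fun a => (⟨1, t⟩ : Iso2) • a) (fun a => (⟨1, -t⟩ : Iso2) • a)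
  (by
    intro a
    rw [← mul_smul]
    have : (⟨1, -t⟩ : Iso2) * ⟨1, t⟩ = 1 := by
      refine Iso2.ext ?_ ?_
      · rfl
      · rw [Iso2.mul_t]; simp [Iso2.one_t]
    rw [this, one_smul])
  (by
    intro a
    rw [← mul_smul]
    have : (⟨1, t⟩ : Iso2) * ⟨1, -t⟩ = 1 := by
      refine Iso2.ext ?_ ?_
      · rfl
      · rw [Iso2.mul_t]; simp [Iso2.one_t]
    rw [this, one_smul])
  (by
    intro a b h
    exact (smul_lt_M_pos ⟨1, t⟩ rfl a b).mpr h)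
  (by intro a; exact col_smul _ _)

theorem trans_apply (t : ℤ) (a : M) : (trans t).1 a = (⟨1, t⟩ : Iso2) • a := rfl
theorem trans_inv_apply (t : ℤ) (a : M) : ((trans t)⁻¹).1 a = (⟨1, -t⟩ : Iso2) • a := rfl

theorem iso_inv (t : ℤ) : (⟨1, t⟩ : Iso2)⁻¹ = ⟨1, -t⟩ := by
  refine Iso2.ext ?_ ?_
  · rfl
  · rw [Iso2.inv_t]; simp

theorem trans_inv_apply' (t : ℤ) (a : M) : ((trans t)⁻¹).1 a = (⟨1, t⟩ : Iso2)⁻¹ • a := by
  rw [iso_inv]; rfl

/-- an automorphism commuting with the reflection has fully equivariant local copies -/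
theorem at_comm (φ : X ≃o X) (hφ : ∀ x, φ ((⟨-1, 0⟩ : Iso2) • x) = (⟨-1, 0⟩ : Iso2) • φ x) (e : ℤ) (x : X) :
    at_ φ e x = (⟨1, e⟩ : Iso2) • φ ((⟨1, e⟩ : Iso2)⁻¹ • x) := by
  unfold at_ R
  rcases Int.units_eq_one_or (sgn e) with h | h
  · rw [h]
  · rw [h]
    have h1 : (⟨-1, e⟩ : Iso2) = ⟨1, e⟩ * ⟨-1, 0⟩ := by
      refine Iso2.ext ?_ ?_
      · rw [Iso2.mul_ε]; rfl
      · rw [Iso2.mul_t]; simp
    have h2 : (⟨-1, 0⟩ : Iso2)⁻¹ = ⟨-1, 0⟩ := by
      refine Iso2.ext ?_ ?_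
      · rfl
      · rw [Iso2.inv_t]; simp
    have h3 : (⟨-1, 0⟩ : Iso2) * ⟨-1, 0⟩ = 1 := by
      refine Iso2.ext ?_ ?_
      · rw [Iso2.mul_ε]; rfl
      · rw [Iso2.mul_t]; simp [Iso2.one_t]
    rw [h1, mul_inv_rev, h2, mul_smul, mul_smul, hφ, ← mul_smul, ← mul_smul, mul_assoc, h3, mul_one]

theorem at_equi (φ : X ≃o X) (hφ : ∀ x, φ ((⟨-1, 0⟩ : Iso2) • x) = (⟨-1, 0⟩ : Iso2) • φ x) (g : Iso2) (e : ℤ)
    (x : X) : at_ φ (g.site e) (g • x) = g • at_ φ e x := by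
  rw [at_comm φ hφ, at_comm φ hφ]
  have hε : ∀ x, φ ((⟨g.ε, 0⟩ : Iso2) • x) = (⟨g.ε, 0⟩ : Iso2) • φ x := by
    intro x
    rcases Int.units_eq_one_or g.ε with h | h
    · rw [h]
      have : (⟨1, 0⟩ : Iso2) = 1 := rfl
      rw [this, one_smul, one_smul]
    · rw [h]; exact hφ x
  have h1 : (⟨1, g.site e⟩ : Iso2)⁻¹ * g = ⟨g.ε, 0⟩ * (⟨1, e⟩ : Iso2)⁻¹ := by
    rw [iso_inv, iso_inv]
    refine Iso2.ext ?_ ?_
    · rw [Iso2.mul_ε, Iso2.mul_ε]; simp
    · rw [Iso2.mul_t, Iso2.mul_t]; simp [Iso2.site]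
  have h2 : (⟨1, g.site e⟩ : Iso2) * ⟨g.ε, 0⟩ = g * ⟨1, e⟩ := by
    refine Iso2.ext ?_ ?_
    · rw [Iso2.mul_ε, Iso2.mul_ε]; simp
    · rw [Iso2.mul_t, Iso2.mul_t]; simp [Iso2.site]; ring
  rw [← mul_smul, h1, mul_smul, hε, ← mul_smul, h2, mul_smul]

end D

theorem task_data (k : ℕ) (b : Bool) (n : ℕ) (W : ℤ) (hW : W + 1 < 2 ^ (n + 1)) (hW0 : 0 ≤ W) :
    ∃ (F Mv : CAut) (φ : X ≃o X) (z : M), F ∈ TG ∧ Mv ∈ TG ∧ SuppU φ ∧ ColFilt (some (k, b)) φ ∧
      col z = some (k, b) ∧ z.e = 0 ∧ z.m = 0 ∧ z.l = 0 ∧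
      ∀ c, cls b n (lam c) → ∀ (x : X) (h : col (R c • z) ≠ none), |site x - c| ≤ W →
        lift Mv (globFun (cls (!b) n) φ (lift F x)) = cons (R c • z) h x := by
  obtain ⟨c0, hc0, hs0⟩ := exists_center_pos b n
  obtain ⟨F, hF, ⟨p, p', hpp⟩, hFeq⟩ := exists_compress b n W hW hW0 c0 hc0 hs0
  set H : ℤ := 2 ^ (n + 1) with hH
  set h0 : ℤ := c0 + H with hh0
  set G : CAut := (D.trans h0)⁻¹ * F * D.trans h0 with hG
  have hGa : ∀ a : M, G.1 a = (⟨1, -h0⟩ : Iso2) • F.1 ((⟨1, h0⟩ : Iso2) • a) := fun a => rfl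
  have hGG : ∀ a : M, |a.e + H| ≤ W → (⟨0, 0, 0, -1, p⟩ : M) < G.1 a ∧ G.1 a < (⟨0, 0, 0, -1, p'⟩ : M) := by
    intro a ha
    have h1 : |((⟨1, h0⟩ : Iso2) • a).e - c0| ≤ W := by
      rw [smul_e]
      have : (((1 : ℤˣ) : ℤ) * a.e + h0) - c0 = a.e + H := by rw [hh0]; simp; ring
      rw [this]; exact ha
    obtain ⟨h2, h3⟩ := hpp _ h1
    have e1 : ∀ q : ℚ, (⟨0, 0, 0, -1, q⟩ : M) = (⟨1, -h0⟩ : Iso2) • (⟨h0, 0, 0, -1, q⟩ : M) := by
      intro q
      refine M.ext ?_ ?_ ?_ ?_ ?_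
      · rw [smul_e]; simp
      · rw [smul_m]; simp
      · rw [smul_l]; simp
      · rw [smul_i]; simp
      · rw [smul_q]; simp
    rw [hGa, e1, e1, smul_lt_M_pos _ rfl, smul_lt_M_pos _ rfl]
    exact ⟨h2, h3⟩
  obtain ⟨φ, y, hy, hsupp, hcomm, hcf, hcy, hye, hym, hyl, hyi, hmain⟩ := exists_kappa H W hW0 G p p' hGG k b
  set y' : M := (⟨1, h0⟩ : Iso2) • y with hy'
  have hy'e : y'.e = c0 + 2 ^ (n + 1) := by
    rw [hy', smul_e, hye, hh0, hH]; simp
  have hy'm : y'.m = 0 := by rw [hy', smul_m, hym]; simp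
  have hy'l : y'.l = 0 := by rw [hy', smul_l, hyl]; simp
  have hy'i : y'.i < 0 := by rw [hy', smul_i]; simpa using hyi
  have hcy' : col y' = some (k, b) := by rw [hy', col_smul, hcy]
  obtain ⟨Mv, hMv, ⟨hMe, hMm, hMl⟩, hMeq⟩ := exists_move b n c0 hc0 hs0 y' hy'e hy'm hy'l hy'i
  refine ⟨F, Mv, φ, (R c0)⁻¹ • Mv.1 y', hF, hMv, hsupp, hcf, ?_, ?_, ?_, ?_, ?_⟩
  · rw [col_smul]
    have := Mv.2 y'
    rw [this, hcy']
  · rw [smul_e, hMe, Iso2.inv_ε, Iso2.inv_t]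
    simp [R]
  · rw [smul_m, hMm]; simp
  · rw [smul_l, hMl]; simp
  · intro c hc x h hx
    set g : Iso2 := R c * (R c0)⁻¹ with hg
    have hgc : g.site c0 = c := by
      rw [hg]
      simp only [Iso2.site, Iso2.mul_ε, Iso2.mul_t, Iso2.inv_ε, Iso2.inv_t, R]
      push_cast
      ring_nf
    obtain ⟨x0, hxx⟩ : ∃ x0 : X, x = g • x0 := ⟨g⁻¹ • x, (smul_inv_smul _ _).symm⟩
    have hsx : site x = g.site (site x0) := by rw [hxx, site_smul]
    have hx0W : |site x0 - c0| ≤ W := by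
      have h1 : site x - c = g.ε * (site x0 - c0) := by
        rw [hsx, ← hgc]; simp only [Iso2.site]; ring
      rw [h1, abs_mul] at hx
      have h2 : |((g.ε : ℤˣ) : ℤ)| = 1 := by
        rcases Int.units_eq_one_or g.ε with h | h <;> rw [h] <;> simp
      rw [h2, one_mul] at hx
      exact hx
    have hx0W' : |(top x0).e - c0| ≤ W := hx0W
    -- F is equivariant
    have hFx : lift F x = g • lift F x0 := by
      rw [X.ext_iff', top_lift, tail_lift, top_smul, tail_smul, top_lift, tail_lift, hxx, top_smul, tail_smul]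
      exact ⟨hFeq c hc (top x0) hx0W', rfl⟩
    -- the image at the host
    obtain ⟨hp1, hp2⟩ := hpp (top x0) hx0W'
    have hblock : (F.1 (top x0)).e = h0 ∧ (F.1 (top x0)).m = 0 ∧ (F.1 (top x0)).l = 0 := by
      rw [M.lt_iff] at hp1 hp2
      simp only at hp1 hp2
      refine ⟨?_, ?_, ?_⟩ <;> omega
    have hsite0 : site (lift F x0) = h0 := hblock.1
    have hInU0 : InU (lift F x0) := ⟨hblock.2.1, hblock.2.2⟩
    have hat0 : at_ φ h0 (lift F x0) = cons y' (by rw [hcy']; simp) x0 := by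
      rw [D.at_comm φ hcomm]
      have h1 : (⟨1, h0⟩ : Iso2)⁻¹ • lift F x0 = lift G ((⟨1, h0⟩ : Iso2)⁻¹ • x0) := by
        rw [X.ext_iff', top_smul, tail_smul, top_lift, tail_lift, top_lift, tail_lift, top_smul, tail_smul]
        refine ⟨?_, rfl⟩
        rw [hGa, smul_inv_smul, D.iso_inv]
      have h2 : |site ((⟨1, h0⟩ : Iso2)⁻¹ • x0) + H| ≤ W := by
        rw [D.iso_inv, site_smul]
        simp only [Iso2.site]
        have : (((1 : ℤˣ) : ℤ) * site x0 + -h0) + H = site x0 - c0 := by rw [hh0]; simp; ring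
        rw [this]; exact hx0W
      rw [h1, hmain _ h2, smul_cons]
      rw [X.ext_iff']
      refine ⟨?_, ?_⟩
      · rw [top_cons, top_cons]
      · rw [tail_cons, tail_cons, smul_inv_smul]
    have hglob : globFun (cls (!b) n) φ (lift F x) = g • cons y' (by rw [hcy']; simp) x0 := by
      rw [hFx]
      unfold globFun
      have hs1 : site (g • lift F x0) = g.site h0 := by rw [site_smul, hsite0]
      have hcl : cls (!b) n (lam (g.site h0)) := by
        have h1 := host_class b n c hc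
        have h2 : g.site h0 = c + g.ε * H := by
          rw [← hgc, hh0]; simp only [Iso2.site]; ring
        rw [h2]
        rcases Int.units_eq_one_or g.ε with h | h
        · rw [h]; simpa [hH] using h1.1
        · rw [h]
          have : c + ((-1 : ℤˣ) : ℤ) * H = c - 2 ^ (n + 1) := by rw [hH]; push_cast; ring
          rw [this]; exact h1.2
      rw [if_pos ⟨(InU_smul g _).mpr hInU0, by rw [hs1]; exact hcl⟩, hs1, D.at_equi φ hcomm, hat0]
    rw [hglob, smul_cons, lift_cons]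
    rw [X.ext_iff']
    refine ⟨?_, ?_⟩
    · rw [top_cons, top_cons, hMeq c hc, ← hg, hg, mul_smul]
    · rw [tail_cons, tail_cons, ← hxx]

end

end Pool.Agent.helper261_navas
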