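import Pool.Agent.helper261_navas.EvDef
import Pool.Agent.helper261_navas.PrL
import Pool.Agent.helper261_navas.PrO
import Pool.Agent.helper261_navas.PrX
import Pool.Agent.helper261_navas.PrD
import Pool.Agent.helper261_navas.PrE1
import Pool.Agent.helper261_navas.PrE2
import Pool.Agent.helper261_navas.PrE5
import Pool.Agent.helper261_navas.PrA

set_option autoImplicit false

namespace Pool.Agent.helper261_navas

open Classical

noncomputable section

/-! # B: the relation -/

namespace B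

theorem val_append (L : Letter → (X ≃o X)) (u v : Word) : val L (u ++ v) = val L v * val L u := by
  induction u with
  | nil => simp [val]
  | cons p u ih => simp only [List.cons_append, val, ih, mul_assoc]

theorem pw_not (g : X ≃o X) (d : Bool) : pw g (!d) = (pw g d)⁻¹ := by
  cases d <;> simp [pw]

theorem val_inv (L : Letter → (X ≃o X)) (w : Word) : val L w.inv = (val L w)⁻¹ := by
  induction w with
  | nil => simp [val, Word.inv]
  | cons p w ih =>
    have h1 : Word.inv (p :: w) = Word.inv w ++ [(p.1, !p.2)] := by simp [Word.inv]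
    rw [h1, val_append, ih]
    simp only [val, one_mul, mul_inv_rev, pw_not]

theorem ev_join {P : ℤ → Content} {N N' : ℕ} {l l' : List Atom} {x y z : X} (h : Ev P N l x y)
    (h' : Ev P N' l' y z) : ∃ N'', Ev P N'' (l ++ l') x z :=
  ⟨max N N', (h.bound (le_max_left _ _)).append (h'.bound (le_max_right _ _))⟩

theorem ev_val {P : ℤ → Content} {L : Letter → (X ≃o X)} (hP : WellP P) (hL : IsAct P L) (w : Word)
    (x : X) : ∃ N, Ev P N w.atoms x (val L w x) := (IsAct.val hP hL w x _).2 rfl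

theorem ev_up {P : ℤ → Content} {L : Letter → (X ≃o X)} (hP : WellP P) (hL : IsAct P L) (w : Word)
    (n : ℕ) (ell : X) (c : ℤ) (x : X) (h1 : x < val L w x) (h2 : Vp n ell c x)
    (h3 : Vp n ell c (val L w x)) : ∃ N, Ev P N [.step w n ell c true] x (val L w x) := by
  obtain ⟨N, hN⟩ := ev_val hP hL w x
  exact ⟨N, Ev.step_up w n ell c true [] x _ _ hN h1 h2 h3 (Ev.nil _)⟩

theorem ev_dn {P : ℤ → Content} {L : Letter → (X ≃o X)} (hP : WellP P) (hL : IsAct P L) (w : Word)
    (n : ℕ) (ell : X) (c : ℤ) (x : X) (h1 : val L w x < x) (h2 : Vm n ell c x)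
    (h3 : Vm n ell c (val L w x)) : ∃ N, Ev P N [.step w n ell c true] x (val L w x) := by
  obtain ⟨N, hN⟩ := ev_val hP hL w x
  exact ⟨N, Ev.step_dn w n ell c true [] x _ _ hN h1 h2 h3 (Ev.nil _)⟩

theorem ev_not {P : ℤ → Content} {L : Letter → (X ≃o X)} (hP : WellP P) (hL : IsAct P L) (w : Word)
    (n : ℕ) (ell : X) (c : ℤ) (x : X) (h1 : ¬ (x < val L w x ∧ Vp n ell c x))
    (h2 : ¬ (val L w x < x ∧ Vm n ell c x)) : ∃ N, Ev P N [.step w n ell c true] x x := by
  obtain ⟨N, hN⟩ := ev_val hP hL w x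
  obtain ⟨N', hN'⟩ := ev_val hP hL w.inv x
  have e1 : ∀ y : X, y < val L w x ↔ (val L w)⁻¹ y < x := by
    intro y
    have h := (val L w).lt_iff_lt (x := (val L w)⁻¹ y) (y := x)
    rw [show (val L w) ((val L w)⁻¹ y) = y from (val L w).apply_symm_apply y] at h
    exact h
  have e2 : ∀ y : X, val L w x < y ↔ x < (val L w)⁻¹ y := by
    intro y
    have h := (val L w).lt_iff_lt (x := x) (y := (val L w)⁻¹ y)
    rw [show (val L w) ((val L w)⁻¹ y) = y from (val L w).apply_symm_apply y] at h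
    exact h
  rw [val_inv] at hN'
  refine ⟨max N N', Ev.step_not w n ell c true [] x _ _ x (hN.bound (le_max_left _ _))
    (hN'.bound (le_max_right _ _)) h1 h2 ?_ ?_ (Ev.nil _)⟩
  · rw [← e1]; exact h1
  · rw [← e2]; exact h2

/-- repeated trivial steps -/
theorem ev_rep_fix {P : ℤ → Content} (s : Atom) (x : X) (h : ∃ N, Ev P N [s] x x) (r : ℕ) :
    ∃ N, Ev P N (List.replicate r s) x x := by
  induction r with
  | zero => exact ⟨0, Ev.nil _⟩
  | succ r ih =>
    obtain ⟨N, hN⟩ := h
    obtain ⟨N', hN'⟩ := ih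
    exact ev_join hN hN'

/-- repeated steps along an orbit -/
theorem ev_rep_orbit {P : ℤ → Content} (s : Atom) (g : X ≃o X) (Q : X → Prop)
    (hQ : ∀ x, Q x → Q (g x) ∧ ∃ N, Ev P N [s] x (g x)) (r : ℕ) :
    ∀ x, Q x → Q ((g ^ r) x) ∧ ∃ N, Ev P N (List.replicate r s) x ((g ^ r) x) := by
  induction r with
  | zero => exact fun x hx => ⟨hx, 0, Ev.nil _⟩
  | succ r ih =>
    intro x hx
    obtain ⟨h1, N, hN⟩ := hQ x hx
    obtain ⟨h2, N', hN'⟩ := ih _ h1
    refine ⟨h2, ?_⟩
    exact ev_join hN hN'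

/-! ### windows -/

theorem site_le_of_lt {x y : X} (h : x < y) : site x ≤ site y := by
  unfold site
  rw [X.lt_iff] at h
  rcases h with h | ⟨h, -⟩
  · rw [M.lt_iff] at h
    rcases h with h | ⟨h, -⟩
    · exact h.le
    · exact h.le
  · rw [h]

theorem lt_of_site_lt {x y : X} (h : site x < site y) : x < y := by
  rw [X.lt_iff, M.lt_iff]
  exact Or.inl (Or.inl h)

theorem site_BL (ell : X) (q : ℤ) : site (BL ell q) = q + site ell := by
  unfold BL
  rw [site_smul]
  simp [Iso2.site]
  ring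

theorem site_BR (ell : X) (q : ℤ) : site (BR ell q) = q - site ell := by
  unfold BR
  rw [site_smul, site_smul]
  simp [Iso2.site]
  ring

theorem BL_lt {ell : X} {q q' : ℤ} (h : q < q') : BL ell q < BL ell q' :=
  lt_of_site_lt (by rw [site_BL, site_BL]; omega)

theorem BR_lt {ell : X} {q q' : ℤ} (h : q < q') : BR ell q < BR ell q' :=
  lt_of_site_lt (by rw [site_BR, site_BR]; omega)

theorem Vp_site {n : ℕ} {ell : X} {c : ℤ} {x : X} (h : Vp n ell c x) :
    |site x - c| ≤ 2 ^ n + |site ell| := by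
  have h1 := site_le_of_lt h.1
  have h2 := site_le_of_lt h.2
  rw [site_BL] at h1 h2
  have h3 := le_abs_self (site ell)
  have h4 := neg_abs_le (site ell)
  rw [abs_le]
  constructor <;> linarith

theorem Vm_site {n : ℕ} {ell : X} {c : ℤ} {x : X} (h : Vm n ell c x) :
    |site x - c| ≤ 2 ^ n + |site ell| := by
  have h1 := site_le_of_lt h.1
  have h2 := site_le_of_lt h.2
  rw [site_BR] at h1 h2
  have h3 := le_abs_self (site ell)
  have h4 := neg_abs_le (site ell)
  rw [abs_le]
  constructor <;> linarith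

theorem cls_le {b : Bool} {n v : ℕ} (h : cls b n v) : n + 1 ≤ v := by
  unfold cls at h
  split_ifs at h <;> omega

theorem cls_of_le {n v : ℕ} (h : n + 1 ≤ v) : ∃ b, cls b n v := by
  by_cases h1 : v = n + 1
  · exact ⟨false, by simp [cls, h1]⟩
  · exact ⟨true, by simp only [cls, if_true]; omega⟩

theorem cls_unique {b b' : Bool} {n v : ℕ} (h : cls b n v) (h' : cls b' n v) : b = b' := by
  unfold cls at h h'
  cases b <;> cases b' <;> simp at h h' ⊢ <;> omega

/-- two centres of high level whose windows share a point coincide (abstract form) -/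
theorem centre_unique {n : ℕ} {c c' : ℤ} (h : n + 1 ≤ lam c) (h' : n + 1 ≤ lam c')
    (B : ℤ → X) (hB : ∀ q q', q < q' → B q < B q') {x : X}
    (h1 : B (c - 2 ^ n) < x ∧ x < B (c + 2 ^ n)) (h2 : B (c' - 2 ^ n) < x ∧ x < B (c' + 2 ^ n)) :
    c = c' := by
  have hd := dvd_sub_of_le_lam (n + 1) c c' h h'
  obtain ⟨m, hm⟩ := hd
  have hp : (0 : ℤ) < 2 ^ n := by positivity
  have key : ∀ a a' : ℤ, B (a - 2 ^ n) < x → x < B (a' + 2 ^ n) → a - 2 ^ n < a' + 2 ^ n := by
    intro a a' h3 h4
    by_contra h5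
    rcases (not_lt.1 h5).lt_or_eq with h6 | h6
    · exact absurd ((h4.trans (hB _ _ h6)).trans h3) (lt_irrefl _)
    · rw [h6] at h4
      exact absurd (h4.trans h3) (lt_irrefl _)
  have h3 := key c c' h1.1 h2.2
  have h4 := key c' c h2.1 h1.2
  rw [pow_succ] at hm
  have h5 : m < 1 := by
    by_contra h6
    have : (1 : ℤ) ≤ m := not_lt.1 h6
    nlinarith
  have h6 : -1 < m := by
    by_contra h6
    have : m ≤ -1 := not_lt.1 h6
    nlinarith
  have h7 : m = 0 := by omega
  rw [h7] at hm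
  omega

/-- a point is in some window unless it is a boundary point (abstract form) -/
theorem centre_exists (n : ℕ) (B : ℤ → X) (hB : ∀ q q', q < q' → B q < B q') (s : ℤ)
    (hs : ∀ q, site (B q) = q + s) (x : X) (hx : ∀ q, lam q = n → x ≠ B q) :
    ∃ c, n + 1 ≤ lam c ∧ B (c - 2 ^ n) < x ∧ x < B (c + 2 ^ n) := by
  obtain ⟨q0, -, hq0⟩ := exists_lam_eq n 0
  have hlam : ∀ k : ℤ, lam (q0 + k * 2 ^ (n + 1)) = n := by
    intro k
    rw [lam_translate q0 _ (by rw [hq0]; exact Dvd.intro_left k rfl), hq0]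
  have hp : (0 : ℤ) < 2 ^ n := by positivity
  have hp1 : (1 : ℤ) ≤ 2 ^ (n + 1) := by
    have : (0 : ℤ) < 2 ^ (n + 1) := by positivity
    omega
  obtain ⟨k, hk1, hk2⟩ := Int.exists_greatest_of_bdd
    (P := fun k : ℤ => B (q0 + k * 2 ^ (n + 1)) < x)
    ⟨|site x - s - q0|, fun k hk => by
      have h1 := site_le_of_lt hk
      rw [hs] at h1
      rcases le_or_gt k 0 with h2 | h2
      · exact h2.trans (abs_nonneg _)
      · have h3 : k ≤ k * 2 ^ (n + 1) := by nlinarith
        have h4 := le_abs_self (site x - s - q0)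
        linarith⟩
    ⟨-(|site x - s - q0| + 1), by
      apply lt_of_site_lt
      rw [hs]
      have h4 := neg_abs_le (site x - s - q0)
      have h5 := abs_nonneg (site x - s - q0)
      have h3 : -(|site x - s - q0| + 1) * 2 ^ (n + 1) ≤ -(|site x - s - q0| + 1) := by nlinarith
      linarith⟩
  refine ⟨q0 + k * 2 ^ (n + 1) + 2 ^ n, (lam_pow' n _ (hlam k)).1, ?_, ?_⟩
  · rw [add_sub_cancel_right]; exact hk1
  · have h1 : q0 + k * 2 ^ (n + 1) + 2 ^ n + 2 ^ n = q0 + (k + 1) * 2 ^ (n + 1) := by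
      rw [pow_succ]; ring
    rw [h1]
    have h2 : ¬ B (q0 + (k + 1) * 2 ^ (n + 1)) < x := by
      intro h3
      have := hk2 (k + 1) h3
      omega
    exact lt_of_le_of_ne (not_lt.1 h2) (hx _ (hlam (k + 1)))

/-! ### the moved set of a class -/

/-- the part of `X` on which the clamps of the class `b` move points -/
def InA (g : X ≃o X) (n : ℕ) (ell : X) (b : Bool) (x : X) : Prop :=
  (x < g x ∧ ∃ c, cls b n (lam c) ∧ Vp n ell c x) ∨ (g x < x ∧ ∃ c, cls b n (lam c) ∧ Vm n ell c x)

/-- the witness condition in terms of the action -/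
structure WitA (g : X ≃o X) (n : ℕ) (ell : X) : Prop where
  l : ∀ q, lam q = n → g (BL ell q) < BL ell q
  r : ∀ q, lam q = n → BR ell q < g (BR ell q)

theorem WitA.Vp {g : X ≃o X} {n : ℕ} {ell : X} (h : WitA g n ell) {c : ℤ} (hc : n + 1 ≤ lam c)
    {x : X} (h1 : x < g x) (h2 : Vp n ell c x) : Vp n ell c (g x) := by
  refine ⟨h2.1.trans h1, ?_⟩
  exact (g.lt_iff_lt.2 h2.2).trans (h.l _ (lam_pow n c hc).1)

theorem WitA.Vm {g : X ≃o X} {n : ℕ} {ell : X} (h : WitA g n ell) {c : ℤ} (hc : n + 1 ≤ lam c)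
    {x : X} (h1 : g x < x) (h2 : Vm n ell c x) : Vm n ell c (g x) := by
  refine ⟨?_, h1.trans h2.2⟩
  exact (h.r _ (lam_pow n c hc).2).trans (g.lt_iff_lt.2 h2.1)

theorem InA_exists {g : X ≃o X} {n : ℕ} {ell : X} (h : WitA g n ell) {x : X} (hx : g x ≠ x) :
    ∃ b, InA g n ell b x := by
  rcases lt_or_gt_of_ne hx with h1 | h1
  · obtain ⟨c, hc, h2⟩ := centre_exists n (BR ell) (fun q q' h => BR_lt h) (-site ell)
      (fun q => by rw [site_BR]; ring) x (fun q hq he => by
        have := h.r q hq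
        rw [← he] at this
        exact absurd (this.trans h1) (lt_irrefl _))
    obtain ⟨b, hb⟩ := cls_of_le hc
    exact ⟨b, Or.inr ⟨h1, c, hb, h2⟩⟩
  · obtain ⟨c, hc, h2⟩ := centre_exists n (BL ell) (fun q q' h => BL_lt h) (site ell)
      (fun q => by rw [site_BL]) x (fun q hq he => by
        have := h.l q hq
        rw [← he] at this
        exact absurd (this.trans h1) (lt_irrefl _))
    obtain ⟨b, hb⟩ := cls_of_le hc
    exact ⟨b, Or.inl ⟨h1, c, hb, h2⟩⟩

theorem InA_unique {g : X ≃o X} {n : ℕ} {ell : X} {b b' : Bool} {x : X} (h : InA g n ell b x)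
    (h' : InA g n ell b' x) : b = b' := by
  rcases h with ⟨h1, c, hc, h2⟩ | ⟨h1, c, hc, h2⟩ <;>
    rcases h' with ⟨h1', c', hc', h2'⟩ | ⟨h1', c', hc', h2'⟩
  · have := centre_unique (cls_le hc) (cls_le hc') (BL ell) (fun q q' h => BL_lt h) h2 h2'
    subst this
    exact cls_unique hc hc'
  · exact absurd (h1.trans h1') (lt_irrefl _)
  · exact absurd (h1.trans h1') (lt_irrefl _)
  · have := centre_unique (cls_le hc) (cls_le hc') (BR ell) (fun q q' h => BR_lt h) h2 h2'
    subst this
    exact cls_unique hc hc'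

theorem InA_step {g : X ≃o X} {n : ℕ} {ell : X} (h : WitA g n ell) {b : Bool} {x : X}
    (hx : InA g n ell b x) : InA g n ell b (g x) := by
  rcases hx with ⟨h1, c, hc, h2⟩ | ⟨h1, c, hc, h2⟩
  · exact Or.inl ⟨g.lt_iff_lt.2 h1, c, hc, h.Vp (cls_le hc) h1 h2⟩
  · exact Or.inr ⟨g.lt_iff_lt.2 h1, c, hc, h.Vm (cls_le hc) h1 h2⟩

theorem InA_pow {g : X ≃o X} {n : ℕ} {ell : X} (h : WitA g n ell) {b : Bool} (r : ℕ) :
    ∀ x : X, InA g n ell b x → InA g n ell b ((g ^ r) x) := by
  induction r with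
  | zero => exact fun x hx => hx
  | succ r ih => exact fun x hx => ih _ (InA_step h hx)

theorem pow_fix {g : X ≃o X} (r : ℕ) {x : X} (hx : g x = x) : (g ^ r) x = x := by
  induction r with
  | zero => rfl
  | succ r ih =>
    rw [pow_succ]
    change (g ^ r) (g x) = x
    rw [hx, ih]

/-! ### the action of the contents -/

theorem site_cons (c : ℤ) (z : M) (hz : z.e = 0) (h : col (R c • z) ≠ none) (ξ : X) :
    site (cons (R c • z) h ξ) = c := by
  change (R c • z).e = c
  rw [smul_e, hz]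
  simp [R]

theorem InU_cons (c : ℤ) (z : M) (hm : z.m = 0) (hl : z.l = 0) (h : col (R c • z) ≠ none) (ξ : X) :
    InU (cons (R c • z) h ξ) := by
  constructor
  · change (R c • z).m = 0
    rw [smul_m, hm, mul_zero]
  · change (R c • z).l = 0
    rw [smul_l, hl, mul_zero]

theorem fix_act {P : ℤ → Content} {L : Letter → (X ≃o X)} (hP : WellP P) (hL : IsAct P L) {j : ℤ}
    {γ : Color} {lev : ℕ → Prop} {φ : X ≃o X} (h : P j = .fix γ lev φ) (x : X) :
    val L (encW j) x = globFun lev φ x := by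
  apply (IsAct.enc hP hL j x _).1
  have hj : j < ((max (lam (site x)) j.toNat + 1 : ℕ) : ℤ) := by
    have := Int.self_le_toNat j
    push_cast
    omega
  refine ⟨max (lam (site x)) j.toNat + 1, ?_⟩
  unfold globFun
  by_cases h1 : InU x
  · by_cases h2 : lev (lam (site x))
    · rw [if_pos ⟨h1, h2⟩]
      exact Ev.cont_fix j true [] x _ γ lev φ h1 (by omega) hj h h2 (Ev.nil _)
    · rw [if_neg (fun h3 => h2 h3.2)]
      refine Ev.cont_off j true [] x _ h1 (by omega) hj ?_ (Ev.nil _)
      rw [h]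
      exact h2
  · rw [if_neg (fun h3 => h1 h3.1)]
    exact Ev.cont_out j true [] x _ h1 (Ev.nil _)

theorem exec_on {P : ℤ → Content} {L : Letter → (X ≃o X)} (hP : WellP P) (hL : IsAct P L) {j : ℤ}
    {k : ℕ} {b : Bool} {n : ℕ} {z : M} {w : Word} {r : ℕ} {ell : X}
    (hj : P j = .exec k b n z w r ell) (hz : z.e = 0) (hm : z.m = 0) (hl : z.l = 0) (c : ℤ)
    (hc : cls b n (lam c)) (h : col (R c • z) ≠ none) (ξ η : X)
    (hE : ∃ N, Ev P N (List.replicate r (.step w n ell c true)) ξ η) :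
    val L (encW j) (cons (R c • z) h ξ) = cons (R c • z) h η := by
  apply (IsAct.enc hP hL j _ _).1
  obtain ⟨N, hN⟩ := hE
  have hs := site_cons c z hz h ξ
  have hj' : j < ((max N (max (lam c) j.toNat) + 1 : ℕ) : ℤ) := by
    have := Int.self_le_toNat j
    push_cast
    omega
  refine ⟨max N (max (lam c) j.toNat) + 1, ?_⟩
  refine Ev.cont_exec j true [] _ _ k b n z w r ell h ξ η (InU_cons c z hm hl h ξ) ?_ hj' hj ?_ ?_ rfl ?_
    (Ev.nil _)
  · rw [hs]; omega
  · rw [hs]; exact hc
  · rw [hs]; rfl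
  · rw [hs]
    exact hN.bound (by omega)

theorem exec_off {P : ℤ → Content} {L : Letter → (X ≃o X)} (hP : WellP P) (hL : IsAct P L) {j : ℤ}
    {k : ℕ} {b : Bool} {n : ℕ} {z : M} {w : Word} {r : ℕ} {ell : X}
    (hj : P j = .exec k b n z w r ell) (hcz : col z ≠ none) (u : X)
    (hu : ∀ (c : ℤ) (h : col (R c • z) ≠ none) (ξ : X), cls b n (lam c) → u ≠ cons (R c • z) h ξ) :
    val L (encW j) u = u := by
  apply (IsAct.enc hP hL j _ _).1
  have hj' : j < ((max (lam (site u)) j.toNat + 1 : ℕ) : ℤ) := by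
    have := Int.self_le_toNat j
    push_cast
    omega
  refine ⟨max (lam (site u)) j.toNat + 1, ?_⟩
  by_cases h1 : InU u
  · by_cases h2 : cls b n (lam (site u))
    · refine Ev.cont_miss j true [] u u k b n z w r ell h1 (by omega) hj' hj h2 ?_ (Ev.nil _)
      intro h3
      have h4 : col (top u) ≠ none := by
        rw [h3, col_smul]; exact hcz
      obtain ⟨ξ, hξ⟩ := exists_cons u h4
      have h5 : col (R (site u) • z) ≠ none := by rw [col_smul]; exact hcz
      refine hu (site u) h5 ξ h2 ?_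
      rw [X.ext_iff'] at hξ ⊢
      refine ⟨?_, hξ.2⟩
      rw [top_cons]
      exact h3
    · refine Ev.cont_off j true [] u u h1 (by omega) hj' ?_ (Ev.nil _)
      rw [hj]
      exact h2
  · exact Ev.cont_out j true [] u u h1 (Ev.nil _)

/-- the action of `t_b` -/
theorem t_act {P : ℤ → Content} {L : Letter → (X ≃o X)} (hP : WellP P) (hL : IsAct P L) {j : ℤ}
    {k : ℕ} {b : Bool} {n : ℕ} {z : M} {w : Word} {r : ℕ} {ell : X}
    (hj : P j = .exec k b n z w r ell) (hcz : col z ≠ none) (hz : z.e = 0) (hm : z.m = 0)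
    (hl : z.l = 0) (hW : WitA (val L w) n ell) (W : ℤ) (hW1 : 2 ^ n + |site ell| ≤ W) (G : X ≃o X)
    (hG : ∀ c, cls b n (lam c) → ∀ (x : X) (h : col (R c • z) ≠ none), |site x - c| ≤ W →
      G x = cons (R c • z) h x) (x : X) :
    (G⁻¹ * val L (encW j) * G) x = if InA (val L w) n ell b x then ((val L w) ^ r) x else x := by
  have hinv : ∀ y, G⁻¹ (G y) = y := fun y => G.symm_apply_apply y
  change G⁻¹ (val L (encW j) (G x)) = _
  set g := val L w with hg
  by_cases hx : InA g n ell b x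
  · rw [if_pos hx]
    -- the orbit
    obtain ⟨c, hc, hs1, hs2, N, hN⟩ : ∃ c, cls b n (lam c) ∧ |site x - c| ≤ W ∧
        |site ((g ^ r) x) - c| ≤ W ∧
        ∃ N, Ev P N (List.replicate r (.step w n ell c true)) x ((g ^ r) x) := by
      rcases hx with ⟨h1, c, hc, h2⟩ | ⟨h1, c, hc, h2⟩
      · obtain ⟨h3, h4⟩ := ev_rep_orbit (P := P) (.step w n ell c true) g
          (fun y => y < g y ∧ Vp n ell c y) (fun y hy =>
            ⟨⟨g.lt_iff_lt.2 hy.1, hW.Vp (cls_le hc) hy.1 hy.2⟩,
              ev_up hP hL w n ell c y hy.1 hy.2 (hW.Vp (cls_le hc) hy.1 hy.2)⟩) r x ⟨h1, h2⟩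
        exact ⟨c, hc, (Vp_site h2).trans hW1, (Vp_site h3.2).trans hW1, h4⟩
      · obtain ⟨h3, h4⟩ := ev_rep_orbit (P := P) (.step w n ell c true) g
          (fun y => g y < y ∧ Vm n ell c y) (fun y hy =>
            ⟨⟨g.lt_iff_lt.2 hy.1, hW.Vm (cls_le hc) hy.1 hy.2⟩,
              ev_dn hP hL w n ell c y hy.1 hy.2 (hW.Vm (cls_le hc) hy.1 hy.2)⟩) r x ⟨h1, h2⟩
        exact ⟨c, hc, (Vm_site h2).trans hW1, (Vm_site h3.2).trans hW1, h4⟩
    have hcol : col (R c • z) ≠ none := by rw [col_smul]; exact hcz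
    rw [hG c hc x hcol hs1, exec_on hP hL hj hz hm hl c hc hcol _ _ ⟨N, hN⟩,
      ← hG c hc _ hcol hs2, hinv]
  · rw [if_neg hx]
    have key : val L (encW j) (G x) = G x := by
      by_cases hu : ∃ (c : ℤ) (h : col (R c • z) ≠ none) (ξ : X), cls b n (lam c) ∧
          G x = cons (R c • z) h ξ
      · obtain ⟨c, hcol, ξ, hc, hξ⟩ := hu
        rw [hξ]
        refine exec_on hP hL hj hz hm hl c hc hcol ξ ξ (ev_rep_fix _ _ ?_ r)
        by_cases hV : Vp n ell c ξ ∨ Vm n ell c ξ
        · have hs : |site ξ - c| ≤ W := by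
            rcases hV with hV | hV
            · exact (Vp_site hV).trans hW1
            · exact (Vm_site hV).trans hW1
          have hxξ : x = ξ := by
            apply G.injective
            rw [hξ, hG c hc ξ hcol hs]
          subst hxξ
          exact ev_not hP hL w n ell c x (fun h => hx (Or.inl ⟨h.1, c, hc, h.2⟩))
            (fun h => hx (Or.inr ⟨h.1, c, hc, h.2⟩))
        · exact ⟨0, Ev.step_out w n ell c true [] ξ ξ (fun h => hV (Or.inl h))
            (fun h => hV (Or.inr h)) (Ev.nil _)⟩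
      · refine exec_off hP hL hj hcz _ fun c h ξ hc he => hu ⟨c, h, ξ, hc, he⟩
    rw [key, hinv]

theorem witA_of {P : ℤ → Content} {L : Letter → (X ≃o X)} (hP : WellP P) (hL : IsAct P L) {N : ℕ}
    {w : Word} {n : ℕ} {ell : X} (h : Wit P N w n ell) : WitA (val L w) n ell := by
  constructor
  · intro q hq
    obtain ⟨⟨y, hy, hlt⟩, -, -, -⟩ := h q hq
    rw [(IsAct.val hP hL w _ _).1 ⟨N, hy⟩]
    exact hlt
  · intro q hq
    obtain ⟨-, -, ⟨y, hy, hlt⟩, -⟩ := h q hq
    rw [(IsAct.val hP hL w _ _).1 ⟨N, hy⟩]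
    exact hlt

end B

/-- the relation: `t` does not depend on `w, r, ell` -/
theorem exists_relation (k n : ℕ) (W : ℤ) (hW : W + 1 < 2 ^ (n + 1)) (j : ℤ) :
    ∃ (φ : Bool → (X ≃o X)) (z : Bool → M) (t : Word), (∀ b, SuppU (φ b) ∧ ColFilt (some (k, b)) (φ b) ∧
        col (z b) = some (k, b)) ∧
      ∀ (P : ℤ → Content) (sc rho : ℕ → ℕ) (L : Letter → (X ≃o X)) (w : Word) (r : ℕ) (ell : X),
        ValidP P sc rho → IsAct P L →
        P j = .fix (some (k, false)) (cls true n) (φ false) →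
        P (j + 1) = .fix (some (k, true)) (cls false n) (φ true) →
        P (j + 2) = .exec k false n (z false) w r ell → P (j + 3) = .exec k true n (z true) w r ell →
        2 ^ n + |site ell| ≤ W → val L t = (val L w) ^ r := by
  have hpos : (2 : ℤ) ≤ 2 ^ (n + 1) := by
    have h1 : (1 : ℤ) ≤ 2 ^ n := one_le_pow₀ (by norm_num)
    rw [pow_succ]; linarith
  have hdata := fun b : Bool => task_data k b n (max W 0) (by rcases max_cases W 0 with h | h <;> omega)
    (le_max_right _ _)
  choose F Mv φ z hF hMv hφ hcf hcz hze hzm hzl hmain using hdata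
  choose uF huF using fun b => exists_TG_word (F b) (hF b)
  choose uM huM using fun b => exists_TG_word (Mv b) (hMv b)
  let gW : Bool → Word := fun b => uF b ++ encW (if b then j + 1 else j) ++ uM b
  let tW : Bool → Word := fun b => gW b ++ encW (if b then j + 3 else j + 2) ++ Word.inv (gW b)
  refine ⟨φ, z, tW false ++ tW true, fun b => ⟨hφ b, hcf b, hcz b⟩, ?_⟩
  intro P sc rho L w r ell hV hL h0 h1 h2 h3 hell
  have hP := hV.wellP
  obtain ⟨-, -, -, -, N, hN⟩ := hV.exec _ _ _ _ _ _ _ _ h2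
  have hWit : B.WitA (val L w) n ell := B.witA_of hP hL hN
  have hfix : ∀ b : Bool, P (if b then j + 1 else j) = .fix (some (k, b)) (cls (!b) n) (φ b) := by
    intro b
    cases b
    · exact h0
    · exact h1
  have hexec : ∀ b : Bool, P (if b then j + 3 else j + 2) = .exec k b n (z b) w r ell := by
    intro b
    cases b
    · exact h2
    · exact h3
  have hczn : ∀ b, col (z b) ≠ none := by
    intro b
    rw [hcz b]
    exact Option.some_ne_none _
  have hG : ∀ b, ∀ c, cls b n (lam c) → ∀ (x : X) (h : col (R c • z b) ≠ none),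
      |site x - c| ≤ max W 0 → val L (gW b) x = cons (R c • z b) h x := by
    intro b c hc x h hx
    have h4 : val L (gW b) x = lift (Mv b) (val L (encW (if b then j + 1 else j)) (lift (F b) x)) := by
      change val L (uF b ++ encW (if b then j + 1 else j) ++ uM b) x = _
      rw [B.val_append, B.val_append, huF b P sc rho L hV hL, huM b P sc rho L hV hL]
      rfl
    rw [h4, B.fix_act hP hL (hfix b)]
    exact hmain b c hc x h hx
  have ht : ∀ b x, val L (tW b) x =
      if B.InA (val L w) n ell b x then ((val L w) ^ r) x else x := by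
    intro b x
    have h4 : val L (tW b) = (val L (gW b))⁻¹ * val L (encW (if b then j + 3 else j + 2)) *
        val L (gW b) := by
      change val L (gW b ++ encW (if b then j + 3 else j + 2) ++ Word.inv (gW b)) = _
      rw [B.val_append, B.val_append, B.val_inv, mul_assoc]
    rw [h4]
    exact B.t_act hP hL (hexec b) (hczn b) (hze b) (hzm b) (hzl b) hWit (max W 0)
      (hell.trans (le_max_left _ _)) (val L (gW b)) (hG b) x
  apply RelIso.ext
  intro x
  rw [B.val_append]
  change val L (tW true) (val L (tW false) x) = _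
  by_cases hx : val L w x = x
  · have hn : ∀ b, ¬ B.InA (val L w) n ell b x := by
      rintro b (h4 | h4)
      · rw [hx] at h4; exact lt_irrefl _ h4.1
      · rw [hx] at h4; exact lt_irrefl _ h4.1
    rw [ht false x, if_neg (hn false), ht true x, if_neg (hn true), B.pow_fix r hx]
  · obtain ⟨b, hb⟩ := B.InA_exists hWit hx
    have hb2 := B.InA_pow hWit r x hb
    cases b
    · rw [ht false x, if_pos hb, ht true, if_neg]
      intro h4
      exact absurd (B.InA_unique hb2 h4) (by decide)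
    · rw [ht false x, if_neg, ht true x, if_pos hb]
      intro h4
      exact absurd (B.InA_unique hb h4) (by decide)

end

end Pool.Agent.helper261_navas
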