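import Pool.Agent.helper261_navas.EvDef
import Pool.Agent.helper261_navas.PrL
import Pool.Agent.helper261_navas.PrO
import Pool.Agent.helper261_navas.PrX
import Pool.Agent.helper261_navas.PrE1

set_option autoImplicit false

namespace Pool.Agent.helper261_navas

open Classical

noncomputable section

/-! # E3: symmetry -/

namespace E3

theorem BL_smul_pos (g : Iso2) (hg : g.ε = 1) (ell : X) (q : ℤ) : g • BL ell q = BL ell (g.site q) := by
  unfold BL
  rw [← mul_smul]
  congr 1
  ext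
  · simp [Iso2.mul_ε, hg]
  · simp [Iso2.mul_t, hg, Iso2.site]; ring

theorem BR_smul_pos (g : Iso2) (hg : g.ε = 1) (ell : X) (q : ℤ) : g • BR ell q = BR ell (g.site q) := by
  unfold BR
  rw [← mul_smul]
  congr 1
  ext
  · simp [Iso2.mul_ε, hg]
  · simp [Iso2.mul_t, hg, Iso2.site]; ring

theorem BL_smul_neg (g : Iso2) (hg : g.ε = -1) (ell : X) (q : ℤ) : g • BL ell q = BR ell (g.site q) := by
  unfold BL BR
  rw [← mul_smul, ← mul_smul]
  congr 1
  ext
  · simp [Iso2.mul_ε, hg]
  · simp [Iso2.mul_t, hg, Iso2.site]; ring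

theorem BR_smul_neg (g : Iso2) (hg : g.ε = -1) (ell : X) (q : ℤ) : g • BR ell q = BL ell (g.site q) := by
  unfold BL BR
  rw [← mul_smul, ← mul_smul]
  congr 1
  ext
  · simp [Iso2.mul_ε, hg]
  · simp [Iso2.mul_t, Iso2.mul_ε, hg, Iso2.site]; ring

theorem Vp_pos (g : Iso2) (hg : g.ε = 1) (n : ℕ) (ell : X) (c : ℤ) (x : X) :
    Vp n ell (g.site c) (g • x) ↔ Vp n ell c x := by
  have h1 : g.site c - 2 ^ n = g.site (c - 2 ^ n) := by simp [Iso2.site, hg]; ring
  have h2 : g.site c + 2 ^ n = g.site (c + 2 ^ n) := by simp [Iso2.site, hg]; ring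
  unfold Vp
  rw [h1, h2, ← BL_smul_pos g hg, ← BL_smul_pos g hg, smul_lt_pos g hg, smul_lt_pos g hg]

theorem Vm_pos (g : Iso2) (hg : g.ε = 1) (n : ℕ) (ell : X) (c : ℤ) (x : X) :
    Vm n ell (g.site c) (g • x) ↔ Vm n ell c x := by
  have h1 : g.site c - 2 ^ n = g.site (c - 2 ^ n) := by simp [Iso2.site, hg]; ring
  have h2 : g.site c + 2 ^ n = g.site (c + 2 ^ n) := by simp [Iso2.site, hg]; ring
  unfold Vm
  rw [h1, h2, ← BR_smul_pos g hg, ← BR_smul_pos g hg, smul_lt_pos g hg, smul_lt_pos g hg]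

theorem Vp_neg (g : Iso2) (hg : g.ε = -1) (n : ℕ) (ell : X) (c : ℤ) (x : X) :
    Vp n ell (g.site c) (g • x) ↔ Vm n ell c x := by
  have h1 : g.site c - 2 ^ n = g.site (c + 2 ^ n) := by simp [Iso2.site, hg]; ring
  have h2 : g.site c + 2 ^ n = g.site (c - 2 ^ n) := by simp [Iso2.site, hg]; ring
  unfold Vp Vm
  rw [h1, h2, ← BR_smul_neg g hg, ← BR_smul_neg g hg, smul_lt_neg g hg, smul_lt_neg g hg]
  exact and_comm

theorem Vm_neg (g : Iso2) (hg : g.ε = -1) (n : ℕ) (ell : X) (c : ℤ) (x : X) :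
    Vm n ell (g.site c) (g • x) ↔ Vp n ell c x := by
  have h1 : g.site c - 2 ^ n = g.site (c + 2 ^ n) := by simp [Iso2.site, hg]; ring
  have h2 : g.site c + 2 ^ n = g.site (c - 2 ^ n) := by simp [Iso2.site, hg]; ring
  unfold Vp Vm
  rw [h1, h2, ← BL_smul_neg g hg, ← BL_smul_neg g hg, smul_lt_neg g hg, smul_lt_neg g hg]
  exact and_comm

theorem Vup_pos (g : Iso2) (hg : g.ε = 1) (d : Bool) (n : ℕ) (ell : X) (c : ℤ) (x : X) :
    Vup d n ell (g.site c) (g • x) ↔ Vup d n ell c x := by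
  unfold Vup
  split_ifs
  · exact Vp_pos g hg n ell c x
  · exact Vm_pos g hg n ell c x

theorem Vdn_pos (g : Iso2) (hg : g.ε = 1) (d : Bool) (n : ℕ) (ell : X) (c : ℤ) (x : X) :
    Vdn d n ell (g.site c) (g • x) ↔ Vdn d n ell c x := by
  unfold Vdn
  split_ifs
  · exact Vm_pos g hg n ell c x
  · exact Vp_pos g hg n ell c x

theorem Vup_neg (g : Iso2) (hg : g.ε = -1) (d : Bool) (n : ℕ) (ell : X) (c : ℤ) (x : X) :
    Vup d n ell (g.site c) (g • x) ↔ Vdn d n ell c x := by
  unfold Vup Vdn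
  split_ifs
  · exact Vp_neg g hg n ell c x
  · exact Vm_neg g hg n ell c x

theorem Vdn_neg (g : Iso2) (hg : g.ε = -1) (d : Bool) (n : ℕ) (ell : X) (c : ℤ) (x : X) :
    Vdn d n ell (g.site c) (g • x) ↔ Vup d n ell c x := by
  unfold Vup Vdn
  split_ifs
  · exact Vm_neg g hg n ell c x
  · exact Vp_neg g hg n ell c x

theorem stdm_smul (g : Iso2) (x : X) (h : sgn (g.site (site x)) = g.ε * sgn (site x)) :
    stdm (g • x) = stdm x := by
  unfold stdm
  rw [site_smul, h, top_smul, smul_m]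
  push_cast
  have h1 : ((g.ε : ℤˣ) : ℤ) * g.ε = 1 := by
    rcases Int.units_eq_one_or g.ε with h1 | h1 <;> simp [h1]
  calc ((g.ε : ℤ) * (sgn (site x) : ℤ)) * ((g.ε : ℤ) * (top x).m)
      = ((g.ε : ℤ) * (g.ε : ℤ)) * ((sgn (site x) : ℤ) * (top x).m) := by ring
    _ = (sgn (site x) : ℤ) * (top x).m := by rw [h1, one_mul]

theorem stdl_smul (g : Iso2) (x : X) (h : sgn (g.site (site x)) = g.ε * sgn (site x)) :
    stdl (g • x) = stdl x := by
  unfold stdl
  rw [site_smul, h, top_smul, smul_l]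
  push_cast
  have h1 : ((g.ε : ℤˣ) : ℤ) * g.ε = 1 := by
    rcases Int.units_eq_one_or g.ε with h1 | h1 <;> simp [h1]
  calc ((g.ε : ℤ) * (sgn (site x) : ℤ)) * ((g.ε : ℤ) * (top x).l)
      = ((g.ε : ℤ) * (g.ε : ℤ)) * ((sgn (site x) : ℤ) * (top x).l) := by ring
    _ = (sgn (site x) : ℤ) * (top x).l := by rw [h1, one_mul]

theorem R_site (g : Iso2) (e : ℤ) (h : sgn (g.site e) = g.ε * sgn e) : R (g.site e) = g * R e := by
  unfold R
  ext
  · rw [Iso2.mul_ε, h]
  · rw [Iso2.mul_t]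
    simp only [Iso2.site]
    ring

/-- M-level automorphisms that keep all sites and commute with `g` at the sites of level below `N` -/
def CG (N : ℕ) (g : Iso2) : Subgroup CAut where
  carrier := {f | (∀ a, (f.1 a).e = a.e) ∧ ∀ a : M, lam a.e < N → f.1 (g • a) = g • f.1 a}
  mul_mem' := by
    rintro f f' ⟨h1, h2⟩ ⟨h1', h2'⟩
    refine ⟨?_, ?_⟩
    · intro a
      change (f.1 (f'.1 a)).e = a.e
      rw [h1, h1']
    · intro a ha
      change f.1 (f'.1 (g • a)) = g • f.1 (f'.1 a)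
      rw [h2' a ha, h2 _ (by rw [h1']; exact ha)]
  one_mem' := ⟨fun a => rfl, fun a _ => rfl⟩
  inv_mem' := by
    rintro f ⟨h1, h2⟩
    have h3 : ∀ a, (f.1⁻¹ a).e = a.e := by
      intro a
      have := h1 (f.1⁻¹ a)
      rw [show f.1 (f.1⁻¹ a) = a from f.1.apply_symm_apply a] at this
      exact this.symm
    refine ⟨h3, ?_⟩
    intro a ha
    change f.1⁻¹ (g • a) = g • f.1⁻¹ a
    apply f.1.injective
    rw [show f.1 (f.1⁻¹ (g • a)) = g • a from f.1.apply_symm_apply _]
    rw [h2 _ (by rw [h3]; exact ha)]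
    rw [show f.1 (f.1⁻¹ a) = a from f.1.apply_symm_apply a]

theorem lift_smul {N : ℕ} {g : Iso2} {f : CAut} (hf : f ∈ CG N g) (x : X) (hx : lam (site x) < N) :
    lift f (g • x) = g • lift f x := by
  rw [X.ext_iff']
  refine ⟨?_, ?_⟩
  · rw [top_lift, top_smul, top_smul, top_lift]
    exact hf.2 _ hx
  · rw [tail_lift, tail_smul, tail_smul, tail_lift]

theorem sgM_mem {N : ℕ} {g : Iso2}
    (hg : ∀ e, lam e < N → lam (g.site e) = lam e ∧ sgn (g.site e) = g.ε * sgn e) : sgM ∈ CG N g := by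
  refine ⟨fun a => rfl, ?_⟩
  intro a ha
  obtain ⟨-, h1⟩ := hg a.e ha
  change sgFun 1 (g • a) = g • sgFun 1 a
  have h2 : (g • a).e = g.site a.e := rfl
  ext
  · rfl
  · rw [smul_m]
    simp only [sgFun]
    rw [h2, h1, smul_m]
    push_cast
    ring
  · rfl
  · rfl
  · rfl

theorem btM_mem {N : ℕ} {g : Iso2}
    (hg : ∀ e, lam e < N → lam (g.site e) = lam e ∧ sgn (g.site e) = g.ε * sgn e) : btM ∈ CG N g := by
  refine ⟨fun a => rfl, ?_⟩
  intro a ha
  obtain ⟨-, h1⟩ := hg a.e ha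
  change btFun 1 (g • a) = g • btFun 1 a
  have h2 : (g • a).e = g.site a.e := rfl
  have h3 : (g • a).m = 0 ↔ a.m = 0 := by
    rw [smul_m]
    rcases Int.units_eq_one_or g.ε with h4 | h4 <;> simp [h4]
  ext
  · rfl
  · rfl
  · rw [smul_l]
    simp only [btFun]
    rw [h2, h1, smul_l]
    by_cases h4 : a.m = 0
    · rw [if_pos h4, if_pos (h3.2 h4)]
      push_cast
      ring
    · rw [if_neg h4, if_neg (fun h => h4 (h3.1 h))]
  · rfl
  · rfl

theorem pw_mem {G : Type} [Group G] (H : Subgroup G) (f : G) (hf : f ∈ H) (d : Bool) : pw f d ∈ H := by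
  unfold pw
  split_ifs
  · exact hf
  · exact H.inv_mem hf

theorem Zsh_mem {N : ℕ} {g : Iso2}
    (hg : ∀ e, lam e < N → lam (g.site e) = lam e ∧ sgn (g.site e) = g.ε * sgn e) (m l : ℤ) : Zsh m l ∈ CG N g := by
  unfold Zsh
  exact (CG N g).mul_mem ((CG N g).zpow_mem (sgM_mem hg) _) ((CG N g).zpow_mem (btM_mem hg) _)

theorem om_smul (g : Iso2) (ht : Even g.t) (d : Bool) (x : X) :
    lift (pw omM d) (g • x) = g • lift (pw omM d) x := by
  rw [X.ext_iff']
  refine ⟨?_, ?_⟩
  · rw [top_lift, top_smul, top_smul, top_lift]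
    unfold pw
    split_ifs
    · exact (omM_spec.equi g ht _).symm
    · change omM.1⁻¹ (g • top x) = g • omM.1⁻¹ (top x)
      apply omM.1.injective
      rw [show omM.1 (omM.1⁻¹ (g • top x)) = g • top x from omM.1.apply_symm_apply _]
      rw [← omM_spec.equi g ht]
      rw [show omM.1 (omM.1⁻¹ (top x)) = top x from omM.1.apply_symm_apply _]
  · rw [tail_lift, tail_smul, tail_smul, tail_lift]

end E3

theorem Ev.sym {P : ℤ → Content} {N : ℕ} (hP : WellP P) (g : Iso2) (ht : Even g.t)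
    (hg : ∀ e, lam e < N → lam (g.site e) = lam e ∧ sgn (g.site e) = g.ε * sgn e)
    {l : List Atom} {x y : X} (h : Ev P N l x y) : Ev P N (l.map (Atom.smul g)) (g • x) (g • y) := by
  induction h with
  | nil x => exact Ev.nil _
  | sg d l x y h1 _ ih =>
    apply Ev.sg
    · rw [site_smul, (hg _ h1).1]; exact h1
    · rw [E3.lift_smul (E3.pw_mem _ _ (E3.sgM_mem hg) d) x h1]
      exact ih
  | bt d l x y h1 _ ih =>
    apply Ev.bt
    · rw [site_smul, (hg _ h1).1]; exact h1
    · rw [E3.lift_smul (E3.pw_mem _ _ (E3.btM_mem hg) d) x h1]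
      exact ih
  | om d l x y _ ih =>
    apply Ev.om
    rw [E3.om_smul g ht]
    exact ih
  | pi_off d l x y h1 h2 _ ih =>
    apply Ev.pi_off
    · rw [site_smul, (hg _ h1).1]; exact h1
    · rw [E3.stdl_smul g x (hg _ h1).2]; exact h2
    · exact ih
  | pi_on d l x y y' h1 h2 h3 _ ih1 ih2 =>
    have hs := (hg _ h1).2
    have hx0 : site (lift (Zsh (stdm x) (stdl x))⁻¹ x) = site x := by
      have := ((E3.CG N g).inv_mem (E3.Zsh_mem hg (stdm x) (stdl x))).1 (top x)
      exact this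
    have hy' : site y' = site x := by
      have := (Ev.cont_zone hP h3).1
      rw [← hx0]
      exact this
    refine Ev.pi_on d (l.map (Atom.smul g)) (g • x) (g • y) (g • y') ?_ ?_ ?_ ?_
    · rw [site_smul, (hg _ h1).1]; exact h1
    · rw [E3.stdl_smul g x hs]; exact h2
    · rw [E3.stdl_smul g x hs, E3.stdm_smul g x hs,
        E3.lift_smul ((E3.CG N g).inv_mem (E3.Zsh_mem hg (stdm x) (stdl x))) x h1]
      exact ih1
    · rw [E3.stdl_smul g x hs, E3.stdm_smul g x hs, E3.lift_smul (E3.Zsh_mem hg (stdm x) (stdl x)) y' (by rw [hy']; exact h1)]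
      exact ih2
  | cont_out j d l x y h1 _ ih =>
    apply Ev.cont_out
    · rw [InU_smul]; exact h1
    · exact ih
  | cont_off j d l x y h1 h2 h3 h4 _ ih =>
    apply Ev.cont_off
    · rw [InU_smul]; exact h1
    · rw [site_smul, (hg _ h2).1]; exact h2
    · exact h3
    · rw [site_smul, (hg _ h2).1]; exact h4
    · exact ih
  | cont_fix j d l x y γ lev φ h1 h2 h3 h4 h5 _ ih =>
    apply Ev.cont_fix j d (l.map (Atom.smul g)) (g • x) (g • y) γ lev φ
    · rw [InU_smul]; exact h1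
    · rw [site_smul, (hg _ h2).1]; exact h2
    · exact h3
    · exact h4
    · rw [site_smul, (hg _ h2).1]; exact h5
    · rw [site_smul, at_smul _ g _ (hg _ h2).2]
      exact ih
  | cont_miss j d l x y k b n z w r ell h1 h2 h3 h4 h5 h6 _ ih =>
    apply Ev.cont_miss j d (l.map (Atom.smul g)) (g • x) (g • y) k b n z w r ell
    · rw [InU_smul]; exact h1
    · rw [site_smul, (hg _ h2).1]; exact h2
    · exact h3
    · exact h4
    · rw [site_smul, (hg _ h2).1]; exact h5
    · rw [site_smul, top_smul, E3.R_site g _ (hg _ h2).2, mul_smul]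
      intro h7
      exact h6 ((MulAction.injective g) h7)
    · exact ih
  | cont_exec j d l x y k b n z w r ell h ξ η h1 h2 h3 h4 h5 h6 h7 _ _ ih1 ih2 =>
    have hh : col (top (g • x)) ≠ none := by rw [top_smul, col_smul]; exact h
    refine Ev.cont_exec j d (l.map (Atom.smul g)) (g • x) (g • y) k b n z w r ell hh (g • ξ) (g • η) ?_ ?_ h3 h4 ?_ ?_ ?_ ?_ ?_
    · rw [InU_smul]; exact h1
    · rw [site_smul, (hg _ h2).1]; exact h2
    · rw [site_smul, (hg _ h2).1]; exact h5
    · rw [site_smul, top_smul, E3.R_site g _ (hg _ h2).2, mul_smul, ← h6]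
    · have e1 : g • x = g • cons (top x) h ξ := by rw [← h7]
      have e2 : cons (top (g • x)) hh (g • ξ) = g • cons (top x) h ξ := by
        rw [smul_cons]
        apply Subtype.ext
        change top (g • x) :: (g • ξ).1 = (g • top x) :: (g • ξ).1
        rw [top_smul]
      rw [e2]
      exact e1
    · rw [List.map_replicate] at ih1
      rw [site_smul]
      exact ih1
    · have e2 : cons (top (g • x)) hh (g • η) = g • cons (top x) h η := by
        rw [smul_cons]
        apply Subtype.ext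
        change top (g • x) :: (g • η).1 = (g • top x) :: (g • η).1
        rw [top_smul]
      rw [e2]
      exact ih2
  | step_out w n ell c d l x y h1 h2 _ ih =>
    rcases Int.units_eq_one_or g.ε with hε | hε
    · exact Ev.step_out w n ell (g.site c) d _ _ _ (by rw [E3.Vp_pos g hε]; exact h1)
        (by rw [E3.Vm_pos g hε]; exact h2) ih
    · exact Ev.step_out w n ell (g.site c) d _ _ _ (by rw [E3.Vp_neg g hε]; exact h2)
        (by rw [E3.Vm_neg g hε]; exact h1) ih
  | step_up w n ell c d l x x' y h1 h2 h3 h4 _ ih1 ih2 =>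
    have ih1' : Ev P N (w.dir d).atoms (g • x) (g • x') := by
      have e : (w.dir d).atoms.map (Atom.smul g) = (w.dir d).atoms := by
        unfold Word.atoms
        rw [List.map_map]
        apply List.map_congr_left
        intro p _
        rfl
      rwa [e] at ih1
    rcases Int.units_eq_one_or g.ε with hε | hε
    · exact Ev.step_up w n ell (g.site c) d _ _ (g • x') _ ih1' ((smul_lt_pos g hε _ _).2 h2)
        (by rw [E3.Vup_pos g hε]; exact h3) (by rw [E3.Vup_pos g hε]; exact h4) ih2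
    · exact Ev.step_dn w n ell (g.site c) d _ _ (g • x') _ ih1' ((smul_lt_neg g hε _ _).2 h2)
        (by rw [E3.Vdn_neg g hε]; exact h3) (by rw [E3.Vdn_neg g hε]; exact h4) ih2
  | step_dn w n ell c d l x x' y h1 h2 h3 h4 _ ih1 ih2 =>
    have ih1' : Ev P N (w.dir d).atoms (g • x) (g • x') := by
      have e : (w.dir d).atoms.map (Atom.smul g) = (w.dir d).atoms := by
        unfold Word.atoms
        rw [List.map_map]
        apply List.map_congr_left
        intro p _
        rfl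
      rwa [e] at ih1
    rcases Int.units_eq_one_or g.ε with hε | hε
    · exact Ev.step_dn w n ell (g.site c) d _ _ (g • x') _ ih1' ((smul_lt_pos g hε _ _).2 h2)
        (by rw [E3.Vdn_pos g hε]; exact h3) (by rw [E3.Vdn_pos g hε]; exact h4) ih2
    · exact Ev.step_up w n ell (g.site c) d _ _ (g • x') _ ih1' ((smul_lt_neg g hε _ _).2 h2)
        (by rw [E3.Vup_neg g hε]; exact h3) (by rw [E3.Vup_neg g hε]; exact h4) ih2
  | step_not w n ell c d l x x' x'' y h1 h2 h3 h4 h5 h6 _ ih1 ih2 ih3 =>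
    have e : ∀ d, (w.dir d).atoms.map (Atom.smul g) = (w.dir d).atoms := by
      intro d
      unfold Word.atoms
      rw [List.map_map]
      apply List.map_congr_left
      intro p _
      rfl
    rw [e] at ih1 ih2
    rcases Int.units_eq_one_or g.ε with hε | hε
    · exact Ev.step_not w n ell (g.site c) d _ _ (g • x') (g • x'') _ ih1 ih2
        (by rw [E3.Vup_pos g hε, smul_lt_pos g hε]; exact h3) (by rw [E3.Vdn_pos g hε, smul_lt_pos g hε]; exact h4)
        (by rw [E3.Vup_pos g hε, smul_lt_pos g hε]; exact h5) (by rw [E3.Vdn_pos g hε, smul_lt_pos g hε]; exact h6) ih3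
    · exact Ev.step_not w n ell (g.site c) d _ _ (g • x') (g • x'') _ ih1 ih2
        (by rw [E3.Vup_neg g hε, smul_lt_neg g hε]; exact h4) (by rw [E3.Vdn_neg g hε, smul_lt_neg g hε]; exact h3)
        (by rw [E3.Vup_neg g hε, smul_lt_neg g hε]; exact h6) (by rw [E3.Vdn_neg g hε, smul_lt_neg g hε]; exact h5) ih3

end

end Pool.Agent.helper261_navas
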