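import Pool.Agent.helper261_navas.EvDef
import Pool.Agent.helper261_navas.PrL
import Pool.Agent.helper261_navas.PrO
import Pool.Agent.helper261_navas.PrX
import Pool.Agent.helper261_navas.PrE1
import Pool.Agent.helper261_navas.PrE2
import Pool.Agent.helper261_navas.PrE3
import Pool.Agent.helper261_navas.PrE5
import Pool.Agent.helper261_navas.PrA
import Pool.Agent.helper261_navas.PrB

set_option autoImplicit false

namespace Pool.Agent.helper261_navas

open Classical

noncomputable section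

/-! # S: the sequential choice -/

namespace S

theorem atoms_smul (g : Iso2) (w : Word) : w.atoms.map (Atom.smul g) = w.atoms := by
  unfold Word.atoms
  rw [List.map_map]
  apply List.map_congr_left
  intro p _
  rfl

theorem invl_inv_atoms (w : Word) : invl (w.inv).atoms = w.atoms := by
  unfold invl Word.inv Word.atoms
  simp [List.map_reverse, Function.comp_def, Atom.inv]

theorem total_word {P : ℤ → Content} {sc rho : ℕ → ℕ} (hP : ValidP P sc rho) (w : Word) :
    ∀ x : X, ∃ N y, Ev P N w.atoms x y := by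
  induction w with
  | nil => exact fun x => ⟨0, x, Ev.nil x⟩
  | cons p w ih =>
    intro x
    obtain ⟨N1, y, h1⟩ := Ev.total hP p.1 p.2 x
    obtain ⟨N2, z, h2⟩ := ih y
    exact ⟨max N1 N2, z, Ev.append (l := [Atom.lt p.1 p.2]) (h1.bound (le_max_left _ _))
      (h2.bound (le_max_right _ _))⟩

/-- isometries that preserve the landscape below level `N` -/
def Sym (N : ℕ) (g : Iso2) : Prop :=
  Even g.t ∧ ∀ e, lam e < N → lam (g.site e) = lam e ∧ sgn (g.site e) = g.ε * sgn e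

theorem sym_translate (N : ℕ) (t : ℤ) (h : (2 : ℤ) ^ (N + 1) ∣ t) : Sym N ⟨1, t⟩ := by
  refine ⟨?_, ?_⟩
  · exact (even_iff_two_dvd).2 (dvd_trans (dvd_pow_self 2 (Nat.succ_ne_zero N)) h)
  · intro e he
    have h1 : (⟨1, t⟩ : Iso2).site e = e + t := by simp [Iso2.site]
    rw [h1]
    refine ⟨lam_translate e t (dvd_trans (pow_dvd_pow 2 (by omega)) h), ?_⟩
    rw [sgn_translate e t (dvd_trans (pow_dvd_pow 2 (by omega)) h)]
    simp

theorem sym_reflect (N : ℕ) (p : ℤ) (h : N ≤ lam p) : Sym N ⟨-1, 2 * p⟩ := by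
  refine ⟨even_two_mul p, ?_⟩
  intro e he
  have h1 : (⟨-1, 2 * p⟩ : Iso2).site e = 2 * p - e := by
    simp [Iso2.site]; ring
  rw [h1]
  refine ⟨lam_reflect p e (lt_of_lt_of_le he h), ?_⟩
  rw [sgn_reflect p e (lt_of_lt_of_le he h)]
  simp

theorem sym_mul (N : ℕ) (g h : Iso2) (hg : Sym N g) (hh : Sym N h) : Sym N (g * h) := by
  refine ⟨?_, ?_⟩
  · rw [Iso2.mul_t]
    exact hg.1.add (hh.1.mul_left _)
  · intro e he
    have h1 : (g * h).site e = g.site (h.site e) := by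
      simp only [Iso2.site, Iso2.mul_t, Iso2.mul_ε]
      push_cast
      ring
    obtain ⟨h2, h3⟩ := hh.2 e he
    obtain ⟨h4, h5⟩ := hg.2 (h.site e) (by omega)
    rw [h1]
    refine ⟨by omega, ?_⟩
    rw [h5, h3, Iso2.mul_ε, mul_assoc]

/-- the word moves `x` down -/
def Dn (P : ℤ → Content) (N : ℕ) (w : Word) (x : X) : Prop :=
  ∃ y z, Ev P N w.atoms x y ∧ Ev P N w.inv.atoms x z ∧ y < x ∧ x < z

/-- the word moves `x` up -/
def Up (P : ℤ → Content) (N : ℕ) (w : Word) (x : X) : Prop :=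
  ∃ y z, Ev P N w.atoms x y ∧ Ev P N w.inv.atoms x z ∧ x < y ∧ z < x

theorem ev_word_smul {P : ℤ → Content} {N : ℕ} (hP : WellP P) {g : Iso2} (hg : Sym N g) {w : Word} {x y : X}
    (h : Ev P N w.atoms x y) : Ev P N w.atoms (g • x) (g • y) := by
  have := Ev.sym hP g hg.1 hg.2 h
  rwa [atoms_smul] at this

theorem Dn_pos {P : ℤ → Content} {N : ℕ} (hP : WellP P) {g : Iso2} (hg : Sym N g) (h1 : g.ε = 1) {w : Word} {x : X}
    (h : Dn P N w x) : Dn P N w (g • x) := by
  obtain ⟨y, z, a, b, c, d⟩ := h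
  exact ⟨g • y, g • z, ev_word_smul hP hg a, ev_word_smul hP hg b, (smul_lt_pos g h1 _ _).2 c,
    (smul_lt_pos g h1 _ _).2 d⟩

theorem Up_pos {P : ℤ → Content} {N : ℕ} (hP : WellP P) {g : Iso2} (hg : Sym N g) (h1 : g.ε = 1) {w : Word} {x : X}
    (h : Up P N w x) : Up P N w (g • x) := by
  obtain ⟨y, z, a, b, c, d⟩ := h
  exact ⟨g • y, g • z, ev_word_smul hP hg a, ev_word_smul hP hg b, (smul_lt_pos g h1 _ _).2 c,
    (smul_lt_pos g h1 _ _).2 d⟩

theorem Dn_neg {P : ℤ → Content} {N : ℕ} (hP : WellP P) {g : Iso2} (hg : Sym N g) (h1 : g.ε = -1) {w : Word} {x : X}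
    (h : Dn P N w x) : Up P N w (g • x) := by
  obtain ⟨y, z, a, b, c, d⟩ := h
  exact ⟨g • y, g • z, ev_word_smul hP hg a, ev_word_smul hP hg b, (smul_lt_neg g h1 _ _).2 c,
    (smul_lt_neg g h1 _ _).2 d⟩

theorem Up_neg {P : ℤ → Content} {N : ℕ} (hP : WellP P) {g : Iso2} (hg : Sym N g) (h1 : g.ε = -1) {w : Word} {x : X}
    (h : Up P N w x) : Dn P N w (g • x) := by
  obtain ⟨y, z, a, b, c, d⟩ := h
  exact ⟨g • y, g • z, ev_word_smul hP hg a, ev_word_smul hP hg b, (smul_lt_neg g h1 _ _).2 c,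
    (smul_lt_neg g h1 _ _).2 d⟩

/-- a nontrivial evaluation gives a moved point -/
theorem exists_moved {P : ℤ → Content} {sc rho : ℕ → ℕ} (hP : ValidP P sc rho) {w : Word}
    (h : ∃ N x y, Ev P N w.atoms x y ∧ y ≠ x) : ∃ N x, Dn P N w x ∨ Up P N w x := by
  obtain ⟨N1, x, y, h1, hne⟩ := h
  obtain ⟨N2, z, h2⟩ := total_word hP w.inv x
  have h1' := h1.bound (le_max_left N1 N2)
  have h2' := h2.bound (le_max_right N1 N2)
  have h3 := Ev.inv hP.wellP h2'
  rw [invl_inv_atoms] at h3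
  refine ⟨max N1 N2, x, ?_⟩
  have c1 := Ev.cmp hP.wellP h3 h1'
  have c2 := Ev.cmp hP.wellP h1' h3
  rcases lt_or_gt_of_ne hne with h4 | h4
  · left
    refine ⟨y, z, h1', h2', h4, ?_⟩
    rcases lt_trichotomy x z with h5 | h5 | h5
    · exact h5
    · exact absurd (c2.2 h5) (by exact hne)
    · exact absurd (c1.1 h5) (not_lt.2 h4.le)
  · right
    refine ⟨y, z, h1', h2', h4, ?_⟩
    rcases lt_trichotomy x z with h5 | h5 | h5
    · exact absurd (c2.1 h5) (not_lt.2 (le_of_lt h4))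
    · exact absurd (c2.2 h5) hne
    · exact h5

theorem wit_of_Dn {P : ℤ → Content} {N : ℕ} (hP : WellP P) {w : Word} {n : ℕ} {ell : X} (hN : N ≤ n) (q0 : ℤ) (hq0 : lam q0 = n)
    (h : Dn P N w (BL ell q0)) : Wit P N w n ell := by
  intro q hq
  have hdvd : (2 : ℤ) ^ (n + 1) ∣ q - q0 := dvd_sub_of_lam_eq n q0 q hq0 hq
  have hT : Sym N ⟨1, q - q0⟩ := sym_translate N _ (dvd_trans (pow_dvd_pow 2 (by omega)) hdvd)
  have e1 : BL ell q = (⟨1, q - q0⟩ : Iso2) • BL ell q0 := by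
    unfold BL
    rw [← mul_smul]
    congr 1
    ext
    · simp [Iso2.mul_ε]
    · simp [Iso2.mul_t]
  have e2 : BR ell q = ((⟨1, q - q0⟩ : Iso2) * (⟨-1, 2 * q0⟩ : Iso2)) • BL ell q0 := by
    unfold BL BR
    rw [← mul_smul, ← mul_smul]
    congr 1
    ext
    · simp [Iso2.mul_ε]
    · simp [Iso2.mul_t, Iso2.mul_ε]; ring
  have hD : Dn P N w (BL ell q) := by
    rw [e1]
    exact Dn_pos hP hT rfl h
  have hU : Up P N w (BR ell q) := by
    rw [e2]
    exact Dn_neg hP (sym_mul N _ _ hT (sym_reflect N q0 (by omega))) (by simp [Iso2.mul_ε]) h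
  obtain ⟨y, z, a, b, c, d⟩ := hD
  obtain ⟨y', z', a', b', c', d'⟩ := hU
  exact ⟨⟨y, a, c⟩, ⟨z, b, d⟩, ⟨y', a', c'⟩, ⟨z', b', d'⟩⟩

theorem exists_near (N n : ℕ) (hN : N ≤ n) (x : X) : ∃ (q0 : ℤ) (g : Iso2), lam q0 = n ∧ Sym N g ∧
    |site (g • x) - q0| ≤ 2 ^ N := by
  obtain ⟨p0, -, hp0⟩ := exists_lam_eq N 0
  obtain ⟨q0, -, hq0⟩ := exists_lam_eq n 0
  have hpos : (0 : ℤ) < 2 ^ N := by positivity
  set a := (site x - p0) / 2 ^ N with ha
  set p := p0 + 2 ^ N * a with hp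
  have hpl : N ≤ lam p := (le_lam_add_iff N p0 _ (Dvd.intro _ rfl)).2 hp0.ge
  have hx1 : p ≤ site x := by
    have := Int.emod_add_mul_ediv (site x - p0) (2 ^ N)
    have h2 := Int.emod_nonneg (site x - p0) hpos.ne'
    rw [← ha] at this
    linarith
  have hx2 : site x < p + 2 ^ N := by
    have := Int.emod_add_mul_ediv (site x - p0) (2 ^ N)
    have h2 := Int.emod_lt_of_pos (site x - p0) hpos
    rw [← ha] at this
    linarith
  obtain ⟨c, hc⟩ := dvd_sub_of_le_lam N p q0 hpl (by omega)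
  rcases Int.even_or_odd c with he | ho
  · refine ⟨q0, ⟨1, q0 - p⟩, hq0, sym_translate N _ ?_, ?_⟩
    · obtain ⟨d, hd⟩ := he
      refine ⟨d, ?_⟩
      rw [hc, hd, pow_succ]; ring
    · rw [site_smul]
      simp only [Iso2.site]
      have h1 : (((1 : ℤˣ) : ℤ) * site x + (q0 - p)) - q0 = site x - p := by
        simp
        ring
      rw [h1, abs_le]
      constructor <;> linarith
  · obtain ⟨d, hd⟩ := ho
    refine ⟨q0, ⟨-1, 2 * (p + 2 ^ N * (d + 1))⟩, hq0, sym_reflect N _ ?_, ?_⟩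
    · exact (le_lam_add_iff N p _ (Dvd.intro _ rfl)).2 hpl
    · rw [site_smul]
      simp only [Iso2.site]
      have h1 : ((((-1 : ℤˣ)) : ℤ) * site x + (2 * (p + 2 ^ N * (d + 1)))) - q0 = p + 2 ^ N - site x := by
        have h2 : q0 = p + 2 ^ N * (2 * d + 1) := by
          rw [← hd]; linarith
        rw [h2]
        simp
        ring
      rw [h1, abs_le]
      constructor <;> linarith

theorem exists_ell {P : ℤ → Content} {N : ℕ} (hP : WellP P) {w : Word} {x : X} (h : Dn P N w x ∨ Up P N w x) (n : ℕ) (hN : N ≤ n) :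
    ∃ ell : X, |site ell| ≤ 2 ^ N ∧ Wit P N w n ell := by
  obtain ⟨q0, g, hq0, hg, hs⟩ := exists_near N n hN x
  have h' : Dn P N w (g • x) ∨ Up P N w (g • x) := by
    rcases Int.units_eq_one_or g.ε with h1 | h1
    · rcases h with h | h
      · exact Or.inl (Dn_pos hP hg h1 h)
      · exact Or.inr (Up_pos hP hg h1 h)
    · rcases h with h | h
      · exact Or.inr (Dn_neg hP hg h1 h)
      · exact Or.inl (Up_neg hP hg h1 h)
  rcases h' with h' | h'
  · refine ⟨(⟨1, -q0⟩ : Iso2) • (g • x), ?_, wit_of_Dn hP hN q0 hq0 ?_⟩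
    · rw [site_smul]
      simp only [Iso2.site]
      have : (((1 : ℤˣ) : ℤ) * site (g • x) + -q0) = site (g • x) - q0 := by simp; ring
      rw [this]
      exact hs
    · have : BL ((⟨1, -q0⟩ : Iso2) • (g • x)) q0 = g • x := by
        unfold BL
        rw [← mul_smul]
        have h1 : (⟨1, q0⟩ : Iso2) * ⟨1, -q0⟩ = 1 := by
          ext
          · simp [Iso2.mul_ε, Iso2.one_ε]
          · simp [Iso2.mul_t, Iso2.one_t]
        rw [h1, one_smul]
      rw [this]
      exact h'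
  · refine ⟨(⟨-1, q0⟩ : Iso2) • (g • x), ?_, wit_of_Dn hP hN q0 hq0 ?_⟩
    · rw [site_smul]
      simp only [Iso2.site]
      have : ((((-1 : ℤˣ)) : ℤ) * site (g • x) + q0) = -(site (g • x) - q0) := by simp; ring
      rw [this, abs_neg]
      exact hs
    · have : BL ((⟨-1, q0⟩ : Iso2) • (g • x)) q0 = (⟨-1, 2 * q0⟩ : Iso2) • (g • x) := by
        unfold BL
        rw [← mul_smul]
        congr 1
        ext
        · simp [Iso2.mul_ε]
        · simp [Iso2.mul_t]; ring
      rw [this]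
      exact Up_neg hP (sym_reflect N q0 (by omega)) rfl h'

theorem suppU_cZero : SuppU cZero := by
  intro x hx
  unfold cZero
  rw [lift_apply, X.ext_iff']
  refine ⟨?_, tail_liftFun _ _⟩
  rw [top_liftFun]
  change cFun (fun e => e = 0) 1 (top x) = top x
  unfold cFun
  have : ¬ ((top x).m = 0 ∧ (top x).l = 0 ∧ (top x).e = 0) := by
    intro h
    exact hx ⟨⟨h.1, h.2.1⟩, h.2.2⟩
  rw [if_neg this]

theorem Wit_bound {P : ℤ → Content} {N N' : ℕ} (hN : N ≤ N') {w : Word} {n : ℕ} {ell : X} (h : Wit P N w n ell) :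
    Wit P N' w n ell := by
  intro q hq
  obtain ⟨⟨y1, a1, b1⟩, ⟨y2, a2, b2⟩, ⟨y3, a3, b3⟩, ⟨y4, a4, b4⟩⟩ := h q hq
  exact ⟨⟨y1, a1.bound hN, b1⟩, ⟨y2, a2.bound hN, b2⟩, ⟨y3, a3.bound hN, b3⟩, ⟨y4, a4.bound hN, b4⟩⟩

theorem Wit_persist {P P' : ℤ → Content} {N : ℕ} (hP : ∀ j : ℤ, j < N → P j = P' j) {w : Word} {n : ℕ} {ell : X}
    (h : Wit P N w n ell) : Wit P' N w n ell := by
  intro q hq
  obtain ⟨⟨y1, a1, b1⟩, ⟨y2, a2, b2⟩, ⟨y3, a3, b3⟩, ⟨y4, a4, b4⟩⟩ := h q hq
  exact ⟨⟨y1, a1.persist hP, b1⟩, ⟨y2, a2.persist hP, b2⟩, ⟨y3, a3.persist hP, b3⟩, ⟨y4, a4.persist hP, b4⟩⟩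

end S

theorem stage_zero : ∃ P sc rho, Stage P sc rho 0 0 := by
  have hbase : ∀ v : ℕ, (-1 - (v : ℤ)) < 0 := by intro v; omega
  refine ⟨fun j => if j < 0 then .fix none (fun u => (-1 - j).toNat ≤ u) cZero else .none, fun _ => 0, fun _ => 0,
    ⟨?_, ?_, ?_, ?_⟩, ?_, ?_, ?_⟩
  · exact monotone_const
  · intro v
    rw [if_pos (hbase v)]
    have : (-1 - (-1 - (v : ℤ))).toNat = v := by
      have : (-1 - (-1 - (v : ℤ))) = v := by ring
      rw [this]
      exact Int.toNat_natCast v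
    rw [this]
  · intro j k b n z w r ell h
    split_ifs at h
  · intro j γ lev φ h
    split_ifs at h with hj
    injection h with h1 h2 h3
    subst h1
    subst h3
    refine ⟨S.suppU_cZero, ?_, ?_⟩
    · intro _ x
      exact colors_lift _ _
    · intro k b h4
      exact absurd h4 (by simp)
  · intro j hj
    rw [if_neg]
    push_cast at hj
    omega
  · intro j k' b n z w r ell h
    split_ifs at h
  · intro j k' b lev φ h
    split_ifs at h
    injection h with h1 h2 h3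
    exact absurd h1 (by simp)

/-- adding one task -/
theorem stage_succ (P : ℤ → Content) (sc rho : ℕ → ℕ) (k J : ℕ) (h : Stage P sc rho k J) (w : Word) (K : ℕ) :
    ∃ (P' : ℤ → Content) (sc' rho' : ℕ → ℕ) (J' : ℕ), Stage P' sc' rho' (k + 1) J' ∧ J < J' ∧
      (∀ j : ℤ, j < J → P' j = P j) ∧ (∀ i, i < k → sc' i = sc i ∧ rho' i = rho i) ∧
      ((∃ N x y, Ev P N w.atoms x y ∧ y ≠ x) → ∃ (t : Word) (r : ℕ), K * t.length ≤ r ∧ 1 ≤ r ∧
        ∀ (P'' : ℤ → Content) (sc'' rho'' : ℕ → ℕ) (L : Letter → (X ≃o X)), ValidP P'' sc'' rho'' → IsAct P'' L →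
          (∀ j : ℤ, j < J' → P'' j = P' j) → val L t = (val L w) ^ r) := by
  by_cases hw : ∃ N x y, Ev P N w.atoms x y ∧ y ≠ x
  swap
  · refine ⟨P, sc, rho, J + 1, ⟨h.valid, ?_, ?_, ?_⟩, Nat.lt_succ_self J, fun _ _ => rfl, fun _ _ => ⟨rfl, rfl⟩,
      fun h' => absurd h' hw⟩
    · intro j hj
      apply h.triv
      push_cast at hj
      omega
    · intro j k' b n z w' r ell h1
      obtain ⟨h2, h3⟩ := h.exec_lt j k' b n z w' r ell h1
      exact ⟨Nat.lt_succ_of_lt h2, S.Wit_bound (Nat.le_succ J) h3⟩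
    · intro j k' b lev φ h1
      exact Nat.lt_succ_of_lt (h.fix_lt j k' b lev φ h1)
  obtain ⟨N, x, hx⟩ := S.exists_moved h.valid hw
  -- the scale
  obtain ⟨n, hnN, hnk, hn⟩ : ∃ n : ℕ, N ≤ n ∧ sc k ≤ n ∧ 2 ^ N + w.length + 1 < 2 ^ n := by
    obtain ⟨m, hm⟩ := pow_unbounded_of_one_lt (2 ^ N + w.length + 1) (show (1 : ℕ) < 2 by norm_num)
    refine ⟨max N (max (sc k) m), le_max_left _ _, le_trans (le_max_left _ _) (le_max_right _ _), ?_⟩
    exact lt_of_lt_of_le hm (Nat.pow_le_pow_right (by norm_num)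
      (le_trans (le_max_right _ _) (le_max_right _ _)))
  obtain ⟨ell, hell, hwit⟩ := S.exists_ell h.valid.wellP hx n hnN
  have hnZ : (2 : ℤ) ^ N + w.length + 1 < 2 ^ n := by exact_mod_cast hn
  have hW : (2 : ℤ) ^ n + 2 ^ N + 1 < 2 ^ (n + 1) := by
    have : (0 : ℤ) ≤ w.length := Int.natCast_nonneg _
    rw [pow_succ]; linarith
  set j0 : ℕ := max J N with hj0
  have hJ0 : J ≤ j0 := le_max_left _ _
  have hN0 : N ≤ j0 := le_max_right _ _
  obtain ⟨φ, z, t, hφz, hrel⟩ := exists_relation k n (2 ^ n + 2 ^ N) hW (j0 : ℤ)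
  set r : ℕ := K * t.length + 1 with hr
  set P' : ℤ → Content := fun j =>
    if j = j0 then .fix (some (k, false)) (cls true n) (φ false)
    else if j = j0 + 1 then .fix (some (k, true)) (cls false n) (φ true)
    else if j = j0 + 2 then .exec k false n (z false) w r ell
    else if j = j0 + 3 then .exec k true n (z true) w r ell
    else P j with hP'
  have hlt : ∀ j : ℤ, j < j0 → P' j = P j := by
    intro j hj
    simp only [hP']
    rw [if_neg (by omega), if_neg (by omega), if_neg (by omega), if_neg (by omega)]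
  have h0 : P' j0 = .fix (some (k, false)) (cls true n) (φ false) := by
    simp only [hP']
    rw [if_pos trivial]
  have h1 : P' (j0 + 1) = .fix (some (k, true)) (cls false n) (φ true) := by
    simp only [hP']
    rw [if_neg (by omega), if_pos trivial]
  have h2 : P' (j0 + 2) = .exec k false n (z false) w r ell := by
    simp only [hP']
    rw [if_neg (by omega), if_neg (by omega), if_pos trivial]
  have h3 : P' (j0 + 3) = .exec k true n (z true) w r ell := by
    simp only [hP']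
    rw [if_neg (by omega), if_neg (by omega), if_neg (by omega), if_pos trivial]
  have h4 : ∀ j : ℤ, j0 + 4 ≤ j → P' j = P j := by
    intro j hj
    simp only [hP']
    rw [if_neg (by omega), if_neg (by omega), if_neg (by omega), if_neg (by omega)]
  have hcases : ∀ j : ℤ, j = j0 ∨ j = j0 + 1 ∨ j = j0 + 2 ∨ j = j0 + 3 ∨ P' j = P j := by
    intro j
    rcases lt_or_ge j j0 with h5 | h5
    · exact Or.inr (Or.inr (Or.inr (Or.inr (hlt j h5))))
    · rcases lt_or_ge j (j0 + 4) with h6 | h6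
      · rcases (show j = j0 ∨ j = j0 + 1 ∨ j = j0 + 2 ∨ j = j0 + 3 by omega) with h7 | h7 | h7 | h7
        · exact Or.inl h7
        · exact Or.inr (Or.inl h7)
        · exact Or.inr (Or.inr (Or.inl h7))
        · exact Or.inr (Or.inr (Or.inr (Or.inl h7)))
      · exact Or.inr (Or.inr (Or.inr (Or.inr (h4 j h6))))
  have hPJ : ∀ j : ℤ, j < J → P j = P' j := fun j hj => (hlt j (by omega)).symm
  have hPN : ∀ j : ℤ, j < N → P j = P' j := fun j hj => (hlt j (by omega)).symm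
  have hwit2 : Wit P' (j0 + 4) w n ell := S.Wit_bound (by omega) (S.Wit_persist hPN hwit)
  -- classification of the exec contents
  have hex : ∀ j k' b n' z' w' r' ell', P' j = .exec k' b n' z' w' r' ell' →
      (k' = k ∧ n' = n ∧ z' = z b ∧ w' = w ∧ ell' = ell) ∨ (k' < k ∧ P j = .exec k' b n' z' w' r' ell') := by
    intro j k' b n' z' w' r' ell' hj
    rcases hcases j with h5 | h5 | h5 | h5 | h5
    · rw [h5, h0] at hj; exact absurd hj (by simp)
    · rw [h5, h1] at hj; exact absurd hj (by simp)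
    · rw [h5, h2] at hj
      injection hj with a1 a2 a3 a4 a5 a6 a7
      subst a2
      exact Or.inl ⟨a1.symm, a3.symm, a4.symm, a5.symm, a7.symm⟩
    · rw [h5, h3] at hj
      injection hj with a1 a2 a3 a4 a5 a6 a7
      subst a2
      exact Or.inl ⟨a1.symm, a3.symm, a4.symm, a5.symm, a7.symm⟩
    · rw [h5] at hj
      exact Or.inr ⟨(h.exec_lt _ _ _ _ _ _ _ _ hj).1, hj⟩
  have hfx : ∀ j γ lev ψ, P' j = .fix γ lev ψ →
      (∃ b, γ = some (k, b) ∧ lev = cls (!b) n ∧ ψ = φ b) ∨ ((∀ k' b, γ = some (k', b) → k' < k) ∧ P j = .fix γ lev ψ) := by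
    intro j γ lev ψ hj
    rcases hcases j with h5 | h5 | h5 | h5 | h5
    · rw [h5, h0] at hj
      injection hj with a1 a2 a3
      exact Or.inl ⟨false, a1.symm, a2.symm, a3.symm⟩
    · rw [h5, h1] at hj
      injection hj with a1 a2 a3
      exact Or.inl ⟨true, a1.symm, a2.symm, a3.symm⟩
    · rw [h5, h2] at hj; exact absurd hj (by simp)
    · rw [h5, h3] at hj; exact absurd hj (by simp)
    · rw [h5] at hj
      refine Or.inr ⟨?_, hj⟩
      intro k' b hγ
      subst hγ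
      exact h.fix_lt _ _ _ _ _ hj
  refine ⟨P', fun i => if i < k then sc i else n, fun i => if i < k then rho i else 2 ^ n + 2 ^ N + w.length, j0 + 4,
    ⟨⟨?_, ?_, ?_, ?_⟩, ?_, ?_, ?_⟩, ?_, ?_, ?_, ?_⟩
  · -- monotone
    intro a b hab
    simp only
    split_ifs with ha hb hb
    · exact h.valid.mono hab
    · exact le_trans (h.valid.mono (le_of_lt ha)) hnk
    · omega
    · exact le_refl _
  · intro v
    rw [hlt _ (by omega)]
    exact h.valid.base v
  · intro j k' b n' z' w' r' ell' hj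
    rcases hex j k' b n' z' w' r' ell' hj with ⟨rfl, rfl, rfl, rfl, rfl⟩ | ⟨hk, hj'⟩
    · simp only [lt_irrefl, if_false]
      refine ⟨trivial, (hφz b).2.2, ?_, ?_, ⟨_, hwit2⟩⟩
      · push_cast
        linarith
      · have : 2 ^ n' + 2 ^ N + w'.length < 2 ^ (n' + 1) := by
          rw [pow_succ]; omega
        exact_mod_cast this
    · simp only [hk, if_true]
      obtain ⟨b1, b2, b3, b4, b5⟩ := h.valid.exec j k' b n' z' w' r' ell' hj'
      refine ⟨b1, b2, b3, b4, J, ?_⟩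
      exact S.Wit_persist hPJ (h.exec_lt _ _ _ _ _ _ _ _ hj').2
  · intro j γ lev ψ hj
    rcases hfx j γ lev ψ hj with ⟨b, rfl, rfl, rfl⟩ | ⟨hγ, hj'⟩
    · refine ⟨(hφz b).1, ?_, ?_⟩
      · intro h5; exact absurd h5 (by simp)
      · intro k' b' h5
        simp only [Option.some.injEq, Prod.mk.injEq] at h5
        obtain ⟨rfl, rfl⟩ := h5
        simp only [lt_irrefl, if_false]
        exact ⟨fun v hv => hv, (hφz b).2.1⟩
    · obtain ⟨b1, b2, b3⟩ := h.valid.fix j γ lev ψ hj'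
      refine ⟨b1, b2, ?_⟩
      intro k' b h5
      have hk := hγ k' b h5
      simp only [hk, if_true]
      exact b3 k' b h5
  · intro j hj
    push_cast at hj
    rw [h4 j hj]
    exact h.triv j (by omega)
  · intro j k' b n' z' w' r' ell' hj
    rcases hex j k' b n' z' w' r' ell' hj with ⟨rfl, rfl, rfl, rfl, rfl⟩ | ⟨hk, hj'⟩
    · exact ⟨Nat.lt_succ_self _, hwit2⟩
    · exact ⟨Nat.lt_succ_of_lt hk, S.Wit_bound (by omega) (S.Wit_persist hPJ (h.exec_lt _ _ _ _ _ _ _ _ hj').2)⟩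
  · intro j k' b lev ψ hj
    rcases hfx j _ lev ψ hj with ⟨b', h5, -, -⟩ | ⟨hγ, hj'⟩
    · simp only [Option.some.injEq, Prod.mk.injEq] at h5
      omega
    · exact Nat.lt_succ_of_lt (hγ k' b rfl)
  · omega
  · intro j hj
    exact (hPJ j hj).symm
  · intro i hi
    simp only [hi, if_true]
    exact ⟨trivial, trivial⟩
  · intro _
    refine ⟨t, r, Nat.le_succ _, Nat.succ_le_succ (Nat.zero_le _), ?_⟩
    intro P'' sc'' rho'' L hV hL hag
    apply hrel P'' sc'' rho'' L w r ell hV hL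
    · rw [hag _ (by push_cast; omega), h0]
    · rw [hag _ (by push_cast; omega), h1]
    · rw [hag _ (by push_cast; omega), h2]
    · rw [hag _ (by push_cast; omega), h3]
    · linarith

end

end Pool.Agent.helper261_navas
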