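import Pool.Agent.helper261_navas.EvDef
import Pool.Agent.helper261_navas.PrX
import Pool.Agent.helper261_navas.PrE1
import Pool.Agent.helper261_navas.PrE5
import Pool.Agent.helper261_navas.PrA
import Pool.Agent.helper261_navas.PrS

set_option autoImplicit false

namespace Pool.Agent.helper261_navas

open Classical

noncomputable section

namespace S2

/-! # S2: the limit -/

theorem letter_countable : Countable Letter := by
  let f : Letter → ℕ := fun a => match a with
    | .sg => 0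
    | .bt => 1
    | .om => 2
    | .pi => 3
  refine ⟨f, ?_⟩
  intro a b h
  cases a <;> cases b <;> first | rfl | exact absurd h (by decide)

theorem exists_enum : ∃ u : ℕ → Word, ∀ w : Word, ∀ B : ℕ, ∃ k, B ≤ k ∧ u k = w := by
  have := letter_countable
  obtain ⟨v, hv⟩ := exists_surjective_nat Word
  refine ⟨fun k => v (Nat.unpair k).1, fun w B => ?_⟩
  obtain ⟨j, hj⟩ := hv w
  refine ⟨Nat.pair j B, Nat.right_le_pair j B, ?_⟩
  show v (Nat.unpair (Nat.pair j B)).1 = w
  rw [Nat.unpair_pair, hj]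

/-- the data of a stage -/
structure Dat where
  P : ℤ → Content
  sc : ℕ → ℕ
  rho : ℕ → ℕ
  J : ℕ

/-- the step from a stage to the next one -/
def Next (w : Word) (K k : ℕ) (s s' : Dat) : Prop :=
  s.J < s'.J ∧ (∀ j : ℤ, j < s.J → s'.P j = s.P j) ∧ (∀ i, i < k → s'.sc i = s.sc i ∧ s'.rho i = s.rho i) ∧
      ((∃ N x y, Ev s.P N w.atoms x y ∧ y ≠ x) → ∃ (t : Word) (r : ℕ), K * t.length ≤ r ∧ 1 ≤ r ∧
        ∀ (P'' : ℤ → Content) (sc'' rho'' : ℕ → ℕ) (L : Letter → (X ≃o X)), ValidP P'' sc'' rho'' → IsAct P'' L →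
          (∀ j : ℤ, j < s'.J → P'' j = s'.P j) → val L t = (val L w) ^ r)

theorem exists_next (w : Word) (K k : ℕ) (s : {s : Dat // Stage s.P s.sc s.rho k s.J}) :
    ∃ s' : {s : Dat // Stage s.P s.sc s.rho (k + 1) s.J}, Next w K k s.1 s'.1 := by
  obtain ⟨P', sc', rho', J', h1, h2, h3, h4, h5⟩ := stage_succ s.1.P s.1.sc s.1.rho k s.1.J s.2 w K
  exact ⟨⟨⟨P', sc', rho', J'⟩, h1⟩, h2, h3, h4, h5⟩

theorem exists_start : ∃ s : Dat, Stage s.P s.sc s.rho 0 s.J := by
  obtain ⟨P, sc, rho, h⟩ := stage_zero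
  exact ⟨⟨P, sc, rho, 0⟩, h⟩

theorem exists_seq (u : ℕ → Word) : ∃ s : ℕ → Dat, (∀ k, Stage (s k).P (s k).sc (s k).rho k (s k).J) ∧
    ∀ k, Next (u k) k k (s k) (s (k + 1)) := by
  let s : (k : ℕ) → {s : Dat // Stage s.P s.sc s.rho k s.J} := fun k =>
    Nat.rec ⟨exists_start.choose, exists_start.choose_spec⟩
      (fun k s => (exists_next (u k) k k s).choose) k
  exact ⟨fun k => (s k).1, fun k => (s k).2, fun k => (exists_next (u k) k k (s k)).choose_spec⟩

end S2

/-- the limit parameter -/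
theorem exists_limit : ∃ (P : ℤ → Content) (sc rho : ℕ → ℕ) (L : Letter → (X ≃o X)), ValidP P sc rho ∧ IsAct P L ∧
    ∀ w : Word, val L w ≠ 1 → ∀ K : ℕ, ∃ (t : Word) (r : ℕ), K * t.length ≤ r ∧ 1 ≤ r ∧
      val L t = (val L w) ^ r := by
  obtain ⟨u, hu⟩ := S2.exists_enum
  obtain ⟨s, hs, hn⟩ := S2.exists_seq u
  have hJ : ∀ k, k ≤ (s k).J := by
    intro k
    induction k with
    | zero => exact Nat.zero_le _
    | succ k ih => exact lt_of_le_of_lt ih (hn k).1
  have hJm : ∀ k m, k ≤ m → (s k).J ≤ (s m).J := by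
    intro k m h
    induction m, h using Nat.le_induction with
    | base => exact le_rfl
    | succ m _ ih => exact ih.trans (hn m).1.le
  have hP : ∀ k m, k ≤ m → ∀ j : ℤ, j < (s k).J → (s m).P j = (s k).P j := by
    intro k m h
    induction m, h using Nat.le_induction with
    | base => intro j _; rfl
    | succ m hkm ih =>
      intro j hj
      rw [(hn m).2.1 j (lt_of_lt_of_le hj (by exact_mod_cast hJm k m hkm)), ih j hj]
  have hsc : ∀ k m, k ≤ m → ∀ i, i < k → (s m).sc i = (s k).sc i ∧ (s m).rho i = (s k).rho i := by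
    intro k m h
    induction m, h using Nat.le_induction with
    | base => intro i _; exact ⟨rfl, rfl⟩
    | succ m hkm ih =>
      intro i hi
      have h1 := (hn m).2.2.1 i (lt_of_lt_of_le hi hkm)
      have h2 := ih i hi
      exact ⟨h1.1.trans h2.1, h1.2.trans h2.2⟩
  let P : ℤ → Content := fun j => (s (j + 1).toNat).P j
  let sc : ℕ → ℕ := fun i => (s (i + 1)).sc i
  let rho : ℕ → ℕ := fun i => (s (i + 1)).rho i
  have hPk : ∀ k (j : ℤ), j < (s k).J → P j = (s k).P j := by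
    intro k j hj
    have h1 : j < (s (j + 1).toNat).J := by
      have h2 := hJ (j + 1).toNat
      have h3 : (j + 1) ≤ ((j + 1).toNat : ℤ) := Int.self_le_toNat _
      omega
    rcases le_total k (j + 1).toNat with h | h
    · exact hP _ _ h j hj
    · exact (hP _ _ h j h1).symm
  have hsck : ∀ k i, i < k → sc i = (s k).sc i ∧ rho i = (s k).rho i := by
    intro k i hi
    have h := hsc (i + 1) k hi i (Nat.lt_succ_self i)
    exact ⟨h.1.symm, h.2.symm⟩
  have hbig : ∀ j : ℤ, ∃ k, j < (s k).J := by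
    intro j
    refine ⟨(j + 1).toNat, ?_⟩
    have h2 := hJ (j + 1).toNat
    have h3 : (j + 1) ≤ ((j + 1).toNat : ℤ) := Int.self_le_toNat _
    omega
  have hV : ValidP P sc rho := by
    refine ⟨?_, ?_, ?_, ?_⟩
    · intro i j hij
      have h1 := (hsck (j + 1) i (by omega)).1
      have h2 := (hsck (j + 1) j (by omega)).1
      rw [h1, h2]
      exact (hs (j + 1)).valid.mono hij
    · intro v
      rw [hPk 0 _ (by omega)]
      exact (hs 0).valid.base v
    · intro j k b n z w r ell h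
      obtain ⟨m, hm⟩ := hbig j
      rw [hPk m j hm] at h
      obtain ⟨hk, hW⟩ := (hs m).exec_lt j k b n z w r ell h
      obtain ⟨h1, h2, h3, h4, -⟩ := (hs m).valid.exec j k b n z w r ell h
      have h5 := hsck m k hk
      refine ⟨h1.trans h5.1.symm, h2, by rw [h5.2]; exact h3, by rw [h5.2]; exact h4, (s m).J, ?_⟩
      have hper : ∀ l x y, Ev (s m).P (s m).J l x y → Ev P (s m).J l x y := fun l x y he =>
        Ev.persist (fun j hj => (hPk m j hj).symm) he
      intro q hq
      obtain ⟨⟨y1, a1, b1⟩, ⟨y2, a2, b2⟩, ⟨y3, a3, b3⟩, y4, a4, b4⟩ := hW q hq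
      exact ⟨⟨y1, hper _ _ _ a1, b1⟩, ⟨y2, hper _ _ _ a2, b2⟩, ⟨y3, hper _ _ _ a3, b3⟩,
        y4, hper _ _ _ a4, b4⟩
    · intro j γ lev φ h
      obtain ⟨m, hm⟩ := hbig j
      rw [hPk m j hm] at h
      obtain ⟨h1, h2, h3⟩ := (hs m).valid.fix j γ lev φ h
      refine ⟨h1, h2, fun k b hγ => ?_⟩
      have hk : k < m := by
        subst hγ
        exact (hs m).fix_lt j k b lev φ h
      rw [(hsck m k hk).1]
      exact h3 k b hγ
  obtain ⟨L, hL⟩ := exists_isAct hV.wellP (fun a d x => Ev.total hV a d x)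
  refine ⟨P, sc, rho, L, hV, hL, fun w hw K => ?_⟩
  have hx : ∃ x, val L w x ≠ x := by
    by_contra hcon
    push Not at hcon
    exact hw (RelIso.ext hcon)
  obtain ⟨x, hx⟩ := hx
  obtain ⟨N, hN⟩ := (IsAct.val hV.wellP hL w x (val L w x)).2 rfl
  obtain ⟨k, hk, hkw⟩ := hu w (max K N)
  have hev : Ev (s k).P N w.atoms x (val L w x) := by
    refine Ev.persist (fun j hj => hPk k j ?_) hN
    have h1 := hJ k
    have h2 : N ≤ k := (le_max_right K N).trans hk
    omega
  obtain ⟨h1, h2, h3, h4⟩ := hn k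
  rw [hkw] at h4
  obtain ⟨t, r, ht, hr, hall⟩ := h4 ⟨N, x, _, hev, hx⟩
  refine ⟨t, r, ?_, hr, ?_⟩
  · exact (Nat.mul_le_mul_right _ ((le_max_left K N).trans hk)).trans ht
  · exact hall P sc rho L hV hL (fun j hj => hPk (k + 1) j hj)

end

end Pool.Agent.helper261_navas
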