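import Pool.Agent.helper261_navas.EvDef
import Pool.Agent.helper261_navas.PrO
import Pool.Agent.helper261_navas.PrA
import Pool.Agent.helper261_navas.PrS2

set_option autoImplicit false

namespace Pool.Agent.helper261_navas

open Classical

noncomputable section

/-! # F: the group -/

/-- left order on a group of order automorphisms -/
theorem exists_left_order (X' : Type) [LinearOrder X'] (G : Subgroup (X' ≃o X')) :
    ∃ lt : G → G → Prop, (∀ a : G, ¬ lt a a) ∧ (∀ a b c : G, lt a b → lt b c → lt a c) ∧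
      (∀ a b : G, a ≠ b → lt a b ∨ lt b a) ∧ (∀ f g h : G, lt g h → lt (f * g) (f * h)) := by
  let r : X' → X' → Prop := WellOrderingRel
  refine ⟨fun a b => ∃ x, (∀ y, r y x → a.1 y = b.1 y) ∧ a.1 x < b.1 x, ?_, ?_, ?_, ?_⟩
  · rintro a ⟨x, _, h⟩
    exact lt_irrefl _ h
  · rintro a b c ⟨x, hx, hx'⟩ ⟨y, hy, hy'⟩
    rcases trichotomous_of r x y with h | h | h
    · exact ⟨x, fun z hz => (hx z hz).trans (hy z (trans_of r hz h)), by rw [← hy x h]; exact hx'⟩
    · subst h
      exact ⟨x, fun z hz => (hx z hz).trans (hy z hz), hx'.trans hy'⟩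
    · exact ⟨y, fun z hz => (hx z (trans_of r hz h)).trans (hy z hz), by rw [hx y h]; exact hy'⟩
  · intro a b hab
    have hne : {x | a.1 x ≠ b.1 x}.Nonempty := by
      by_contra h
      rw [Set.not_nonempty_iff_eq_empty] at h
      apply hab
      apply Subtype.ext
      apply RelIso.ext
      intro x
      by_contra hx
      have : x ∈ {x | a.1 x ≠ b.1 x} := hx
      rw [h] at this
      exact this
    have hwf : WellFounded r := (inferInstance : IsWellOrder X' WellOrderingRel).toIsWellFounded.wf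
    obtain ⟨x, hx, hmin⟩ := hwf.has_min _ hne
    have heq : ∀ y, r y x → a.1 y = b.1 y := by
      intro y hy
      by_contra h
      exact hmin y h hy
    rcases lt_or_gt_of_ne hx with h | h
    · exact Or.inl ⟨x, heq, h⟩
    · exact Or.inr ⟨x, fun y hy => (heq y hy).symm, h⟩
  · rintro f g h ⟨x, hx, hx'⟩
    refine ⟨x, fun y hy => ?_, ?_⟩
    · change f.1 (g.1 y) = f.1 (h.1 y)
      rw [hx y hy]
    · change f.1 (g.1 x) < f.1 (h.1 x)
      exact f.1.lt_iff_lt.mpr hx'

namespace F

/-- `g` is a product of at most `m` elements of `S` or their inverses -/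
def Rep {G : Type} [Group G] (S : Finset G) (g : G) (m : ℕ) : Prop :=
  ∃ l : List G, l.length ≤ m ∧ (∀ x ∈ l, x ∈ S ∨ x⁻¹ ∈ S) ∧ l.prod = g

theorem Rep.one {G : Type} [Group G] (S : Finset G) : Rep S 1 0 :=
  ⟨[], le_rfl, by simp, rfl⟩

theorem Rep.mul {G : Type} [Group G] {S : Finset G} {g h : G} {m m' : ℕ} (hg : Rep S g m) (hh : Rep S h m') :
    Rep S (g * h) (m + m') := by
  obtain ⟨l, h1, h2, h3⟩ := hg
  obtain ⟨l', h1', h2', h3'⟩ := hh
  refine ⟨l ++ l', ?_, ?_, ?_⟩
  · rw [List.length_append]; omega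
  · intro x hx
    rcases List.mem_append.mp hx with hx | hx
    · exact h2 x hx
    · exact h2' x hx
  · rw [List.prod_append, h3, h3']

theorem Rep.pow {G : Type} [Group G] {S : Finset G} {g : G} {m : ℕ} (hg : Rep S g m) (q : ℕ) :
    Rep S (g ^ q) (q * m) := by
  induction q with
  | zero => rw [pow_zero, Nat.zero_mul]; exact Rep.one S
  | succ q ih =>
    rw [pow_succ, Nat.succ_mul]
    exact ih.mul hg

theorem rep_word {G : Subgroup (X ≃o X)} (S : Finset G) (L : Letter → (X ≃o X)) (gen : Letter → G)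
    (hgen : ∀ a, (gen a).1 = L a) (hS : ∀ a, gen a ∈ S) (w : Word) :
    ∃ g : G, g.1 = val L w ∧ Rep S g w.length := by
  induction w with
  | nil => exact ⟨1, rfl, Rep.one S⟩
  | cons p w ih =>
    obtain ⟨g, h1, h2⟩ := ih
    refine ⟨g * pw (gen p.1) p.2, ?_, ?_⟩
    · rw [val, ← h1, ← hgen]
      unfold pw
      split_ifs <;> rfl
    · rw [List.length_cons]
      refine h2.mul ⟨[pw (gen p.1) p.2], le_rfl, ?_, by simp⟩
      intro x hx
      rw [List.mem_singleton] at hx
      subst hx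
      unfold pw
      split_ifs
      · exact Or.inl (hS _)
      · right; rw [inv_inv]; exact hS _

theorem exists_list {G : Type} [Group G] {s : Set G} {g : G} (hg : g ∈ Subgroup.closure s) :
    ∃ l : List G, (∀ y ∈ l, y ∈ s ∨ y⁻¹ ∈ s) ∧ l.prod = g := by
  have h : g ∈ (Subgroup.closure s).toSubmonoid := hg
  rw [Subgroup.closure_toSubmonoid] at h
  obtain ⟨l, h1, h2⟩ := Submonoid.exists_list_of_mem_closure h
  exact ⟨l, fun y hy => (h1 y hy).imp id (fun h => h), h2⟩

theorem word_of_list (L : Letter → (X ≃o X)) (l : List (X ≃o X))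
    (h : ∀ y ∈ l, y ∈ Set.range L ∨ y⁻¹ ∈ Set.range L) : ∃ w : Word, val L w = l.prod := by
  induction l with
  | nil => exact ⟨[], rfl⟩
  | cons a l ih =>
    obtain ⟨w, hw⟩ := ih (fun y hy => h y (List.mem_cons_of_mem _ hy))
    have happ : ∀ (w : Word) (p : Letter × Bool), val L (w ++ [p]) = pw (L p.1) p.2 * val L w := by
      intro w p
      induction w with
      | nil => rw [List.nil_append, val, val, val, one_mul, mul_one]
      | cons p' w ih => rw [List.cons_append, val, val, ih, mul_assoc]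
    rcases h a List.mem_cons_self with ⟨b, hb⟩ | ⟨b, hb⟩
    · refine ⟨w ++ [(b, true)], ?_⟩
      rw [happ, hw, List.prod_cons]
      simp [pw, hb]
    · refine ⟨w ++ [(b, false)], ?_⟩
      rw [happ, hw, List.prod_cons]
      simp [pw, hb]

end F

theorem main : ∃ (G : Type) (_ : Group G), Nontrivial G ∧
      (∃ lt : G → G → Prop,
        (∀ a : G, ¬ lt a a) ∧
        (∀ a b c : G, lt a b → lt b c → lt a c) ∧
        (∀ a b : G, a ≠ b → lt a b ∨ lt b a) ∧
        (∀ f g h : G, lt g h → lt (f * g) (f * h))) ∧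
      ∃ S : Finset G, Subgroup.closure (S : Set G) = ⊤ ∧
        ∀ g : G, g ≠ 1 → ∀ ε : ℝ, 0 < ε → ∃ N : ℕ, ∀ n : ℕ, N ≤ n →
          ∃ l : List G, (l.length : ℝ) ≤ ε * (n : ℝ) ∧
            (∀ x ∈ l, x ∈ S ∨ x⁻¹ ∈ S) ∧ l.prod = g ^ n := by
  obtain ⟨P, sc, rho, L, hP, hL, hmain⟩ := exists_limit
  let G : Subgroup (X ≃o X) := Subgroup.closure (Set.range L)
  let gen : Letter → G := fun a => ⟨L a, Subgroup.subset_closure ⟨a, rfl⟩⟩
  let S : Finset G := {gen .sg, gen .bt, gen .om, gen .pi}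
  have hS : ∀ a, gen a ∈ S := by
    intro a
    cases a <;> simp [S]
  have hcoe : (S : Set G) = ((↑) : G → (X ≃o X)) ⁻¹' (Set.range L) := by
    ext g
    constructor
    · intro hg
      have hg' : g = gen .sg ∨ g = gen .bt ∨ g = gen .om ∨ g = gen .pi := by
        simpa [S] using hg
      rcases hg' with rfl | rfl | rfl | rfl
      · exact ⟨.sg, rfl⟩
      · exact ⟨.bt, rfl⟩
      · exact ⟨.om, rfl⟩
      · exact ⟨.pi, rfl⟩
    · rintro ⟨a, ha⟩
      have : g = gen a := Subtype.ext ha.symm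
      rw [this]
      exact hS a
  refine ⟨G, inferInstance, ?_, exists_left_order X G, S, ?_, ?_⟩
  · -- nontriviality
    refine ⟨⟨gen .sg, 1, ?_⟩⟩
    intro h
    have h1 : L .sg = 1 := congrArg Subtype.val h
    rw [(IsAct.letters hP.wellP hL).1] at h1
    let a : M := ⟨0, 0, 0, 0, 0⟩
    have hcol : col a = none := by
      simp [col, colQ, a, colN]
    let x : X := ⟨[a], by unfold Good; rw [if_pos hcol]⟩
    have h2 : lift sgM x = x := by rw [h1]; rfl
    have h3 : top (lift sgM x) = top x := by rw [h2]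
    rw [top_lift] at h3
    have h4 : (sgM.1 (top x)).m = (top x).m := by rw [h3]
    have h5 : (sgM.1 (top x)).m = (top x).m + 1 * sgn (top x).e := rfl
    rw [h5] at h4
    have h6 : ((sgn (top x).e : ℤˣ) : ℤ) ≠ 0 := Units.ne_zero _
    omega
  · rw [hcoe]
    exact Subgroup.closure_closure_coe_preimage
  · intro g hg ε hε
    -- a word for `g`
    obtain ⟨l, hl, hlp⟩ := F.exists_list g.2
    obtain ⟨w, hw⟩ := F.word_of_list L l hl
    rw [hlp] at hw
    have hne : val L w ≠ 1 := by
      rw [hw]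
      intro h
      exact hg (Subtype.ext h)
    obtain ⟨K, hK⟩ := exists_nat_gt (2 / ε)
    have hK0 : (0 : ℝ) < K := lt_trans (by positivity) hK
    obtain ⟨t, r, htr, hr, hrel⟩ := hmain w hne K
    obtain ⟨gt, hgt1, hgt2⟩ := F.rep_word S L gen (fun _ => rfl) hS t
    obtain ⟨gw, hgw1, hgw2⟩ := F.rep_word S L gen (fun _ => rfl) hS w
    have e1 : gw = g := Subtype.ext (hgw1.trans hw)
    have e2 : gt = g ^ r := by
      apply Subtype.ext
      rw [hgt1, hrel, hw]
      rfl
    rw [e1] at hgw2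
    rw [e2] at hgt2
    obtain ⟨N, hN⟩ := exists_nat_gt (2 * (r * w.length : ℝ) / ε)
    refine ⟨N, fun n hn => ?_⟩
    have hrep := (hgt2.pow (n / r)).mul (hgw2.pow (n % r))
    rw [← pow_mul, ← pow_add, Nat.div_add_mod n r] at hrep
    obtain ⟨l', h1, h2, h3⟩ := hrep
    refine ⟨l', ?_, h2, h3⟩
    have h4 : n / r * t.length * K ≤ n := by
      calc n / r * t.length * K = n / r * (K * t.length) := by ring
        _ ≤ n / r * r := Nat.mul_le_mul_left _ htr
        _ ≤ n := Nat.div_mul_le_self n r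
    have h4' : ((n / r * t.length : ℕ) : ℝ) * K ≤ n := by exact_mod_cast h4
    have h5 : ((n / r * t.length : ℕ) : ℝ) ≤ ε / 2 * n := by
      have h6 : ((n / r * t.length : ℕ) : ℝ) ≤ n / K := by rw [le_div_iff₀ hK0]; exact h4'
      refine h6.trans ?_
      rw [div_le_iff₀ hK0]
      have h7 : 1 ≤ ε / 2 * K := by
        rw [div_lt_iff₀ hε] at hK
        linarith
      have hn0 : (0 : ℝ) ≤ n := Nat.cast_nonneg n
      nlinarith
    have h8 : n % r * w.length ≤ r * w.length := Nat.mul_le_mul_right _ (Nat.mod_lt _ (by omega)).le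
    have h8' : ((n % r * w.length : ℕ) : ℝ) ≤ r * w.length := by exact_mod_cast h8
    have h9 : (r * w.length : ℝ) ≤ ε / 2 * n := by
      have h10 : (N : ℝ) ≤ n := by exact_mod_cast hn
      have h11 := lt_of_lt_of_le hN h10
      rw [div_lt_iff₀ hε] at h11
      linarith
    have h12 : (l'.length : ℝ) ≤ ((n / r * t.length : ℕ) : ℝ) + ((n % r * w.length : ℕ) : ℝ) := by
      exact_mod_cast h1
    linarith

end

end Pool.Agent.helper261_navas
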