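import Mathlib

set_option autoImplicit false

namespace Pool.Agent.helper261_navas

open Classical

/-! ## 0. Landscape -/

/-- the number attached to a site `e` -/
def NN (e : ℤ) : ℤ := 3 * e + 2

/-- level of a site -/
def lam (e : ℤ) : ℕ := padicValInt 2 (NN e)

/-- odd part of the number attached to a site -/
def oddPart (e : ℤ) : ℤ := NN e / 2 ^ lam e

/-- sign of a site -/
def sgn (e : ℤ) : ℤˣ := if oddPart e % 4 = 1 then 1 else -1

/-- level classes: `b = false` is class A (level exactly `n+1`), `b = true` is class B (level at least `n+2`) -/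
def cls (b : Bool) (n v : ℕ) : Prop := if b then n + 2 ≤ v else v = n + 1

/-! ## 1. The ordered set M -/

/-- points of the line: `e` is the site -/
@[ext] structure M where
  e : ℤ
  m : ℤ
  l : ℤ
  i : ℤ
  q : ℚ

/-- the lexicographic key -/
def M.key (a : M) : ℤ ×ₗ ℤ ×ₗ ℤ ×ₗ ℤ ×ₗ ℚ := toLex (a.e, toLex (a.m, toLex (a.l, toLex (a.i, a.q))))

theorem M.key_injective : Function.Injective M.key := by
  intro a b h
  simp only [M.key, EmbeddingLike.apply_eq_iff_eq, Prod.mk.injEq] at h
  obtain ⟨h1, h2, h3, h4, h5⟩ := h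
  exact M.ext h1 h2 h3 h4 h5

noncomputable instance : LinearOrder M := LinearOrder.lift' M.key M.key_injective

theorem M.lt_iff (a b : M) : a < b ↔ a.e < b.e ∨ (a.e = b.e ∧ (a.m < b.m ∨ (a.m = b.m ∧
    (a.l < b.l ∨ (a.l = b.l ∧ (a.i < b.i ∨ (a.i = b.i ∧ a.q < b.q))))))) := by
  change M.key a < M.key b ↔ _
  simp only [M.key, Prod.Lex.toLex_lt_toLex]

/-! ### Colours -/

/-- colours; `none` is the terminal colour, `some (k, b)` the colour of markers of task `k`, class `b` -/
abbrev Color := Option (ℕ × Bool)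

/-- an enumeration of all colours -/
def colN : ℕ → Color
  | 0 => none
  | n + 1 => some (n / 2, decide (n % 2 = 1))

/-- colour of a rational -/
def colQ (q : ℚ) : Color := colN (-(padicValRat 2 q)).toNat

/-- colour of a point -/
def col (a : M) : Color := colQ a.q

theorem colQ_neg (q : ℚ) : colQ (-q) = colQ q := by
  simp [colQ, padicValRat.neg]

/-! ### Isometries -/

/-- isometries of the line of sites, `e ↦ ε e + t` -/
@[ext] structure Iso2 where
  ε : ℤˣ
  t : ℤ

instance : Group Iso2 where
  mul g h := ⟨g.ε * h.ε, g.t + g.ε * h.t⟩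
  one := ⟨1, 0⟩
  inv g := ⟨g.ε, -(g.ε * g.t)⟩
  mul_assoc a b c := by
    refine Iso2.ext ?_ ?_
    · exact mul_assoc _ _ _
    · change (a.t + a.ε * b.t) + ((a.ε * b.ε : ℤˣ) : ℤ) * c.t = a.t + a.ε * (b.t + b.ε * c.t)
      push_cast; ring
  one_mul a := by
    refine Iso2.ext ?_ ?_
    · exact one_mul _
    · change (0 : ℤ) + ((1 : ℤˣ) : ℤ) * a.t = a.t
      simp
  mul_one a := by
    refine Iso2.ext ?_ ?_
    · exact mul_one _
    · change a.t + (a.ε : ℤ) * 0 = a.t
      simp
  inv_mul_cancel a := by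
    refine Iso2.ext ?_ ?_
    · exact Int.units_mul_self _
    · change -((a.ε : ℤ) * a.t) + (a.ε : ℤ) * a.t = 0
      ring

theorem Iso2.mul_ε (g h : Iso2) : (g * h).ε = g.ε * h.ε := rfl
theorem Iso2.mul_t (g h : Iso2) : (g * h).t = g.t + g.ε * h.t := rfl
theorem Iso2.one_ε : (1 : Iso2).ε = 1 := rfl
theorem Iso2.one_t : (1 : Iso2).t = 0 := rfl
theorem Iso2.inv_ε (g : Iso2) : (g⁻¹).ε = g.ε := rfl
theorem Iso2.inv_t (g : Iso2) : (g⁻¹).t = -(g.ε * g.t) := rfl

/-- the action on sites -/
def Iso2.site (g : Iso2) (e : ℤ) : ℤ := g.ε * e + g.t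

/-- the action on points -/
instance : MulAction Iso2 M where
  smul g a := ⟨g.ε * a.e + g.t, g.ε * a.m, g.ε * a.l, if g.ε = 1 then a.i else -1 - a.i,
    if g.ε = 1 then a.q else -a.q⟩
  one_smul a := by
    change (⟨((1 : ℤˣ) : ℤ) * a.e + 0, ((1 : ℤˣ) : ℤ) * a.m, ((1 : ℤˣ) : ℤ) * a.l, if (1 : ℤˣ) = 1 then a.i else -1 - a.i,
      if (1 : ℤˣ) = 1 then a.q else -a.q⟩ : M) = a
    simp
  mul_smul g h a := by
    change (⟨((g.ε * h.ε : ℤˣ) : ℤ) * a.e + (g.t + g.ε * h.t), ((g.ε * h.ε : ℤˣ) : ℤ) * a.m, ((g.ε * h.ε : ℤˣ) : ℤ) * a.l,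
      if (g.ε * h.ε) = 1 then a.i else -1 - a.i, if (g.ε * h.ε) = 1 then a.q else -a.q⟩ : M)
      = ⟨g.ε * (h.ε * a.e + h.t) + g.t, g.ε * (h.ε * a.m), g.ε * (h.ε * a.l),
        if g.ε = 1 then (if h.ε = 1 then a.i else -1 - a.i) else -1 - (if h.ε = 1 then a.i else -1 - a.i),
        if g.ε = 1 then (if h.ε = 1 then a.q else -a.q) else -(if h.ε = 1 then a.q else -a.q)⟩
    have hne : ((-1 : ℤˣ) = 1) = False := by
      simp only [eq_iff_iff, iff_false]; decide
    rcases Int.units_eq_one_or g.ε with hg | hg <;> rcases Int.units_eq_one_or h.ε with hh | hh <;>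
      simp only [hg, hh, M.mk.injEq] <;>
      refine ⟨?_, ?_, ?_, ?_, ?_⟩ <;> simp [hne] <;> ring

theorem smul_e (g : Iso2) (a : M) : (g • a).e = g.ε * a.e + g.t := rfl
theorem smul_m (g : Iso2) (a : M) : (g • a).m = g.ε * a.m := rfl
theorem smul_l (g : Iso2) (a : M) : (g • a).l = g.ε * a.l := rfl
theorem smul_i (g : Iso2) (a : M) : (g • a).i = if g.ε = 1 then a.i else -1 - a.i := rfl
theorem smul_q (g : Iso2) (a : M) : (g • a).q = if g.ε = 1 then a.q else -a.q := rfl

theorem col_smul (g : Iso2) (a : M) : col (g • a) = col a := by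
  unfold col
  rw [smul_q]
  split_ifs
  · rfl
  · exact colQ_neg _

/-! ## The ordered set X -/

/-- a list of points is a stack if exactly the last entry has the terminal colour -/
def Good : List M → Prop
  | [] => False
  | a :: r => if col a = none then r = [] else Good r

/-- stacks -/
def X : Type := {x : List M // Good x}

noncomputable instance : LinearOrder X := inferInstanceAs (LinearOrder {x : List M // Good x})

/-- the top entry -/
def top (x : X) : M := x.1.head (by
  intro h
  have h2 := x.2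
  rw [h] at h2
  exact h2)

theorem eq_top_cons (x : X) : x.1 = top x :: x.1.tail := by
  unfold top
  exact (List.cons_head_tail _).symm

/-- put a marker on top of a stack -/
def cons (a : M) (h : col a ≠ none) (ξ : X) : X := ⟨a :: ξ.1, by
  unfold Good
  rw [if_neg h]
  exact ξ.2⟩

/-- change the top entry, keeping its colour -/
def retop (x : X) (b : M) (h : col b = col (top x)) : X := ⟨b :: x.1.tail, by
  have h2 := x.2
  rw [eq_top_cons x] at h2
  unfold Good at h2 ⊢
  rw [h]
  exact h2⟩

/-- the colour sequence of a stack -/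
def colors (x : X) : List Color := x.1.map col

theorem good_map (g : Iso2) : ∀ r : List M, Good r → Good (r.map (g • ·))
  | [], h => h
  | a :: r, h => by
    unfold Good at h
    simp only [List.map_cons]
    unfold Good
    rw [col_smul]
    split_ifs at h ⊢ with hc
    · subst h; rfl
    · exact good_map g r h

/-- isometries act on stacks entrywise -/
instance : MulAction Iso2 X where
  smul g x := ⟨x.1.map (g • ·), good_map g x.1 x.2⟩
  one_smul x := by
    apply Subtype.ext
    change x.1.map ((1 : Iso2) • ·) = x.1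
    simp
  mul_smul g h x := by
    apply Subtype.ext
    change x.1.map ((g * h) • ·) = (x.1.map (h • ·)).map (g • ·)
    simp [mul_smul]

theorem smul_val (g : Iso2) (x : X) : (g • x).1 = x.1.map (g • ·) := rfl

/-! ### M-level automorphisms -/

/-- colour preserving order automorphisms of `M` -/
def CAut : Subgroup (M ≃o M) where
  carrier := {f | ∀ a, col (f a) = col a}
  mul_mem' := by
    intro f g hf hg a
    change col (f (g a)) = col a
    rw [hf, hg]
  one_mem' := fun a => rfl
  inv_mem' := by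
    intro f hf a
    have := hf (f⁻¹ a)
    rw [show f (f⁻¹ a) = a from f.apply_symm_apply a] at this
    exact this.symm

end Pool.Agent.helper261_navas
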