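import Pool.Agent.helper261_navas.Defs

set_option autoImplicit false

namespace Pool.Agent.helper261_navas

open Classical

noncomputable section

theorem X.lt_iff (x y : X) : x < y ↔ top x < top y ∨ (top x = top y ∧ x.1.tail < y.1.tail) := by
  have h : x < y ↔ x.1 < y.1 := Iff.rfl
  rw [h, eq_top_cons x, eq_top_cons y, List.cons_lt_cons_iff]
  rfl

theorem X.ext_iff' (x y : X) : x = y ↔ top x = top y ∧ x.1.tail = y.1.tail := by
  constructor
  · rintro rfl; exact ⟨rfl, rfl⟩
  · rintro ⟨h1, h2⟩
    apply Subtype.ext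
    rw [eq_top_cons x, eq_top_cons y, h1, h2]

theorem top_retop (x : X) (b : M) (h : col b = col (top x)) : top (retop x b h) = b := rfl
theorem tail_retop (x : X) (b : M) (h : col b = col (top x)) : (retop x b h).1.tail = x.1.tail := rfl
theorem top_cons (a : M) (h : col a ≠ none) (ξ : X) : top (cons a h ξ) = a := rfl
theorem tail_cons (a : M) (h : col a ≠ none) (ξ : X) : (cons a h ξ).1.tail = ξ.1 := rfl

theorem cons_lt_cons (a : M) (h : col a ≠ none) (ξ η : X) : cons a h ξ < cons a h η ↔ ξ < η := by
  rw [X.lt_iff, top_cons, top_cons, tail_cons, tail_cons]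
  constructor
  · rintro (h1 | h1)
    · exact absurd h1 (lt_irrefl _)
    · exact h1.2
  · intro h1
    exact Or.inr ⟨rfl, h1⟩

theorem cons_inj (a : M) (h : col a ≠ none) (ξ η : X) : cons a h ξ = cons a h η ↔ ξ = η := by
  rw [X.ext_iff', top_cons, top_cons, tail_cons, tail_cons]
  constructor
  · intro h1
    exact Subtype.ext h1.2
  · rintro rfl; exact ⟨rfl, rfl⟩

/-- a stack whose top is a marker is a `cons` -/
theorem exists_cons (x : X) (h : col (top x) ≠ none) : ∃ ξ : X, x = cons (top x) h ξ := by
  have h2 := x.2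
  rw [eq_top_cons x] at h2
  unfold Good at h2
  rw [if_neg h] at h2
  refine ⟨⟨x.1.tail, h2⟩, ?_⟩
  apply Subtype.ext
  exact eq_top_cons x

/-- a stack whose top is terminal is a singleton -/
theorem tail_eq_nil (x : X) (h : col (top x) = none) : x.1.tail = [] := by
  have h2 := x.2
  rw [eq_top_cons x] at h2
  unfold Good at h2
  rw [if_pos h] at h2
  exact h2

theorem top_smul (g : Iso2) (x : X) : top (g • x) = g • top x := by
  have h : (g • x).1 = (g • top x) :: x.1.tail.map (g • ·) := by
    rw [smul_val, eq_top_cons x]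
    rfl
  have h2 := eq_top_cons (g • x)
  rw [h] at h2
  exact (List.cons.inj h2).1.symm

theorem tail_smul (g : Iso2) (x : X) : (g • x).1.tail = x.1.tail.map (g • ·) := by
  have h : (g • x).1 = (g • top x) :: x.1.tail.map (g • ·) := by
    rw [smul_val, eq_top_cons x]
    rfl
  rw [h]; rfl

theorem smul_cons (g : Iso2) (a : M) (h : col a ≠ none) (ξ : X) :
    g • (cons a h ξ) = cons (g • a) (by rw [col_smul]; exact h) (g • ξ) := by
  apply Subtype.ext
  rfl

theorem colors_smul (g : Iso2) (x : X) : colors (g • x) = colors x := by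
  unfold colors
  rw [smul_val, List.map_map]
  congr 1
  funext a
  exact col_smul g a

/-- lift of an M-level automorphism to `X` -/
def liftFun (f : CAut) (x : X) : X := retop x (f.1 (top x)) (f.2 _)

theorem top_liftFun (f : CAut) (x : X) : top (liftFun f x) = f.1 (top x) := rfl
theorem tail_liftFun (f : CAut) (x : X) : (liftFun f x).1.tail = x.1.tail := rfl

theorem liftFun_mul (f g : CAut) (x : X) : liftFun (f * g) x = liftFun f (liftFun g x) := rfl

theorem liftFun_one (x : X) : liftFun 1 x = x := by
  rw [X.ext_iff']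
  exact ⟨rfl, rfl⟩

theorem liftFun_lt (f : CAut) (x y : X) : liftFun f x < liftFun f y ↔ x < y := by
  rw [X.lt_iff, X.lt_iff, top_liftFun, top_liftFun, tail_liftFun, tail_liftFun]
  rw [f.1.lt_iff_lt, f.1.injective.eq_iff]

/-- lift of an M-level automorphism to `X`, as an order automorphism -/
def liftAut (f : CAut) : X ≃o X where
  toFun := liftFun f
  invFun := liftFun f⁻¹
  left_inv x := by rw [← liftFun_mul, inv_mul_cancel, liftFun_one]
  right_inv x := by rw [← liftFun_mul, mul_inv_cancel, liftFun_one]
  map_rel_iff' := by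
    intro a b
    change liftFun f a ≤ liftFun f b ↔ a ≤ b
    rw [← not_lt, ← not_lt, liftFun_lt]

/-- lift as a homomorphism -/
def lift : CAut →* (X ≃o X) where
  toFun := liftAut
  map_one' := by
    apply RelIso.ext
    intro x
    exact liftFun_one x
  map_mul' f g := by
    apply RelIso.ext
    intro x
    rfl

theorem lift_apply (f : CAut) (x : X) : lift f x = liftFun f x := rfl
theorem top_lift (f : CAut) (x : X) : top (lift f x) = f.1 (top x) := rfl
theorem tail_lift (f : CAut) (x : X) : (lift f x).1.tail = x.1.tail := rfl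

theorem lift_cons (f : CAut) (a : M) (h : col a ≠ none) (ξ : X) :
    lift f (cons a h ξ) = cons (f.1 a) (by rw [f.2]; exact h) ξ := by
  apply Subtype.ext
  rfl

theorem colors_lift (f : CAut) (x : X) : colors (lift f x) = colors x := by
  unfold colors
  rw [eq_top_cons (lift f x), eq_top_cons x, top_lift, tail_lift, List.map_cons, List.map_cons, f.2]

/-! ### The explicit M-level letters -/

/-- build a colour preserving automorphism from maps that only change `m, l, i` -/
def mkCAut (f g : M → M) (hfg : ∀ a, g (f a) = a) (hgf : ∀ a, f (g a) = a)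
    (hlt : ∀ a b, a < b → f a < f b) (hq : ∀ a, col (f a) = col a) : CAut :=
  ⟨{ toFun := f
     invFun := g
     left_inv := hfg
     right_inv := hgf
     map_rel_iff' := by
      intro a b
      have hs : StrictMono f := fun a b h => hlt a b h
      exact hs.le_iff_le }, hq⟩

/-- shift of `m` at the site `e` by the sign -/
def sgFun (d : ℤ) (a : M) : M := ⟨a.e, a.m + d * sgn a.e, a.l, a.i, a.q⟩

/-- shift of `l` at `m = 0` -/
def btFun (d : ℤ) (a : M) : M := ⟨a.e, a.m, if a.m = 0 then a.l + d * sgn a.e else a.l, a.i, a.q⟩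

/-- shift of `i` at `m = 0`, `l = 0`, at the sites in `T` -/
def cFun (T : ℤ → Prop) (d : ℤ) (a : M) : M :=
  ⟨a.e, a.m, a.l, if a.m = 0 ∧ a.l = 0 ∧ T a.e then a.i + d * sgn a.e else a.i, a.q⟩

def sgM : CAut := mkCAut (sgFun 1) (sgFun (-1))
  (by intro a; simp only [sgFun]; ext <;> simp)
  (by intro a; simp only [sgFun]; ext <;> simp)
  (by
    intro a b h
    rw [M.lt_iff] at h ⊢
    simp only [sgFun]
    rcases h with h | ⟨h, h2⟩
    · exact Or.inl h
    · refine Or.inr ⟨h, ?_⟩
      rw [h]
      rcases h2 with h2 | ⟨h2, h3⟩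
      · exact Or.inl (by omega)
      · exact Or.inr ⟨by omega, h3⟩)
  (by intro a; rfl)

def btM : CAut := mkCAut (btFun 1) (btFun (-1))
  (by intro a; simp only [btFun]; ext <;> simp; split_ifs <;> omega)
  (by intro a; simp only [btFun]; ext <;> simp; split_ifs <;> omega)
  (by
    intro a b h
    rw [M.lt_iff] at h ⊢
    simp only [btFun]
    rcases h with h | ⟨h, h2⟩
    · exact Or.inl h
    · refine Or.inr ⟨h, ?_⟩
      rw [h]
      rcases h2 with h2 | ⟨h2, h3⟩
      · exact Or.inl h2
      · refine Or.inr ⟨h2, ?_⟩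
        rw [h2]
        rcases h3 with h3 | ⟨h3, h4⟩
        · left; split_ifs <;> omega
        · right; refine ⟨?_, h4⟩; rw [h3])
  (by intro a; rfl)

/-- the shift of `i` in the central zones of the sites in `T` -/
def cM (T : ℤ → Prop) : CAut := mkCAut (cFun T 1) (cFun T (-1))
  (by
    intro a; simp only [cFun]; ext <;> simp
    split_ifs <;> omega)
  (by
    intro a; simp only [cFun]; ext <;> simp
    split_ifs <;> omega)
  (by
    intro a b h
    rw [M.lt_iff] at h ⊢
    simp only [cFun]
    rcases h with h | ⟨h, h2⟩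
    · exact Or.inl h
    · refine Or.inr ⟨h, ?_⟩
      rw [h]
      rcases h2 with h2 | ⟨h2, h3⟩
      · exact Or.inl h2
      · refine Or.inr ⟨h2, ?_⟩
        rw [h2]
        rcases h3 with h3 | ⟨h3, h4⟩
        · exact Or.inl h3
        · refine Or.inr ⟨h3, ?_⟩
          rw [h3]
          rcases h4 with h4 | ⟨h4, h5⟩
          · left; split_ifs <;> omega
          · right; refine ⟨?_, h5⟩; rw [h4])
  (by intro a; rfl)

/-- `C_v` -/
def CM (v : ℕ) : CAut := cM (fun e => v ≤ lam e)

/-- the right half of the tile of `a` -/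
def RightHalf (a : M) : Prop := 0 < a.m ∨ (a.m = 0 ∧ (0 < a.l ∨ (a.l = 0 ∧ 0 ≤ a.i)))

/-- countable dense coloured orders without endpoints, all colours dense -/
structure CD (A : Type) [LinearOrder A] (c : A → Color) : Prop where
  countable : Countable A
  nonempty : Nonempty A
  dense : ∀ a b : A, a < b → ∀ γ, ∃ x, a < x ∧ x < b ∧ c x = γ
  left : ∀ b : A, ∀ γ, ∃ x, x < b ∧ c x = γ
  right : ∀ a : A, ∀ γ, ∃ x, a < x ∧ c x = γ

/-- index of the O-tile of `a`: the O-tile `o` is the right half of the tile `o - 1` and the left half of the tile `o` -/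
def otile (a : M) : ℤ := if RightHalf a then a.e + 1 else a.e

/-- what is needed from the letter om -/
structure OmSpec (f : CAut) : Prop where
  tile : ∀ a, otile (f.1 a) = otile a
  near : ∀ a, |(f.1 a).e - a.e| ≤ 1
  near' : ∀ a, |(f.1.symm a).e - a.e| ≤ 1
  equi : ∀ g : Iso2, Even g.t → ∀ a, g • (f.1 a) = f.1 (g • a)
  cross_right : ∀ a, RightHalf a → ∃ N : ℤ, ((f ^ N).1 a).e = a.e + 1 ∧ ((f ^ N).1 a).m = 0 ∧
    ((f ^ N).1 a).l = 0 ∧ ((f ^ N).1 a).i = -1
  cross_left : ∀ a, ¬ RightHalf a → ∃ N : ℤ, ((f ^ N).1 a).e = a.e - 1 ∧ ((f ^ N).1 a).m = 0 ∧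
    ((f ^ N).1 a).l = 0 ∧ ((f ^ N).1 a).i = 0

/-- the letter om -/
def omM : CAut := if h : ∃ f, OmSpec f then h.choose else 1

/-! ### Contents -/

/-- the stack has its top in the central zone of its site -/
def InU (x : X) : Prop := (top x).m = 0 ∧ (top x).l = 0

/-- the site of the top -/
def site (x : X) : ℤ := (top x).e

/-- the automorphism is supported on stacks with top in the central zone of the site `0` -/
def SuppU (φ : X ≃o X) : Prop := ∀ x, ¬ (InU x ∧ site x = 0) → φ x = x

/-- the standard isometry carrying site `0` to site `e` -/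
def R (e : ℤ) : Iso2 := ⟨sgn e, e⟩

/-- an automorphism supported at site `0` copied to site `e` -/
def at_ (φ : X ≃o X) (e : ℤ) (x : X) : X := (R e) • φ ((R e)⁻¹ • x)

/-- the letters -/
inductive Letter
  | sg | bt | om | pi
  deriving DecidableEq

/-- words in the letters and their inverses (`true` is the letter itself); the first entry is applied first -/
abbrev Word := List (Letter × Bool)

/-- inverse of a word -/
def Word.inv (w : Word) : Word := (w.map (fun p => (p.1, !p.2))).reverse

/-- contents; `γ` is the colour of the entries that a `fix` content may insert or delete -/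
inductive Content
  | none
  | fix (γ : Color) (lev : ℕ → Prop) (φ : X ≃o X)
  | exec (k : ℕ) (b : Bool) (n : ℕ) (z : M) (w : Word) (r : ℕ) (ell : X)

/-- the content is not active on level `v` -/
def Content.Inactive : Content → ℕ → Prop
  | .none, _ => True
  | .fix _ lev _, v => ¬ lev v
  | .exec _ b n _ _ _ _, v => ¬ cls b n v

/-- atomic commands -/
inductive Atom
  | lt (a : Letter) (d : Bool)
  | cont (j : ℤ) (d : Bool)
  | step (w : Word) (n : ℕ) (ell : X) (c : ℤ) (d : Bool)

/-- inverse atom -/
def Atom.inv : Atom → Atom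
  | .lt a d => .lt a (!d)
  | .cont j d => .cont j (!d)
  | .step w n ell c d => .step w n ell c (!d)

/-- a word as a list of atoms -/
def Word.atoms (w : Word) : List Atom := w.map (fun p => Atom.lt p.1 p.2)

/-- a word or its inverse -/
def Word.dir (w : Word) (d : Bool) : Word := if d then w else w.inv

/-- boundary points of windows -/
def BL (ell : X) (q : ℤ) : X := (⟨1, q⟩ : Iso2) • ell
def BR (ell : X) (q : ℤ) : X := (⟨1, q⟩ : Iso2) • ((⟨-1, 0⟩ : Iso2) • ell)

/-- windows -/
def Vp (n : ℕ) (ell : X) (c : ℤ) (x : X) : Prop := BL ell (c - 2 ^ n) < x ∧ x < BL ell (c + 2 ^ n)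
def Vm (n : ℕ) (ell : X) (c : ℤ) (x : X) : Prop := BR ell (c - 2 ^ n) < x ∧ x < BR ell (c + 2 ^ n)

/-- up-window and down-window of a direction -/
def Vup (d : Bool) (n : ℕ) (ell : X) (c : ℤ) (x : X) : Prop := if d then Vp n ell c x else Vm n ell c x
def Vdn (d : Bool) (n : ℕ) (ell : X) (c : ℤ) (x : X) : Prop := if d then Vm n ell c x else Vp n ell c x

/-- power of an automorphism with exponent `1` or `-1` -/
def pw {G : Type} [Group G] (g : G) (d : Bool) : G := if d then g else g⁻¹

/-- the shift to the zone with standard coordinates `(m', l')` -/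
def Zsh (m' l' : ℤ) : CAut := sgM ^ m' * btM ^ l'

/-- standard coordinates of the zone of the top -/
def stdm (x : X) : ℤ := sgn (site x) * (top x).m
def stdl (x : X) : ℤ := sgn (site x) * (top x).l

end

end Pool.Agent.helper261_navas
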