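import Pool.Agent.helper261_navas.Defs2

set_option autoImplicit false

namespace Pool.Agent.helper261_navas

open Classical

noncomputable section

/-- the evaluation relation; `N` bounds the levels and the content indices that are used -/
inductive Ev (P : ℤ → Content) (N : ℕ) : List Atom → X → X → Prop
  | nil (x : X) : Ev P N [] x x
  | sg (d : Bool) (l : List Atom) (x y : X) : lam (site x) < N → Ev P N l (lift (pw sgM d) x) y →
      Ev P N (.lt .sg d :: l) x y
  | bt (d : Bool) (l : List Atom) (x y : X) : lam (site x) < N → Ev P N l (lift (pw btM d) x) y →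
      Ev P N (.lt .bt d :: l) x y
  | om (d : Bool) (l : List Atom) (x y : X) : Ev P N l (lift (pw omM d) x) y →
      Ev P N (.lt .om d :: l) x y
  | pi_off (d : Bool) (l : List Atom) (x y : X) : lam (site x) < N → stdl x < 0 → Ev P N l x y →
      Ev P N (.lt .pi d :: l) x y
  | pi_on (d : Bool) (l : List Atom) (x y y' : X) : lam (site x) < N → 0 ≤ stdl x →
      Ev P N [.cont (stdm x) d] (lift (Zsh (stdm x) (stdl x))⁻¹ x) y' →
      Ev P N l (lift (Zsh (stdm x) (stdl x)) y') y →
      Ev P N (.lt .pi d :: l) x y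
  | cont_out (j : ℤ) (d : Bool) (l : List Atom) (x y : X) : ¬ InU x → Ev P N l x y →
      Ev P N (.cont j d :: l) x y
  | cont_off (j : ℤ) (d : Bool) (l : List Atom) (x y : X) : InU x → lam (site x) < N → j < N →
      (P j).Inactive (lam (site x)) → Ev P N l x y → Ev P N (.cont j d :: l) x y
  | cont_fix (j : ℤ) (d : Bool) (l : List Atom) (x y : X) (γ : Color) (lev : ℕ → Prop) (φ : X ≃o X) : InU x →
      lam (site x) < N → j < N → P j = .fix γ lev φ → lev (lam (site x)) →
      Ev P N l (at_ (pw φ d) (site x) x) y → Ev P N (.cont j d :: l) x y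
  | cont_miss (j : ℤ) (d : Bool) (l : List Atom) (x y : X) (k : ℕ) (b : Bool) (n : ℕ) (z : M) (w : Word) (r : ℕ)
      (ell : X) : InU x → lam (site x) < N → j < N → P j = .exec k b n z w r ell →
      cls b n (lam (site x)) → top x ≠ R (site x) • z → Ev P N l x y → Ev P N (.cont j d :: l) x y
  | cont_exec (j : ℤ) (d : Bool) (l : List Atom) (x y : X) (k : ℕ) (b : Bool) (n : ℕ) (z : M) (w : Word) (r : ℕ)
      (ell : X) (h : col (top x) ≠ none) (ξ η : X) : InU x → lam (site x) < N → j < N →
      P j = .exec k b n z w r ell → cls b n (lam (site x)) → top x = R (site x) • z →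
      x = cons (top x) h ξ → Ev P N (List.replicate r (.step w n ell (site x) d)) ξ η →
      Ev P N l (cons (top x) h η) y → Ev P N (.cont j d :: l) x y
  | step_out (w : Word) (n : ℕ) (ell : X) (c : ℤ) (d : Bool) (l : List Atom) (x y : X) :
      ¬ Vp n ell c x → ¬ Vm n ell c x → Ev P N l x y → Ev P N (.step w n ell c d :: l) x y
  | step_up (w : Word) (n : ℕ) (ell : X) (c : ℤ) (d : Bool) (l : List Atom) (x x' y : X) :
      Ev P N (w.dir d).atoms x x' → x < x' → Vup d n ell c x → Vup d n ell c x' → Ev P N l x' y →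
      Ev P N (.step w n ell c d :: l) x y
  | step_dn (w : Word) (n : ℕ) (ell : X) (c : ℤ) (d : Bool) (l : List Atom) (x x' y : X) :
      Ev P N (w.dir d).atoms x x' → x' < x → Vdn d n ell c x → Vdn d n ell c x' → Ev P N l x' y →
      Ev P N (.step w n ell c d :: l) x y
  | step_not (w : Word) (n : ℕ) (ell : X) (c : ℤ) (d : Bool) (l : List Atom) (x x' x'' y : X) :
      Ev P N (w.dir d).atoms x x' → Ev P N (w.dir (!d)).atoms x x'' →
      ¬ (x < x' ∧ Vup d n ell c x) → ¬ (x' < x ∧ Vdn d n ell c x) →
      ¬ (x'' < x ∧ Vup d n ell c x) → ¬ (x < x'' ∧ Vdn d n ell c x) → Ev P N l x y →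
      Ev P N (.step w n ell c d :: l) x y

/-- inverse of a list of atoms -/
def invl (l : List Atom) : List Atom := (l.map Atom.inv).reverse

/-- action of isometries on atoms -/
def Atom.smul (g : Iso2) : Atom → Atom
  | .lt a d => .lt a d
  | .cont j d => .cont j d
  | .step w n ell c d => .step w n ell (g.site c) d

/-- basic well-formedness of a parameter -/
def WellP (P : ℤ → Content) : Prop := ∀ j γ lev φ, P j = .fix γ lev φ → SuppU φ

/-- the standard shift at the site `0` -/
def cZero : X ≃o X := lift (cM (fun e => e = 0))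

/-- `φ` changes the colour sequences only by entries of colour `γ` -/
def ColFilt (γ : Color) (φ : X ≃o X) : Prop :=
  ∀ x, (colors (φ x)).filter (· ≠ γ) = (colors x).filter (· ≠ γ)

/-- the witness condition for a task -/
def Wit (P : ℤ → Content) (N : ℕ) (w : Word) (n : ℕ) (ell : X) : Prop := ∀ q, lam q = n →
  (∃ y, Ev P N (w.dir true).atoms (BL ell q) y ∧ y < BL ell q) ∧
  (∃ y, Ev P N (w.dir false).atoms (BL ell q) y ∧ BL ell q < y) ∧
  (∃ y, Ev P N (w.dir true).atoms (BR ell q) y ∧ BR ell q < y) ∧
  (∃ y, Ev P N (w.dir false).atoms (BR ell q) y ∧ y < BR ell q)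

/-- valid parameters: `sc k` is the scale of task `k`, `rho k` its radius -/
structure ValidP (P : ℤ → Content) (sc rho : ℕ → ℕ) : Prop where
  mono : Monotone sc
  base : ∀ v : ℕ, P (-1 - (v : ℤ)) = .fix none (fun u => v ≤ u) cZero
  exec : ∀ j k b n z w r ell, P j = .exec k b n z w r ell → n = sc k ∧ col z = some (k, b) ∧
    2 ^ n + |site ell| + (w.length : ℤ) ≤ rho k ∧ rho k < 2 ^ (n + 1) ∧ ∃ N, Wit P N w n ell
  fix : ∀ j γ lev φ, P j = .fix γ lev φ → SuppU φ ∧ (γ = none → ∀ x, colors (φ x) = colors x) ∧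
    (∀ k b, γ = some (k, b) → (∀ v, lev v → cls (!b) (sc k) v) ∧ ColFilt γ φ)

theorem ValidP.wellP {P : ℤ → Content} {sc rho : ℕ → ℕ} (hP : ValidP P sc rho) : WellP P :=
  fun j γ lev φ h => (hP.fix j γ lev φ h).1

/-- the value of a word for given letter automorphisms; the first entry is applied first -/
def val (L : Letter → (X ≃o X)) : Word → (X ≃o X)
  | [] => 1
  | p :: w => val L w * pw (L p.1) p.2

/-- `L` is the action defined by the parameter `P` -/
def IsAct (P : ℤ → Content) (L : Letter → (X ≃o X)) : Prop :=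
  ∀ a d x y, (∃ N, Ev P N [.lt a d] x y) ↔ pw (L a) d x = y

/-- the action of a `fix` content -/
def globFun (lev : ℕ → Prop) (φ : X ≃o X) (x : X) : X :=
  if InU x ∧ lev (lam (site x)) then at_ φ (site x) x else x

/-- records of a colour sequence -/
def recs (d : ℕ → Bool) : ℕ → List Color → List ℕ
  | _, [] => []
  | th, none :: r => recs d th r
  | th, some (i, b) :: r => if th ≤ i ∧ b = d i then i :: recs d i r else recs d th r

/-- the safety condition of a context -/
def Safe (sc : ℕ → ℕ) (k : ℕ) (c : ℤ) (d : ℕ → Bool) : Prop :=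
  sc k + 1 ≤ lam c ∧ ∀ i, k ≤ i → sc i + 1 ≤ lam c → d i = decide (sc i + 2 ≤ lam c)

/-- the word that isolates the content `j` -/
def zpw (a : Letter) (j : ℤ) : Word := List.replicate j.natAbs (a, decide (0 ≤ j))

def encW (j : ℤ) : Word :=
  [(.bt, false)] ++ (zpw .sg j ++ [(.pi, false)] ++ zpw .sg (-j)) ++ [(.bt, true)] ++
    (zpw .sg j ++ [(.pi, true)] ++ zpw .sg (-j))

/-- the M-level group generated by om and the `C_v` -/
def TG : Subgroup CAut := Subgroup.closure ({omM} ∪ Set.range CM)

/-- a stage of the construction: tasks `< k` have been considered, contents with index `≥ J` are trivial -/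
structure Stage (P : ℤ → Content) (sc rho : ℕ → ℕ) (k J : ℕ) : Prop where
  valid : ValidP P sc rho
  triv : ∀ j : ℤ, (J : ℤ) ≤ j → P j = .none
  exec_lt : ∀ j k' b n z w r ell, P j = .exec k' b n z w r ell → k' < k ∧ Wit P J w n ell
  fix_lt : ∀ j k' b lev φ, P j = .fix (some (k', b)) lev φ → k' < k

end

end Pool.Agent.helper261_navas
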